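import Pool.Agent.K7.H95.GMC.Lln2

/-!
MP_55470d_pr (helper95): the joint characteristic function of the logarithms of the truncated
determinants.
-/

set_option autoImplicit false

open MeasureTheory Complex Filter Topology
open scoped ENNReal NNReal ComplexConjugate

namespace Pool.Agent.K7.H95.GMC

open Pool.Agent.R923.SE Pool.Agent.R923.SE.NX

noncomputable section

/-- the centred logarithm of the truncated determinant -/
def LS {n : ℕ} (a b : ℂ) : (m : ℕ) → (Fin m → E n) → ℝ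
  | 0, _ => 0
  | m + 1, w => LS a b m (Fin.init (α := fun _ => E n) w) +
      (Real.log (RR (QQ a b m (Fin.init (α := fun _ => E n) w)) (cx a b (w (Fin.last m)))) -
        lm (n - m))

lemma LS_sn {n m : ℕ} (a b : ℂ) (p : (Fin m → E n) × E n) :
    LS a b (m + 1) (sn p) = LS a b m p.1 +
      (Real.log (RR (QQ a b m p.1) (cx a b p.2)) - lm (n - m)) := by
  rw [LS, init_sn, last_sn]

/-- the bracket -/
def VS {n k : ℕ} (a b : Fin k → ℂ) (θ : Fin k → ℝ) : (m : ℕ) → (Fin m → E n) → ℝ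
  | 0, _ => 0
  | m + 1, w => VS a b θ m (Fin.init (α := fun _ => E n) w) +
      Vq (n - m) a b θ (fun i => QQ (a i) (b i) m (Fin.init (α := fun _ => E n) w))

lemma VS_sn {n k m : ℕ} (a b : Fin k → ℂ) (θ : Fin k → ℝ) (p : (Fin m → E n) × E n) :
    VS a b θ (m + 1) (sn p) = VS a b θ m p.1 +
      Vq (n - m) a b θ (fun i => QQ (a i) (b i) m p.1) := by
  rw [VS, init_sn]

lemma meas_LS {n : ℕ} (a b : ℂ) (m : ℕ) : Measurable (LS (n := n) a b m) := by
  induction m with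
  | zero =>
    have e : (LS a b 0 : (Fin 0 → E n) → ℝ) = fun _ => 0 := rfl
    rw [e]; exact measurable_const
  | succ m ih =>
    have h : Measurable (fun p : (Fin m → E n) × E n => LS a b m p.1 +
        (Real.log (RR (QQ a b m p.1) (cx a b p.2)) - lm (n - m))) :=
      (ih.comp measurable_fst).add ((meas_Rn a b m).log.sub measurable_const)
    exact h.comp meas_init

lemma meas_Vq {n k : ℕ} (a b : Fin k → ℂ) (θ : Fin k → ℝ) (m r : ℕ) :
    Measurable fun w : Fin m → E n => Vq r a b θ (fun i => QQ (a i) (b i) m w) := by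
  unfold Vq
  refine Finset.measurable_fun_sum _ fun i _ => Finset.measurable_fun_sum _ fun j _ => ?_
  exact (((meas_tq (a i) (b i) (a j) (b j) m).const_mul _).div_const _).const_mul _

lemma meas_VS {n k : ℕ} (a b : Fin k → ℂ) (θ : Fin k → ℝ) (m : ℕ) :
    Measurable (VS (n := n) a b θ m) := by
  induction m with
  | zero =>
    have e : (VS a b θ 0 : (Fin 0 → E n) → ℝ) = fun _ => 0 := rfl
    rw [e]; exact measurable_const
  | succ m ih =>
    have h : Measurable (fun p : (Fin m → E n) × E n => VS a b θ m p.1 +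
        Vq (n - m) a b θ (fun i => QQ (a i) (b i) m p.1)) :=
      (ih.comp measurable_fst).add ((meas_Vq a b θ m (n - m)).comp measurable_fst)
    exact h.comp meas_init

/-- total weight -/
def TH {k : ℕ} (θ : Fin k → ℝ) : ℝ := ∑ i, ∑ j, |θ i| * |θ j|

lemma TH_nonneg {k : ℕ} (θ : Fin k → ℝ) : 0 ≤ TH θ :=
  Finset.sum_nonneg fun i _ => Finset.sum_nonneg fun j _ => by positivity

lemma sg_sq_le {a b a' b' : ℂ} (hab : ‖a‖ ^ 2 + ‖b‖ ^ 2 = 1) (hab' : ‖a'‖ ^ 2 + ‖b'‖ ^ 2 = 1) :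
    ‖sg a b a' b'‖ ^ 2 ≤ 1 := by
  have := sg_tu hab hab'
  nlinarith [sq_nonneg ‖tu a b a' b'‖]

lemma Vq_nonneg {n k r : ℕ} (hr : 0 < r) {Q : Fin k → Matrix (Fin n) (Fin n) ℂ}
    (hQ : ∀ i, PQ n r (Q i)) {a b : Fin k → ℂ} (hab : ∀ i, ‖a i‖ ^ 2 + ‖b i‖ ^ 2 = 1)
    (θ : Fin k → ℝ) : 0 ≤ Vq r a b θ Q := by
  have h : Vq r a b θ Q = ∫ e : E n, (∑ i, θ i * (RR (Q i) (cx (a i) (b i) e) / r - 1)) ^ 2 ∂gE n := by
    have e : (fun e : E n => (∑ i, θ i * (RR (Q i) (cx (a i) (b i) e) / r - 1)) ^ 2) =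
        fun e => ∑ i, ∑ j, θ i * θ j *
      ((RR (Q i) (cx (a i) (b i) e) / r - 1) * (RR (Q j) (cx (a j) (b j) e) / r - 1)) := by
      funext e
      rw [sq, Finset.sum_mul_sum]
      refine Finset.sum_congr rfl fun i _ => Finset.sum_congr rfl fun j _ => ?_
      ring
    rw [e, integral_finsetSum _ fun i _ => integrable_finsetSum _ fun j _ =>
      (uu hr (hQ i) (hQ j) (hab i) (hab j)).1.const_mul _]
    unfold Vq
    refine Finset.sum_congr rfl fun i _ => ?_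
    rw [integral_finsetSum _ fun j _ => (uu hr (hQ i) (hQ j) (hab i) (hab j)).1.const_mul _]
    refine Finset.sum_congr rfl fun j _ => ?_
    rw [integral_const_mul, (uu hr (hQ i) (hQ j) (hab i) (hab j)).2]
  rw [h]
  exact integral_nonneg fun _ => sq_nonneg _

lemma Vq_le {n k r : ℕ} (hr : 0 < r) {Q : Fin k → Matrix (Fin n) (Fin n) ℂ}
    (hQ : ∀ i, PQ n r (Q i)) {a b : Fin k → ℂ} (hab : ∀ i, ‖a i‖ ^ 2 + ‖b i‖ ^ 2 = 1)
    (θ : Fin k → ℝ) : Vq r a b θ Q ≤ TH θ / r := by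
  have hr' : (0 : ℝ) < r := by exact_mod_cast hr
  unfold Vq TH
  rw [Finset.sum_div]
  refine Finset.sum_le_sum fun i _ => ?_
  rw [Finset.sum_div]
  refine Finset.sum_le_sum fun j _ => ?_
  have h1 : θ i * θ j ≤ |θ i| * |θ j| := by rw [← abs_mul]; exact le_abs_self _
  have h2 : 0 ≤ ‖sg (a i) (b i) (a j) (b j)‖ ^ 2 * (Q i * Q j).trace.re / (r : ℝ) ^ 2 := by
    have := tq_nonneg (hQ i) (hQ j)
    unfold tq at this
    positivity
  have h3 : ‖sg (a i) (b i) (a j) (b j)‖ ^ 2 * (Q i * Q j).trace.re / (r : ℝ) ^ 2 ≤ 1 / r := by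
    rw [div_le_div_iff₀ (by positivity) hr']
    have k1 := tq_le hr (hQ i) (hQ j)
    have k2 := tq_nonneg (hQ i) (hQ j)
    have k3 := sg_sq_le (hab i) (hab j)
    unfold tq at k1 k2
    have k4 : ‖sg (a i) (b i) (a j) (b j)‖ ^ 2 * (Q i * Q j).trace.re ≤ r := by nlinarith
    nlinarith
  calc θ i * θ j * (‖sg (a i) (b i) (a j) (b j)‖ ^ 2 * (Q i * Q j).trace.re / (r : ℝ) ^ 2)
      ≤ |θ i| * |θ j| * (‖sg (a i) (b i) (a j) (b j)‖ ^ 2 * (Q i * Q j).trace.re / (r : ℝ) ^ 2) :=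
        mul_le_mul_of_nonneg_right h1 h2
    _ ≤ |θ i| * |θ j| * (1 / r) := mul_le_mul_of_nonneg_left h3 (by positivity)
    _ = |θ i| * |θ j| / r := by ring

/-- the constant of the telescoping -/
def Kθ {k : ℕ} (θ : Fin k → ℝ) : ℝ := Real.exp (TH θ / 2) * (TH θ ^ 2 / 4 + Cθ θ)

lemma Kθ_nonneg {k : ℕ} (θ : Fin k → ℝ) : 0 ≤ Kθ θ := by
  unfold Kθ
  have := Cθ_nonneg θ
  positivity

lemma one_tilt {n k r : ℕ} (hr : 3 ≤ r) {Q : Fin k → Matrix (Fin n) (Fin n) ℂ}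
    (hQ : ∀ i, PQ n r (Q i)) {a b : Fin k → ℂ} (hab : ∀ i, ‖a i‖ ^ 2 + ‖b i‖ ^ 2 = 1)
    (θ : Fin k → ℝ) :
    ‖(∫ e : E n, cexp (((∑ i, θ i * (Real.log (RR (Q i) (cx (a i) (b i) e)) - lm r) : ℝ) : ℂ) * I)
      ∂gE n) * cexp (((Vq r a b θ Q / 2 : ℝ) : ℂ)) - 1‖ ≤ Kθ θ / (r * √r) := by
  have hr0 : 0 < r := by omega
  have hr' : (0 : ℝ) < r := by exact_mod_cast hr0
  have hr1 : (1 : ℝ) ≤ r := by exact_mod_cast (by omega : 1 ≤ r)
  have hs : (0 : ℝ) < √r := Real.sqrt_pos.mpr hr'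
  have h1 := one_cf hr hQ hab θ
  set z := ∫ e : E n, cexp (((∑ i, θ i * (Real.log (RR (Q i) (cx (a i) (b i) e)) - lm r) : ℝ) : ℂ) * I)
      ∂gE n with hz
  set x : ℝ := Vq r a b θ Q / 2 with hx
  have hx0 : 0 ≤ x := by have := Vq_nonneg hr0 hQ hab θ; positivity
  have hx1 : x ≤ TH θ / (2 * r) := by
    have := Vq_le hr0 hQ hab θ
    have e : TH θ / (2 * (r : ℝ)) = (TH θ / r) / 2 := by field_simp
    rw [e, hx]
    linarith
  have hT := TH_nonneg θ
  have hx2 : x ≤ TH θ / 2 := by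
    refine hx1.trans ?_
    apply div_le_div_of_nonneg_left hT (by norm_num)
    linarith
  have e1 : z * cexp ((x : ℝ) : ℂ) - 1 = cexp ((x : ℝ) : ℂ) * (z - (1 - ((Vq r a b θ Q : ℝ) : ℂ) / 2)) +
      (((Real.exp x * (1 - x) - 1 : ℝ)) : ℂ) := by
    have e2 : ((Vq r a b θ Q : ℝ) : ℂ) / 2 = ((x : ℝ) : ℂ) := by rw [hx]; push_cast; rfl
    rw [e2]
    push_cast
    ring
  rw [e1]
  have h2 : ‖cexp ((x : ℝ) : ℂ) * (z - (1 - ((Vq r a b θ Q : ℝ) : ℂ) / 2))‖ ≤
      Real.exp (TH θ / 2) * (Cθ θ / (r * √r)) := by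
    rw [norm_mul, ← Complex.ofReal_exp, Complex.norm_real, Real.norm_of_nonneg (Real.exp_pos _).le]
    exact mul_le_mul (Real.exp_le_exp.2 hx2) h1 (norm_nonneg _) (Real.exp_pos _).le
  have h3 : ‖(((Real.exp x * (1 - x) - 1 : ℝ)) : ℂ)‖ ≤ Real.exp x * x ^ 2 := by
    rw [Complex.norm_real, Real.norm_eq_abs, abs_le]
    have h4 : 1 + x ≤ Real.exp x := by linarith [Real.add_one_le_exp x]
    have h5 : Real.exp x * (1 - x) ≤ 1 := by
      have h6 : 1 - x ≤ Real.exp (-x) := by linarith [Real.add_one_le_exp (-x)]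
      calc Real.exp x * (1 - x) ≤ Real.exp x * Real.exp (-x) :=
            mul_le_mul_of_nonneg_left h6 (Real.exp_pos _).le
        _ = 1 := by rw [← Real.exp_add]; simp
    have h7 : 1 ≤ Real.exp x * (1 - x + x ^ 2) := by
      have h8 : (0 : ℝ) ≤ 1 - x + x ^ 2 := by nlinarith [sq_nonneg (x - 1)]
      calc (1 : ℝ) ≤ (1 + x) * (1 - x + x ^ 2) := by
            have : (1 + x) * (1 - x + x ^ 2) = 1 + x ^ 3 := by ring
            rw [this]; have := pow_nonneg hx0 3; linarith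
        _ ≤ _ := mul_le_mul_of_nonneg_right h4 h8
    have h9 : 0 ≤ Real.exp x * x ^ 2 := by positivity
    constructor
    · nlinarith
    · linarith
  have h4 : Real.exp x * x ^ 2 ≤ Real.exp (TH θ / 2) * (TH θ ^ 2 / 4 / (r * √r)) := by
    have h5 : x ^ 2 ≤ TH θ ^ 2 / 4 / (r * √r) := by
      have h6 : x ^ 2 ≤ (TH θ / (2 * r)) ^ 2 := pow_le_pow_left₀ hx0 hx1 2
      have h7 : (TH θ / (2 * (r : ℝ))) ^ 2 = TH θ ^ 2 / 4 / (r * r) := by
        field_simp
        ring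
      rw [h7] at h6
      refine h6.trans ?_
      apply div_le_div_of_nonneg_left (by positivity) (by positivity)
      exact mul_le_mul_of_nonneg_left (sqrt_le_nat hr0) hr'.le
    exact mul_le_mul (Real.exp_le_exp.2 hx2) h5 (sq_nonneg _) (Real.exp_pos _).le
  have e3 : Kθ θ / (r * √r) = Real.exp (TH θ / 2) * (Cθ θ / (r * √r)) +
      Real.exp (TH θ / 2) * (TH θ ^ 2 / 4 / (r * √r)) := by
    unfold Kθ; ring
  rw [e3]
  exact (norm_add_le _ _).trans (add_le_add h2 (h3.trans h4))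

/-! ### the telescoping -/

/-- the weighted sum of centred logarithms -/
def SL {n k : ℕ} (a b : Fin k → ℂ) (θ : Fin k → ℝ) (m : ℕ) (w : Fin m → E n) : ℝ :=
  ∑ i, θ i * LS (a i) (b i) m w

lemma meas_SL {n k : ℕ} (a b : Fin k → ℂ) (θ : Fin k → ℝ) (m : ℕ) :
    Measurable (SL (n := n) a b θ m) := by
  unfold SL
  exact Finset.measurable_fun_sum _ fun i _ => (meas_LS (a i) (b i) m).const_mul _

lemma SL_sn {n k m : ℕ} (a b : Fin k → ℂ) (θ : Fin k → ℝ) (p : (Fin m → E n) × E n) :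
    SL a b θ (m + 1) (sn p) = SL a b θ m p.1 +
      ∑ i, θ i * (Real.log (RR (QQ (a i) (b i) m p.1) (cx (a i) (b i) p.2)) - lm (n - m)) := by
  unfold SL
  rw [← Finset.sum_add_distrib]
  refine Finset.sum_congr rfl fun i _ => ?_
  rw [LS_sn]
  ring

lemma ae_all {n k : ℕ} {a b : Fin k → ℂ} (hab : ∀ i, ‖a i‖ ^ 2 + ‖b i‖ ^ 2 = 1) (m : ℕ)
    (hm : m ≤ n) : ∀ᵐ w ∂PP n m, ∀ i, PQ n (n - m) (QQ (a i) (b i) m w) :=
  ae_all_iff.2 fun i => ae_PQ (hab i) m hm

/-- transfer of almost sure statements -/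
lemma ae_sn {n m : ℕ} {p : (Fin (m + 1) → E n) → Prop} (hp : MeasurableSet {w | p w})
    (h : ∀ᵐ x ∂(PP n m).prod (gE n), p (sn x)) : ∀ᵐ w ∂PP n (m + 1), p w := by
  rw [← (mp_sn n m).map_eq, ae_map_iff (mp_sn n m).measurable.aemeasurable hp]
  exact h

lemma VS_bd {n k : ℕ} {a b : Fin k → ℂ} (hab : ∀ i, ‖a i‖ ^ 2 + ‖b i‖ ^ 2 = 1)
    (θ : Fin k → ℝ) {δ : ℝ} (hδ : 0 < δ) (m : ℕ) (hm : m < n) (hmδ : δ * n ≤ (n : ℝ) - m) :
    ∀ᵐ w ∂PP n m, 0 ≤ VS a b θ m w ∧ VS a b θ m w ≤ m * (TH θ / (δ * n)) := by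
  have hn : (0 : ℝ) < n := by exact_mod_cast (by omega : 0 < n)
  induction m with
  | zero =>
    refine Eventually.of_forall fun w => ?_
    simp [VS]
  | succ m ih =>
    have hmδ' : δ * n ≤ (n : ℝ) - m := by push_cast at hmδ; linarith
    have ih' := ih (by omega) hmδ'
    refine ae_sn ?_ ?_
    · exact (measurableSet_le measurable_const (meas_VS a b θ (m + 1))).inter
        (measurableSet_le (meas_VS a b θ (m + 1)) measurable_const)
    · have h1 : ∀ᵐ x ∂(PP n m).prod (gE n), 0 ≤ VS a b θ m x.1 ∧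
          VS a b θ m x.1 ≤ m * (TH θ / (δ * n)) :=
        (Measure.quasiMeasurePreserving_fst).ae ih'
      have h2 : ∀ᵐ x ∂(PP n m).prod (gE n), ∀ i, PQ n (n - m) (QQ (a i) (b i) m x.1) :=
        (Measure.quasiMeasurePreserving_fst).ae (ae_all hab m (by omega))
      filter_upwards [h1, h2] with x hx hx2
      rw [VS_sn]
      have h3 := Vq_nonneg (by omega : 0 < n - m) hx2 hab θ
      have h4 := Vq_le (by omega : 0 < n - m) hx2 hab θ
      have h5 : TH θ / ((n - m : ℕ) : ℝ) ≤ TH θ / (δ * n) := by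
        apply div_le_div_of_nonneg_left (TH_nonneg θ) (by positivity)
        rw [Nat.cast_sub (by omega)]
        exact hmδ'
      constructor
      · linarith [hx.1]
      · push_cast
        have := hx.2
        linarith

end

end Pool.Agent.K7.H95.GMC
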