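import Pool.Agent.K7.H95.GMC.Cf

/-!
MP_55470d_pr (helper95): the joint characteristic function of the logarithms of the truncated
determinants, II: telescoping.
-/

set_option autoImplicit false

open MeasureTheory Complex Filter Topology
open scoped ENNReal NNReal ComplexConjugate

namespace Pool.Agent.K7.H95.GMC

open Pool.Agent.R923.SE Pool.Agent.R923.SE.NX

noncomputable section

/-- the tilted exponential -/
def tf {n k : ℕ} (a b : Fin k → ℂ) (θ : Fin k → ℝ) (m : ℕ) (w : Fin m → E n) : ℂ :=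
  cexp (((SL a b θ m w : ℝ) : ℂ) * I) * cexp (((VS a b θ m w / 2 : ℝ) : ℂ))

lemma meas_tf {n k : ℕ} (a b : Fin k → ℂ) (θ : Fin k → ℝ) (m : ℕ) :
    Measurable (tf (n := n) a b θ m) := by
  unfold tf
  have h1 := meas_SL (n := n) a b θ m
  have h2 := meas_VS (n := n) a b θ m
  fun_prop

lemma norm_tf {n k : ℕ} (a b : Fin k → ℂ) (θ : Fin k → ℝ) (m : ℕ) (w : Fin m → E n) :
    ‖tf a b θ m w‖ = Real.exp (VS a b θ m w / 2) := by
  unfold tf
  rw [norm_mul, Complex.norm_exp_ofReal_mul_I, one_mul, ← Complex.ofReal_exp, Complex.norm_real,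
    Real.norm_of_nonneg (Real.exp_pos _).le]

lemma tf_bd {n k : ℕ} {a b : Fin k → ℂ} (hab : ∀ i, ‖a i‖ ^ 2 + ‖b i‖ ^ 2 = 1)
    (θ : Fin k → ℝ) {δ : ℝ} (hδ : 0 < δ) (m : ℕ) (hm : m < n) (hmδ : δ * n ≤ (n : ℝ) - m) :
    ∀ᵐ w ∂PP n m, ‖tf a b θ m w‖ ≤ Real.exp (TH θ / (2 * δ)) := by
  have hn : (0 : ℝ) < n := by exact_mod_cast (by omega : 0 < n)
  have hmn : (m : ℝ) ≤ n := by exact_mod_cast hm.le
  filter_upwards [VS_bd hab θ hδ m hm hmδ] with w hw
  rw [norm_tf]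
  apply Real.exp_le_exp.2
  have h1 : (m : ℝ) * (TH θ / (δ * n)) ≤ TH θ / δ := by
    have e : TH θ / δ = n * (TH θ / (δ * n)) := by field_simp
    rw [e]
    have := TH_nonneg θ
    exact mul_le_mul_of_nonneg_right hmn (by positivity)
  have e2 : TH θ / (2 * δ) = TH θ / δ / 2 := by field_simp
  rw [e2]
  linarith [hw.2]

lemma tf_int {n k : ℕ} {a b : Fin k → ℂ} (hab : ∀ i, ‖a i‖ ^ 2 + ‖b i‖ ^ 2 = 1)
    (θ : Fin k → ℝ) {δ : ℝ} (hδ : 0 < δ) (m : ℕ) (hm : m < n) (hmδ : δ * n ≤ (n : ℝ) - m) :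
    Integrable (tf (n := n) a b θ m) (PP n m) :=
  Integrable.of_bound (meas_tf a b θ m).aestronglyMeasurable _ (tf_bd hab θ hδ m hm hmδ)

lemma tf_sn {n k m : ℕ} (a b : Fin k → ℂ) (θ : Fin k → ℝ) (w : Fin m → E n) (e : E n) :
    tf a b θ (m + 1) (sn (w, e)) = tf a b θ m w * (
      cexp (((∑ i, θ i * (Real.log (RR (QQ (a i) (b i) m w) (cx (a i) (b i) e)) - lm (n - m)) : ℝ)
        : ℂ) * I) *
      cexp (((Vq (n - m) a b θ (fun i => QQ (a i) (b i) m w) / 2 : ℝ) : ℂ))) := by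
  unfold tf
  rw [SL_sn, VS_sn]
  simp only []
  rw [Complex.ofReal_add, add_mul, Complex.exp_add, add_div, Complex.ofReal_add, Complex.exp_add]
  ring

lemma tf_step {n k : ℕ} {a b : Fin k → ℂ} (hab : ∀ i, ‖a i‖ ^ 2 + ‖b i‖ ^ 2 = 1)
    (θ : Fin k → ℝ) {δ : ℝ} (hδ : 0 < δ) (m : ℕ) (hm : m + 3 ≤ n)
    (hmδ : δ * n ≤ (n : ℝ) - (m + 1 : ℕ)) :
    ‖∫ w, tf a b θ (m + 1) w ∂PP n (m + 1) - ∫ w, tf a b θ m w ∂PP n m‖ ≤
      Real.exp (TH θ / (2 * δ)) * (Kθ θ / ((δ * n) * √(δ * n))) := by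
  have hn : (0 : ℝ) < n := by exact_mod_cast (by omega : 0 < n)
  have hmδ' : δ * n ≤ (n : ℝ) - m := by push_cast at hmδ; linarith
  have i1 := tf_int hab θ hδ (m + 1) (by omega) hmδ
  have i2 := tf_int hab θ hδ m (by omega) hmδ'
  obtain ⟨i3, e3⟩ := int_sn i1
  have e4 : ∀ w : Fin m → E n, ∫ e, tf a b θ (m + 1) (sn (w, e)) ∂gE n = tf a b θ m w * (
      (∫ e, cexp (((∑ i, θ i * (Real.log (RR (QQ (a i) (b i) m w) (cx (a i) (b i) e)) -
        lm (n - m)) : ℝ) : ℂ) * I) ∂gE n) *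
      cexp (((Vq (n - m) a b θ (fun i => QQ (a i) (b i) m w) / 2 : ℝ) : ℂ))) := by
    intro w
    rw [← integral_mul_const, ← integral_const_mul]
    refine integral_congr_ae (Eventually.of_forall fun e => ?_)
    exact tf_sn a b θ w e
  have i5 : Integrable (fun w : Fin m → E n => ∫ e, tf a b θ (m + 1) (sn (w, e)) ∂gE n) (PP n m) :=
    i3.integral_prod_left
  rw [e3, ← integral_sub i5 i2]
  have h6 : ∀ᵐ w ∂PP n m, ‖∫ e, tf a b θ (m + 1) (sn (w, e)) ∂gE n - tf a b θ m w‖ ≤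
      Real.exp (TH θ / (2 * δ)) * (Kθ θ / ((δ * n) * √(δ * n))) := by
    filter_upwards [tf_bd hab θ hδ m (by omega) hmδ', ae_all hab m (by omega)] with w hw hQ
    rw [e4 w]
    have e7 : ∀ (z y : ℂ), z * y - z = z * (y - 1) := fun z y => by ring
    rw [e7, norm_mul]
    have h8 := one_tilt (by omega : 3 ≤ n - m) hQ hab θ
    have h9 : Kθ θ / (((n - m : ℕ) : ℝ) * √((n - m : ℕ) : ℝ)) ≤ Kθ θ / ((δ * n) * √(δ * n)) := by
      have h10 : δ * n ≤ ((n - m : ℕ) : ℝ) := by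
        rw [Nat.cast_sub (by omega)]; exact hmδ'
      apply div_le_div_of_nonneg_left (Kθ_nonneg θ) (by positivity)
      exact mul_le_mul h10 (Real.sqrt_le_sqrt h10) (Real.sqrt_nonneg _) (by positivity)
    exact mul_le_mul hw (h8.trans h9) (norm_nonneg _) (Real.exp_pos _).le
  have := norm_integral_le_of_norm_le_const h6
  simpa using this

lemma tf_tel {n k : ℕ} {a b : Fin k → ℂ} (hab : ∀ i, ‖a i‖ ^ 2 + ‖b i‖ ^ 2 = 1)
    (θ : Fin k → ℝ) {δ : ℝ} (hδ : 0 < δ) (m : ℕ) (hm : m + 2 ≤ n)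
    (hmδ : δ * n ≤ (n : ℝ) - m) :
    ‖∫ w, tf a b θ m w ∂PP n m - 1‖ ≤
      m * (Real.exp (TH θ / (2 * δ)) * (Kθ θ / ((δ * n) * √(δ * n)))) := by
  induction m with
  | zero =>
    have h : (∫ w, tf (n := n) a b θ 0 w ∂PP n 0) = 1 := by
      have e : (fun w : Fin 0 → E n => tf a b θ 0 w) = fun _ => 1 := by
        funext w
        simp [tf, SL, LS, VS]
      rw [e]
      simp
    rw [h]
    simp
  | succ m ih =>
    have hmδ' : δ * n ≤ (n : ℝ) - m := by push_cast at hmδ; linarith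
    have h1 := ih (by omega) hmδ'
    have h2 := tf_step hab θ hδ m (by omega) hmδ
    have e : (∫ w, tf (n := n) a b θ (m + 1) w ∂PP n (m + 1)) - 1 =
        ((∫ w, tf (n := n) a b θ (m + 1) w ∂PP n (m + 1)) - ∫ w, tf (n := n) a b θ m w ∂PP n m) +
        ((∫ w, tf (n := n) a b θ m w ∂PP n m) - 1) := by ring
    rw [e]
    refine (norm_add_le _ _).trans ?_
    push_cast
    linarith

/-- the deterministic bracket -/
def vm {k : ℕ} (n : ℕ) (a b : Fin k → ℂ) (θ : Fin k → ℝ) (m : ℕ) : ℝ :=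
  ∑ j ∈ Finset.range m, ∑ i, ∑ l, θ i * θ l * (‖sg (a i) (b i) (a l) (b l)‖ ^ 2 *
    fs n (‖sg (a i) (b i) (a l) (b l)‖ ^ 2) ((n : ℝ) - j) / ((n : ℝ) - j) ^ 2)

lemma vq_diff {n k m : ℕ} {a b : Fin k → ℂ} (hab : ∀ i, ‖a i‖ ^ 2 + ‖b i‖ ^ 2 = 1)
    (θ : Fin k → ℝ) {δ : ℝ} (hδ : 0 < δ) (hδ1 : δ ≤ 1) (hm : m + 2 ≤ n)
    (hmδ : δ * n ≤ (n : ℝ) - m) :
    Integrable (fun w : Fin m → E n => |Vq (n - m) a b θ (fun i => QQ (a i) (b i) m w) -
      ∑ i, ∑ l, θ i * θ l * (‖sg (a i) (b i) (a l) (b l)‖ ^ 2 *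
      fs n (‖sg (a i) (b i) (a l) (b l)‖ ^ 2) ((n : ℝ) - m) / ((n : ℝ) - m) ^ 2)|) (PP n m) ∧
    ∫ w, |Vq (n - m) a b θ (fun i => QQ (a i) (b i) m w) -
      ∑ i, ∑ l, θ i * θ l * (‖sg (a i) (b i) (a l) (b l)‖ ^ 2 *
      fs n (‖sg (a i) (b i) (a l) (b l)‖ ^ 2) ((n : ℝ) - m) / ((n : ℝ) - m) ^ 2)| ∂PP n m ≤
      TH θ * (√(1100 * n / δ) / (δ * n) ^ 2) := by
  have hn : (0 : ℝ) < n := by exact_mod_cast (by omega : 0 < n)
  have hmn : (m : ℝ) ≤ n := by exact_mod_cast (by omega : m ≤ n)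
  set r : ℝ := (n : ℝ) - m with hr
  have hrc : ((n - m : ℕ) : ℝ) = r := by rw [Nat.cast_sub (by omega)]
  have hr0 : 0 < r := lt_of_lt_of_le (by positivity) hmδ
  set X : Fin k → Fin k → (Fin m → E n) → ℝ := fun i l w =>
    tq (QQ (a i) (b i) m w) (QQ (a l) (b l) m w) - fs n (‖sg (a i) (b i) (a l) (b l)‖ ^ 2) r with hX
  have mX : ∀ i l, Measurable (X i l) := fun i l =>
    (meas_tq (a i) (b i) (a l) (b l) m).sub measurable_const
  have iX2 : ∀ i l, Integrable (fun w => X i l w ^ 2) (PP n m) := fun i l =>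
    (tq_int (hab i) (hab l) (by omega)).2
  have iX : ∀ i l, Integrable (fun w => |X i l w|) (PP n m) := fun i l =>
    (int_of_sq (mX i l).aestronglyMeasurable (iX2 i l)).abs
  set c : ℝ := √(1100 * n / δ) with hc
  have hc0 : 0 < c := Real.sqrt_pos.mpr (by positivity)
  have hc2 : c ^ 2 = 1100 * n / δ := Real.sq_sqrt (by positivity)
  have bX : ∀ i l, ∫ w, |X i l w| ∂PP n m ≤ c := by
    intro i l
    have h1 := lln (hab i) (hab l) hδ hδ1 m hm hmδ
    have h2 : ∫ w, X i l w ^ 2 ∂PP n m ≤ c ^ 2 := by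
      refine h1.trans ?_
      rw [hc2]
      gcongr
    have h3 : ∫ w, |X i l w| ∂PP n m ≤ ∫ w, (X i l w ^ 2 / (2 * c) + c / 2) ∂PP n m := by
      refine integral_mono (iX i l) (((iX2 i l).div_const _).add (integrable_const _)) fun w => ?_
      show |X i l w| ≤ X i l w ^ 2 / (2 * c) + c / 2
      have h4 : X i l w ^ 2 / (2 * c) + c / 2 - |X i l w| = (|X i l w| - c) ^ 2 / (2 * c) := by
        rw [← sq_abs (X i l w)]
        field_simp
        ring
      have h5 : 0 ≤ (|X i l w| - c) ^ 2 / (2 * c) := by positivity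
      linarith
    have i4 : Integrable (fun w => X i l w ^ 2 / (2 * c)) (PP n m) := (iX2 i l).div_const _
    rw [integral_add i4 (integrable_const _), integral_div, integral_const] at h3
    simp only [probReal_univ, smul_eq_mul, one_mul] at h3
    refine h3.trans ?_
    have h6 : (∫ w, X i l w ^ 2 ∂PP n m) / (2 * c) ≤ c ^ 2 / (2 * c) :=
      div_le_div_of_nonneg_right h2 (by positivity)
    have h7 : c ^ 2 / (2 * c) = c / 2 := by field_simp
    linarith
  set D : (Fin m → E n) → ℝ := fun w => Vq (n - m) a b θ (fun i => QQ (a i) (b i) m w) -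
      ∑ i, ∑ l, θ i * θ l * (‖sg (a i) (b i) (a l) (b l)‖ ^ 2 *
      fs n (‖sg (a i) (b i) (a l) (b l)‖ ^ 2) r / r ^ 2) with hD
  have eD : ∀ w, D w = ∑ i, ∑ l, θ i * θ l * (‖sg (a i) (b i) (a l) (b l)‖ ^ 2 / r ^ 2 * X i l w) := by
    intro w
    simp only [hD, Vq, hX]
    rw [← Finset.sum_sub_distrib]
    refine Finset.sum_congr rfl fun i _ => ?_
    rw [← Finset.sum_sub_distrib]
    refine Finset.sum_congr rfl fun l _ => ?_
    unfold tq
    rw [hrc]
    ring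
  have bD : ∀ w, |D w| ≤ ∑ i, ∑ l, |θ i| * |θ l| * (1 / (δ * n) ^ 2 * |X i l w|) := by
    intro w
    rw [eD]
    refine (Finset.abs_sum_le_sum_abs _ _).trans (Finset.sum_le_sum fun i _ => ?_)
    refine (Finset.abs_sum_le_sum_abs _ _).trans (Finset.sum_le_sum fun l _ => ?_)
    rw [abs_mul, abs_mul, abs_mul]
    refine mul_le_mul_of_nonneg_left ?_ (by positivity)
    refine mul_le_mul_of_nonneg_right ?_ (abs_nonneg _)
    rw [abs_of_nonneg (by positivity)]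
    have h1 := sg_sq_le (hab i) (hab l)
    rw [div_le_div_iff₀ (by positivity) (by positivity)]
    have h2 : (δ * n) ^ 2 ≤ r ^ 2 := pow_le_pow_left₀ (by positivity) hmδ 2
    nlinarith [sq_nonneg (δ * n)]
  have mD : Measurable D := (meas_Vq a b θ m (n - m)).sub measurable_const
  have iS : Integrable (fun w => ∑ i, ∑ l, |θ i| * |θ l| * (1 / (δ * n) ^ 2 * |X i l w|)) (PP n m) :=
    integrable_finsetSum _ fun i _ => integrable_finsetSum _ fun l _ =>
      ((iX i l).const_mul _).const_mul _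
  have iD : Integrable (fun w => |D w|) (PP n m) := by
    refine iS.mono' mD.norm.aestronglyMeasurable (Eventually.of_forall fun w => ?_)
    rw [Real.norm_eq_abs, abs_abs]
    exact bD w
  refine ⟨iD, ?_⟩
  refine (integral_mono iD iS bD).trans ?_
  rw [integral_finsetSum _ fun i _ => integrable_finsetSum _ fun l _ =>
      ((iX i l).const_mul _).const_mul _]
  unfold TH
  rw [Finset.sum_mul]
  refine Finset.sum_le_sum fun i _ => ?_
  rw [integral_finsetSum _ fun l _ => ((iX i l).const_mul _).const_mul _, Finset.sum_mul]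
  refine Finset.sum_le_sum fun l _ => ?_
  rw [integral_const_mul, integral_const_mul]
  refine mul_le_mul_of_nonneg_left ?_ (by positivity)
  rw [one_div, mul_comm, ← div_eq_mul_inv]
  exact div_le_div_of_nonneg_right (bX i l) (by positivity)

lemma VS_diff {n k : ℕ} {a b : Fin k → ℂ} (hab : ∀ i, ‖a i‖ ^ 2 + ‖b i‖ ^ 2 = 1)
    (θ : Fin k → ℝ) {δ : ℝ} (hδ : 0 < δ) (hδ1 : δ ≤ 1) (m : ℕ) (hm : m + 1 ≤ n)
    (hmδ : δ * n ≤ (n : ℝ) - m) :
    Integrable (fun w : Fin m → E n => |VS a b θ m w - vm n a b θ m|) (PP n m) ∧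
    ∫ w, |VS a b θ m w - vm n a b θ m| ∂PP n m ≤
      m * (TH θ * (√(1100 * n / δ) / (δ * n) ^ 2)) := by
  induction m with
  | zero =>
    have e : (fun w : Fin 0 → E n => |VS a b θ 0 w - vm n a b θ 0|) = fun _ => 0 := by
      funext w; simp [VS, vm]
    rw [e]
    simp
  | succ m ih =>
    have hmδ' : δ * n ≤ (n : ℝ) - m := by push_cast at hmδ; linarith
    obtain ⟨i1, b1⟩ := ih (by omega) hmδ'
    obtain ⟨i2, b2⟩ := vq_diff hab θ hδ hδ1 (m := m) (by omega) hmδ'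
    set D : (Fin m → E n) → ℝ := fun w => Vq (n - m) a b θ (fun i => QQ (a i) (b i) m w) -
      ∑ i, ∑ l, θ i * θ l * (‖sg (a i) (b i) (a l) (b l)‖ ^ 2 *
      fs n (‖sg (a i) (b i) (a l) (b l)‖ ^ 2) ((n : ℝ) - m) / ((n : ℝ) - m) ^ 2) with hD
    have i12 : Integrable (fun w : Fin m → E n => |VS a b θ m w - vm n a b θ m| + |D w|)
        (PP n m) := i1.add i2
    have hb : ∀ w : Fin m → E n, ∀ e : E n,
        |VS a b θ (m + 1) (sn (w, e)) - vm n a b θ (m + 1)| ≤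
        |VS a b θ m w - vm n a b θ m| + |D w| := by
      intro w e
      rw [VS_sn]
      have e1 : vm n a b θ (m + 1) = vm n a b θ m + ∑ i, ∑ l, θ i * θ l *
          (‖sg (a i) (b i) (a l) (b l)‖ ^ 2 *
          fs n (‖sg (a i) (b i) (a l) (b l)‖ ^ 2) ((n : ℝ) - m) / ((n : ℝ) - m) ^ 2) := by
        unfold vm
        rw [Finset.sum_range_succ]
      rw [e1]
      have e2 : VS a b θ m w + Vq (n - m) a b θ (fun i => QQ (a i) (b i) m w) -
          (vm n a b θ m + ∑ i, ∑ l, θ i * θ l * (‖sg (a i) (b i) (a l) (b l)‖ ^ 2 *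
          fs n (‖sg (a i) (b i) (a l) (b l)‖ ^ 2) ((n : ℝ) - m) / ((n : ℝ) - m) ^ 2)) =
          (VS a b θ m w - vm n a b θ m) + D w := by rw [hD]; ring
      simp only [] at e2 ⊢
      rw [e2]
      exact abs_add_le _ _
    have mV : Measurable (fun w : Fin (m + 1) → E n => |VS a b θ (m + 1) w - vm n a b θ (m + 1)|) :=
      ((meas_VS a b θ (m + 1)).sub measurable_const).norm
    have i3 : Integrable (fun p : (Fin m → E n) × E n =>
        |VS a b θ (m + 1) (sn p) - vm n a b θ (m + 1)|) ((PP n m).prod (gE n)) := by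
      refine (i12.comp_fst (gE n)).mono' (mV.comp (mp_sn n m).measurable).aestronglyMeasurable
        (Eventually.of_forall fun p => ?_)
      rw [Real.norm_eq_abs, abs_abs]
      exact hb p.1 p.2
    have i4 : Integrable (fun w : Fin (m + 1) → E n =>
        |VS a b θ (m + 1) w - vm n a b θ (m + 1)|) (PP n (m + 1)) :=
      ((mp_sn n m).integrable_comp mV.aestronglyMeasurable).1 i3
    refine ⟨i4, ?_⟩
    rw [(int_sn i4).2]
    have h5 : ∫ w, ∫ e, |VS a b θ (m + 1) (sn (w, e)) - vm n a b θ (m + 1)| ∂gE n ∂PP n m ≤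
        ∫ w, (|VS a b θ m w - vm n a b θ m| + |D w|) ∂PP n m := by
      refine integral_mono i3.integral_prod_left i12 fun w => ?_
      show ∫ e, |VS a b θ (m + 1) (sn (w, e)) - vm n a b θ (m + 1)| ∂gE n ≤
        |VS a b θ m w - vm n a b θ m| + |D w|
      have h6 : ∀ᵐ e ∂gE n, ‖|VS a b θ (m + 1) (sn (w, e)) - vm n a b θ (m + 1)|‖ ≤
        |VS a b θ m w - vm n a b θ m| + |D w| := Eventually.of_forall fun e => by
          rw [Real.norm_eq_abs, abs_abs]; exact hb w e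
      have h7 := norm_integral_le_of_norm_le_const h6
      simp only [probReal_univ, mul_one] at h7
      exact (Real.le_norm_self _).trans h7
    rw [integral_add i1 i2] at h5
    push_cast
    linarith

end

end Pool.Agent.K7.H95.GMC
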