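import Pool.Agent.K7.H95.GMC.Cf2

/-!
MP_55470d_pr (helper95): the joint characteristic function of the logarithms of the truncated
determinants, III: the limit.
-/

set_option autoImplicit false

open MeasureTheory Complex Filter Topology
open scoped ENNReal NNReal ComplexConjugate

namespace Pool.Agent.K7.H95.GMC

open Pool.Agent.R923.SE Pool.Agent.R923.SE.NX

noncomputable section

lemma exp_diff {x y M : ℝ} (hx : x ≤ M) (hy : y ≤ M) :
    |Real.exp x - Real.exp y| ≤ Real.exp M * |x - y| := by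
  have key : ∀ x y : ℝ, y ≤ x → x ≤ M → Real.exp x - Real.exp y ≤ Real.exp M * (x - y) := by
    intro x y hyx hxM
    have h1 : 1 - (x - y) ≤ Real.exp (-(x - y)) := by linarith [Real.add_one_le_exp (-(x - y))]
    have h2 : Real.exp y = Real.exp x * Real.exp (-(x - y)) := by
      rw [← Real.exp_add]; congr 1; ring
    have h3 : Real.exp x - Real.exp y ≤ Real.exp x * (x - y) := by
      rw [h2]; nlinarith [Real.exp_pos x]
    exact h3.trans (mul_le_mul_of_nonneg_right (Real.exp_le_exp.2 hxM) (by linarith))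
  rcases le_total y x with h | h
  · rw [abs_of_nonneg (by linarith [Real.exp_le_exp.2 h]), abs_of_nonneg (by linarith)]
    exact key x y h hx
  · rw [abs_sub_comm, abs_sub_comm x y, abs_of_nonneg (by linarith [Real.exp_le_exp.2 h]),
      abs_of_nonneg (by linarith)]
    exact key y x h hy

lemma kq {n : ℕ} {s r : ℝ} (hr0 : 0 < r) : s * fs n s r / r ^ 2 = s / (n * (1 - s) + s * r) := by
  unfold fs
  field_simp

lemma kq_le {n : ℕ} {s r : ℝ} (h0 : 0 ≤ s) (h1 : s ≤ 1) (hr0 : 0 < r) (hr : r ≤ n) :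
    0 ≤ s / (n * (1 - s) + s * r) ∧ s / (n * (1 - s) + s * r) ≤ 1 / r := by
  have h2 : 0 < (n : ℝ) * (1 - s) + s * r := by nlinarith
  constructor
  · positivity
  · rw [div_le_div_iff₀ h2 hr0]
    nlinarith

lemma vm_abs {n k : ℕ} {a b : Fin k → ℂ} (hab : ∀ i, ‖a i‖ ^ 2 + ‖b i‖ ^ 2 = 1)
    (θ : Fin k → ℝ) {δ : ℝ} (hδ : 0 < δ) (hn : 0 < n) (m : ℕ) (hm : m ≤ n)
    (hmδ : δ * n ≤ (n : ℝ) - m) : |vm n a b θ m| ≤ TH θ / δ := by
  have hn' : (0 : ℝ) < n := by exact_mod_cast hn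
  have hm' : (m : ℝ) ≤ n := by exact_mod_cast hm
  have h1 : |vm n a b θ m| ≤ ∑ j ∈ Finset.range m, TH θ * (1 / (δ * n)) := by
    unfold vm
    refine (Finset.abs_sum_le_sum_abs _ _).trans (Finset.sum_le_sum fun j hj => ?_)
    have hj' : (j : ℝ) < m := by exact_mod_cast Finset.mem_range.1 hj
    unfold TH
    rw [Finset.sum_mul]
    refine (Finset.abs_sum_le_sum_abs _ _).trans (Finset.sum_le_sum fun i _ => ?_)
    rw [Finset.sum_mul]
    refine (Finset.abs_sum_le_sum_abs _ _).trans (Finset.sum_le_sum fun l _ => ?_)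
    have hr0 : 0 < (n : ℝ) - j := by linarith
    have hj0 : (0 : ℝ) ≤ j := Nat.cast_nonneg j
    have h2 := kq_le (n := n) (sq_nonneg ‖sg (a i) (b i) (a l) (b l)‖) (sg_sq_le (hab i) (hab l))
      hr0 (by linarith)
    rw [kq hr0, abs_mul, abs_mul, abs_of_nonneg h2.1]
    refine mul_le_mul_of_nonneg_left (h2.2.trans ?_) (by positivity)
    exact one_div_le_one_div_of_le (by positivity) (by linarith)
  refine h1.trans ?_
  rw [Finset.sum_const, Finset.card_range, nsmul_eq_mul]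
  have e : TH θ / δ = n * (TH θ * (1 / (δ * n))) := by field_simp
  rw [e]
  have := TH_nonneg θ
  exact mul_le_mul_of_nonneg_right hm' (by positivity)

/-- the constant of the final estimate -/
def CF {k : ℕ} (θ : Fin k → ℝ) (δ : ℝ) : ℝ :=
  Real.exp (TH θ / (2 * δ)) * (Real.exp (TH θ / (2 * δ)) * (TH θ * (√(1100 / δ) / δ ^ 2)) +
    Real.exp (TH θ / (2 * δ)) * (Kθ θ / (δ * √δ)))

lemma cf_close {n k : ℕ} {a b : Fin k → ℂ} (hab : ∀ i, ‖a i‖ ^ 2 + ‖b i‖ ^ 2 = 1)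
    (θ : Fin k → ℝ) {δ : ℝ} (hδ : 0 < δ) (hδ1 : δ ≤ 1) (m : ℕ) (hm : m + 2 ≤ n)
    (hmδ : δ * n ≤ (n : ℝ) - m) :
    ‖∫ w, cexp (((SL a b θ m w : ℝ) : ℂ) * I) ∂PP n m -
      ((Real.exp (-(vm n a b θ m) / 2) : ℝ) : ℂ)‖ ≤ CF θ δ / √n := by
  have hn : (0 : ℝ) < n := by exact_mod_cast (by omega : 0 < n)
  have hmn : (m : ℝ) ≤ n := by exact_mod_cast (by omega : m ≤ n)
  have hsn : 0 < √(n : ℝ) := Real.sqrt_pos.mpr hn
  set v := vm n a b θ m with hv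
  have hT := TH_nonneg θ
  have hK := Kθ_nonneg θ
  have hva := vm_abs hab θ hδ (by omega) m (by omega) hmδ
  rw [← hv] at hva
  set M := TH θ / (2 * δ) with hM
  have hM2 : TH θ / δ = 2 * M := by rw [hM]; field_simp
  rw [hM2] at hva
  have hv1 : v / 2 ≤ M := by have := le_abs_self v; linarith
  have hv2 : -v / 2 ≤ M := by have := neg_le_abs v; linarith
  set φ := ∫ w, cexp (((SL a b θ m w : ℝ) : ℂ) * I) ∂PP n m with hφ
  have iφ : Integrable (fun w : Fin m → E n => cexp (((SL a b θ m w : ℝ) : ℂ) * I)) (PP n m) := by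
    have h1 := meas_SL (n := n) a b θ m
    refine Integrable.of_bound (by fun_prop : Measurable _).aestronglyMeasurable 1
      (Eventually.of_forall fun w => ?_)
    rw [Complex.norm_exp_ofReal_mul_I]
  have iT := tf_int hab θ hδ m (by omega) hmδ
  have h1 := tf_tel hab θ hδ m hm hmδ
  obtain ⟨iV, bV⟩ := VS_diff hab θ hδ hδ1 m (by omega) hmδ
  have h2 : ‖∫ w, tf a b θ m w ∂PP n m - φ * ((Real.exp (v / 2) : ℝ) : ℂ)‖ ≤
      Real.exp M * (m * (TH θ * (√(1100 * n / δ) / (δ * n) ^ 2))) := by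
    rw [hφ, ← integral_mul_const, ← integral_sub iT (iφ.mul_const _)]
    refine (norm_integral_le_integral_norm _).trans ?_
    have h3 : ∫ w, ‖tf a b θ m w - cexp (((SL a b θ m w : ℝ) : ℂ) * I) *
        ((Real.exp (v / 2) : ℝ) : ℂ)‖ ∂PP n m ≤ ∫ w, Real.exp M * |VS a b θ m w - v| ∂PP n m := by
      refine integral_mono_ae (iT.sub (iφ.mul_const _)).norm (iV.const_mul _) ?_
      filter_upwards [VS_bd hab θ hδ m (by omega) hmδ] with w hw
      show ‖tf a b θ m w - cexp (((SL a b θ m w : ℝ) : ℂ) * I) * ((Real.exp (v / 2) : ℝ) : ℂ)‖ ≤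
        Real.exp M * |VS a b θ m w - v|
      have e1 : tf a b θ m w - cexp (((SL a b θ m w : ℝ) : ℂ) * I) * ((Real.exp (v / 2) : ℝ) : ℂ) =
          cexp (((SL a b θ m w : ℝ) : ℂ) * I) *
            ((Real.exp (VS a b θ m w / 2) - Real.exp (v / 2) : ℝ) : ℂ) := by
        unfold tf
        push_cast
        ring
      rw [e1, norm_mul, Complex.norm_exp_ofReal_mul_I, one_mul, Complex.norm_real,
        Real.norm_eq_abs]
      have h4 : VS a b θ m w / 2 ≤ M := by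
        have h5 : (m : ℝ) * (TH θ / (δ * n)) ≤ TH θ / δ := by
          have e : TH θ / δ = n * (TH θ / (δ * n)) := by field_simp
          rw [e]
          exact mul_le_mul_of_nonneg_right hmn (by positivity)
        linarith [hw.2]
      refine (exp_diff h4 hv1).trans ?_
      refine mul_le_mul_of_nonneg_left ?_ (Real.exp_pos _).le
      have e2 : VS a b θ m w / 2 - v / 2 = (VS a b θ m w - v) / 2 := by ring
      rw [e2, abs_div, abs_of_pos (by norm_num : (0 : ℝ) < 2)]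
      have := abs_nonneg (VS a b θ m w - v)
      linarith
    rw [integral_const_mul] at h3
    exact h3.trans (mul_le_mul_of_nonneg_left bV (Real.exp_pos _).le)
  have e3 : φ - ((Real.exp (-v / 2) : ℝ) : ℂ) = ((Real.exp (-v / 2) : ℝ) : ℂ) *
      (φ * ((Real.exp (v / 2) : ℝ) : ℂ) - 1) := by
    have e4 : ((Real.exp (-v / 2) : ℝ) : ℂ) * ((Real.exp (v / 2) : ℝ) : ℂ) = 1 := by
      rw [← Complex.ofReal_mul, ← Real.exp_add]
      have : -v / 2 + v / 2 = 0 := by ring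
      rw [this, Real.exp_zero, Complex.ofReal_one]
    have e5 : ((Real.exp (-v / 2) : ℝ) : ℂ) * (φ * ((Real.exp (v / 2) : ℝ) : ℂ) - 1) =
      φ * (((Real.exp (-v / 2) : ℝ) : ℂ) * ((Real.exp (v / 2) : ℝ) : ℂ)) -
        ((Real.exp (-v / 2) : ℝ) : ℂ) := by ring
    rw [e5, e4, mul_one]
  rw [e3, norm_mul, Complex.norm_real, Real.norm_of_nonneg (Real.exp_pos _).le]
  have h5 : ‖φ * ((Real.exp (v / 2) : ℝ) : ℂ) - 1‖ ≤
      Real.exp M * (m * (TH θ * (√(1100 * n / δ) / (δ * n) ^ 2))) +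
      m * (Real.exp M * (Kθ θ / ((δ * n) * √(δ * n)))) := by
    have e6 : φ * ((Real.exp (v / 2) : ℝ) : ℂ) - 1 =
      -(∫ w, tf a b θ m w ∂PP n m - φ * ((Real.exp (v / 2) : ℝ) : ℂ)) +
      (∫ w, tf a b θ m w ∂PP n m - 1) := by ring
    rw [e6]
    refine (norm_add_le _ _).trans ?_
    rw [norm_neg]
    exact add_le_add h2 h1
  have h6 : Real.exp (-v / 2) ≤ Real.exp M := Real.exp_le_exp.2 hv2
  have h7 : (m : ℝ) * (TH θ * (√(1100 * n / δ) / (δ * n) ^ 2)) ≤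
      TH θ * (√(1100 / δ) / δ ^ 2) / √n := by
    have e7 : √(1100 * n / δ) = √(1100 / δ) * √n := by
      rw [← Real.sqrt_mul (by positivity)]; congr 1; ring
    have e8 : TH θ * (√(1100 / δ) / δ ^ 2) / √n = n * (TH θ * (√(1100 * n / δ) / (δ * n) ^ 2)) := by
      rw [e7]
      field_simp
      rw [Real.sq_sqrt hn.le]
    rw [e8]
    exact mul_le_mul_of_nonneg_right hmn (by positivity)
  have h8 : (m : ℝ) * (Real.exp M * (Kθ θ / ((δ * n) * √(δ * n)))) ≤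
      Real.exp M * (Kθ θ / (δ * √δ)) / √n := by
    have e7 : √(δ * n) = √δ * √n := Real.sqrt_mul hδ.le _
    have e8 : Real.exp M * (Kθ θ / (δ * √δ)) / √n =
        n * (Real.exp M * (Kθ θ / ((δ * n) * √(δ * n)))) := by
      rw [e7]
      have : 0 < √δ := Real.sqrt_pos.mpr hδ
      field_simp
    rw [e8]
    exact mul_le_mul_of_nonneg_right hmn (by positivity)
  have e9 : CF θ δ / √n = Real.exp M * (Real.exp M * (TH θ * (√(1100 / δ) / δ ^ 2) / √n) +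
      Real.exp M * (Kθ θ / (δ * √δ)) / √n) := by
    unfold CF
    rw [← hM]
    ring
  rw [e9]
  refine mul_le_mul h6 (h5.trans (add_le_add ?_ h8)) (norm_nonneg _) (Real.exp_pos _).le
  exact mul_le_mul_of_nonneg_left h7 (Real.exp_pos _).le

/-! ### the limit of the bracket -/

lemma log_step {y : ℝ} (_h0 : 0 ≤ y) (h1 : y ≤ 1 / 2) :
    0 ≤ -Real.log (1 - y) - y ∧ -Real.log (1 - y) - y ≤ 2 * y ^ 2 := by
  have hp : 0 < 1 - y := by linarith
  constructor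
  · have := Real.log_le_sub_one_of_pos hp
    linarith
  · have h2 := Real.log_le_sub_one_of_pos (inv_pos.mpr hp)
    rw [Real.log_inv] at h2
    have h3 : (1 - y)⁻¹ - 1 - y = y ^ 2 / (1 - y) := by field_simp; ring
    have h4 : y ^ 2 / (1 - y) ≤ 2 * y ^ 2 := by
      rw [div_le_iff₀ hp]
      nlinarith [sq_nonneg y]
    linarith

lemma kap {n : ℕ} {s δ : ℝ} (h0 : 0 ≤ s) (h1 : s ≤ 1) (hδ : 0 < δ) (hn : 2 ≤ δ * n) (m : ℕ)
    (hm : m ≤ n) (hmδ : δ * n ≤ (n : ℝ) - m) :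
    |∑ j ∈ Finset.range m, s * fs n s ((n : ℝ) - j) / ((n : ℝ) - j) ^ 2 -
      (-Real.log (1 - s * (m / n)))| ≤ m * (2 / (δ * n) ^ 2) := by
  have hn0 : (0 : ℝ) < n := by
    by_contra hc
    have : (n : ℝ) = 0 := le_antisymm (not_lt.mp hc) (Nat.cast_nonneg n)
    rw [this] at hn
    linarith
  induction m with
  | zero => simp
  | succ m ih =>
    have hmδ' : δ * n ≤ (n : ℝ) - m := by push_cast at hmδ; linarith
    have ih' := ih (by omega) hmδ'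
    rw [Finset.sum_range_succ]
    have hm0 : (0 : ℝ) ≤ m := Nat.cast_nonneg m
    have hr0 : 0 < (n : ℝ) - m := by nlinarith
    rw [kq hr0]
    obtain ⟨k1, k2⟩ := kq_le (n := n) h0 h1 hr0 (by linarith)
    set y := s / (n * (1 - s) + s * ((n : ℝ) - m)) with hy
    have hD : 0 < (n : ℝ) * (1 - s) + s * ((n : ℝ) - m) := by nlinarith
    have k3 : y ≤ 1 / (δ * n) := k2.trans (one_div_le_one_div_of_le (by positivity) hmδ')
    have k4 : y ≤ 1 / 2 := k3.trans (one_div_le_one_div_of_le (by norm_num) hn)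
    obtain ⟨l1, l2⟩ := log_step k1 k4
    have e1 : 1 - s * ((m : ℝ) / n) = (n * (1 - s) + s * ((n : ℝ) - m)) / n := by
      field_simp; ring
    have e2 : 1 - s * (((m + 1 : ℕ) : ℝ) / n) = (1 - s * ((m : ℝ) / n)) * (1 - y) := by
      rw [e1, hy]
      push_cast
      field_simp
      ring
    have hp1 : 0 < 1 - s * ((m : ℝ) / n) := by rw [e1]; positivity
    rw [e2, Real.log_mul hp1.ne' (by linarith)]
    have k5 : y ^ 2 ≤ 1 / (δ * n) ^ 2 := by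
      rw [← one_div_pow]
      exact pow_le_pow_left₀ k1 k3 2
    have e3 : (2 : ℝ) / (δ * n) ^ 2 = 2 * (1 / (δ * n) ^ 2) := by ring
    push_cast
    rw [abs_le] at ih' ⊢
    rw [e3] at ih' ⊢
    constructor <;> nlinarith [ih'.1, ih'.2]

lemma floor_bd {ρ : ℝ} (h0 : 0 ≤ ρ) (h1 : ρ < 1) (n : ℕ) :
    ⌊ρ * n⌋₊ ≤ n ∧ (1 - ρ) * n ≤ (n : ℝ) - (⌊ρ * n⌋₊ : ℝ) := by
  have h2 : (⌊ρ * n⌋₊ : ℝ) ≤ ρ * n := Nat.floor_le (by positivity)
  have h3 : ρ * n ≤ n := by nlinarith [Nat.cast_nonneg (α := ℝ) n]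
  exact ⟨by exact_mod_cast h2.trans h3, by linarith⟩

lemma floor_lim {ρ : ℝ} (h0 : 0 ≤ ρ) :
    Tendsto (fun n : ℕ => (⌊ρ * n⌋₊ : ℝ) / n) atTop (𝓝 ρ) :=
  (tendsto_nat_floor_mul_div_atTop h0).comp tendsto_natCast_atTop_atTop

lemma kap_lim {s ρ : ℝ} (h0 : 0 ≤ s) (h1 : s ≤ 1) (hρ0 : 0 ≤ ρ) (hρ1 : ρ < 1) :
    Tendsto (fun n : ℕ => ∑ j ∈ Finset.range ⌊ρ * n⌋₊,
      s * fs n s ((n : ℝ) - j) / ((n : ℝ) - j) ^ 2) atTop (𝓝 (-Real.log (1 - s * ρ))) := by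
  have hδ : 0 < 1 - ρ := by linarith
  have h2 : Tendsto (fun n : ℕ => -Real.log (1 - s * ((⌊ρ * n⌋₊ : ℝ) / n))) atTop
      (𝓝 (-Real.log (1 - s * ρ))) := by
    have h3 : 1 - s * ρ ≠ 0 := by nlinarith
    exact ((Real.continuousAt_log h3).tendsto.comp
      (tendsto_const_nhds.sub ((floor_lim hρ0).const_mul s))).neg
  have h4 : Tendsto (fun n : ℕ => (∑ j ∈ Finset.range ⌊ρ * n⌋₊,
      s * fs n s ((n : ℝ) - j) / ((n : ℝ) - j) ^ 2) -
      (-Real.log (1 - s * ((⌊ρ * n⌋₊ : ℝ) / n)))) atTop (𝓝 0) := by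
    have h5 : Tendsto (fun n : ℕ => 2 / (1 - ρ) ^ 2 * (1 / (n : ℝ))) atTop (𝓝 0) := by
      have := tendsto_one_div_atTop_nhds_zero_nat (𝕜 := ℝ)
      simpa using this.const_mul (2 / (1 - ρ) ^ 2)
    refine squeeze_zero_norm' ?_ h5
    have h6 : ∀ᶠ n : ℕ in atTop, 2 / (1 - ρ) ≤ (n : ℝ) :=
      tendsto_natCast_atTop_atTop.eventually (eventually_ge_atTop _)
    filter_upwards [h6, eventually_gt_atTop 0] with n hn hn0
    have hn0' : (0 : ℝ) < n := by exact_mod_cast hn0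
    rw [Real.norm_eq_abs]
    obtain ⟨f1, f2⟩ := floor_bd hρ0 hρ1 n
    have hn2 : 2 ≤ (1 - ρ) * n := by
      rw [div_le_iff₀ hδ] at hn; linarith
    refine (kap h0 h1 hδ hn2 _ f1 f2).trans ?_
    have f3 : (⌊ρ * n⌋₊ : ℝ) ≤ n := by exact_mod_cast f1
    have e : 2 / (1 - ρ) ^ 2 * (1 / (n : ℝ)) = n * (2 / ((1 - ρ) * n) ^ 2) := by
      field_simp
    rw [e]
    exact mul_le_mul_of_nonneg_right f3 (by positivity)
  simpa using h4.add h2

/-- the limiting variance -/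
def Vl {k : ℕ} (a b : Fin k → ℂ) (θ : Fin k → ℝ) (ρ : ℝ) : ℝ :=
  ∑ i, ∑ l, θ i * θ l * (-Real.log (1 - ‖sg (a i) (b i) (a l) (b l)‖ ^ 2 * ρ))

lemma vm_lim {k : ℕ} {a b : Fin k → ℂ} (hab : ∀ i, ‖a i‖ ^ 2 + ‖b i‖ ^ 2 = 1)
    (θ : Fin k → ℝ) {ρ : ℝ} (hρ0 : 0 ≤ ρ) (hρ1 : ρ < 1) :
    Tendsto (fun n : ℕ => vm n a b θ ⌊ρ * n⌋₊) atTop (𝓝 (Vl a b θ ρ)) := by
  have e : ∀ n : ℕ, vm n a b θ ⌊ρ * n⌋₊ = ∑ i, ∑ l, θ i * θ l * ∑ j ∈ Finset.range ⌊ρ * n⌋₊,
      ‖sg (a i) (b i) (a l) (b l)‖ ^ 2 * fs n (‖sg (a i) (b i) (a l) (b l)‖ ^ 2) ((n : ℝ) - j) /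
        ((n : ℝ) - j) ^ 2 := by
    intro n
    unfold vm
    rw [Finset.sum_comm]
    refine Finset.sum_congr rfl fun i _ => ?_
    rw [Finset.sum_comm]
    refine Finset.sum_congr rfl fun l _ => ?_
    rw [Finset.mul_sum]
  simp_rw [e]
  unfold Vl
  refine tendsto_finsetSum _ fun i _ => tendsto_finsetSum _ fun l _ => ?_
  exact (kap_lim (sq_nonneg _) (sg_sq_le (hab i) (hab l)) hρ0 hρ1).const_mul _

/-- **Central limit theorem** for the logarithms of the truncated determinants, in the form of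
characteristic functions. -/
theorem cf_lim {k : ℕ} {a b : Fin k → ℂ} (hab : ∀ i, ‖a i‖ ^ 2 + ‖b i‖ ^ 2 = 1)
    (θ : Fin k → ℝ) {ρ : ℝ} (hρ0 : 0 ≤ ρ) (hρ1 : ρ < 1) :
    Tendsto (fun n : ℕ => ∫ w, cexp (((SL a b θ ⌊ρ * n⌋₊ w : ℝ) : ℂ) * I) ∂PP n ⌊ρ * n⌋₊) atTop
      (𝓝 ((Real.exp (-(Vl a b θ ρ) / 2) : ℝ) : ℂ)) := by
  have hδ : 0 < 1 - ρ := by linarith
  have h1 : Tendsto (fun n : ℕ => ((Real.exp (-(vm n a b θ ⌊ρ * n⌋₊) / 2) : ℝ) : ℂ)) atTop
      (𝓝 ((Real.exp (-(Vl a b θ ρ) / 2) : ℝ) : ℂ)) :=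
    (Complex.continuous_ofReal.tendsto _).comp
      ((Real.continuous_exp.tendsto _).comp ((vm_lim hab θ hρ0 hρ1).neg.div_const 2))
  have h2 : Tendsto (fun n : ℕ => (∫ w, cexp (((SL a b θ ⌊ρ * n⌋₊ w : ℝ) : ℂ) * I)
      ∂PP n ⌊ρ * n⌋₊) - ((Real.exp (-(vm n a b θ ⌊ρ * n⌋₊) / 2) : ℝ) : ℂ)) atTop (𝓝 0) := by
    have h3 : Tendsto (fun n : ℕ => CF θ (1 - ρ) / √(n : ℝ)) atTop (𝓝 0) :=
      Tendsto.div_atTop tendsto_const_nhds
        (Real.tendsto_sqrt_atTop.comp tendsto_natCast_atTop_atTop)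
    refine squeeze_zero_norm' ?_ h3
    have h6 : ∀ᶠ n : ℕ in atTop, 2 / (1 - ρ) ≤ (n : ℝ) :=
      tendsto_natCast_atTop_atTop.eventually (eventually_ge_atTop _)
    filter_upwards [h6] with n hn
    obtain ⟨f1, f2⟩ := floor_bd hρ0 hρ1 n
    have hn2 : 2 ≤ (1 - ρ) * n := by
      rw [div_le_iff₀ hδ] at hn; linarith
    have hm : ⌊ρ * n⌋₊ + 2 ≤ n := by
      have : (⌊ρ * n⌋₊ : ℝ) + 2 ≤ n := by linarith
      exact_mod_cast this
    exact cf_close hab θ hδ (by linarith) _ hm f2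
  simpa using h2.add h1

end

end Pool.Agent.K7.H95.GMC
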