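import Pool.Agent.R923.SE.Stm

/-!
MP_55470d_pr (helper95): the multiplicative chaos limit of the spherical ensemble, definitions.
-/

set_option autoImplicit false

open MeasureTheory Complex Filter Topology
open scoped ENNReal NNReal BoundedContinuousFunction

namespace Pool.Agent.K7.H95.GMC

open Pool.Agent.R923.SE

noncomputable section

/-- Euclidean 3-space -/
abbrev R3 := EuclideanSpace ℝ (Fin 3)

/-- the unit sphere -/
abbrev S2 := Metric.sphere (0 : R3) 1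

/-- uniform probability measure on the unit sphere -/
def nu : Measure S2 := ((volume : Measure R3).toSphere Set.univ)⁻¹ • (volume : Measure R3).toSphere

lemma one_add_sq_pos (z : ℂ) : 0 < 1 + ‖z‖ ^ 2 := by positivity

lemma Tinv_mem (z : ℂ) : (!₂[2 * z.re / (1 + ‖z‖ ^ 2), 2 * z.im / (1 + ‖z‖ ^ 2),
    (‖z‖ ^ 2 - 1) / (1 + ‖z‖ ^ 2)] : R3) ∈ Metric.sphere (0 : R3) 1 := by
  rw [mem_sphere_zero_iff_norm, EuclideanSpace.norm_eq, Real.sqrt_eq_one]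
  have h : (1 + ‖z‖ ^ 2) ≠ 0 := (one_add_sq_pos z).ne'
  simp only [Fin.sum_univ_three, Real.norm_eq_abs, sq_abs, Matrix.cons_val_zero,
    Matrix.cons_val_one, Matrix.cons_val]
  have hz : ‖z‖ ^ 2 = z.re ^ 2 + z.im ^ 2 := by rw [← Complex.normSq_eq_norm_sq, normSq_apply]; ring
  rw [hz] at h ⊢
  field_simp
  ring

/-- inverse stereographic projection `ℂ → S²` from the north pole -/
def Tinv (z : ℂ) : S2 := ⟨_, Tinv_mem z⟩

/-- the spherical ensemble: eigenvalues of `A B⁻¹`, with multiplicities -/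
def ev {n : ℕ} (x : Mt n n × Mt n n) : Multiset ℂ :=
  (Matrix.of x.1 * (Matrix.of x.2)⁻¹).charpoly.roots

/-- `L_n(g_x)` -/
def Lg {n : ℕ} (x : Mt n n × Mt n n) (u : S2) : ℝ :=
  ((ev x).map fun w => Real.log (‖(u : R3) - (Tinv w : R3)‖ / 2)).sum

/-- `e^{γ L_n(g_x)}` -/
def wt {n : ℕ} (γ : ℝ) (x : Mt n n × Mt n n) (u : S2) : ℝ := Real.exp (γ * Lg x u)

/-- the measure `M_{n,γ}` -/
def Mn {n : ℕ} (γ : ℝ) (x : Mt n n × Mt n n) : Measure S2 :=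
  nu.withDensity fun u => ENNReal.ofReal (wt γ x u / ∫ y, wt γ y u ∂gg n)

/-- `∏ (1 + |z|²)` over the eigenvalues of a matrix -/
def yy {n : ℕ} (X : Matrix (Fin n) (Fin n) ℂ) : ℝ := (X.charpoly.roots.map fun w => 1 + ‖w‖ ^ 2).prod

/-- `Y² = |det B|² ∏ (1 + |Z_k|²)` -/
def Y2 {n : ℕ} (x : Mt n n × Mt n n) : ℝ :=
  ‖dt x.2‖ ^ 2 * yy (Matrix.of x.1 * (Matrix.of x.2)⁻¹)

/-- normalised two point function -/
def W2 (n : ℕ) (p s : ℝ) : ℝ := (Psi n s p p).re / (NN n p).re ^ 2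

/-! ### Statements of the pieces -/

/-- ARCH: Archimedes' hat-box theorem -/
def S_ARCH : Prop := IsProbabilityMeasure nu ∧ ∀ (y : S2) (f : ℝ → ℝ≥0∞), Measurable f →
  ∫⁻ x : S2, f (1 - ‖(x : R3) - (y : R3)‖ ^ 2 / 4) ∂nu = ∫⁻ t in Set.Icc (0 : ℝ) 1, f t

/-- DEFL: deflation of an eigenvalue, for class functions and the weight `det(1 + X* X)^{-a}` -/
def S_DEFL : Prop := ∀ n : ℕ, ∃ c : ℝ≥0∞, c ≠ 0 ∧ c ≠ ∞ ∧ ∀ a : ℝ, (n : ℝ) < a →
  ∀ G : Mt (n + 1) (n + 1) → ℝ≥0∞, Measurable G →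
  (∀ X X' : Mt (n + 1) (n + 1), (Matrix.of X).charpoly = (Matrix.of X').charpoly → G X = G X') →
  ∀ H : ℂ × Mt n n → ℝ≥0∞, Measurable H →
  (∀ (z : ℂ) (X' : Mt n n) (X : Mt (n + 1) (n + 1)), (Matrix.of X).charpoly =
    (Polynomial.X - Polynomial.C z) * (Matrix.of X').charpoly → G X = H (z, X')) →
  ∫⁻ X : Mt (n + 1) (n + 1), G X *
      ENNReal.ofReal ((Matrix.det (1 + (Matrix.of X).conjTranspose * Matrix.of X)).re ^ (-a)) =
    c * ENNReal.ofReal (Real.Gamma (a - n) / Real.Gamma a) *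
    ∫⁻ z : ℂ, ENNReal.ofReal ((1 + ‖z‖ ^ 2) ^ (-a + n)) *
      ∫⁻ X' : Mt n n, H (z, X') *
        ENNReal.ofReal (‖(Matrix.of X').charpoly.eval z‖ ^ 2) *
        ENNReal.ofReal ((Matrix.det (1 + (Matrix.of X').conjTranspose * Matrix.of X')).re
          ^ (-a + 1))

/-- IND: `Y` is independent of the spherical ensemble, and `Y²` has the law of a product of `n`
independent Gamma(n+1) variables -/
def S_IND : Prop := (∀ n : ℕ, Measurable (Y2 : Mt n n × Mt n n → ℝ)) ∧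
  ∀ (n : ℕ) (q : ℝ), -1 < q → ∀ G : Mt n n → ℝ≥0∞, Measurable G →
  (∀ X X' : Mt n n, (Matrix.of X).charpoly = (Matrix.of X').charpoly → G X = G X') →
  ∫⁻ x, G (Matrix.of x.1 * (Matrix.of x.2)⁻¹) * ENNReal.ofReal (Y2 x ^ q) ∂gg n =
    (∫⁻ x, G (Matrix.of x.1 * (Matrix.of x.2)⁻¹) ∂gg n) *
      ENNReal.ofReal ((Real.Gamma (n + 1 + q) / Real.Gamma (n + 1)) ^ n)

/-- TWOPT: convergence of the two point function in `L¹[0,1]` -/
def S_TWOPT : Prop := ∀ p : ℝ, 0 < p → p < 1 →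
  Tendsto (fun n : ℕ => ∫⁻ s in Set.Icc (0 : ℝ) 1, ENNReal.ofReal |W2 n p s - (1 - s) ^ (-(p ^ 2))|)
    atTop (𝓝 0)

/-- RM: convergence of random measures from convergence of the characteristic functionals -/
def S_RM : Prop := ∀ (K : Type) [MetricSpace K] [CompactSpace K] [MeasurableSpace K] [BorelSpace K]
  (Ω : ℕ → Type) [∀ n, MeasurableSpace (Ω n)] (P : ∀ n, Measure (Ω n))
  [∀ n, IsProbabilityMeasure (P n)] (M : ∀ n, Ω n → FiniteMeasure K) (C : ℝ≥0),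
  (∀ n (f : C(K, ℝ)), AEMeasurable (fun ω => ∫ x, f x ∂(M n ω : Measure K)) (P n)) →
  (∀ n, ∫⁻ ω, (M n ω : Measure K) Set.univ ∂P n ≤ C) →
  (∀ f : C(K, ℝ), ∃ c : ℂ, Tendsto (fun n => ∫ ω, Complex.exp
    (((∫ x, f x ∂(M n ω : Measure K) : ℝ) : ℂ) * Complex.I) ∂P n) atTop (𝓝 c)) →
  ∃ (Ω' : Type) (_ : MeasurableSpace Ω') (P' : Measure Ω') (_ : IsProbabilityMeasure P')
    (M' : Ω' → FiniteMeasure K),
    Measurable[_, borel (FiniteMeasure K)] M' ∧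
    (∀ n, @AEMeasurable _ _ (borel (FiniteMeasure K)) _ (M n) (P n)) ∧
    ∀ Φ : FiniteMeasure K →ᵇ ℝ,
      Tendsto (fun n => ∫ ω, Φ (M n ω) ∂P n) atTop (𝓝 (∫ ω, Φ (M' ω) ∂P'))

/-- DEC: multiplicative deconvolution of an asymptotically lognormal independent factor -/
def S_DEC : Prop := ∀ (Ω : ℕ → Type) [∀ n, MeasurableSpace (Ω n)] (P : ∀ n, Measure (Ω n))
  [∀ n, IsProbabilityMeasure (P n)] (X Y : ∀ n, Ω n → ℝ) (C v : ℝ), 0 ≤ v →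
  (∀ n, AEMeasurable (X n) (P n)) → (∀ n, AEMeasurable (Y n) (P n)) →
  (∀ n, ∀ᵐ ω ∂P n, 0 < Y n ω) → (∀ n, ProbabilityTheory.IndepFun (X n) (Y n) (P n)) →
  (∀ n, ∫⁻ ω, ENNReal.ofReal |X n ω| ∂P n ≤ ENNReal.ofReal C) →
  (∀ s : ℝ, -1 < s → s < 1 → Tendsto (fun n => ∫⁻ ω, ENNReal.ofReal (Y n ω ^ s) ∂P n) atTop
    (𝓝 (ENNReal.ofReal (Real.exp (v * (s ^ 2 - s) / 2))))) →
  (∀ t : ℝ, ∃ c : ℂ, Tendsto (fun n => ∫ ω, Complex.exp
    (((t * (Y n ω * X n ω) : ℝ) : ℂ) * Complex.I) ∂P n) atTop (𝓝 c)) →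
  ∀ t : ℝ, ∃ c : ℂ, Tendsto (fun n => ∫ ω, Complex.exp
    (((t * X n ω : ℝ) : ℂ) * Complex.I) ∂P n) atTop (𝓝 c)

end

end Pool.Agent.K7.H95.GMC
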