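import Pool.Agent.K7.H95.GMC.Step

/-!
MP_55470d_pr (helper95): the process of projections.
-/

set_option autoImplicit false

open MeasureTheory Complex Filter Topology
open scoped ENNReal NNReal ComplexConjugate

namespace Pool.Agent.K7.H95.GMC

open Pool.Agent.R923.SE Pool.Agent.R923.SE.NX

noncomputable section

/-- removing a direction from a projection -/
def upd {n : ℕ} (Q : Matrix (Fin n) (Fin n) ℂ) (c : V n) : Matrix (Fin n) (Fin n) ℂ :=
  Q - (((RR Q c)⁻¹ : ℝ) : ℂ) • Matrix.vecMulVec (Q.mulVec c) (star (Q.mulVec c))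

lemma star_dot_self {n : ℕ} (v : V n) : star v ⬝ᵥ v = ((∑ i, ‖v i‖ ^ 2 : ℝ) : ℂ) := by
  unfold dotProduct
  push_cast
  refine Finset.sum_congr rfl fun i _ => ?_
  rw [Pi.star_apply, RCLike.star_def, Complex.conj_mul']

lemma vv_trace {n : ℕ} (v w : V n) : (Matrix.vecMulVec v (star w)).trace = star w ⬝ᵥ v := by
  unfold Matrix.trace dotProduct
  refine Finset.sum_congr rfl fun i _ => ?_
  simp [Matrix.vecMulVec_apply, mul_comm]

lemma PQ_one (n : ℕ) : PQ n n (1 : Matrix (Fin n) (Fin n) ℂ) :=
  ⟨Matrix.isHermitian_one, by simp, by simp⟩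

lemma mulVec_QQ {n r : ℕ} {Q : Matrix (Fin n) (Fin n) ℂ} (hQ : PQ n r Q) (c : V n) :
    Q.mulVec (Q.mulVec c) = Q.mulVec c := by
  rw [Matrix.mulVec_mulVec, hQ.idem]

lemma upd_PQ {n r : ℕ} {Q : Matrix (Fin n) (Fin n) ℂ} (hQ : PQ n (r + 1) Q) {c : V n}
    (hc : RR Q c ≠ 0) : PQ n r (upd Q c) := by
  set v := Q.mulVec c with hv
  have hvv : star v ⬝ᵥ v = ((RR Q c : ℝ) : ℂ) := star_dot_self v
  have hQv : Q.mulVec v = v := mulVec_QQ hQ c
  have hc' : ((RR Q c : ℝ) : ℂ) ≠ 0 := by exact_mod_cast hc
  have hherm : (Matrix.vecMulVec v (star v)).conjTranspose = Matrix.vecMulVec v (star v) := by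
    rw [Matrix.conjTranspose_vecMulVec, star_star]
  have h1 : Q * Matrix.vecMulVec v (star v) = Matrix.vecMulVec v (star v) := by
    rw [Matrix.mul_vecMulVec, hQv]
  have h2 : Matrix.vecMulVec v (star v) * Q = Matrix.vecMulVec v (star v) := by
    have h3 := congrArg Matrix.conjTranspose h1
    rw [Matrix.conjTranspose_mul, hherm, hQ.herm.eq] at h3
    exact h3
  have h3 : Matrix.vecMulVec v (star v) * Matrix.vecMulVec v (star v) =
      ((RR Q c : ℝ) : ℂ) • Matrix.vecMulVec v (star v) := by
    rw [Matrix.vecMulVec_mul_vecMulVec, hvv, Matrix.vecMulVec_smul]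
  refine ⟨?_, ?_, ?_⟩
  · unfold upd Matrix.IsHermitian
    rw [Matrix.conjTranspose_sub, Matrix.conjTranspose_smul, hQ.herm.eq, ← hv, hherm]
    congr 2
    simp
  · unfold upd
    rw [← hv, sub_mul, mul_sub, mul_sub, hQ.idem, Matrix.mul_smul, Matrix.smul_mul,
      Matrix.smul_mul, Matrix.mul_smul, h1, h2, h3]
    rw [smul_smul, smul_smul]
    have h4 : ((((RR Q c)⁻¹ : ℝ) : ℂ)) * (((RR Q c)⁻¹ : ℝ) : ℂ) * ((RR Q c : ℝ) : ℂ) =
        (((RR Q c)⁻¹ : ℝ) : ℂ) := by
      push_cast
      field_simp
    rw [h4]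
    abel
  · unfold upd
    rw [Matrix.trace_sub, Matrix.trace_smul, ← hv, vv_trace, hvv, hQ.tr]
    push_cast
    rw [smul_eq_mul, inv_mul_cancel₀ hc']
    ring

/-- the law of the first `m` pairs of rows -/
def PP (n m : ℕ) : Measure (Fin m → E n) := Measure.pi fun _ : Fin m => gE n

instance (n m : ℕ) : IsProbabilityMeasure (PP n m) := by unfold PP; infer_instance

/-- appending a pair of rows -/
def sn {n m : ℕ} (p : (Fin m → E n) × E n) : Fin (m + 1) → E n :=
  Fin.snoc (α := fun _ => E n) p.1 p.2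

@[simp] lemma init_sn {n m : ℕ} (p : (Fin m → E n) × E n) :
    Fin.init (α := fun _ => E n) (sn p) = p.1 := by
  unfold sn; exact Fin.init_snoc _ _

@[simp] lemma last_sn {n m : ℕ} (p : (Fin m → E n) × E n) : sn p (Fin.last m) = p.2 := by
  unfold sn; exact Fin.snoc_last _ _

lemma mp_sn (n m : ℕ) : MeasurePreserving (sn : (Fin m → E n) × E n → (Fin (m + 1) → E n))
    ((PP n m).prod (gE n)) (PP n (m + 1)) := by
  have h := (measurePreserving_piFinSuccAbove (fun _ : Fin (m + 1) => gE n) (Fin.last m)).symm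
  have h2 : (fun p : (Fin m → E n) × E n =>
      (MeasurableEquiv.piFinSuccAbove (fun _ : Fin (m + 1) => E n) (Fin.last m)).symm p.swap) =
      sn := by
    funext p
    show Fin.insertNth (α := fun _ => E n) (Fin.last m) p.2 p.1 = _
    rw [Fin.insertNth_last']
    rfl
  rw [← h2]
  exact h.comp Measure.measurePreserving_swap

/-- the projections -/
def QQ {n : ℕ} (a b : ℂ) : (m : ℕ) → (Fin m → E n) → Matrix (Fin n) (Fin n) ℂ
  | 0, _ => 1
  | m + 1, w => upd (QQ a b m (Fin.init (α := fun _ => E n) w)) (cx a b (w (Fin.last m)))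

lemma QQ_sn {n m : ℕ} (a b : ℂ) (p : (Fin m → E n) × E n) :
    QQ a b (m + 1) (sn p) = upd (QQ a b m p.1) (cx a b p.2) := by
  rw [QQ, init_sn, last_sn]

/-- the next squared length -/
def Rn {n : ℕ} (a b : ℂ) (m : ℕ) (p : (Fin m → E n) × E n) : ℝ := RR (QQ a b m p.1) (cx a b p.2)

lemma meas_init {n m : ℕ} : Measurable (fun w : Fin (m + 1) → E n =>
    (Fin.init (α := fun _ => E n) w, w (Fin.last m))) := by
  refine Measurable.prodMk ?_ (measurable_pi_apply _)
  exact measurable_pi_lambda _ fun i => measurable_pi_apply _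

lemma meas_RR {α : Type*} [MeasurableSpace α] {n : ℕ} {Q : α → Matrix (Fin n) (Fin n) ℂ}
    {c : α → V n} (hQ : ∀ i j, Measurable fun x => Q x i j) (hc : ∀ i, Measurable fun x => c x i) :
    Measurable fun x => RR (Q x) (c x) := by
  unfold RR Matrix.mulVec dotProduct
  refine Finset.measurable_fun_sum _ fun i _ => ?_
  refine Measurable.pow_const ?_ 2
  refine Measurable.norm ?_
  exact Finset.measurable_fun_sum _ fun j _ => (hQ i j).mul (hc j)

lemma meas_upd {α : Type*} [MeasurableSpace α] {n : ℕ} {Q : α → Matrix (Fin n) (Fin n) ℂ}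
    {c : α → V n} (hQ : ∀ i j, Measurable fun x => Q x i j) (hc : ∀ i, Measurable fun x => c x i)
    (i j : Fin n) : Measurable fun x => upd (Q x) (c x) i j := by
  have h1 := meas_RR hQ hc
  have h2 : ∀ i, Measurable fun x => (Q x).mulVec (c x) i := by
    intro i
    unfold Matrix.mulVec dotProduct
    exact Finset.measurable_fun_sum _ fun j _ => (hQ i j).mul (hc j)
  unfold upd
  simp only [Matrix.sub_apply, Matrix.smul_apply, Matrix.vecMulVec_apply, Pi.star_apply,
    smul_eq_mul]
  refine (hQ i j).sub ?_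
  refine Measurable.mul ?_ ((h2 i).mul ?_)
  · exact Complex.measurable_ofReal.comp h1.inv
  · exact Complex.continuous_conj.measurable.comp (h2 j)

lemma meas_QQ {n : ℕ} (a b : ℂ) (m : ℕ) (i j : Fin n) :
    Measurable fun w : Fin m → E n => QQ a b m w i j := by
  induction m generalizing i j with
  | zero => unfold QQ; exact measurable_const
  | succ m ih =>
    have h := meas_upd (Q := fun p : (Fin m → E n) × E n => QQ a b m p.1)
      (c := fun p => cx a b p.2) (fun i j => (ih i j).comp measurable_fst)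
      (fun i => by unfold cx; fun_prop) i j
    exact h.comp meas_init

lemma meas_Rn {n : ℕ} (a b : ℂ) (m : ℕ) : Measurable (Rn (n := n) a b m) :=
  meas_RR (fun i j => (meas_QQ a b m i j).comp measurable_fst) (fun i => by unfold cx; fun_prop)

lemma meas_forall2 {α : Type*} [MeasurableSpace α] {n : ℕ} {p : Fin n → Fin n → α → Prop}
    (h : ∀ i j, MeasurableSet {x | p i j x}) : MeasurableSet {x | ∀ i j, p i j x} := by
  have e : {x | ∀ i j, p i j x} = ⋂ i, ⋂ j, {x | p i j x} := by
    ext x
    simp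
  rw [e]
  exact MeasurableSet.iInter fun i => MeasurableSet.iInter fun j => h i j

/-- almost surely the `m`-th projection has rank `n - m` -/
lemma ae_PQ {n : ℕ} {a b : ℂ} (hab : ‖a‖ ^ 2 + ‖b‖ ^ 2 = 1) (m : ℕ) (hm : m ≤ n) :
    ∀ᵐ w ∂PP n m, PQ n (n - m) (QQ a b m w) := by
  induction m with
  | zero =>
    refine Eventually.of_forall fun w => ?_
    unfold QQ
    simpa using PQ_one n
  | succ m ih =>
    have ih' := ih (by omega)
    have hpos : ∀ᵐ p ∂(PP n m).prod (gE n), Rn a b m p ≠ 0 := by
      have hms : MeasurableSet {p : (Fin m → E n) × E n | Rn a b m p ≠ 0} :=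
        (meas_Rn a b m) (measurableSet_singleton (0 : ℝ)).compl
      rw [Measure.ae_prod_iff_ae_ae hms]
      filter_upwards [ih'] with w hw
      have h1 := law_cx hw hab
      have h2 := gam_pos (r := n - m) (by omega)
      rw [← h1] at h2
      have h3 := ae_of_ae_map (measurable_RRcx _ a b).aemeasurable h2
      filter_upwards [h3] with e he
      exact ne_of_gt he
    have hP : ∀ᵐ p ∂(PP n m).prod (gE n), PQ n (n - m) (QQ a b m p.1) :=
      (Measure.quasiMeasurePreserving_fst).ae ih'
    have h4 : ∀ᵐ p ∂(PP n m).prod (gE n), PQ n (n - (m + 1)) (QQ a b (m + 1) (sn p)) := by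
      filter_upwards [hpos, hP] with p h1 h2
      rw [QQ_sn]
      have e : n - m = (n - (m + 1)) + 1 := by omega
      rw [e] at h2
      exact upd_PQ h2 h1
    -- transfer
    have hset : MeasurableSet {w : Fin (m + 1) → E n | PQ n (n - (m + 1)) (QQ a b (m + 1) w)} := by
      have e : {w : Fin (m + 1) → E n | PQ n (n - (m + 1)) (QQ a b (m + 1) w)} =
          {w | (∀ i j, conj (QQ a b (m + 1) w j i) = QQ a b (m + 1) w i j) ∧
            (∀ i j, ∑ k, QQ a b (m + 1) w i k * QQ a b (m + 1) w k j = QQ a b (m + 1) w i j) ∧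
            ∑ i, QQ a b (m + 1) w i i = ((n - (m + 1) : ℕ) : ℂ)} := by
        ext w
        constructor
        · intro h
          refine ⟨fun i j => ?_, fun i j => ?_, ?_⟩
          · exact congrFun (congrFun h.herm i) j
          · have := congrFun (congrFun h.idem i) j
            rwa [Matrix.mul_apply] at this
          · exact h.tr
        · rintro ⟨h1, h2, h3⟩
          refine ⟨?_, ?_, h3⟩
          · ext i j
            exact h1 i j
          · ext i j
            rw [Matrix.mul_apply]
            exact h2 i j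
      rw [e]
      have hq := meas_QQ (n := n) a b (m + 1)
      refine MeasurableSet.inter ?_ (MeasurableSet.inter ?_ ?_)
      · refine meas_forall2 fun i j => ?_
        exact measurableSet_eq_fun (Complex.continuous_conj.measurable.comp (hq j i)) (hq i j)
      · refine meas_forall2 fun i j => ?_
        exact measurableSet_eq_fun
          (Finset.measurable_fun_sum _ fun k _ => (hq i k).mul (hq k j)) (hq i j)
      · exact measurableSet_eq_fun (Finset.measurable_fun_sum _ fun i _ => hq i i) measurable_const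
    rw [← (mp_sn n m).map_eq, ae_map_iff (mp_sn n m).measurable.aemeasurable hset]
    exact h4

end

end Pool.Agent.K7.H95.GMC
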