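import Pool.Agent.K7.H95.GMC.Defs
import Pool.Agent.K7.H95.GMC.Proc

/-!
MP_55470d_pr (helper95): further pieces, the geometry of the sphere and the final assembly.
-/

set_option autoImplicit false

open MeasureTheory Complex Filter Topology
open scoped ENNReal NNReal BoundedContinuousFunction

namespace Pool.Agent.K7.H95.GMC

open Pool.Agent.R923.SE Pool.Agent.R923.SE.NX

noncomputable section

/-- spinor coordinates `(a, b)` of a point of the sphere (`T(u) = -b / a`), first coordinate -/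
def sa (u : S2) : ℂ := ((√((1 - (u : R3) 2) / 2) : ℝ) : ℂ)

/-- spinor coordinates, second coordinate -/
def sb (u : S2) : ℂ := if (u : R3) 2 = 1 then -1 else
  -((((u : R3) 0 : ℝ) : ℂ) + (((u : R3) 1 : ℝ) : ℂ) * I) / ((√(2 * (1 - (u : R3) 2)) : ℝ) : ℂ)

/-- `|det (a A + b B)|^{2p} / E |det (a A + b B)|^{2p}` -/
def Nh (n : ℕ) (p : ℝ) (u : S2) (x : Mt n n × Mt n n) : ℝ :=
  ‖dt (sa u • x.1 + sb u • x.2)‖ ^ (2 * p) / (NN n p).re

/-- GEO: elementary geometry of the sphere in spinor coordinates -/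
def S_GEO : Prop := Measurable sa ∧ Measurable sb ∧ (∀ u, ‖sa u‖ ^ 2 + ‖sb u‖ ^ 2 = 1) ∧
  (∀ u v : S2, ‖sa v * (starRingEnd ℂ) (sa u) + sb v * (starRingEnd ℂ) (sb u)‖ ^ 2 =
    1 - ‖(u : R3) - (v : R3)‖ ^ 2 / 4) ∧
  ∀ (u : S2) (w : ℂ), ‖(u : R3) - (Tinv w : R3)‖ ^ 2 / 4 = ‖sa u * w + sb u‖ ^ 2 / (1 + ‖w‖ ^ 2)

/-- CONV: convergence of the characteristic functionals of the random measures with density
`Nh`, and their boundedness in `L²` -/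
def S_CONV : Prop := ∀ p : ℝ, 0 < p → p < 1 →
  (∀ f : C(S2, ℝ), ∃ c : ℂ, Tendsto (fun n : ℕ => ∫ x,
    cexp (((∫ u, f u * Nh n p u x ∂nu : ℝ) : ℂ) * I) ∂gg n) atTop (𝓝 c)) ∧
  ∃ C : ℝ, ∀ n : ℕ, ∫⁻ x, ENNReal.ofReal ((∫ u, Nh n p u x ∂nu) ^ 2) ∂gg n ≤ ENNReal.ofReal C

open Classical in
/-- `M_{n,γ}` as an element of the space of finite measures -/
def MF {n : ℕ} (γ : ℝ) (x : Mt n n × Mt n n) : FiniteMeasure S2 :=
  if h : IsFiniteMeasure (Mn γ x) then ⟨Mn γ x, h⟩ else 0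

/-- MAIN: the final statement (to be proved from GEO, CONV, IND, ARCH, RM, DEC). The last clause
says that the limit is not degenerate: its intensity is `ν`. -/
def S_MAIN : Prop := ∀ γ : ℝ, 0 < γ → γ < 2 →
  (∀ (n : ℕ) (x : Mt n n × Mt n n), IsFiniteMeasure (Mn γ x)) ∧
  (∀ n : ℕ, @AEMeasurable _ _ (borel (FiniteMeasure S2)) _
    (fun x : Mt n n × Mt n n => MF γ x) (gg n)) ∧
  ∃ (Ω' : Type) (_ : MeasurableSpace Ω') (P' : Measure Ω') (_ : IsProbabilityMeasure P')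
    (G : Ω' → FiniteMeasure S2),
    Measurable[_, borel (FiniteMeasure S2)] G ∧
    (∀ Φ : FiniteMeasure S2 →ᵇ ℝ,
      Tendsto (fun n : ℕ => ∫ x : Mt n n × Mt n n, Φ (MF γ x) ∂gg n) atTop
        (𝓝 (∫ ω, Φ (G ω) ∂P'))) ∧
    ∀ f : C(S2, ℝ), Integrable (fun ω => ∫ u, f u ∂(G ω : Measure S2)) P' ∧
      ∫ ω, ∫ u, f u ∂(G ω : Measure S2) ∂P' = ∫ u, f u ∂nu

/-- the product of the squared distances of Gram-Schmidt, for the first `m` rows of `a A + b B` -/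
def DM {n : ℕ} (a b : ℂ) : (m : ℕ) → (Fin m → E n) → ℝ
  | 0, _ => 1
  | m + 1, w => DM a b m (Fin.init (α := fun _ => E n) w) *
      RR (QQ a b m (Fin.init (α := fun _ => E n) w)) (cx a b (w (Fin.last m)))

/-- GS: Gram-Schmidt -/
def S_GS : Prop := ∀ (n : ℕ) (a b : ℂ), ‖a‖ ^ 2 + ‖b‖ ^ 2 = 1 → ∀ᵐ w ∂PP n n,
  DM a b n w = ‖dt (a • (fun i => (w i).1 : Mt n n) + b • (fun i => (w i).2 : Mt n n))‖ ^ 2

end

end Pool.Agent.K7.H95.GMC
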