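import Pool.Agent.K7.H95.GMC.Defs2

/-!
MP_55470d_pr (helper95): pieces of CONV.
-/

set_option autoImplicit false

open MeasureTheory Complex Filter Topology
open scoped ENNReal NNReal BoundedContinuousFunction

namespace Pool.Agent.K7.H95.GMC

open Pool.Agent.R923.SE Pool.Agent.R923.SE.NX

noncomputable section

/-- normalising constant of the truncated determinants -/
def ZM (n : ℕ) (p : ℝ) (m : ℕ) : ℝ :=
  ∏ j ∈ Finset.range m, Real.Gamma (((n - j : ℕ) : ℝ) + p) / Real.Gamma ((n - j : ℕ) : ℝ)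

/-- truncated normalised determinants -/
def NM (n : ℕ) (p : ℝ) (m : ℕ) (u : S2) (w : Fin m → E n) : ℝ :=
  DM (sa u) (sb u) m w ^ p / ZM n p m

/-- integral of `f` against the truncated measure -/
def XM (n : ℕ) (p : ℝ) (m : ℕ) (f : S2 → ℝ) (w : Fin m → E n) : ℝ := ∫ u, f u * NM n p m u w ∂nu

/-- integral of `f` against the measure with density `Nh` -/
def XN (n : ℕ) (p : ℝ) (f : S2 → ℝ) (x : Mt n n × Mt n n) : ℝ := ∫ u, f u * Nh n p u x ∂nu

/-- GS2: Gram-Schmidt, for all matrices (no positivity is needed, `upd Q c = Q` if `Q c = 0`) -/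
def S_GS2 : Prop := ∀ (n : ℕ) (a b : ℂ) (w : Fin n → E n),
  DM a b n w = ‖dt (a • (fun i => (w i).1 : Mt n n) + b • (fun i => (w i).2 : Mt n n))‖ ^ 2

/-- L2: second moments, from the two point function -/
def S_L2 : Prop := ∀ p : ℝ, 0 < p → p < 1 → ∀ f : C(S2, ℝ),
  (∀ n, Integrable (fun x => XN n p f x ^ 2) (gg n)) ∧
  Integrable (fun z : S2 × S2 => f z.1 * f z.2 * (‖(z.1 : R3) - (z.2 : R3)‖ ^ 2 / 4) ^ (-(p ^ 2)))
    (nu.prod nu) ∧
  Tendsto (fun n => ∫ x, XN n p f x ^ 2 ∂gg n) atTop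
    (𝓝 (∫ z : S2 × S2, f z.1 * f z.2 * (‖(z.1 : R3) - (z.2 : R3)‖ ^ 2 / 4) ^ (-(p ^ 2))
      ∂nu.prod nu))

/-- TOP: the full determinant -/
def S_TOP : Prop := ∀ n : ℕ,
  MeasurePreserving (fun w : Fin n → E n =>
    ((fun i => (w i).1, fun i => (w i).2) : Mt n n × Mt n n)) (PP n n) (gg n) ∧
  ∀ p : ℝ, 0 < p → ∀ (f : S2 → ℝ) (w : Fin n → E n),
    XM n p n f w = XN n p f (fun i => (w i).1, fun i => (w i).2)

/-- MART: orthogonality of martingale increments -/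
def S_MART : Prop := ∀ (n : ℕ) (p : ℝ), 0 < p → p < 1 → ∀ (f : C(S2, ℝ)) (m : ℕ) (hm : m ≤ n),
  Integrable (fun w : Fin m → E n => XM n p m f w ^ 2) (PP n m) ∧
  ∫ w : Fin n → E n, (XM n p n f w - XM n p m f (fun i => w (Fin.castLE hm i))) ^ 2 ∂PP n n =
    ∫ w, XM n p n f w ^ 2 ∂PP n n - ∫ w, XM n p m f w ^ 2 ∂PP n m

end

end Pool.Agent.K7.H95.GMC
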