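import Pool.Agent.K7.H95.GMC.One

/-!
MP_55470d_pr (helper95): the squared length of the projection of a complex Gaussian row is
Gamma distributed.
-/

set_option autoImplicit false

open MeasureTheory Complex Filter Topology
open scoped ENNReal NNReal ComplexConjugate

namespace Pool.Agent.K7.H95.GMC

open Pool.Agent.R923.SE Pool.Agent.R923.SE.NX

noncomputable section

lemma mp_mulVec {n : ℕ} (U : Matrix (Fin n) (Fin n) ℂ) (hU : U ∈ Matrix.unitaryGroup (Fin n) ℂ) :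
    MeasurePreserving (fun c : V n => U.mulVec c) (rw n) (rw n) := by
  have h := s_UL n 1 U hU
  have hπ : MeasurePreserving (fun (B : Mt n 1) (i : Fin n) => B i 0) (gau n 1) (rw n) :=
    measurePreserving_pi (fun _ : Fin n => rw 1) (fun _ : Fin n => cg)
      (f := fun _ b => b 0) (fun _ => measurePreserving_eval (fun _ : Fin 1 => cg) 0)
  have hm : Measurable (fun c : V n => U.mulVec c) := by
    unfold Matrix.mulVec dotProduct; fun_prop
  refine ⟨hm, ?_⟩
  have e2 : ((fun c : V n => U.mulVec c) ∘ (fun (B : Mt n 1) (i : Fin n) => B i 0)) =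
      (fun (B : Mt n 1) (i : Fin n) => B i 0) ∘
      (fun (B : Mt n 1) (i : Fin n) (j : Fin 1) => ∑ l, U i l * B l j) := by
    funext B i
    simp [Matrix.mulVec, dotProduct]
  rw [← hπ.map_eq, Measure.map_map hm hπ.measurable, e2, ← Measure.map_map hπ.measurable
    h.measurable, h.map_eq]

/-- orthogonal projections of rank `r` -/
structure PQ (n r : ℕ) (Q : Matrix (Fin n) (Fin n) ℂ) : Prop where
  herm : Q.IsHermitian
  idem : Q * Q = Q
  tr : Q.trace = (r : ℂ)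

/-- squared length of the projection -/
def RR {n : ℕ} (Q : Matrix (Fin n) (Fin n) ℂ) (c : V n) : ℝ := ∑ i, ‖(Q.mulVec c) i‖ ^ 2

lemma RR_nonneg {n : ℕ} (Q : Matrix (Fin n) (Fin n) ℂ) (c : V n) : 0 ≤ RR Q c :=
  Finset.sum_nonneg fun _ _ => by positivity

@[fun_prop]
lemma continuous_RR {n : ℕ} : Continuous (fun x : Matrix (Fin n) (Fin n) ℂ × V n => RR x.1 x.2) := by
  unfold RR Matrix.mulVec dotProduct
  fun_prop

lemma bf_eq {n : ℕ} (M : Matrix (Fin n) (Fin n) ℂ) (c d : V n) :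
    bf M c d = star c ⬝ᵥ M.mulVec d := by
  unfold bf dotProduct Matrix.mulVec dotProduct
  refine Finset.sum_congr rfl fun i _ => ?_
  rw [Finset.mul_sum]
  refine Finset.sum_congr rfl fun j _ => ?_
  simp [mul_assoc]

lemma RR_eq {n r : ℕ} {Q : Matrix (Fin n) (Fin n) ℂ} (hQ : PQ n r Q) (c : V n) :
    ((RR Q c : ℝ) : ℂ) = bf Q c c := by
  have h1 : ((RR Q c : ℝ) : ℂ) = star (Q.mulVec c) ⬝ᵥ (Q.mulVec c) := by
    unfold RR dotProduct
    push_cast
    refine Finset.sum_congr rfl fun i _ => ?_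
    rw [Pi.star_apply, RCLike.star_def, Complex.conj_mul']
  rw [h1, bf_eq, Matrix.star_mulVec, Matrix.dotProduct_mulVec, Matrix.vecMul_vecMul, hQ.herm.eq,
    hQ.idem, ← Matrix.dotProduct_mulVec]

/-- the Gamma law, as the law of the squared length of a row -/
def gam (r : ℕ) : Measure ℝ := Measure.map (fun a : V r => rn a ^ 2) (rw r)

lemma measurable_rnsq (r : ℕ) : Measurable (fun a : V r => rn a ^ 2) :=
  ((continuous_rn r).pow 2).measurable

instance (r : ℕ) : IsProbabilityMeasure (gam r) :=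
  Measure.isProbabilityMeasure_map (measurable_rnsq r).aemeasurable

lemma eig01 {n r : ℕ} {Q : Matrix (Fin n) (Fin n) ℂ} (hQ : PQ n r Q) (i : Fin n) :
    hQ.herm.eigenvalues i = 0 ∨ hQ.herm.eigenvalues i = 1 := by
  set lam := hQ.herm.eigenvalues with hlam
  have hv := hQ.herm.mulVec_eigenvectorBasis i
  set v : V n := (hQ.herm.eigenvectorBasis i).ofLp with hvdef
  have hne : v ≠ 0 := by
    intro h0
    have h1 : hQ.herm.eigenvectorBasis i = 0 := by
      have := congrArg (WithLp.toLp 2) h0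
      simpa [hvdef] using this
    have h2 := hQ.herm.eigenvectorBasis.orthonormal.1 i
    rw [h1, norm_zero] at h2
    exact zero_ne_one h2
  have h3 : Q.mulVec (Q.mulVec v) = Q.mulVec v := by rw [Matrix.mulVec_mulVec, hQ.idem]
  rw [hv, Matrix.mulVec_smul, hv, smul_smul] at h3
  obtain ⟨k, hk⟩ : ∃ k, v k ≠ 0 := by
    by_contra hc
    push Not at hc
    exact hne (funext hc)
  have h4 := congrFun h3 k
  simp only [Pi.smul_apply, Complex.real_smul] at h4
  have h5 : ((lam i * lam i : ℝ) : ℂ) = ((lam i : ℝ) : ℂ) := mul_right_cancel₀ hk h4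
  have h6 : lam i * lam i = lam i := by exact_mod_cast h5
  rcases eq_or_ne (lam i) 0 with h | h
  · exact Or.inl h
  · right
    exact mul_right_cancel₀ h (by rw [h6, one_mul])

lemma bf_conj {n : ℕ} (U D : Matrix (Fin n) (Fin n) ℂ) (c : V n) :
    bf (U * D * star U) c c = bf D ((star U).mulVec c) ((star U).mulVec c) := by
  rw [bf_eq, bf_eq, Matrix.star_mulVec, ← Matrix.dotProduct_mulVec, Matrix.mulVec_mulVec,
    Matrix.mulVec_mulVec, Matrix.star_eq_conjTranspose, Matrix.conjTranspose_conjTranspose]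

lemma bf_diag {n : ℕ} (lam : Fin n → ℝ) (c : V n) :
    bf (Matrix.diagonal (fun i => ((lam i : ℝ) : ℂ))) c c = ((∑ i, lam i * ‖c i‖ ^ 2 : ℝ) : ℂ) := by
  rw [bf_eq]
  unfold dotProduct
  push_cast
  refine Finset.sum_congr rfl fun i _ => ?_
  rw [Matrix.mulVec_diagonal, Pi.star_apply, RCLike.star_def, ← Complex.conj_mul']
  ring

lemma exists_diag {n r : ℕ} {Q : Matrix (Fin n) (Fin n) ℂ} (hQ : PQ n r Q) :
    ∃ (U : Matrix (Fin n) (Fin n) ℂ) (lam : Fin n → ℝ), star U ∈ Matrix.unitaryGroup (Fin n) ℂ ∧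
      (∀ i, lam i = 0 ∨ lam i = 1) ∧ (∑ i, lam i = r) ∧
      ∀ c : V n, RR Q c = ∑ i, lam i * ‖((star U).mulVec c) i‖ ^ 2 := by
  refine ⟨(hQ.herm.eigenvectorUnitary : Matrix (Fin n) (Fin n) ℂ), hQ.herm.eigenvalues,
    (star hQ.herm.eigenvectorUnitary).2, eig01 hQ, ?_, ?_⟩
  · have h1 := hQ.tr
    rw [hQ.herm.trace_eq_sum_eigenvalues] at h1
    apply Complex.ofReal_injective
    push_cast
    exact h1
  · intro c
    have h1 := RR_eq hQ c
    have hspec := hQ.herm.spectral_theorem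
    rw [Unitary.conjStarAlgAut_apply] at hspec
    have h2 : bf Q c c = bf (Matrix.diagonal (fun i => ((hQ.herm.eigenvalues i : ℝ) : ℂ)))
        ((star (hQ.herm.eigenvectorUnitary : Matrix (Fin n) (Fin n) ℂ)).mulVec c)
        ((star (hQ.herm.eigenvectorUnitary : Matrix (Fin n) (Fin n) ℂ)).mulVec c) := by
      rw [← bf_conj]
      congr 1
    rw [h2, bf_diag] at h1
    exact_mod_cast h1

lemma law_RR {n r : ℕ} {Q : Matrix (Fin n) (Fin n) ℂ} (hQ : PQ n r Q) :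
    Measure.map (RR Q) (rw n) = gam r := by
  obtain ⟨U, lam, hUm, h01, hlamsum, hform⟩ := exists_diag hQ
  -- the set of eigenvalues one
  let p : Fin n → Prop := fun i => lam i = 1
  have hdec : DecidablePred p := Classical.decPred p
  have hsum : ∀ d : V n, ∑ i, lam i * ‖d i‖ ^ 2 = ∑ i : {i // p i}, ‖d i‖ ^ 2 := by
    intro d
    rw [← Finset.sum_subtype (Finset.univ.filter p) (by simp) (fun i => ‖d i‖ ^ 2),
      Finset.sum_filter]
    refine Finset.sum_congr rfl fun i _ => ?_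
    rcases h01 i with h | h
    · have hp : ¬ p i := by
        show ¬ lam i = 1
        rw [h]; norm_num
      rw [if_neg hp, h, zero_mul]
    · have hp : p i := h
      rw [if_pos hp, h, one_mul]
  have hcard : Fintype.card {i // p i} = r := by
    have h3 : ∑ i, lam i = (Fintype.card {i // p i} : ℝ) := by
      have h4 := hsum (fun _ => 1)
      simp only [norm_one, one_pow, mul_one, Finset.sum_const, Finset.card_univ, nsmul_eq_mul] at h4
      exact h4
    rw [hlamsum] at h3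
    exact_mod_cast h3.symm
  let eq : {i // p i} ≃ Fin r := Fintype.equivFinOfCardEq hcard
  -- restriction to the coordinates
  have hmp1 : MeasurePreserving (fun (d : V n) (i : {i // p i}) => d i) (rw n)
      (Measure.pi fun _ : {i // p i} => cg) := by
    have h := measurePreserving_piEquivPiSubtypeProd (fun _ : Fin n => cg) p
    exact measurePreserving_fst.comp h
  have hmp2 : MeasurePreserving (MeasurableEquiv.piCongrLeft (fun _ : Fin r => ℂ) eq)
      (Measure.pi fun _ : {i // p i} => cg) (rw r) :=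
    measurePreserving_piCongrLeft (fun _ : Fin r => cg) eq
  have hmp3 := (hmp2.comp hmp1).comp (mp_mulVec (star U) hUm)
  have hfun : RR Q = (fun a : V r => rn a ^ 2) ∘
      ((MeasurableEquiv.piCongrLeft (fun _ : Fin r => ℂ) eq ∘
        (fun (d : V n) (i : {i // p i}) => d i)) ∘ fun c : V n => (star U).mulVec c) := by
    funext c
    rw [hform, hsum]
    simp only [Function.comp]
    rw [rn_sq]
    rw [← Equiv.sum_comp eq]
    refine Finset.sum_congr rfl fun i _ => ?_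
    have := MeasurableEquiv.piCongrLeft_apply_apply (β := fun _ : Fin r => ℂ) eq
      (fun i : {i // p i} => ((star U).mulVec c) i) i
    rw [this]
  rw [hfun, ← Measure.map_map (measurable_rnsq r) hmp3.measurable, hmp3.map_eq]
  rfl

/-! ### moments of the Gamma law -/

lemma rad_real {m : ℕ} (hm : 0 < m) (q : ℝ) (hq : -(m : ℝ) < q) :
    IntegrableOn (fun y : ℝ => (y ^ (2 * m - 1)) • (((Real.exp (-y ^ 2) * (y ^ 2) ^ q : ℝ)) : ℂ))
      (Set.Ioi 0) ∧
    ∫ y in Set.Ioi (0 : ℝ), (y ^ (2 * m - 1)) • (((Real.exp (-y ^ 2) * (y ^ 2) ^ q : ℝ)) : ℂ) =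
      ((1 / 2 * Real.Gamma (m + q) : ℝ) : ℂ) := by
  have hfun : Set.EqOn (fun y : ℝ => (y ^ (2 * m - 1)) •
      (((Real.exp (-y ^ 2) * (y ^ 2) ^ q : ℝ)) : ℂ))
      (fun y : ℝ => ((y ^ (2 * (m : ℝ) - 1 + 2 * q) * Real.exp (-y ^ (2 : ℝ)) : ℝ) : ℂ))
      (Set.Ioi 0) := by
    intro y hy
    have hy0 : 0 < y := hy
    simp only
    rw [Complex.real_smul, ← Complex.ofReal_mul]
    congr 1
    have h1 : y ^ (2 * m - 1) = y ^ (2 * (m : ℝ) - 1) := by
      rw [← Real.rpow_natCast, Nat.cast_sub (by omega)]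
      push_cast
      rfl
    have h2 : (y ^ 2) ^ q = y ^ (2 * q) := by
      rw [← Real.rpow_natCast, ← Real.rpow_mul hy0.le]
      norm_num
    rw [h1, h2, Real.rpow_add hy0, Real.rpow_two]
    ring
  have hs : -1 < 2 * (m : ℝ) - 1 + 2 * q := by linarith
  constructor
  · refine IntegrableOn.congr_fun ?_ hfun.symm measurableSet_Ioi
    exact (integrableOn_rpow_mul_exp_neg_rpow hs (by norm_num : (0 : ℝ) < 2)).ofReal
  · rw [setIntegral_congr_fun measurableSet_Ioi hfun, integral_complex_ofReal,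
      integral_rpow_mul_exp_neg_rpow (by norm_num : (0 : ℝ) < 2) hs]
    congr 2
    congr 1
    ring

lemma row_real {m : ℕ} (hm : 0 < m) (q : ℝ) (hq : -(m : ℝ) < q) :
    Integrable (fun a : V m => (((rn a ^ 2) ^ q : ℝ) : ℂ)) (rw m) ∧
    ∫ a, (((rn a ^ 2) ^ q : ℝ) : ℂ) ∂rw m = ((Real.Gamma (m + q) / Real.Gamma m : ℝ) : ℂ) := by
  obtain ⟨c, hc⟩ := radial hm
  have key : ∀ q : ℝ, -(m : ℝ) < q → Integrable (fun a : V m => (((rn a ^ 2) ^ q : ℝ) : ℂ)) (rw m) ∧
      ∫ a, (((rn a ^ 2) ^ q : ℝ) : ℂ) ∂rw m = (1 / (Real.pi : ℂ) ^ m) * (c *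
        ((1 / 2 * Real.Gamma (m + q) : ℝ) : ℂ)) := by
    intro q hq
    obtain ⟨r1, r2⟩ := rad_real hm q hq
    obtain ⟨c1, c2⟩ := hc (fun y => ((Real.exp (-y ^ 2) * (y ^ 2) ^ q : ℝ) : ℂ))
    obtain ⟨w1, w2⟩ := row_integral s_DEN m (fun a : V m => (((rn a ^ 2) ^ q : ℝ) : ℂ))
    have hfun : (fun a : V m => (Real.exp (-∑ i, ‖a i‖ ^ 2) / Real.pi ^ m) •
        (((rn a ^ 2) ^ q : ℝ) : ℂ)) = fun a => (1 / (Real.pi : ℂ) ^ m) *
          ((Real.exp (-rn a ^ 2) * (rn a ^ 2) ^ q : ℝ) : ℂ) := by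
      funext a
      rw [rn_sq, Complex.real_smul]
      push_cast
      ring
    constructor
    · rw [w1, hfun]
      exact (c1.2 r1).const_mul _
    · rw [w2, hfun, integral_const_mul, c2, r2]
  refine ⟨(key q hq).1, ?_⟩
  have h0 := (key 0 (by simpa using hm)).2
  have h1 : ∫ a, (((rn a ^ 2) ^ (0 : ℝ) : ℝ) : ℂ) ∂rw m = 1 := by simp
  rw [h1, add_zero] at h0
  rw [(key q hq).2]
  have hG : Real.Gamma m ≠ 0 := (Real.Gamma_pos_of_pos (by exact_mod_cast hm)).ne'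
  have hG' : ((Real.Gamma m : ℝ) : ℂ) ≠ 0 := by exact_mod_cast hG
  push_cast at h0 ⊢
  rw [eq_div_iff hG']
  linear_combination (-(Real.Gamma (m + q) : ℂ)) * h0

lemma gam_mom {r : ℕ} (hr : 0 < r) (q : ℝ) (hq : -(r : ℝ) < q) :
    Integrable (fun t : ℝ => t ^ q) (gam r) ∧
    ∫ t, t ^ q ∂gam r = Real.Gamma ((r : ℝ) + q) / Real.Gamma (r : ℝ) := by
  obtain ⟨h1, h2⟩ := row_real hr q hq
  have hm : Measurable (fun t : ℝ => t ^ q) := by fun_prop
  constructor
  · rw [gam, integrable_map_measure hm.aestronglyMeasurable (measurable_rnsq r).aemeasurable]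
    have h3 := h1.re
    refine h3.congr (Eventually.of_forall fun a => ?_)
    simp
  · rw [gam, integral_map (measurable_rnsq r).aemeasurable hm.aestronglyMeasurable]
    rw [integral_complex_ofReal] at h2
    exact_mod_cast h2

lemma gam_pos {r : ℕ} (hr : 0 < r) : ∀ᵐ t ∂gam r, 0 < t := by
  obtain ⟨n, rfl⟩ : ∃ n, r = n + 1 := ⟨r - 1, by omega⟩
  rw [gam, ae_map_iff (measurable_rnsq _).aemeasurable measurableSet_Ioi]
  filter_upwards [ae_ne n] with a ha
  exact pow_pos (rn_pos ha) 2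

lemma gam_pow {r : ℕ} (hr : 0 < r) (k : ℕ) :
    Integrable (fun t : ℝ => t ^ k) (gam r) ∧
    ∫ t, t ^ k ∂gam r = Real.Gamma ((r : ℝ) + k) / Real.Gamma (r : ℝ) := by
  have hr' : (0 : ℝ) < r := by exact_mod_cast hr
  have h := gam_mom hr (k : ℝ) (by have : (0 : ℝ) ≤ k := Nat.cast_nonneg k; linarith)
  simp_rw [Real.rpow_natCast] at h
  exact h

lemma gam1 {r : ℕ} (hr : 0 < r) : ∫ t, t ∂gam r = (r : ℝ) := by
  have hr' : (0 : ℝ) < r := by exact_mod_cast hr
  have h := (gam_pow hr 1).2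
  simp only [pow_one, Nat.cast_one] at h
  rw [h, Real.Gamma_add_one hr'.ne']
  field_simp [(Real.Gamma_pos_of_pos hr').ne']

lemma gam2 {r : ℕ} (hr : 0 < r) : ∫ t, t ^ 2 ∂gam r = (r : ℝ) * (r + 1) := by
  have hr' : (0 : ℝ) < r := by exact_mod_cast hr
  have h := (gam_pow hr 2).2
  have e : (r : ℝ) + ((2 : ℕ) : ℝ) = (r + 1) + 1 := by push_cast; ring
  rw [h, e, Real.Gamma_add_one (by positivity), Real.Gamma_add_one hr'.ne']
  have := (Real.Gamma_pos_of_pos hr').ne'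
  field_simp

lemma gam3 {r : ℕ} (hr : 0 < r) : ∫ t, t ^ 3 ∂gam r = (r : ℝ) * (r + 1) * (r + 2) := by
  have hr' : (0 : ℝ) < r := by exact_mod_cast hr
  have h := (gam_pow hr 3).2
  have e : (r : ℝ) + ((3 : ℕ) : ℝ) = ((r + 1) + 1) + 1 := by push_cast; ring
  rw [h, e, Real.Gamma_add_one (by positivity), Real.Gamma_add_one (by positivity),
    Real.Gamma_add_one hr'.ne']
  have := (Real.Gamma_pos_of_pos hr').ne'
  field_simp
  ring

lemma gam4 {r : ℕ} (hr : 0 < r) : ∫ t, t ^ 4 ∂gam r = (r : ℝ) * (r + 1) * (r + 2) * (r + 3) := by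
  have hr' : (0 : ℝ) < r := by exact_mod_cast hr
  have h := (gam_pow hr 4).2
  have e : (r : ℝ) + ((4 : ℕ) : ℝ) = (((r + 1) + 1) + 1) + 1 := by push_cast; ring
  rw [h, e, Real.Gamma_add_one (by positivity), Real.Gamma_add_one (by positivity),
    Real.Gamma_add_one (by positivity), Real.Gamma_add_one hr'.ne']
  have := (Real.Gamma_pos_of_pos hr').ne'
  field_simp
  ring

/-- centred second moment -/
lemma gamu2 {r : ℕ} (hr : 0 < r) : Integrable (fun t : ℝ => (t / r - 1) ^ 2) (gam r) ∧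
    ∫ t, (t / r - 1) ^ 2 ∂gam r = 1 / (r : ℝ) := by
  have hr' : (0 : ℝ) < r := by exact_mod_cast hr
  have i1 := (gam_pow hr 1).1
  have i2 := (gam_pow hr 2).1
  simp only [pow_one] at i1
  have e : (fun t : ℝ => (t / r - 1) ^ 2) = fun t => (1 / (r : ℝ) ^ 2) * t ^ 2 +
      ((-(2 / (r : ℝ))) * t + 1) := by
    funext t; field_simp; ring
  have j1 : Integrable (fun t : ℝ => (1 / (r : ℝ) ^ 2) * t ^ 2) (gam r) := i2.const_mul _
  have j2 : Integrable (fun t : ℝ => (-(2 / (r : ℝ))) * t) (gam r) := i1.const_mul _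
  have j3 : Integrable (fun t : ℝ => (-(2 / (r : ℝ))) * t + 1) (gam r) := j2.add (integrable_const _)
  rw [e]
  refine ⟨j1.add j3, ?_⟩
  rw [integral_add j1 j3, integral_add j2 (integrable_const _), integral_const_mul,
    integral_const_mul, gam1 hr, gam2 hr]
  simp
  field_simp
  ring

lemma gamu4 {r : ℕ} (hr : 0 < r) : Integrable (fun t : ℝ => (t / r - 1) ^ 4) (gam r) ∧
    ∫ t, (t / r - 1) ^ 4 ∂gam r ≤ 9 / (r : ℝ) ^ 2 := by
  have hr' : (0 : ℝ) < r := by exact_mod_cast hr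
  have hr1 : (1 : ℝ) ≤ r := by exact_mod_cast hr
  have i1 := (gam_pow hr 1).1
  have i2 := (gam_pow hr 2).1
  have i3 := (gam_pow hr 3).1
  have i4 := (gam_pow hr 4).1
  simp only [pow_one] at i1
  have e : (fun t : ℝ => (t / r - 1) ^ 4) = fun t => (1 / (r : ℝ) ^ 4) * t ^ 4 +
      ((-(4 / (r : ℝ) ^ 3)) * t ^ 3 + ((6 / (r : ℝ) ^ 2) * t ^ 2 + ((-(4 / (r : ℝ))) * t + 1))) := by
    funext t; field_simp; ring
  have j4 : Integrable (fun t : ℝ => (1 / (r : ℝ) ^ 4) * t ^ 4) (gam r) := i4.const_mul _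
  have j3 : Integrable (fun t : ℝ => (-(4 / (r : ℝ) ^ 3)) * t ^ 3) (gam r) := i3.const_mul _
  have j2 : Integrable (fun t : ℝ => (6 / (r : ℝ) ^ 2) * t ^ 2) (gam r) := i2.const_mul _
  have j1 : Integrable (fun t : ℝ => (-(4 / (r : ℝ))) * t) (gam r) := i1.const_mul _
  have k1 : Integrable (fun t : ℝ => (-(4 / (r : ℝ))) * t + 1) (gam r) := j1.add (integrable_const _)
  have k2 : Integrable (fun t : ℝ => (6 / (r : ℝ) ^ 2) * t ^ 2 + ((-(4 / (r : ℝ))) * t + 1)) (gam r) :=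
    j2.add k1
  have k3 : Integrable (fun t : ℝ => (-(4 / (r : ℝ) ^ 3)) * t ^ 3 + ((6 / (r : ℝ) ^ 2) * t ^ 2 +
    ((-(4 / (r : ℝ))) * t + 1))) (gam r) := j3.add k2
  rw [e]
  refine ⟨j4.add k3, ?_⟩
  rw [integral_add j4 k3, integral_add j3 k2, integral_add j2 k1,
    integral_add j1 (integrable_const _), integral_const_mul, integral_const_mul,
    integral_const_mul, integral_const_mul, gam1 hr, gam2 hr, gam3 hr, gam4 hr]
  have : 1 / (r : ℝ) ^ 4 * (r * (r + 1) * (r + 2) * (r + 3)) +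
      (-(4 / (r : ℝ) ^ 3) * (r * (r + 1) * (r + 2)) + (6 / (r : ℝ) ^ 2 * (r * (r + 1)) +
      (-(4 / (r : ℝ)) * r + ∫ _ : ℝ, (1 : ℝ) ∂gam r))) = (3 * r + 6) / (r : ℝ) ^ 3 := by
    simp
    field_simp
    ring
  rw [this, div_le_div_iff₀ (by positivity) (by positivity)]
  nlinarith [pow_pos hr' 2, pow_pos hr' 3]

lemma log_gap {t r : ℝ} (ht : 0 < t) (hr : 0 < r) :
    (Real.log t - Real.log r - (t / r - 1)) ^ 2 ≤
      (1 / r ^ 2) * t ^ 2 + (-(4 / r) * t + (6 + (-(4 * r) * t ^ (-1 : ℝ) + r ^ 2 * t ^ (-2 : ℝ)))) := by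
  have hx : 0 < t / r := div_pos ht hr
  have h1 : Real.log t - Real.log r = Real.log (t / r) := (Real.log_div ht.ne' hr.ne').symm
  rw [h1]
  set x := t / r with hxd
  have h2 : Real.log x ≤ x - 1 := Real.log_le_sub_one_of_pos hx
  have h3 : 1 - x⁻¹ ≤ Real.log x := Real.one_sub_inv_le_log_of_pos hx
  have h4 : 0 ≤ (x - 1) - Real.log x := by linarith
  have h5 : (x - 1) - Real.log x ≤ (x - 1) ^ 2 / x := by
    have : (x - 1) ^ 2 / x = (x - 1) - (1 - x⁻¹) := by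
      have hx0 : x ≠ 0 := hx.ne'
      field_simp
      try ring
    rw [this]
    linarith
  have h6 : (Real.log x - (x - 1)) ^ 2 ≤ ((x - 1) ^ 2 / x) ^ 2 := by
    have : (Real.log x - (x - 1)) ^ 2 = ((x - 1) - Real.log x) ^ 2 := by ring
    rw [this]
    exact pow_le_pow_left₀ h4 h5 2
  refine h6.trans (le_of_eq ?_)
  have e1 : t ^ (-1 : ℝ) = t⁻¹ := Real.rpow_neg_one t
  have e2 : t ^ (-2 : ℝ) = (t ^ 2)⁻¹ := by
    rw [Real.rpow_neg ht.le, Real.rpow_two]
  rw [e1, e2, hxd]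
  field_simp
  ring

lemma gamul {r : ℕ} (hr : 3 ≤ r) :
    Integrable (fun t : ℝ => (Real.log t - Real.log r - (t / r - 1)) ^ 2) (gam r) ∧
    ∫ t, (Real.log t - Real.log r - (t / r - 1)) ^ 2 ∂gam r ≤ 17 / (r : ℝ) ^ 2 := by
  have hr0 : 0 < r := by omega
  have hr' : (0 : ℝ) < r := by exact_mod_cast hr0
  have hr3 : (3 : ℝ) ≤ r := by exact_mod_cast hr
  have i1 := (gam_pow hr0 1).1
  have i2 := (gam_pow hr0 2).1
  have i3 := gam_mom hr0 (-1) (by linarith)
  have i4 := gam_mom hr0 (-2) (by linarith)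
  simp only [pow_one] at i1
  have m1 : ∫ t, t ^ (-1 : ℝ) ∂gam r = 1 / ((r : ℝ) - 1) := by
    rw [i3.2]
    have e : Real.Gamma (r : ℝ) = ((r : ℝ) - 1) * Real.Gamma ((r : ℝ) + -1) := by
      have h := Real.Gamma_add_one (s := (r : ℝ) + -1) (by linarith)
      have e1 : (r : ℝ) + -1 + 1 = r := by ring
      rw [e1] at h
      rw [h]
      ring
    have h0 : Real.Gamma ((r : ℝ) + -1) ≠ 0 := (Real.Gamma_pos_of_pos (by linarith)).ne'
    rw [e]
    have : (r : ℝ) - 1 ≠ 0 := by linarith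
    field_simp
  have m2 : ∫ t, t ^ (-2 : ℝ) ∂gam r = 1 / (((r : ℝ) - 1) * ((r : ℝ) - 2)) := by
    rw [i4.2]
    have e : Real.Gamma (r : ℝ) = ((r : ℝ) - 1) * (((r : ℝ) - 2) * Real.Gamma ((r : ℝ) + -2)) := by
      have h := Real.Gamma_add_one (s := (r : ℝ) + -1) (by linarith)
      have h' := Real.Gamma_add_one (s := (r : ℝ) + -2) (by linarith)
      have e1 : (r : ℝ) + -1 + 1 = r := by ring
      have e2 : (r : ℝ) + -2 + 1 = (r : ℝ) + -1 := by ring
      rw [e1] at h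
      rw [e2] at h'
      rw [h, h']
      ring
    have h0 : Real.Gamma ((r : ℝ) + -2) ≠ 0 := (Real.Gamma_pos_of_pos (by linarith)).ne'
    rw [e]
    have h1 : (r : ℝ) - 1 ≠ 0 := by linarith
    have h2 : (r : ℝ) - 2 ≠ 0 := by linarith
    field_simp
  have j2 : Integrable (fun t : ℝ => (1 / (r : ℝ) ^ 2) * t ^ 2) (gam r) := i2.const_mul _
  have j1 : Integrable (fun t : ℝ => (-(4 / (r : ℝ))) * t) (gam r) := i1.const_mul _
  have j3 : Integrable (fun t : ℝ => (-(4 * (r : ℝ))) * t ^ (-1 : ℝ)) (gam r) := i3.1.const_mul _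
  have j4 : Integrable (fun t : ℝ => (r : ℝ) ^ 2 * t ^ (-2 : ℝ)) (gam r) := i4.1.const_mul _
  have k4 : Integrable (fun t : ℝ => (-(4 * (r : ℝ))) * t ^ (-1 : ℝ) + (r : ℝ) ^ 2 * t ^ (-2 : ℝ))
    (gam r) := j3.add j4
  have k3 : Integrable (fun t : ℝ => 6 + ((-(4 * (r : ℝ))) * t ^ (-1 : ℝ) +
    (r : ℝ) ^ 2 * t ^ (-2 : ℝ))) (gam r) := (integrable_const _).add k4
  have k2 : Integrable (fun t : ℝ => (-(4 / (r : ℝ))) * t + (6 + ((-(4 * (r : ℝ))) * t ^ (-1 : ℝ) +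
    (r : ℝ) ^ 2 * t ^ (-2 : ℝ)))) (gam r) := j1.add k3
  have k1 : Integrable (fun t : ℝ => (1 / (r : ℝ) ^ 2) * t ^ 2 + ((-(4 / (r : ℝ))) * t + (6 +
    ((-(4 * (r : ℝ))) * t ^ (-1 : ℝ) + (r : ℝ) ^ 2 * t ^ (-2 : ℝ))))) (gam r) := j2.add k2
  have hae : ∀ᵐ t ∂gam r, (Real.log t - Real.log r - (t / r - 1)) ^ 2 ≤
      (1 / (r : ℝ) ^ 2) * t ^ 2 + ((-(4 / (r : ℝ))) * t + (6 +
    ((-(4 * (r : ℝ))) * t ^ (-1 : ℝ) + (r : ℝ) ^ 2 * t ^ (-2 : ℝ)))) := by
    filter_upwards [gam_pos hr0] with t ht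
    exact log_gap ht hr'
  have hI : Integrable (fun t : ℝ => (Real.log t - Real.log r - (t / r - 1)) ^ 2) (gam r) := by
    refine k1.mono' (by fun_prop) ?_
    filter_upwards [hae] with t ht
    rw [Real.norm_of_nonneg (sq_nonneg _)]
    exact ht
  refine ⟨hI, ?_⟩
  refine (integral_mono_ae hI k1 hae).trans ?_
  rw [integral_add j2 k2, integral_add j1 k3, integral_add (integrable_const _) k4,
    integral_add j3 j4, integral_const_mul, integral_const_mul, integral_const_mul,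
    integral_const_mul, gam1 hr0, gam2 hr0, m1, m2]
  have h1 : (0 : ℝ) < (r : ℝ) - 1 := by linarith
  have h2 : (0 : ℝ) < (r : ℝ) - 2 := by linarith
  have : 1 / (r : ℝ) ^ 2 * (r * (r + 1)) + (-(4 / (r : ℝ)) * r + (∫ _ : ℝ, (6 : ℝ) ∂gam r +
      (-(4 * (r : ℝ)) * (1 / ((r : ℝ) - 1)) + (r : ℝ) ^ 2 * (1 / (((r : ℝ) - 1) * ((r : ℝ) - 2)))))) =
      (3 * r + 2) / (r * ((r : ℝ) - 1) * ((r : ℝ) - 2)) := by
    simp
    field_simp
    ring
  rw [this, div_le_div_iff₀ (by positivity) (by positivity)]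
  have h3 : (3 * (r : ℝ) + 2) * r ≤ 17 * (((r : ℝ) - 1) * ((r : ℝ) - 2)) := by nlinarith
  calc (3 * (r : ℝ) + 2) * r ^ 2 = ((3 * (r : ℝ) + 2) * r) * r := by ring
    _ ≤ (17 * (((r : ℝ) - 1) * ((r : ℝ) - 2))) * r := mul_le_mul_of_nonneg_right h3 hr'.le
    _ = 17 * (r * ((r : ℝ) - 1) * ((r : ℝ) - 2)) := by ring

end

end Pool.Agent.K7.H95.GMC
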