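import Pool.Agent.K7.H95.GMC.Cf3
import Pool.Agent.K7.H95.GMC.Defs3

/-!
MP_55470d_pr (helper95): moments of the truncated determinants.
-/

set_option autoImplicit false

open MeasureTheory Complex Filter Topology
open scoped ENNReal NNReal ComplexConjugate

namespace Pool.Agent.K7.H95.GMC

open Pool.Agent.R923.SE Pool.Agent.R923.SE.NX

noncomputable section

lemma DM_sn {n m : ℕ} (a b : ℂ) (p : (Fin m → E n) × E n) :
    DM a b (m + 1) (sn p) = DM a b m p.1 * RR (QQ a b m p.1) (cx a b p.2) := by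
  rw [DM, init_sn, last_sn]

lemma DM_nonneg {n : ℕ} (a b : ℂ) (m : ℕ) (w : Fin m → E n) : 0 ≤ DM a b m w := by
  induction m with
  | zero => simp [DM]
  | succ m ih => rw [DM]; exact mul_nonneg (ih _) (RR_nonneg _ _)

lemma meas_initp {α : Type*} [MeasurableSpace α] {n m : ℕ} :
    Measurable (fun z : α × (Fin (m + 1) → E n) => (z.1, Fin.init (α := fun _ => E n) z.2)) := by
  refine measurable_fst.prodMk ?_
  exact measurable_pi_lambda _ fun i => (measurable_pi_apply _).comp measurable_snd

lemma meas_QQ' {α : Type*} [MeasurableSpace α] {n : ℕ} {fa fb : α → ℂ} (ha : Measurable fa)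
    (hb : Measurable fb) (m : ℕ) (i j : Fin n) :
    Measurable fun z : α × (Fin m → E n) => QQ (fa z.1) (fb z.1) m z.2 i j := by
  induction m generalizing i j with
  | zero => unfold QQ; exact measurable_const
  | succ m ih =>
    unfold QQ
    refine meas_upd (Q := fun z : α × (Fin (m + 1) → E n) =>
      QQ (fa z.1) (fb z.1) m (Fin.init (α := fun _ => E n) z.2))
      (c := fun z => cx (fa z.1) (fb z.1) (z.2 (Fin.last m)))
      (fun i j => (ih i j).comp meas_initp) (fun i => ?_) i j
    unfold cx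
    fun_prop

lemma meas_DM' {α : Type*} [MeasurableSpace α] {n : ℕ} {fa fb : α → ℂ} (ha : Measurable fa)
    (hb : Measurable fb) (m : ℕ) :
    Measurable fun z : α × (Fin m → E n) => DM (fa z.1) (fb z.1) m z.2 := by
  induction m with
  | zero => unfold DM; exact measurable_const
  | succ m ih =>
    unfold DM
    refine (ih.comp meas_initp).mul ?_
    refine meas_RR (Q := fun z : α × (Fin (m + 1) → E n) =>
      QQ (fa z.1) (fb z.1) m (Fin.init (α := fun _ => E n) z.2))
      (c := fun z => cx (fa z.1) (fb z.1) (z.2 (Fin.last m)))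
      (fun i j => (meas_QQ' ha hb m i j).comp meas_initp) (fun i => ?_)
    unfold cx
    fun_prop

lemma meas_DM {n : ℕ} (a b : ℂ) (m : ℕ) : Measurable (DM (n := n) a b m) := by
  have h := meas_DM' (n := n) (α := Unit) (fa := fun _ => a) (fb := fun _ => b) measurable_const
    measurable_const m
  exact h.comp (measurable_const.prodMk measurable_id : Measurable fun w => ((), w))

lemma ZM_pos {n : ℕ} {q : ℝ} (hq : 0 ≤ q) (m : ℕ) (hm : m ≤ n) : 0 < ZM n q m := by
  unfold ZM
  refine Finset.prod_pos fun j hj => ?_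
  have hj' : j < m := Finset.mem_range.1 hj
  have h : (0 : ℝ) < ((n - j : ℕ) : ℝ) := by exact_mod_cast (by omega : 0 < n - j)
  exact div_pos (Real.Gamma_pos_of_pos (by linarith)) (Real.Gamma_pos_of_pos h)

/-- moments of the truncated determinants -/
lemma DM_mom {n : ℕ} {a b : ℂ} (hab : ‖a‖ ^ 2 + ‖b‖ ^ 2 = 1) {q : ℝ} (hq : 0 ≤ q) (m : ℕ)
    (hm : m ≤ n) : Integrable (fun w : Fin m → E n => DM a b m w ^ q) (PP n m) ∧
    ∫ w, DM a b m w ^ q ∂PP n m = ZM n q m := by
  induction m with
  | zero =>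
    have e : (fun w : Fin 0 → E n => DM a b 0 w ^ q) = fun _ => 1 := by
      funext w; simp [DM]
    rw [e]
    simp [ZM]
  | succ m ih =>
    obtain ⟨i1, e1⟩ := ih (by omega)
    have hr : 0 < n - m := by omega
    have hr' : (0 : ℝ) < ((n - m : ℕ) : ℝ) := by exact_mod_cast hr
    have gm := gam_mom hr q (by linarith)
    set c := Real.Gamma (((n - m : ℕ) : ℝ) + q) / Real.Gamma ((n - m : ℕ) : ℝ) with hc
    have mg : Measurable (fun t : ℝ => t ^ q) := by fun_prop
    have key : ∀ᵐ w ∂PP n m, Integrable (fun e : E n => DM a b (m + 1) (sn (w, e)) ^ q) (gE n) ∧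
        ∫ e : E n, DM a b (m + 1) (sn (w, e)) ^ q ∂gE n = DM a b m w ^ q * c := by
      filter_upwards [ae_PQ hab m (by omega)] with w hw
      have h := int_cx hw hab mg gm.1
      have e2 : (fun e : E n => DM a b (m + 1) (sn (w, e)) ^ q) =
          fun e => DM a b m w ^ q * (RR (QQ a b m w) (cx a b e)) ^ q := by
        funext e
        rw [DM_sn, Real.mul_rpow (DM_nonneg _ _ _ _) (RR_nonneg _ _)]
      rw [e2]
      refine ⟨h.1.const_mul _, ?_⟩
      rw [integral_const_mul, h.2, gm.2]
    have mF : Measurable (fun w : Fin (m + 1) → E n => DM a b (m + 1) w ^ q) :=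
      (meas_DM a b (m + 1)).pow_const q
    have i3 : Integrable (fun p : (Fin m → E n) × E n => DM a b (m + 1) (sn p) ^ q)
        ((PP n m).prod (gE n)) := by
      have hmF : Measurable (fun p : (Fin m → E n) × E n => DM a b (m + 1) (sn p) ^ q) :=
        mF.comp (mp_sn n m).measurable
      rw [integrable_prod_iff hmF.aestronglyMeasurable]
      constructor
      · filter_upwards [key] with w hw
        exact hw.1
      · refine (i1.mul_const c).congr ?_
        filter_upwards [key] with w hw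
        rw [← hw.2]
        refine integral_congr_ae (Eventually.of_forall fun e => ?_)
        show DM a b (m + 1) (sn (w, e)) ^ q = ‖DM a b (m + 1) (sn (w, e)) ^ q‖
        rw [Real.norm_of_nonneg (Real.rpow_nonneg (DM_nonneg _ _ _ _) _)]
    have i4 : Integrable (fun w : Fin (m + 1) → E n => DM a b (m + 1) w ^ q) (PP n (m + 1)) :=
      ((mp_sn n m).integrable_comp mF.aestronglyMeasurable).1 i3
    refine ⟨i4, ?_⟩
    rw [(int_sn i4).2]
    have e5 : ∫ w, ∫ e, DM a b (m + 1) (sn (w, e)) ^ q ∂gE n ∂PP n m =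
        ∫ w, DM a b m w ^ q * c ∂PP n m := by
      refine integral_congr_ae ?_
      filter_upwards [key] with w hw
      exact hw.2
    rw [e5, integral_mul_const, e1]
    unfold ZM
    rw [Finset.prod_range_succ]

/-- the centring constant -/
def CM (n m : ℕ) : ℝ := ∑ j ∈ Finset.range m, lm (n - j)

lemma ae_DM {n : ℕ} {a b : ℂ} (hab : ‖a‖ ^ 2 + ‖b‖ ^ 2 = 1) (m : ℕ) (hm : m ≤ n) :
    ∀ᵐ w ∂PP n m, 0 < DM a b m w ∧ Real.log (DM a b m w) = LS a b m w + CM n m := by
  induction m with
  | zero => exact Eventually.of_forall fun w => by simp [DM, LS, CM]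
  | succ m ih =>
    have ih' := ih (by omega)
    have m1 := meas_DM (n := n) a b (m + 1)
    have m2 := meas_LS (n := n) a b (m + 1)
    refine ae_sn ((measurableSet_lt measurable_const m1).inter
      (measurableSet_eq_fun m1.log (m2.add_const _))) ?_
    have hms : MeasurableSet {p : (Fin m → E n) × E n |
        0 < DM a b (m + 1) (sn p) ∧ Real.log (DM a b (m + 1) (sn p)) =
          LS a b (m + 1) (sn p) + CM n (m + 1)} :=
      (measurableSet_lt measurable_const (m1.comp (mp_sn n m).measurable)).inter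
      (measurableSet_eq_fun (m1.comp (mp_sn n m).measurable).log
        ((m2.comp (mp_sn n m).measurable).add_const _))
    rw [Measure.ae_prod_iff_ae_ae hms]
    filter_upwards [ih', ae_PQ hab m (by omega)] with w hw hQ
    filter_upwards [ae_pos (by omega : 0 < n - m) hQ hab] with e he
    rw [DM_sn, LS_sn]
    simp only []
    refine ⟨mul_pos hw.1 he, ?_⟩
    rw [Real.log_mul hw.1.ne' he.ne', hw.2]
    unfold CM
    rw [Finset.sum_range_succ]
    ring

lemma exp_LS {n : ℕ} {a b : ℂ} (hab : ‖a‖ ^ 2 + ‖b‖ ^ 2 = 1) (q : ℝ) (m : ℕ) (hm : m ≤ n) :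
    ∀ᵐ w ∂PP n m, Real.exp (q * LS a b m w) = DM a b m w ^ q * Real.exp (-(q * CM n m)) := by
  filter_upwards [ae_DM hab m hm] with w hw
  rw [Real.rpow_def_of_pos hw.1, hw.2, ← Real.exp_add]
  congr 1
  ring

lemma exp_LS_int {n : ℕ} {a b : ℂ} (hab : ‖a‖ ^ 2 + ‖b‖ ^ 2 = 1) {q : ℝ} (hq : 0 ≤ q) (m : ℕ)
    (hm : m ≤ n) : Integrable (fun w : Fin m → E n => Real.exp (q * LS a b m w)) (PP n m) ∧
    ∫ w, Real.exp (q * LS a b m w) ∂PP n m = ZM n q m * Real.exp (-(q * CM n m)) := by
  obtain ⟨i1, e1⟩ := DM_mom hab hq m hm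
  constructor
  · exact (i1.mul_const _).congr (by filter_upwards [exp_LS hab q m hm] with w hw; exact hw.symm)
  · rw [integral_congr_ae (exp_LS hab q m hm), integral_mul_const, e1]

/-! ### bounds -/

lemma gam_q_le {r : ℕ} (hr : 0 < r) {q : ℝ} (hq : 0 ≤ q) (hq2 : q ≤ 2) :
    Real.Gamma ((r : ℝ) + q) / Real.Gamma (r : ℝ) ≤ (r : ℝ) ^ q * Real.exp (q / r) := by
  have hr' : (0 : ℝ) < r := by exact_mod_cast hr
  have gm := gam_mom hr q (by linarith)
  have g2 := gam_pow hr 2
  rw [← gm.2]
  set c : ℝ := (r : ℝ) * (r + 1) with hc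
  have hc0 : 0 < c := by positivity
  have h1 : ∫ t, t ^ q ∂gam r ≤ ∫ t, c ^ (q / 2) * (1 + (q / 2) * (t ^ 2 / c - 1)) ∂gam r := by
    have i2 : Integrable (fun t : ℝ => c ^ (q / 2) * (1 + (q / 2) * (t ^ 2 / c - 1))) (gam r) :=
      ((integrable_const _).add
        (((g2.1.div_const c).sub (integrable_const _)).const_mul _)).const_mul _
    refine integral_mono_ae gm.1 i2 ?_
    filter_upwards [gam_pos hr] with t ht
    have h2 : t ^ q = c ^ (q / 2) * (1 + (t ^ 2 / c - 1)) ^ (q / 2) := by
      have h3 : 1 + (t ^ 2 / c - 1) = t ^ 2 / c := by ring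
      rw [h3, ← Real.mul_rpow hc0.le (by positivity)]
      have h4 : c * (t ^ 2 / c) = t ^ (2 : ℝ) := by
        rw [Real.rpow_two]
        field_simp
      rw [h4, ← Real.rpow_mul ht.le]
      congr 1
      ring
    have h5 : -1 ≤ t ^ 2 / c - 1 := by
      have : 0 ≤ t ^ 2 / c := by positivity
      linarith
    have h6 := rpow_one_add_le_one_add_mul_self h5 (by linarith : 0 ≤ q / 2)
      (by linarith : q / 2 ≤ 1)
    show t ^ q ≤ c ^ (q / 2) * (1 + (q / 2) * (t ^ 2 / c - 1))
    rw [h2]
    exact mul_le_mul_of_nonneg_left h6 (by positivity)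
  have h7 : ∫ t, c ^ (q / 2) * (1 + (q / 2) * (t ^ 2 / c - 1)) ∂gam r = c ^ (q / 2) := by
    have i3 : Integrable (fun t : ℝ => t ^ 2 / c) (gam r) := g2.1.div_const c
    have i4 : Integrable (fun t : ℝ => t ^ 2 / c - 1) (gam r) := i3.sub (integrable_const _)
    have i5 : Integrable (fun t : ℝ => (q / 2) * (t ^ 2 / c - 1)) (gam r) := i4.const_mul _
    rw [integral_const_mul, integral_add (integrable_const _) i5, integral_const_mul,
      integral_sub i3 (integrable_const _), integral_div, gam2 hr, ← hc]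
    simp
    field_simp
    simp
  rw [h7] at h1
  refine h1.trans ?_
  have h8 : c ^ (q / 2) = (r : ℝ) ^ q * (1 + 1 / r) ^ (q / 2) := by
    have h9 : c = (r : ℝ) ^ (2 : ℝ) * (1 + 1 / r) := by
      rw [hc, Real.rpow_two]; field_simp
    rw [h9, Real.mul_rpow (by positivity) (by positivity), ← Real.rpow_mul hr'.le]
    congr 2
    ring
  rw [h8]
  refine mul_le_mul_of_nonneg_left ?_ (by positivity)
  have h10 : (1 + 1 / (r : ℝ)) ≤ Real.exp (1 / r) := by
    have := Real.add_one_le_exp (1 / (r : ℝ)); linarith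
  calc (1 + 1 / (r : ℝ)) ^ (q / 2) ≤ (Real.exp (1 / r)) ^ (q / 2) :=
        Real.rpow_le_rpow (by positivity) h10 (by linarith)
    _ = Real.exp (1 / r * (q / 2)) := by rw [← Real.exp_mul]
    _ ≤ Real.exp (q / r) := by
        apply Real.exp_le_exp.2
        have : 0 ≤ q / r := by positivity
        have e : 1 / (r : ℝ) * (q / 2) = q / r / 2 := by ring
        rw [e]
        linarith

lemma lm_ge {r : ℕ} (hr : 3 ≤ r) : Real.log r - 5 / r ≤ lm r := by
  have hr' : (0 : ℝ) < r := by exact_mod_cast (by omega : 0 < r)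
  obtain ⟨h1, h2⟩ := gamul hr
  have h3 := gap_mean hr
  have h4 := gap_int hr
  set f : ℝ → ℝ := fun t => Real.log t - Real.log r - (t / r - 1) with hf
  set c := lm r - Real.log r with hc
  have h5 : 0 ≤ ∫ t, (f t - c) ^ 2 ∂gam r := integral_nonneg fun _ => sq_nonneg _
  have h6 : ∫ t, (f t - c) ^ 2 ∂gam r = ∫ t, f t ^ 2 ∂gam r - c ^ 2 := by
    have e : (fun t => (f t - c) ^ 2) = fun t => f t ^ 2 + ((-(2 * c)) * f t + c ^ 2) := by
      funext t; ring
    have g1 : Integrable (fun t => (-(2 * c)) * f t) (gam r) := h4.const_mul _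
    have g2 : Integrable (fun t => (-(2 * c)) * f t + c ^ 2) (gam r) := g1.add (integrable_const _)
    rw [e, integral_add h1 g2, integral_add g1 (integrable_const _), integral_const_mul, h3]
    simp
    ring
  have h7 : c ^ 2 ≤ (5 / (r : ℝ)) ^ 2 := by
    have : (17 : ℝ) / r ^ 2 ≤ (5 / (r : ℝ)) ^ 2 := by
      rw [div_pow]
      apply div_le_div_of_nonneg_right (by norm_num) (by positivity)
    linarith
  have h8 := abs_le_of_sq_le_sq' h7 (by positivity)
  linarith [h8.1]

lemma exp_LS_bd {n : ℕ} {a b : ℂ} (hab : ‖a‖ ^ 2 + ‖b‖ ^ 2 = 1) {q : ℝ} (hq : 0 ≤ q)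
    (hq2 : q ≤ 2) {δ : ℝ} (hδ : 0 < δ) (m : ℕ) (hm : m + 2 ≤ n) (hmδ : δ * n ≤ (n : ℝ) - m) :
    ∫ w, Real.exp (q * LS a b m w) ∂PP n m ≤ Real.exp (12 / δ) := by
  have hn : (0 : ℝ) < n := by exact_mod_cast (by omega : 0 < n)
  have hmn : (m : ℝ) ≤ n := by exact_mod_cast (by omega : m ≤ n)
  rw [(exp_LS_int hab hq m (by omega)).2]
  have key : ∀ k : ℕ, k ≤ m → ZM n q k * Real.exp (-(q * CM n k)) ≤ Real.exp (k * (12 / (δ * n))) := by
    intro k
    induction k with
    | zero => intro _; simp [ZM, CM]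
    | succ k ih =>
      intro hk
      have ih' := ih (by omega)
      have hr : 3 ≤ n - k := by omega
      have hr' : (0 : ℝ) < ((n - k : ℕ) : ℝ) := by exact_mod_cast (by omega : 0 < n - k)
      have hrδ : δ * n ≤ ((n - k : ℕ) : ℝ) := by
        rw [Nat.cast_sub (by omega)]
        have : (k : ℝ) ≤ m := by exact_mod_cast (by omega : k ≤ m)
        linarith
      have h1 := gam_q_le (by omega : 0 < n - k) hq hq2
      have h2 := lm_ge hr
      set r : ℝ := ((n - k : ℕ) : ℝ) with hrdef
      have e1 : ZM n q (k + 1) * Real.exp (-(q * CM n (k + 1))) =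
          (ZM n q k * Real.exp (-(q * CM n k))) *
          ((Real.Gamma (r + q) / Real.Gamma r) * Real.exp (-(q * lm (n - k)))) := by
        unfold ZM CM
        rw [Finset.prod_range_succ, Finset.sum_range_succ]
        have : -(q * (∑ j ∈ Finset.range k, lm (n - j) + lm (n - k))) =
          -(q * ∑ j ∈ Finset.range k, lm (n - j)) + -(q * lm (n - k)) := by ring
        rw [this, Real.exp_add]
        ring
      have h3 : (Real.Gamma (r + q) / Real.Gamma r) * Real.exp (-(q * lm (n - k))) ≤
          Real.exp (12 / (δ * n)) := by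
        have h4 : Real.exp (-(q * lm (n - k))) ≤ Real.exp (-(q * (Real.log r - 5 / r))) := by
          apply Real.exp_le_exp.2
          nlinarith
        have h5 : r ^ q = Real.exp (q * Real.log r) := by
          rw [Real.rpow_def_of_pos hr', mul_comm]
        calc (Real.Gamma (r + q) / Real.Gamma r) * Real.exp (-(q * lm (n - k)))
            ≤ (r ^ q * Real.exp (q / r)) * Real.exp (-(q * (Real.log r - 5 / r))) :=
              mul_le_mul h1 h4 (Real.exp_pos _).le (by positivity)
          _ = Real.exp (6 * q / r) := by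
              rw [h5, ← Real.exp_add, ← Real.exp_add]
              congr 1
              ring
          _ ≤ Real.exp (12 / (δ * n)) := by
              apply Real.exp_le_exp.2
              exact div_le_div₀ (by norm_num) (by linarith) (by positivity) hrδ
      have h6 : Real.exp ((k + 1 : ℕ) * (12 / (δ * n))) =
          Real.exp (k * (12 / (δ * n))) * Real.exp (12 / (δ * n)) := by
        rw [← Real.exp_add]; congr 1; push_cast; ring
      rw [e1, h6]
      refine mul_le_mul ih' h3 ?_ (Real.exp_pos _).le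
      have : 0 < Real.Gamma (r + q) / Real.Gamma r :=
        div_pos (Real.Gamma_pos_of_pos (by linarith)) (Real.Gamma_pos_of_pos hr')
      positivity
  refine (key m le_rfl).trans ?_
  apply Real.exp_le_exp.2
  have e : 12 / δ = n * (12 / (δ * n)) := by field_simp
  rw [e]
  exact mul_le_mul_of_nonneg_right hmn (by positivity)

end

end Pool.Agent.K7.H95.GMC
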