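import Pool.Agent.K7.H95.GMC.Lim1

/-!
MP_55470d_pr (helper95): weak convergence of the logarithms of the truncated determinants.
-/

set_option autoImplicit false

open MeasureTheory Complex Filter Topology ProbabilityTheory
open scoped ENNReal NNReal ComplexConjugate BoundedContinuousFunction

namespace Pool.Agent.K7.H95.GMC

open Pool.Agent.R923.SE Pool.Agent.R923.SE.NX

noncomputable section

lemma SL_smul {n k : ℕ} (a b : Fin k → ℂ) (θ : Fin k → ℝ) (t : ℝ) (m : ℕ) (w : Fin m → E n) :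
    SL a b (fun i => t * θ i) m w = t * SL a b θ m w := by
  unfold SL
  rw [Finset.mul_sum]
  exact Finset.sum_congr rfl fun i _ => by ring

lemma Vl_smul {k : ℕ} (a b : Fin k → ℂ) (θ : Fin k → ℝ) (t ρ : ℝ) :
    Vl a b (fun i => t * θ i) ρ = t ^ 2 * Vl a b θ ρ := by
  unfold Vl
  rw [Finset.mul_sum]
  refine Finset.sum_congr rfl fun i _ => ?_
  rw [Finset.mul_sum]
  exact Finset.sum_congr rfl fun l _ => by ring

lemma Vl_nonneg {k : ℕ} {a b : Fin k → ℂ} (hab : ∀ i, ‖a i‖ ^ 2 + ‖b i‖ ^ 2 = 1)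
    (θ : Fin k → ℝ) {ρ : ℝ} (hρ0 : 0 ≤ ρ) (hρ1 : ρ < 1) : 0 ≤ Vl a b θ ρ := by
  have h1 := (cf_lim hab θ hρ0 hρ1).norm
  have h2 : ‖((Real.exp (-(Vl a b θ ρ) / 2) : ℝ) : ℂ)‖ ≤ 1 := by
    refine le_of_tendsto h1 (Eventually.of_forall fun n => ?_)
    have h3 : ∀ᵐ w ∂PP n ⌊ρ * n⌋₊, ‖cexp (((SL a b θ ⌊ρ * n⌋₊ w : ℝ) : ℂ) * I)‖ ≤ 1 :=
      Eventually.of_forall fun w => by rw [Complex.norm_exp_ofReal_mul_I]
    simpa using norm_integral_le_of_norm_le_const h3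
  rw [Complex.norm_real, Real.norm_of_nonneg (Real.exp_pos _).le, Real.exp_le_one_iff] at h2
  linarith

/-- the law of a linear combination -/
lemma law1 {k : ℕ} {a b : Fin k → ℂ} (hab : ∀ i, ‖a i‖ ^ 2 + ‖b i‖ ^ 2 = 1)
    (θ : Fin k → ℝ) {ρ : ℝ} (hρ0 : 0 ≤ ρ) (hρ1 : ρ < 1) (h : ℝ →ᵇ ℝ) :
    Tendsto (fun n : ℕ => ∫ w, h (SL a b θ ⌊ρ * n⌋₊ w) ∂PP n ⌊ρ * n⌋₊) atTop
      (𝓝 (∫ x, h x ∂gaussianReal 0 (Vl a b θ ρ).toNNReal)) := by
  have ms := fun n : ℕ => meas_SL (n := n) a b θ ⌊ρ * n⌋₊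
  set μ : ℕ → ProbabilityMeasure ℝ := fun n => ⟨(PP n ⌊ρ * n⌋₊).map (SL a b θ ⌊ρ * n⌋₊),
    Measure.isProbabilityMeasure_map (ms n).aemeasurable⟩ with hμ
  set μ0 : ProbabilityMeasure ℝ := ⟨gaussianReal 0 (Vl a b θ ρ).toNNReal,
    inferInstance⟩ with hμ0
  have h1 : Tendsto μ atTop (𝓝 μ0) := by
    rw [ProbabilityMeasure.tendsto_iff_tendsto_charFun]
    intro t
    have e1 : ∀ n, charFun (μ n : Measure ℝ) t =
        ∫ w, cexp (((SL a b (fun i => t * θ i) ⌊ρ * n⌋₊ w : ℝ) : ℂ) * I) ∂PP n ⌊ρ * n⌋₊ := by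
      intro n
      show charFun ((PP n ⌊ρ * n⌋₊).map (SL a b θ ⌊ρ * n⌋₊)) t = _
      rw [charFun_apply_real, integral_map (ms n).aemeasurable (by fun_prop)]
      refine integral_congr_ae (Eventually.of_forall fun w => ?_)
      simp only [SL_smul]
      push_cast
      rfl
    have e2 : charFun (μ0 : Measure ℝ) t =
        ((Real.exp (-(Vl a b (fun i => t * θ i) ρ) / 2) : ℝ) : ℂ) := by
      show charFun (gaussianReal 0 (Vl a b θ ρ).toNNReal) t = _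
      rw [charFun_gaussianReal, Vl_smul]
      push_cast
      congr 1
      rw [Real.coe_toNNReal _ (Vl_nonneg hab θ hρ0 hρ1)]
      ring
    simp_rw [e1]
    rw [e2]
    exact cf_lim hab _ hρ0 hρ1
  rw [ProbabilityMeasure.tendsto_iff_forall_integral_tendsto] at h1
  have h2 := h1 h
  have e3 : ∀ n, ∫ x, h x ∂(μ n : Measure ℝ) = ∫ w, h (SL a b θ ⌊ρ * n⌋₊ w) ∂PP n ⌊ρ * n⌋₊ := by
    intro n
    show ∫ x, h x ∂((PP n ⌊ρ * n⌋₊).map (SL a b θ ⌊ρ * n⌋₊)) = _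
    rw [integral_map (ms n).aemeasurable h.continuous.aestronglyMeasurable]
  simp_rw [e3] at h2
  exact h2

/-- the limiting covariance matrix -/
def Sm {k : ℕ} (a b : Fin k → ℂ) (ρ : ℝ) : Matrix (Fin k) (Fin k) ℝ :=
  Matrix.of fun i l => -Real.log (1 - ‖sg (a i) (b i) (a l) (b l)‖ ^ 2 * ρ)

lemma sg_symm (a b a' b' : ℂ) : ‖sg a' b' a b‖ = ‖sg a b a' b'‖ := by
  have : sg a' b' a b = conj (sg a b a' b') := by
    unfold sg
    simp only [map_add, map_mul, Complex.conj_conj]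
    ring
  rw [this, RCLike.norm_conj]

lemma Sm_quad {k : ℕ} (a b : Fin k → ℂ) (ρ : ℝ) (x : Fin k → ℝ) :
    x ⬝ᵥ (Sm a b ρ).mulVec x = Vl a b x ρ := by
  unfold Vl dotProduct Matrix.mulVec dotProduct Sm
  refine Finset.sum_congr rfl fun i _ => ?_
  rw [Finset.mul_sum]
  refine Finset.sum_congr rfl fun l _ => ?_
  simp only [Matrix.of_apply]
  ring

lemma Sm_psd {k : ℕ} {a b : Fin k → ℂ} (hab : ∀ i, ‖a i‖ ^ 2 + ‖b i‖ ^ 2 = 1)
    {ρ : ℝ} (hρ0 : 0 ≤ ρ) (hρ1 : ρ < 1) : (Sm a b ρ).PosSemidef := by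
  refine Matrix.PosSemidef.of_dotProduct_mulVec_nonneg ?_ fun x => ?_
  · ext i l
    simp only [Matrix.conjTranspose_apply, star_trivial, Sm, Matrix.of_apply]
    rw [sg_symm]
  · rw [star_trivial, Sm_quad]
    exact Vl_nonneg hab x hρ0 hρ1

/-- the vector of centred logarithms -/
def LV {n k : ℕ} (a b : Fin k → ℂ) (m : ℕ) (w : Fin m → E n) : EuclideanSpace ℝ (Fin k) :=
  WithLp.toLp 2 fun i => LS (a i) (b i) m w

lemma meas_LV {n k : ℕ} (a b : Fin k → ℂ) (m : ℕ) : Measurable (LV (n := n) a b m) := by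
  unfold LV
  exact (WithLp.measurable_toLp 2 _).comp (measurable_pi_lambda _ fun i => meas_LS (a i) (b i) m)

/-- the joint law -/
lemma lawk {k : ℕ} {a b : Fin k → ℂ} (hab : ∀ i, ‖a i‖ ^ 2 + ‖b i‖ ^ 2 = 1)
    {ρ : ℝ} (hρ0 : 0 ≤ ρ) (hρ1 : ρ < 1) (H : EuclideanSpace ℝ (Fin k) →ᵇ ℂ) :
    Tendsto (fun n : ℕ => ∫ w, H (LV a b ⌊ρ * n⌋₊ w) ∂PP n ⌊ρ * n⌋₊) atTop
      (𝓝 (∫ x, H x ∂multivariateGaussian 0 (Sm a b ρ))) := by
  have ms := fun n : ℕ => meas_LV (n := n) a b ⌊ρ * n⌋₊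
  set μ : ℕ → ProbabilityMeasure (EuclideanSpace ℝ (Fin k)) :=
    fun n => ⟨(PP n ⌊ρ * n⌋₊).map (LV a b ⌊ρ * n⌋₊),
    Measure.isProbabilityMeasure_map (ms n).aemeasurable⟩ with hμ
  set μ0 : ProbabilityMeasure (EuclideanSpace ℝ (Fin k)) :=
    ⟨multivariateGaussian 0 (Sm a b ρ), inferInstance⟩ with hμ0
  have h1 : Tendsto μ atTop (𝓝 μ0) := by
    rw [ProbabilityMeasure.tendsto_iff_tendsto_charFun]
    intro t
    have e1 : ∀ n, charFun (μ n : Measure (EuclideanSpace ℝ (Fin k))) t =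
        ∫ w, cexp (((SL a b (fun i => t i) ⌊ρ * n⌋₊ w : ℝ) : ℂ) * I) ∂PP n ⌊ρ * n⌋₊ := by
      intro n
      show charFun ((PP n ⌊ρ * n⌋₊).map (LV a b ⌊ρ * n⌋₊)) t = _
      rw [charFun_apply, integral_map (ms n).aemeasurable (by fun_prop)]
      refine integral_congr_ae (Eventually.of_forall fun w => ?_)
      show cexp (((inner ℝ (LV a b ⌊ρ * n⌋₊ w) t : ℝ) : ℂ) * I) = _
      congr 3
    have e2 : charFun (μ0 : Measure (EuclideanSpace ℝ (Fin k))) t =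
        ((Real.exp (-(Vl a b (fun i => t i) ρ) / 2) : ℝ) : ℂ) := by
      show charFun (multivariateGaussian 0 (Sm a b ρ)) t = _
      rw [charFun_multivariateGaussian (Sm_psd hab hρ0 hρ1)]
      have e3 : (t : EuclideanSpace ℝ (Fin k)).ofLp ⬝ᵥ (Sm a b ρ).mulVec t.ofLp =
        Vl a b (fun i => t i) ρ := Sm_quad a b ρ _
      push_cast
      congr 1
      simp only [inner_zero_right, Complex.ofReal_zero, zero_mul, zero_sub]
      rw [e3]
      ring
    simp_rw [e1]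
    rw [e2]
    exact cf_lim hab _ hρ0 hρ1
  rw [ProbabilityMeasure.tendsto_iff_forall_integral_rclike_tendsto ℂ] at h1
  have h2 := h1 H
  have e3 : ∀ n, ∫ x, H x ∂(μ n : Measure (EuclideanSpace ℝ (Fin k))) =
      ∫ w, H (LV a b ⌊ρ * n⌋₊ w) ∂PP n ⌊ρ * n⌋₊ := by
    intro n
    show ∫ x, H x ∂((PP n ⌊ρ * n⌋₊).map (LV a b ⌊ρ * n⌋₊)) = _
    rw [integral_map (ms n).aemeasurable H.continuous.aestronglyMeasurable]
  simp_rw [e3] at h2
  exact h2

/-! ### abstract lemmas -/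

/-- truncation -/
def trc (K : ℝ) (F : ℝ → ℝ) (hF : Continuous F) (hF0 : ∀ x, 0 ≤ F x) : ℝ →ᵇ ℝ :=
  BoundedContinuousFunction.ofNormedAddCommGroup (fun x => min (F x) K) (by fun_prop) |K|
    (fun x => by
      rw [Real.norm_eq_abs, abs_le]
      have h1 := hF0 x
      have h2 := le_abs_self K
      have h3 := neg_abs_le K
      constructor
      · rcases min_cases (F x) K with h | h
        · rw [h.1]; linarith [abs_nonneg K]
        · rw [h.1]; exact h3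
      · exact (min_le_right _ _).trans h2)

section abstract

variable {Ω : ℕ → Type*} [∀ n, MeasurableSpace (Ω n)] {P : ∀ n, Measure (Ω n)}
  {X : ∀ n, Ω n → ℝ} {μ : Measure ℝ}

lemma trc_lim {F : ℝ → ℝ} (hF : Continuous F) (hF0 : ∀ x, 0 ≤ F x) (hi : Integrable F μ) :
    Tendsto (fun K : ℕ => ∫ x, min (F x) K ∂μ) atTop (𝓝 (∫ x, F x ∂μ)) := by
  refine tendsto_integral_of_dominated_convergence F (fun K => ?_) hi (fun K => ?_) ?_
  · exact (hF.min continuous_const).aestronglyMeasurable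
  · refine Eventually.of_forall fun x => ?_
    rw [Real.norm_of_nonneg (le_min (hF0 x) (Nat.cast_nonneg K))]
    exact min_le_left _ _
  · refine Eventually.of_forall fun x => ?_
    refine tendsto_const_nhds.congr' ?_
    obtain ⟨N, hN⟩ := exists_nat_ge (F x)
    filter_upwards [eventually_ge_atTop N] with K hK
    rw [min_eq_left]
    exact hN.trans (by exact_mod_cast hK)

/-- lower semicontinuity -/
lemma low {F : ℝ → ℝ} (hF : Continuous F) (hF0 : ∀ x, 0 ≤ F x) (hi : Integrable F μ)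
    (hc : ∀ h : ℝ →ᵇ ℝ, Tendsto (fun n => ∫ ω, h (X n ω) ∂P n) atTop (𝓝 (∫ x, h x ∂μ)))
    (hFi : ∀ᶠ n in atTop, Integrable (fun ω => F (X n ω)) (P n)) {c : ℝ} (hcμ : c < ∫ x, F x ∂μ) :
    ∀ᶠ n in atTop, c < ∫ ω, F (X n ω) ∂P n := by
  obtain ⟨K, hK⟩ := ((trc_lim hF hF0 hi).eventually (lt_mem_nhds hcμ)).exists
  have h1 := (hc (trc K F hF hF0)).eventually (lt_mem_nhds hK)
  filter_upwards [h1, hFi] with n hn hi'
  refine hn.trans_le ?_
  refine integral_mono_of_nonneg ?_ hi' ?_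
  · exact Eventually.of_forall fun ω => le_min (hF0 _) (Nat.cast_nonneg K)
  · exact Eventually.of_forall fun ω => min_le_left _ _

/-- uniform integrability -/
lemma ui {F : ℝ → ℝ} (hF : Continuous F) (hF0 : ∀ x, 0 ≤ F x) (hi : Integrable F μ)
    (hX : ∀ n, AEMeasurable (X n) (P n))
    (hc : ∀ h : ℝ →ᵇ ℝ, Tendsto (fun n => ∫ ω, h (X n ω) ∂P n) atTop (𝓝 (∫ x, h x ∂μ)))
    (hFi : ∀ᶠ n in atTop, Integrable (fun ω => F (X n ω)) (P n))
    (hFi2 : ∀ᶠ n in atTop, Integrable (fun ω => F (X n ω) ^ 2) (P n)) (C : ℝ)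
    (hC : ∀ᶠ n in atTop, ∫ ω, F (X n ω) ^ 2 ∂P n ≤ C) :
    Tendsto (fun n => ∫ ω, F (X n ω) ∂P n) atTop (𝓝 (∫ x, F x ∂μ)) := by
  rw [tendsto_order]
  refine ⟨fun c hcc => low hF hF0 hi hc hFi hcc, fun c hcc => ?_⟩
  set ε := c - ∫ x, F x ∂μ with hε
  have hε0 : 0 < ε := by rw [hε]; linarith
  obtain ⟨K, hK⟩ := exists_nat_gt (2 * |C| / ε)
  have hK0 : (0 : ℝ) < K := lt_of_le_of_lt (by positivity) hK
  have hCK : C / K < ε / 2 := by
    rw [div_lt_iff₀ hK0]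
    rw [div_lt_iff₀ hε0] at hK
    have := le_abs_self C
    nlinarith
  have h2 : ∫ x, min (F x) K ∂μ ≤ ∫ x, F x ∂μ := by
    refine integral_mono_of_nonneg ?_ hi ?_
    · exact Eventually.of_forall fun ω => le_min (hF0 _) (Nat.cast_nonneg K)
    · exact Eventually.of_forall fun ω => min_le_left _ _
  have h3 : ∫ x, min (F x) K ∂μ < c - ε / 2 := by rw [hε]; linarith
  have h1 := (hc (trc K F hF hF0)).eventually (gt_mem_nhds h3)
  filter_upwards [h1, hFi, hFi2, hC] with n hn hi1 hi2 hCn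
  have h4 : ∫ ω, F (X n ω) ∂P n ≤ ∫ ω, (min (F (X n ω)) K + F (X n ω) ^ 2 / K) ∂P n := by
    have i3 : Integrable (fun ω => min (F (X n ω)) (K : ℝ)) (P n) := by
      refine Integrable.mono' hi1 ?_ (Eventually.of_forall fun ω => ?_)
      · exact ((hF.min continuous_const).measurable.comp_aemeasurable (hX n)).aestronglyMeasurable
      · rw [Real.norm_of_nonneg (le_min (hF0 _) hK0.le)]
        exact min_le_left _ _
    refine integral_mono hi1 (i3.add (hi2.div_const _)) fun ω => ?_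
    show F (X n ω) ≤ min (F (X n ω)) K + F (X n ω) ^ 2 / K
    have h5 := hF0 (X n ω)
    rcases le_total (F (X n ω)) K with h6 | h6
    · rw [min_eq_left h6]
      have : 0 ≤ F (X n ω) ^ 2 / K := by positivity
      linarith
    · rw [min_eq_right h6]
      have h7 : F (X n ω) ≤ F (X n ω) ^ 2 / K := by
        rw [le_div_iff₀ hK0]
        nlinarith
      linarith
  have i3 : Integrable (fun ω => min (F (X n ω)) (K : ℝ)) (P n) := by
    refine Integrable.mono' hi1 ?_ (Eventually.of_forall fun ω => ?_)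
    · exact ((hF.min continuous_const).measurable.comp_aemeasurable (hX n)).aestronglyMeasurable
    · rw [Real.norm_of_nonneg (le_min (hF0 _) hK0.le)]
      exact min_le_left _ _
  rw [integral_add i3 (hi2.div_const _), integral_div] at h4
  have h8 : ∫ ω, min (F (X n ω)) (K : ℝ) ∂P n < c - ε / 2 := hn
  have h9 : (∫ ω, F (X n ω) ^ 2 ∂P n) / K ≤ C / K := div_le_div_of_nonneg_right hCn hK0.le
  linarith

end abstract

end

end Pool.Agent.K7.H95.GMC
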