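import Pool.Agent.K7.H95.GMC.Lim2

/-!
MP_55470d_pr (helper95): the truncated normalised determinants: normalisation, second moments,
covariances.
-/

set_option autoImplicit false

open MeasureTheory Complex Filter Topology ProbabilityTheory
open scoped ENNReal NNReal ComplexConjugate BoundedContinuousFunction

namespace Pool.Agent.K7.H95.GMC

open Pool.Agent.R923.SE Pool.Agent.R923.SE.NX

noncomputable section

/-- normalisation -/
def kp (n : ℕ) (p : ℝ) (m : ℕ) : ℝ := Real.exp (p * CM n m) / ZM n p m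

lemma kp_pos {n : ℕ} {p : ℝ} (hp : 0 ≤ p) (m : ℕ) (hm : m ≤ n) : 0 < kp n p m :=
  div_pos (Real.exp_pos _) (ZM_pos hp m hm)

/-- normalised truncated determinant at `(a, b)` -/
def NA (n : ℕ) (p : ℝ) (m : ℕ) (a b : ℂ) (w : Fin m → E n) : ℝ := DM a b m w ^ p / ZM n p m

lemma NM_NA (n : ℕ) (p : ℝ) (m : ℕ) (u : S2) (w : Fin m → E n) :
    NM n p m u w = NA n p m (sa u) (sb u) w := rfl

lemma NA_eq {n : ℕ} {a b : ℂ} (hab : ‖a‖ ^ 2 + ‖b‖ ^ 2 = 1) (p : ℝ) (m : ℕ) (hm : m ≤ n) :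
    ∀ᵐ w ∂PP n m, NA n p m a b w = kp n p m * Real.exp (p * LS a b m w) := by
  filter_upwards [exp_LS hab p m hm] with w hw
  rw [hw]
  unfold NA kp
  have : Real.exp (p * CM n m) / ZM n p m * (DM a b m w ^ p * Real.exp (-(p * CM n m))) =
    (Real.exp (p * CM n m) * Real.exp (-(p * CM n m))) * (DM a b m w ^ p / ZM n p m) := by ring
  rw [this, ← Real.exp_add]
  simp

lemma NA_nonneg {n : ℕ} {p : ℝ} (hp : 0 ≤ p) (m : ℕ) (hm : m ≤ n) (a b : ℂ) (w : Fin m → E n) :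
    0 ≤ NA n p m a b w :=
  div_nonneg (Real.rpow_nonneg (DM_nonneg _ _ _ _) _) (ZM_pos hp m hm).le

lemma meas_NA' {α : Type*} [MeasurableSpace α] {n : ℕ} {fa fb : α → ℂ} (ha : Measurable fa)
    (hb : Measurable fb) (p : ℝ) (m : ℕ) :
    Measurable fun z : α × (Fin m → E n) => NA n p m (fa z.1) (fb z.1) z.2 :=
  ((meas_DM' ha hb m).pow_const p).div_const _

lemma meas_NA {n : ℕ} (p : ℝ) (m : ℕ) (a b : ℂ) : Measurable (NA n p m a b) :=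
  ((meas_DM a b m).pow_const p).div_const _

lemma NA_int {n : ℕ} {a b : ℂ} (hab : ‖a‖ ^ 2 + ‖b‖ ^ 2 = 1) {p : ℝ} (hp : 0 ≤ p) (m : ℕ)
    (hm : m ≤ n) : Integrable (NA n p m a b) (PP n m) ∧ ∫ w, NA n p m a b w ∂PP n m = 1 := by
  obtain ⟨i1, e1⟩ := DM_mom hab hp m hm
  refine ⟨i1.div_const _, ?_⟩
  unfold NA
  rw [integral_div, e1, div_self (ZM_pos hp m hm).ne']

lemma NA_sq_int {n : ℕ} {a b : ℂ} (hab : ‖a‖ ^ 2 + ‖b‖ ^ 2 = 1) {p : ℝ} (hp : 0 ≤ p) (m : ℕ)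
    (hm : m ≤ n) : Integrable (fun w => NA n p m a b w ^ 2) (PP n m) ∧
    ∫ w, NA n p m a b w ^ 2 ∂PP n m = ZM n (2 * p) m / ZM n p m ^ 2 := by
  obtain ⟨i1, e1⟩ := DM_mom hab (by linarith : 0 ≤ 2 * p) m hm
  have e : (fun w => NA n p m a b w ^ 2) = fun w => DM a b m w ^ (2 * p) / ZM n p m ^ 2 := by
    funext w
    unfold NA
    rw [div_pow]
    congr 1
    rw [← Real.rpow_natCast, ← Real.rpow_mul (DM_nonneg _ _ _ _)]
    congr 1
    push_cast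
    ring
  rw [e]
  refine ⟨i1.div_const _, ?_⟩
  rw [integral_div, e1]

lemma NA_mul_int {n : ℕ} {a b a' b' : ℂ} (hab : ‖a‖ ^ 2 + ‖b‖ ^ 2 = 1)
    (hab' : ‖a'‖ ^ 2 + ‖b'‖ ^ 2 = 1) {p : ℝ} (hp : 0 ≤ p) (m : ℕ) (hm : m ≤ n) :
    Integrable (fun w => NA n p m a b w * NA n p m a' b' w) (PP n m) := by
  have i1 := (NA_sq_int hab hp m hm).1
  have i2 := (NA_sq_int hab' hp m hm).1
  refine (i1.add i2).mono' ((meas_NA p m a b).mul (meas_NA p m a' b')).aestronglyMeasurable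
    (Eventually.of_forall fun w => ?_)
  rw [Real.norm_eq_abs, abs_mul, abs_of_nonneg (NA_nonneg hp m hm _ _ _),
    abs_of_nonneg (NA_nonneg hp m hm _ _ _)]
  show NA n p m a b w * NA n p m a' b' w ≤ NA n p m a b w ^ 2 + NA n p m a' b' w ^ 2
  nlinarith [sq_nonneg (NA n p m a b w - NA n p m a' b' w), sq_nonneg (NA n p m a b w),
    sq_nonneg (NA n p m a' b' w)]

lemma int_exp_gauss (V : ℝ≥0) : Integrable (fun x => Real.exp x) (gaussianReal 0 V) ∧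
    ∫ x, Real.exp x ∂gaussianReal 0 V = Real.exp (V / 2) := by
  have h1 := integrable_exp_mul_gaussianReal (μ := 0) (v := V) 1
  have h2 := congrFun (mgf_fun_id_gaussianReal (μ := 0) (v := V)) 1
  simp only [mgf, one_mul, mul_one, one_pow, zero_add] at h1 h2
  exact ⟨h1, h2⟩

lemma floor_ev {ρ : ℝ} (hρ0 : 0 ≤ ρ) (hρ1 : ρ < 1) :
    ∀ᶠ n : ℕ in atTop, ⌊ρ * n⌋₊ + 2 ≤ n ∧ (1 - ρ) * n ≤ (n : ℝ) - (⌊ρ * n⌋₊ : ℝ) := by
  have hδ : 0 < 1 - ρ := by linarith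
  have h6 : ∀ᶠ n : ℕ in atTop, 2 / (1 - ρ) ≤ (n : ℝ) :=
    tendsto_natCast_atTop_atTop.eventually (eventually_ge_atTop _)
  filter_upwards [h6] with n hn
  obtain ⟨f1, f2⟩ := floor_bd hρ0 hρ1 n
  have hn2 : 2 ≤ (1 - ρ) * n := by
    rw [div_le_iff₀ hδ] at hn; linarith
  have hm : ⌊ρ * n⌋₊ + 2 ≤ n := by
    have : (⌊ρ * n⌋₊ : ℝ) + 2 ≤ n := by linarith
    exact_mod_cast this
  exact ⟨hm, f2⟩

lemma sg_self {a b : ℂ} (hab : ‖a‖ ^ 2 + ‖b‖ ^ 2 = 1) : ‖sg a b a b‖ ^ 2 = 1 := by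
  have : sg a b a b = 1 := by
    unfold sg
    rw [Complex.mul_conj, Complex.mul_conj, Complex.normSq_eq_norm_sq, Complex.normSq_eq_norm_sq,
      ← Complex.ofReal_add, hab, Complex.ofReal_one]
  rw [this]; simp

/-- limit of the normalisation -/
lemma kp_lim {p : ℝ} (hp0 : 0 ≤ p) (hp1 : p ≤ 1) {ρ : ℝ} (hρ0 : 0 ≤ ρ) (hρ1 : ρ < 1) :
    Tendsto (fun n : ℕ => kp n p ⌊ρ * n⌋₊) atTop
      (𝓝 (Real.exp (-(p ^ 2 * (-Real.log (1 - ρ)) / 2)))) := by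
  have hab : ∀ i : Fin 1, ‖(fun _ : Fin 1 => (1 : ℂ)) i‖ ^ 2 + ‖(fun _ : Fin 1 => (0 : ℂ)) i‖ ^ 2 = 1 :=
    fun i => by simp
  have hab1 : ‖(1 : ℂ)‖ ^ 2 + ‖(0 : ℂ)‖ ^ 2 = 1 := by simp
  have hδ : 0 < 1 - ρ := by linarith
  have eS : ∀ (n m : ℕ) (w : Fin m → E n), SL (fun _ : Fin 1 => (1 : ℂ)) (fun _ => 0) (fun _ => p)
      m w = p * LS 1 0 m w := by
    intro n m w
    simp [SL]
  have hV : Vl (fun _ : Fin 1 => (1 : ℂ)) (fun _ => 0) (fun _ => p) ρ =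
      p ^ 2 * (-Real.log (1 - ρ)) := by
    simp only [Vl, Finset.univ_unique, Finset.sum_singleton, sg_self hab1]
    ring_nf
  have hl := law1 hab (fun _ => p) hρ0 hρ1
  obtain ⟨g1, g2⟩ := int_exp_gauss (Vl (fun _ : Fin 1 => (1 : ℂ)) (fun _ => 0) (fun _ => p) ρ).toNNReal
  have hev := floor_ev hρ0 hρ1
  have h1 := ui (F := Real.exp) Real.continuous_exp (fun x => (Real.exp_pos x).le) g1
    (X := fun n => SL (n := n) (fun _ : Fin 1 => (1 : ℂ)) (fun _ => 0) (fun _ => p) ⌊ρ * n⌋₊)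
    (fun n => (meas_SL (n := n) _ _ _ ⌊ρ * n⌋₊).aemeasurable) hl
    (by
      filter_upwards [hev] with n hn
      simp_rw [eS]
      exact (exp_LS_int hab1 hp0 _ (by omega)).1)
    (by
      filter_upwards [hev] with n hn
      simp_rw [eS]
      refine (exp_LS_int hab1 (by linarith : 0 ≤ 2 * p) _ (by omega)).1.congr
        (Eventually.of_forall fun w => ?_)
      show Real.exp (2 * p * LS 1 0 ⌊ρ * n⌋₊ w) = Real.exp (p * LS 1 0 ⌊ρ * n⌋₊ w) ^ 2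
      rw [← Real.exp_nat_mul]
      congr 1
      push_cast
      ring) (Real.exp (12 / (1 - ρ)))
    (by
      filter_upwards [hev] with n hn
      simp_rw [eS]
      have h2 := exp_LS_bd hab1 (by linarith : 0 ≤ 2 * p) (by linarith) hδ _ hn.1 hn.2
      refine le_trans (le_of_eq ?_) h2
      refine integral_congr_ae (Eventually.of_forall fun w => ?_)
      show Real.exp (p * LS 1 0 ⌊ρ * n⌋₊ w) ^ 2 = Real.exp (2 * p * LS 1 0 ⌊ρ * n⌋₊ w)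
      rw [← Real.exp_nat_mul]
      congr 1
      push_cast
      ring)
  rw [g2, Real.coe_toNNReal _ (Vl_nonneg hab _ hρ0 hρ1), hV] at h1
  have h3 := h1.inv₀ (Real.exp_pos _).ne'
  rw [← Real.exp_neg] at h3
  refine h3.congr' ?_
  filter_upwards [hev] with n hn
  simp_rw [eS]
  rw [(exp_LS_int hab1 hp0 _ (by omega)).2]
  unfold kp
  rw [Real.exp_neg, mul_inv, inv_inv, div_eq_mul_inv, mul_comm]

/-- uniform bound on the second moments -/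
lemma NA_sq_bd {p : ℝ} (hp0 : 0 ≤ p) (hp1 : p ≤ 1) {ρ : ℝ} (hρ0 : 0 ≤ ρ) (hρ1 : ρ < 1) :
    ∃ C : ℝ, 0 ≤ C ∧ ∀ᶠ n : ℕ in atTop, ∀ a b : ℂ, ‖a‖ ^ 2 + ‖b‖ ^ 2 = 1 →
      ∫ w, NA n p ⌊ρ * n⌋₊ a b w ^ 2 ∂PP n ⌊ρ * n⌋₊ ≤ C := by
  have hδ : 0 < 1 - ρ := by linarith
  set κ := Real.exp (-(p ^ 2 * (-Real.log (1 - ρ)) / 2)) with hκ
  have hκ0 : 0 < κ := Real.exp_pos _
  refine ⟨(κ + 1) ^ 2 * Real.exp (12 / (1 - ρ)), by positivity, ?_⟩
  have h1 := (kp_lim hp0 hp1 hρ0 hρ1).eventually (gt_mem_nhds (by linarith : κ < κ + 1))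
  filter_upwards [h1, floor_ev hρ0 hρ1] with n h2 hn a b hab
  have hk := kp_pos (n := n) hp0 ⌊ρ * n⌋₊ (by omega)
  have h3 := exp_LS_bd hab (by linarith : 0 ≤ 2 * p) (by linarith) hδ _ hn.1 hn.2
  have e : ∫ w, NA n p ⌊ρ * n⌋₊ a b w ^ 2 ∂PP n ⌊ρ * n⌋₊ =
      ∫ w, kp n p ⌊ρ * n⌋₊ ^ 2 * Real.exp (2 * p * LS a b ⌊ρ * n⌋₊ w) ∂PP n ⌊ρ * n⌋₊ := by
    refine integral_congr_ae ?_
    filter_upwards [NA_eq hab p _ (by omega : ⌊ρ * n⌋₊ ≤ n)] with w hw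
    rw [hw, mul_pow, ← Real.exp_nat_mul]
    congr 2
    push_cast
    ring
  rw [e, integral_const_mul]
  refine mul_le_mul (pow_le_pow_left₀ hk.le h2.le 2) h3 ?_ (by positivity)
  exact integral_nonneg fun _ => (Real.exp_pos _).le

/-- lower bound on the covariances -/
lemma pair_low {a b a' b' : ℂ} (hab : ‖a‖ ^ 2 + ‖b‖ ^ 2 = 1) (hab' : ‖a'‖ ^ 2 + ‖b'‖ ^ 2 = 1)
    {p : ℝ} (hp0 : 0 ≤ p) (hp1 : p ≤ 1) {ρ : ℝ} (hρ0 : 0 ≤ ρ) (hρ1 : ρ < 1) {c : ℝ}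
    (hc : c < (1 - ρ * ‖sg a b a' b'‖ ^ 2) ^ (-(p ^ 2))) :
    ∀ᶠ n : ℕ in atTop, c <
      ∫ w, NA n p ⌊ρ * n⌋₊ a b w * NA n p ⌊ρ * n⌋₊ a' b' w ∂PP n ⌊ρ * n⌋₊ := by
  set A : Fin 2 → ℂ := ![a, a'] with hA
  set B : Fin 2 → ℂ := ![b, b'] with hB
  have hAB : ∀ i, ‖A i‖ ^ 2 + ‖B i‖ ^ 2 = 1 := by
    intro i; fin_cases i
    · simpa [hA, hB] using hab
    · simpa [hA, hB] using hab'
  have eS : ∀ (n m : ℕ) (w : Fin m → E n), SL A B (fun _ => p) m w =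
      p * LS a b m w + p * LS a' b' m w := by
    intro n m w
    simp [SL, hA, hB, Fin.sum_univ_two]
  set s := ‖sg a b a' b'‖ ^ 2 with hs
  have hs0 : 0 ≤ s := sq_nonneg _
  have hs1 : s ≤ 1 := sg_sq_le hab hab'
  have h1s : 0 < 1 - ρ * s := by nlinarith
  have h1ρ : 0 < 1 - ρ := by linarith
  have hV : Vl A B (fun _ => p) ρ = 2 * (p ^ 2 * (-Real.log (1 - ρ))) +
      2 * (p ^ 2 * (-Real.log (1 - ρ * s))) := by
    simp only [Vl, Fin.sum_univ_two, hA, hB, Matrix.cons_val_zero, Matrix.cons_val_one,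
      sg_self hab, sg_self hab', sg_symm a b a' b']
    rw [← hs]
    ring_nf
  have hl := law1 hAB (fun _ => p) hρ0 hρ1
  obtain ⟨g1, g2'⟩ := int_exp_gauss (Vl A B (fun _ => p) ρ).toNNReal
  have g2 : ∫ x, Real.exp x ∂gaussianReal 0 (Vl A B (fun _ => p) ρ).toNNReal =
      Real.exp ((2 * (p ^ 2 * (-Real.log (1 - ρ))) + 2 * (p ^ 2 * (-Real.log (1 - ρ * s)))) / 2) := by
    rw [g2', Real.coe_toNNReal _ (Vl_nonneg hAB _ hρ0 hρ1), hV]
  have hev := floor_ev hρ0 hρ1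
  set κ := Real.exp (-(p ^ 2 * (-Real.log (1 - ρ)) / 2)) with hκ
  have hκ0 : 0 < κ := Real.exp_pos _
  set L := Real.exp ((2 * (p ^ 2 * (-Real.log (1 - ρ))) + 2 * (p ^ 2 * (-Real.log (1 - ρ * s)))) / 2)
    with hL
  have hκL : κ ^ 2 * L = (1 - ρ * s) ^ (-(p ^ 2)) := by
    rw [hκ, hL, ← Real.exp_nat_mul, ← Real.exp_add, Real.rpow_def_of_pos h1s]
    congr 1
    push_cast
    ring
  have hcL : max c 0 / κ ^ 2 < L := by
    rw [div_lt_iff₀ (by positivity), mul_comm, hκL]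
    exact max_lt hc (by positivity)
  obtain ⟨c', h1, h2⟩ := exists_between hcL
  have hc'0 : 0 < c' := lt_of_le_of_lt (by positivity) h1
  have h3 := low (F := Real.exp) Real.continuous_exp (fun x => (Real.exp_pos x).le) g1
    (X := fun n => SL (n := n) A B (fun _ => p) ⌊ρ * n⌋₊) hl
    (by
      filter_upwards [hev] with n hn
      have hm : ⌊ρ * n⌋₊ ≤ n := by omega
      have i1 := NA_mul_int hab hab' hp0 _ hm
      have hk := kp_pos (n := n) hp0 ⌊ρ * n⌋₊ hm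
      refine (i1.div_const (kp n p ⌊ρ * n⌋₊ ^ 2)).congr ?_
      filter_upwards [NA_eq hab p _ hm, NA_eq hab' p _ hm] with w hw hw'
      rw [hw, hw', eS, Real.exp_add]
      field_simp) (c := c') (by rw [g2]; exact h2)
  have h4 : ∀ᶠ n : ℕ in atTop, max c 0 < kp n p ⌊ρ * n⌋₊ ^ 2 * c' := by
    have h5 : Tendsto (fun n : ℕ => kp n p ⌊ρ * n⌋₊ ^ 2 * c') atTop (𝓝 (κ ^ 2 * c')) :=
      ((kp_lim hp0 hp1 hρ0 hρ1).pow 2).mul_const c'
    refine h5.eventually (lt_mem_nhds ?_)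
    rw [div_lt_iff₀ (by positivity)] at h1
    linarith
  filter_upwards [h3, h4, hev] with n h5 h6 hn
  have hm : ⌊ρ * n⌋₊ ≤ n := by omega
  have hk := kp_pos (n := n) hp0 ⌊ρ * n⌋₊ hm
  have e : ∫ w, NA n p ⌊ρ * n⌋₊ a b w * NA n p ⌊ρ * n⌋₊ a' b' w ∂PP n ⌊ρ * n⌋₊ =
      kp n p ⌊ρ * n⌋₊ ^ 2 * ∫ w, Real.exp (SL A B (fun _ => p) ⌊ρ * n⌋₊ w) ∂PP n ⌊ρ * n⌋₊ := by
    rw [← integral_const_mul]
    refine integral_congr_ae ?_
    filter_upwards [NA_eq hab p _ hm, NA_eq hab' p _ hm] with w hw hw'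
    rw [hw, hw', eS, Real.exp_add]
    ring
  rw [e]
  calc c ≤ max c 0 := le_max_left _ _
    _ < kp n p ⌊ρ * n⌋₊ ^ 2 * c' := h6
    _ ≤ _ := mul_le_mul_of_nonneg_left h5.le (by positivity)

/-- joint characteristic functions converge -/
lemma joint_cf {k : ℕ} {a b : Fin k → ℂ} (hab : ∀ i, ‖a i‖ ^ 2 + ‖b i‖ ^ 2 = 1) (d : Fin k → ℝ)
    {p : ℝ} (hp0 : 0 ≤ p) (hp1 : p ≤ 1) {ρ : ℝ} (hρ0 : 0 ≤ ρ) (hρ1 : ρ < 1) :
    ∃ c : ℂ, Tendsto (fun n : ℕ => ∫ w, cexp (((∑ i, d i * NA n p ⌊ρ * n⌋₊ (a i) (b i) w : ℝ) : ℂ) * I)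
      ∂PP n ⌊ρ * n⌋₊) atTop (𝓝 c) := by
  set κ := Real.exp (-(p ^ 2 * (-Real.log (1 - ρ)) / 2)) with hκ
  -- the limiting functional
  set H : EuclideanSpace ℝ (Fin k) →ᵇ ℂ := BoundedContinuousFunction.ofNormedAddCommGroup
    (fun x => cexp (((∑ i, d i * (κ * Real.exp (p * x i)) : ℝ) : ℂ) * I)) (by fun_prop) 1
    (fun x => by rw [Complex.norm_exp_ofReal_mul_I]) with hH
  refine ⟨∫ x, H x ∂multivariateGaussian 0 (Sm a b ρ), ?_⟩
  · have h1 := lawk hab hρ0 hρ1 H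
    have h2 : Tendsto (fun n : ℕ => (∫ w, cexp (((∑ i, d i * NA n p ⌊ρ * n⌋₊ (a i) (b i) w : ℝ) : ℂ)
        * I) ∂PP n ⌊ρ * n⌋₊) - ∫ w, H (LV a b ⌊ρ * n⌋₊ w) ∂PP n ⌊ρ * n⌋₊) atTop (𝓝 0) := by
      have h3 : Tendsto (fun n : ℕ => (∑ i, |d i|) * |1 - κ / kp n p ⌊ρ * n⌋₊|) atTop (𝓝 0) := by
        have hk := kp_lim hp0 hp1 hρ0 hρ1
        have h4 : Tendsto (fun n : ℕ => 1 - κ / kp n p ⌊ρ * n⌋₊) atTop (𝓝 (1 - κ / κ)) :=
          tendsto_const_nhds.sub (tendsto_const_nhds.div hk (Real.exp_pos _).ne')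
        rw [div_self (Real.exp_pos _).ne', sub_self] at h4
        simpa using h4.abs.const_mul (∑ i, |d i|)
      refine squeeze_zero_norm' ?_ h3
      filter_upwards [floor_ev hρ0 hρ1] with n hn
      have hm : ⌊ρ * n⌋₊ ≤ n := by omega
      have hk := kp_pos (n := n) hp0 ⌊ρ * n⌋₊ hm
      have mN : ∀ i, Measurable (NA n p ⌊ρ * n⌋₊ (a i) (b i)) := fun i => meas_NA p _ _ _
      have mL := meas_LV (n := n) a b ⌊ρ * n⌋₊
      have i1 : Integrable (fun w => cexp (((∑ i, d i * NA n p ⌊ρ * n⌋₊ (a i) (b i) w : ℝ) : ℂ) * I))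
          (PP n ⌊ρ * n⌋₊) := by
        refine Integrable.of_bound (by fun_prop : Measurable _).aestronglyMeasurable 1
          (Eventually.of_forall fun w => ?_)
        rw [Complex.norm_exp_ofReal_mul_I]
      have i2 : Integrable (fun w => H (LV a b ⌊ρ * n⌋₊ w)) (PP n ⌊ρ * n⌋₊) := by
        refine Integrable.of_bound (H.continuous.measurable.comp mL).aestronglyMeasurable ‖H‖
          (Eventually.of_forall fun w => H.norm_coe_le_norm _)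
      rw [← integral_sub i1 i2]
      refine (norm_integral_le_integral_norm _).trans ?_
      have h5 : ∀ᵐ w ∂PP n ⌊ρ * n⌋₊, ‖cexp (((∑ i, d i * NA n p ⌊ρ * n⌋₊ (a i) (b i) w : ℝ) : ℂ) * I) -
          H (LV a b ⌊ρ * n⌋₊ w)‖ ≤ ∑ i, |d i| * |1 - κ / kp n p ⌊ρ * n⌋₊| *
            NA n p ⌊ρ * n⌋₊ (a i) (b i) w := by
        have h6 : ∀ᵐ w ∂PP n ⌊ρ * n⌋₊, ∀ i, NA n p ⌊ρ * n⌋₊ (a i) (b i) w =
            kp n p ⌊ρ * n⌋₊ * Real.exp (p * LS (a i) (b i) ⌊ρ * n⌋₊ w) :=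
          ae_all_iff.2 fun i => NA_eq (hab i) p _ hm
        filter_upwards [h6] with w hw
        have e1 : H (LV a b ⌊ρ * n⌋₊ w) =
            cexp (((∑ i, d i * (κ * Real.exp (p * LS (a i) (b i) ⌊ρ * n⌋₊ w)) : ℝ) : ℂ) * I) := rfl
        rw [e1]
        set x := ∑ i, d i * NA n p ⌊ρ * n⌋₊ (a i) (b i) w with hx
        set y := ∑ i, d i * (κ * Real.exp (p * LS (a i) (b i) ⌊ρ * n⌋₊ w)) with hy
        have h7 : ‖cexp ((x : ℂ) * I) - cexp ((y : ℂ) * I)‖ ≤ |x - y| := by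
          have e2 : cexp ((x : ℂ) * I) - cexp ((y : ℂ) * I) =
            cexp ((y : ℂ) * I) * (cexp (((x - y : ℝ) : ℂ) * I) - 1) := by
            rw [mul_sub, ← Complex.exp_add, mul_one]
            congr 2
            push_cast
            ring
          rw [e2, norm_mul, Complex.norm_exp_ofReal_mul_I, one_mul]
          exact exp1 _
        refine h7.trans ?_
        have e3 : x - y = ∑ i, d i * ((1 - κ / kp n p ⌊ρ * n⌋₊) * NA n p ⌊ρ * n⌋₊ (a i) (b i) w) := by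
          rw [hx, hy, ← Finset.sum_sub_distrib]
          refine Finset.sum_congr rfl fun i _ => ?_
          rw [hw i]
          field_simp
        rw [e3]
        refine (Finset.abs_sum_le_sum_abs _ _).trans (Finset.sum_le_sum fun i _ => ?_)
        rw [abs_mul, abs_mul, abs_of_nonneg (NA_nonneg hp0 _ hm _ _ _), mul_assoc]
      have i3 : Integrable (fun w => ∑ i, |d i| * |1 - κ / kp n p ⌊ρ * n⌋₊| *
            NA n p ⌊ρ * n⌋₊ (a i) (b i) w) (PP n ⌊ρ * n⌋₊) :=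
        integrable_finsetSum _ fun i _ => (NA_int (hab i) hp0 _ hm).1.const_mul _
      refine (integral_mono_ae (i1.sub i2).norm i3 h5).trans ?_
      rw [integral_finsetSum _ fun i _ => (NA_int (hab i) hp0 _ hm).1.const_mul _, Finset.sum_mul]
      refine le_of_eq (Finset.sum_congr rfl fun i _ => ?_)
      rw [integral_const_mul, (NA_int (hab i) hp0 _ hm).2, mul_one]
    have h3 := h2.add h1
    simp only [sub_add_cancel, zero_add] at h3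
    exact h3

end

end Pool.Agent.K7.H95.GMC
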