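import Pool.Agent.K7.H95.GMC.Lim3

/-!
MP_55470d_pr (helper95): convergence in law of the truncated random measures, by replacing the
integral over the sphere with an average over independent uniform points.
-/

set_option autoImplicit false

open MeasureTheory Complex Filter Topology ProbabilityTheory
open scoped ENNReal NNReal ComplexConjugate BoundedContinuousFunction

namespace Pool.Agent.K7.H95.GMC

open Pool.Agent.R923.SE Pool.Agent.R923.SE.NX

noncomputable section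

/-- the law of large numbers in `L²` -/
lemma mc {S : Type*} [MeasurableSpace S] {ν : Measure S} [IsProbabilityMeasure ν] {g : S → ℝ}
    (hg : MemLp g 2 ν) {k : ℕ} (hk : 0 < k) :
    Integrable (fun U : Fin k → S => ((∑ i, g (U i)) / k - ∫ u, g u ∂ν) ^ 2)
      (Measure.pi fun _ : Fin k => ν) ∧
    ∫ U : Fin k → S, ((∑ i, g (U i)) / k - ∫ u, g u ∂ν) ^ 2 ∂(Measure.pi fun _ : Fin k => ν) ≤
      (∫ u, g u ^ 2 ∂ν) / k := by
  have hk' : (0 : ℝ) < k := by exact_mod_cast hk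
  set P := Measure.pi fun _ : Fin k => ν with hP
  have hgi : Integrable g ν := hg.integrable (by norm_num)
  have hL : ∀ i : Fin k, MemLp (fun U : Fin k → S => g (U i)) 2 P := fun i =>
    hg.comp_measurePreserving (measurePreserving_eval _ i)
  have hS : MemLp (∑ i, fun U : Fin k → S => g (U i)) 2 P := memLp_finsetSum' _ fun i _ => hL i
  have hE : P[∑ i, fun U : Fin k → S => g (U i)] = k * ∫ u, g u ∂ν := by
    simp only [Finset.sum_apply]
    rw [integral_finsetSum _ fun i _ => (hL i).integrable (by norm_num)]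
    have : ∀ i : Fin k, ∫ U : Fin k → S, g (U i) ∂P = ∫ u, g u ∂ν := by
      intro i
      have hm := measurePreserving_eval (fun _ : Fin k => ν) i
      rw [← hm.map_eq, integral_map hm.measurable.aemeasurable
        (by rw [hm.map_eq]; exact hg.aestronglyMeasurable)]
    simp [this]
  have h1 := variance_sum_pi (μ := fun _ : Fin k => ν) (X := fun _ => g) (fun _ => hg)
  have h2 := variance_eq_integral (μ := P) hS.aestronglyMeasurable.aemeasurable
  rw [hE] at h2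
  have h3 : Var[g; ν] ≤ ∫ u, g u ^ 2 ∂ν := variance_le_expectation_sq hg.aestronglyMeasurable
  have e1 : ∀ U : Fin k → S, ((∑ i, g (U i)) / k - ∫ u, g u ∂ν) ^ 2 =
      ((∑ i, fun U : Fin k → S => g (U i)) U - k * ∫ u, g u ∂ν) ^ 2 / (k : ℝ) ^ 2 := by
    intro U
    simp only [Finset.sum_apply]
    field_simp
  have i1 : Integrable (fun U : Fin k → S =>
      ((∑ i, fun U : Fin k → S => g (U i)) U - k * ∫ u, g u ∂ν) ^ 2) P :=
    (hS.sub (memLp_const _)).integrable_sq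
  constructor
  · simp_rw [e1]
    exact i1.div_const _
  · simp_rw [e1]
    rw [integral_div, ← h2, h1]
    simp only [Finset.sum_const, Finset.card_univ, Fintype.card_fin, nsmul_eq_mul]
    rw [div_le_div_iff₀ (by positivity) hk']
    have h4 : 0 ≤ Var[g; ν] := variance_nonneg _ _
    have h5 : (k : ℝ) * Var[g; ν] * k ≤ (∫ u, g u ^ 2 ∂ν) * k ^ 2 := by
      have := mul_le_mul_of_nonneg_right h3 (by positivity : (0 : ℝ) ≤ (k : ℝ) ^ 2)
      nlinarith
    exact h5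

lemma cexp_diff (x y : ℝ) : ‖cexp ((x : ℂ) * I) - cexp ((y : ℂ) * I)‖ ≤ |x - y| := by
  have e2 : cexp ((x : ℂ) * I) - cexp ((y : ℂ) * I) =
    cexp ((y : ℂ) * I) * (cexp (((x - y : ℝ) : ℂ) * I) - 1) := by
    rw [mul_sub, ← Complex.exp_add, mul_one]
    congr 2
    push_cast
    ring
  rw [e2, norm_mul, Complex.norm_exp_ofReal_mul_I, one_mul]
  exact exp1 _

/-- consequence for characteristic functions -/
lemma mc_cf {S : Type*} [MeasurableSpace S] {ν : Measure S} [IsProbabilityMeasure ν] {g : S → ℝ}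
    (hg : MemLp g 2 ν) {k : ℕ} (hk : 0 < k) {ε : ℝ} (hε : 0 < ε) :
    ‖cexp (((∫ u, g u ∂ν : ℝ) : ℂ) * I) - ∫ U : Fin k → S, cexp ((((∑ i, g (U i)) / k : ℝ) : ℂ) * I)
      ∂(Measure.pi fun _ : Fin k => ν)‖ ≤ (∫ u, g u ^ 2 ∂ν) / k / (2 * ε) + ε / 2 := by
  obtain ⟨i1, b1⟩ := mc hg hk
  set P := Measure.pi fun _ : Fin k => ν with hP
  set M := ∫ u, g u ∂ν with hM
  have hS : AEStronglyMeasurable (fun U : Fin k → S => (∑ i, g (U i)) / k) P := by
    have hL : ∀ i : Fin k, MemLp (fun U : Fin k → S => g (U i)) 2 P := fun i =>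
      hg.comp_measurePreserving (measurePreserving_eval _ i)
    have := (memLp_finsetSum (μ := P) (p := 2) Finset.univ fun i _ => hL i).aestronglyMeasurable
    exact (this.aemeasurable.div_const _).aestronglyMeasurable
  have hc : AEStronglyMeasurable (fun U : Fin k → S => cexp ((((∑ i, g (U i)) / k : ℝ) : ℂ) * I)) P :=
    (by fun_prop : Continuous fun x : ℝ => cexp ((x : ℂ) * I)).comp_aestronglyMeasurable hS
  have i2 : Integrable (fun U : Fin k → S => cexp ((((∑ i, g (U i)) / k : ℝ) : ℂ) * I)) P :=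
    Integrable.of_bound hc 1 (Eventually.of_forall fun U => by rw [Complex.norm_exp_ofReal_mul_I])
  have e1 : cexp ((M : ℂ) * I) - ∫ U : Fin k → S, cexp ((((∑ i, g (U i)) / k : ℝ) : ℂ) * I) ∂P =
      ∫ U : Fin k → S, (cexp ((M : ℂ) * I) - cexp ((((∑ i, g (U i)) / k : ℝ) : ℂ) * I)) ∂P := by
    rw [integral_sub (integrable_const _) i2]
    simp
  rw [e1]
  refine (norm_integral_le_integral_norm _).trans ?_
  have i3 : Integrable (fun U : Fin k → S => ((∑ i, g (U i)) / k - M) ^ 2 / (2 * ε) + ε / 2) P :=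
    (i1.div_const _).add (integrable_const _)
  have h2 : ∫ U : Fin k → S, ‖cexp ((M : ℂ) * I) - cexp ((((∑ i, g (U i)) / k : ℝ) : ℂ) * I)‖ ∂P ≤
      ∫ U : Fin k → S, (((∑ i, g (U i)) / k - M) ^ 2 / (2 * ε) + ε / 2) ∂P := by
    refine integral_mono ((integrable_const _).sub i2).norm i3 fun U => ?_
    show ‖cexp ((M : ℂ) * I) - cexp ((((∑ i, g (U i)) / k : ℝ) : ℂ) * I)‖ ≤
      ((∑ i, g (U i)) / k - M) ^ 2 / (2 * ε) + ε / 2
    refine (cexp_diff _ _).trans ?_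
    rw [abs_sub_comm]
    set x := (∑ i, g (U i)) / k - M with hx
    have h4 : x ^ 2 / (2 * ε) + ε / 2 - |x| = (|x| - ε) ^ 2 / (2 * ε) := by
      rw [← sq_abs x]
      field_simp
      ring
    have h5 : 0 ≤ (|x| - ε) ^ 2 / (2 * ε) := by positivity
    linarith
  refine h2.trans ?_
  rw [integral_add (i1.div_const _) (integrable_const _), integral_div]
  have h6 : (∫ U : Fin k → S, ((∑ i, g (U i)) / k - M) ^ 2 ∂P) / (2 * ε) ≤
      (∫ u, g u ^ 2 ∂ν) / k / (2 * ε) := div_le_div_of_nonneg_right b1 (by positivity)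
  simpa using h6

/-- ratio of the second moment -/
def c2 (n : ℕ) (p : ℝ) (m : ℕ) : ℝ := ZM n (2 * p) m / ZM n p m ^ 2

lemma c2_bd {p : ℝ} (hp0 : 0 ≤ p) (hp1 : p ≤ 1) {ρ : ℝ} (hρ0 : 0 ≤ ρ) (hρ1 : ρ < 1) :
    ∃ C : ℝ, 0 ≤ C ∧ ∀ᶠ n : ℕ in atTop, c2 n p ⌊ρ * n⌋₊ ≤ C := by
  obtain ⟨C, hC, h⟩ := NA_sq_bd hp0 hp1 hρ0 hρ1
  refine ⟨C, hC, ?_⟩
  filter_upwards [h, floor_ev hρ0 hρ1] with n hn hn2
  have h1 := hn 1 0 (by simp)
  rwa [(NA_sq_int (by simp : ‖(1 : ℂ)‖ ^ 2 + ‖(0 : ℂ)‖ ^ 2 = 1) hp0 _ (by omega)).2] at h1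

section sphere

variable (hG : S_GEO) (hν : IsProbabilityMeasure nu)

include hG

lemma meas_NM (n : ℕ) (p : ℝ) (m : ℕ) :
    Measurable fun z : S2 × (Fin m → E n) => NM n p m z.1 z.2 :=
  meas_NA' hG.1 hG.2.1 p m

include hν

attribute [local irreducible] NM NA ZM DM

lemma g_int {f : S2 → ℝ} (hf : Measurable f) {B : ℝ} (hB : ∀ u, |f u| ≤ B) {n : ℕ} {p : ℝ}
    (hp : 0 ≤ p) (m : ℕ) (hm : m ≤ n) :
    Integrable (fun z : S2 × (Fin m → E n) => (f z.1 * NM n p m z.1 z.2) ^ 2)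
      (nu.prod (PP n m)) ∧
    ∫ z, (f z.1 * NM n p m z.1 z.2) ^ 2 ∂nu.prod (PP n m) ≤ B ^ 2 * c2 n p m := by
  have mg : Measurable fun z : S2 × (Fin m → E n) => (f z.1 * NM n p m z.1 z.2) ^ 2 :=
    ((hf.comp measurable_fst).mul (meas_NM hG n p m)).pow_const 2
  have h1 : ∀ u : S2, Integrable (fun w => (f u * NM n p m u w) ^ 2) (PP n m) ∧
      ∫ w, (f u * NM n p m u w) ^ 2 ∂PP n m = f u ^ 2 * c2 n p m := by
    intro u
    obtain ⟨i1, e1⟩ := NA_sq_int (hG.2.2.1 u) hp m hm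
    have e : (fun w => (f u * NM n p m u w) ^ 2) = fun w => f u ^ 2 * NA n p m (sa u) (sb u) w ^ 2 := by
      funext w; rw [NM_NA, mul_pow]
    rw [e]
    refine ⟨i1.const_mul _, ?_⟩
    rw [integral_const_mul, e1]
    rfl
  have h2 : ∀ u, f u ^ 2 * c2 n p m ≤ B ^ 2 * c2 n p m := by
    intro u
    have hc : 0 ≤ c2 n p m :=
      div_nonneg (ZM_pos (by linarith) m hm).le (by positivity)
    refine mul_le_mul_of_nonneg_right ?_ hc
    rw [← sq_abs]
    exact pow_le_pow_left₀ (abs_nonneg _) (hB u) 2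
  have i2 : Integrable (fun u => f u ^ 2 * c2 n p m) nu := by
    refine Integrable.of_bound ((hf.pow_const 2).mul_const _).aestronglyMeasurable
      (B ^ 2 * c2 n p m) (Eventually.of_forall fun u => ?_)
    have hc : 0 ≤ c2 n p m :=
      div_nonneg (ZM_pos (by linarith) m hm).le (by positivity)
    rw [Real.norm_of_nonneg (by positivity)]
    exact h2 u
  have i3 : Integrable (fun z : S2 × (Fin m → E n) => (f z.1 * NM n p m z.1 z.2) ^ 2)
      (nu.prod (PP n m)) := by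
    rw [integrable_prod_iff mg.aestronglyMeasurable]
    refine ⟨Eventually.of_forall fun u => (h1 u).1, ?_⟩
    refine i2.congr (Eventually.of_forall fun u => ?_)
    show f u ^ 2 * c2 n p m = ∫ w, ‖(f u * NM n p m u w) ^ 2‖ ∂PP n m
    rw [← (h1 u).2]
    refine integral_congr_ae (Eventually.of_forall fun w => ?_)
    show _ = ‖(f u * NM n p m u w) ^ 2‖
    rw [Real.norm_of_nonneg (sq_nonneg _)]
  refine ⟨i3, ?_⟩
  rw [integral_prod _ i3]
  have e2 : ∫ u, ∫ w, (f u * NM n p m u w) ^ 2 ∂PP n m ∂nu = ∫ u, f u ^ 2 * c2 n p m ∂nu :=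
    integral_congr_ae (Eventually.of_forall fun u => (h1 u).2)
  refine le_of_eq_of_le e2 ?_
  refine (integral_mono i2 (integrable_const _) h2).trans ?_
  simp

omit hG hν in
/-- the exponential at `k` points -/
def Fw (n : ℕ) (p : ℝ) (m k : ℕ) (f : S2 → ℝ) (U : Fin k → S2) (w : Fin m → E n) : ℂ :=
  cexp (((∑ i, (f (U i) / k) * NA n p m (sa (U i)) (sb (U i)) w : ℝ) : ℂ) * I)

omit hG hν in
lemma norm_Fw (n : ℕ) (p : ℝ) (m k : ℕ) (f : S2 → ℝ) (U : Fin k → S2) (w : Fin m → E n) :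
    ‖Fw n p m k f U w‖ = 1 := by
  unfold Fw; rw [Complex.norm_exp_ofReal_mul_I]

omit hν in
lemma meas_Fw (n : ℕ) (p : ℝ) (m k : ℕ) {f : S2 → ℝ} (hf : Measurable f) :
    Measurable (fun z : (Fin k → S2) × (Fin m → E n) => Fw n p m k f z.1 z.2) := by
  have h1 : ∀ i, Measurable (fun z : (Fin k → S2) × (Fin m → E n) =>
      NA n p m (sa (z.1 i)) (sb (z.1 i)) z.2) := by
    intro i
    exact meas_NA' (α := Fin k → S2) (fa := fun U => sa (U i)) (fb := fun U => sb (U i))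
      (hG.1.comp (measurable_pi_apply i)) (hG.2.1.comp (measurable_pi_apply i)) p _
  have h2 : ∀ i, Measurable (fun z : (Fin k → S2) × (Fin m → E n) => f (z.1 i)) :=
    fun i => hf.comp ((measurable_pi_apply i).comp measurable_fst)
  unfold Fw
  fun_prop

omit hG hν in
/-- expectation of the exponential -/
def JI (n : ℕ) (p : ℝ) (m k : ℕ) (f : S2 → ℝ) (U : Fin k → S2) : ℂ :=
  ∫ w, Fw n p m k f U w ∂PP n m

omit hν in
lemma meas_JI (n : ℕ) (p : ℝ) (m k : ℕ) {f : S2 → ℝ} (hf : Measurable f) :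
    StronglyMeasurable (JI n p m k f) :=
  (meas_Fw hG n p m k hf).stronglyMeasurable.integral_prod_right'

omit hG hν in
lemma norm_JI (n : ℕ) (p : ℝ) (m k : ℕ) (f : S2 → ℝ) (U : Fin k → S2) : ‖JI n p m k f U‖ ≤ 1 := by
  have h3 : ∀ᵐ w ∂PP n m, ‖Fw n p m k f U w‖ ≤ 1 :=
    Eventually.of_forall fun w => (norm_Fw n p m k f U w).le
  have := norm_integral_le_of_norm_le_const h3
  simpa [JI] using this

omit hν in
lemma lim_JI (k : ℕ) (f : S2 → ℝ) {p : ℝ} (hp0 : 0 ≤ p) (hp1 : p ≤ 1) {ρ : ℝ} (hρ0 : 0 ≤ ρ)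
    (hρ1 : ρ < 1) (U : Fin k → S2) :
    ∃ c, Tendsto (fun n : ℕ => JI n p ⌊ρ * n⌋₊ k f U) atTop (𝓝 c) :=
  joint_cf (a := fun i => sa (U i)) (b := fun i => sb (U i))
      (fun i => hG.2.2.1 (U i)) (fun i => f (U i) / k) hp0 hp1 hρ0 hρ1

lemma lim_A (k : ℕ) {f : S2 → ℝ} (hf : Measurable f) {p : ℝ} (hp0 : 0 ≤ p) (hp1 : p ≤ 1)
    {ρ : ℝ} (hρ0 : 0 ≤ ρ) (hρ1 : ρ < 1) : ∃ c, Tendsto (fun n : ℕ =>
      ∫ U, JI n p ⌊ρ * n⌋₊ k f U ∂(Measure.pi fun _ : Fin k => nu)) atTop (𝓝 c) := by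
  choose c hc using fun U : Fin k → S2 => lim_JI hG k f hp0 hp1 hρ0 hρ1 U
  exact ⟨∫ U, c U ∂(Measure.pi fun _ : Fin k => nu),
    tendsto_integral_of_dominated_convergence (fun _ => 1)
      (fun n => (meas_JI hG n p _ k hf).aestronglyMeasurable)
      (integrable_const _) (fun n => Eventually.of_forall fun U => norm_JI n p _ k f U)
      (Eventually.of_forall hc)⟩

omit hν in
lemma meas_XM (n : ℕ) (p : ℝ) (m : ℕ) [SFinite nu] {f : S2 → ℝ} (hf : Measurable f) :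
    Measurable (XM n p m f) := by
  have h1 : Measurable (fun z : (Fin m → E n) × S2 => f z.2 * NM n p m z.2 z.1) :=
    (hf.comp measurable_snd).mul ((meas_NM hG n p m).comp measurable_swap)
  have h2 := (h1.stronglyMeasurable.integral_prod_right' (ν := nu)).measurable
  exact h2

/-- the Monte Carlo error -/
lemma mc_err {f : S2 → ℝ} (hf : Measurable f) {B : ℝ} (hB : ∀ u, |f u| ≤ B) {n : ℕ} {p : ℝ}
    (hp0 : 0 ≤ p) (m : ℕ) (hm : m ≤ n) {C : ℝ} (hC : c2 n p m ≤ C) {ε : ℝ} (hε : 0 < ε)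
    {k : ℕ} (hk : 0 < k) (hkε : B ^ 2 * C / k ≤ ε ^ 2) :
    ‖∫ w, cexp (((XM n p m f w : ℝ) : ℂ) * I) ∂PP n m -
      ∫ U, JI n p m k f U ∂(Measure.pi fun _ : Fin k => nu)‖ ≤ ε := by
  have hk' : (0 : ℝ) < k := by exact_mod_cast hk
  obtain ⟨i1, b1⟩ := g_int hG hν hf hB hp0 m hm
  have i1' := i1.swap
  have ev1 : ∀ᵐ w ∂PP n m, Integrable (fun u => (f u * NM n p m u w) ^ 2) nu :=
    i1'.prod_right_ae
  have mN : ∀ w, Measurable (fun u => f u * NM n p m u w) := fun w =>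
    hf.mul ((meas_NM hG n p m).comp (measurable_id.prodMk measurable_const))
  have ev2 : ∀ᵐ w ∂PP n m, MemLp (fun u => f u * NM n p m u w) 2 nu := by
    filter_upwards [ev1] with w hw
    exact (memLp_two_iff_integrable_sq (mN w).aestronglyMeasurable).2 hw
  have i2 : Integrable (fun z : (Fin k → S2) × (Fin m → E n) => Fw n p m k f z.1 z.2)
      ((Measure.pi fun _ : Fin k => nu).prod (PP n m)) :=
    Integrable.of_bound (meas_Fw hG n p m k hf).aestronglyMeasurable 1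
      (Eventually.of_forall fun z => (norm_Fw n p m k f z.1 z.2).le)
  have e1 : ∫ U, JI n p m k f U ∂(Measure.pi fun _ : Fin k => nu) =
      ∫ w, ∫ U, Fw n p m k f U w ∂(Measure.pi fun _ : Fin k => nu) ∂PP n m :=
    integral_integral_swap i2
  have mX : Measurable (XM n p m f) := meas_XM hG n p m hf
  have i3 : Integrable (fun w => cexp (((XM n p m f w : ℝ) : ℂ) * I)) (PP n m) :=
    Integrable.of_bound (by fun_prop : Measurable _).aestronglyMeasurable 1
      (Eventually.of_forall fun w => by rw [Complex.norm_exp_ofReal_mul_I])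
  have i4 : Integrable (fun w => ∫ U, Fw n p m k f U w ∂(Measure.pi fun _ : Fin k => nu))
      (PP n m) := i2.integral_prod_right
  rw [e1, ← integral_sub i3 i4]
  refine (norm_integral_le_integral_norm _).trans ?_
  have i5 : Integrable (fun w => ∫ u, (f u * NM n p m u w) ^ 2 ∂nu) (PP n m) :=
    i1'.integral_prod_left
  have i7 : Integrable (fun w => (∫ u, (f u * NM n p m u w) ^ 2 ∂nu) / k / (2 * ε))
      (PP n m) := (i5.div_const _).div_const _
  have i6 : Integrable (fun w => (∫ u, (f u * NM n p m u w) ^ 2 ∂nu) / k / (2 * ε) + ε / 2)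
      (PP n m) := i7.add (integrable_const _)
  have h3 : ∫ w, ‖cexp (((XM n p m f w : ℝ) : ℂ) * I) -
      ∫ U, Fw n p m k f U w ∂(Measure.pi fun _ : Fin k => nu)‖ ∂PP n m ≤
      ∫ w, ((∫ u, (f u * NM n p m u w) ^ 2 ∂nu) / k / (2 * ε) + ε / 2) ∂PP n m := by
    have ev3 : ∀ᵐ w ∂PP n m, ‖cexp (((XM n p m f w : ℝ) : ℂ) * I) -
      ∫ U, Fw n p m k f U w ∂(Measure.pi fun _ : Fin k => nu)‖ ≤
        (∫ u, (f u * NM n p m u w) ^ 2 ∂nu) / k / (2 * ε) + ε / 2 := by
      filter_upwards [ev2] with w hw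
      have h4 := mc_cf hw hk hε
      have e4 : ∀ U : Fin k → S2, Fw n p m k f U w =
          cexp ((((∑ i, f (U i) * NM n p m (U i) w) / k : ℝ) : ℂ) * I) := by
        intro U
        unfold Fw
        have e5 : ∑ i, (f (U i) / k) * NA n p m (sa (U i)) (sb (U i)) w =
            (∑ i, f (U i) * NM n p m (U i) w) / k := by
          rw [Finset.sum_div]
          refine Finset.sum_congr rfl fun i _ => ?_
          rw [NM_NA]
          ring
        rw [e5]
      simp_rw [e4]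
      exact h4
    exact integral_mono_ae (i3.sub i4).norm i6 ev3
  refine h3.trans ?_
  rw [integral_add i7 (integrable_const _), integral_div, integral_div]
  have e3 : ∫ w, ∫ u, (f u * NM n p m u w) ^ 2 ∂nu ∂PP n m =
      ∫ z, (f z.1 * NM n p m z.1 z.2) ^ 2 ∂nu.prod (PP n m) := by
    rw [integral_prod _ i1]
    exact (integral_integral_swap i1).symm
  rw [e3]
  have h5 : ∫ z, (f z.1 * NM n p m z.1 z.2) ^ 2 ∂nu.prod (PP n m) ≤ B ^ 2 * C :=
    b1.trans (mul_le_mul_of_nonneg_left hC (sq_nonneg B))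
  have h6 : (∫ z, (f z.1 * NM n p m z.1 z.2) ^ 2 ∂nu.prod (PP n m)) / k / (2 * ε) ≤
      ε ^ 2 / (2 * ε) := by
    refine div_le_div_of_nonneg_right ?_ (by positivity)
    exact (div_le_div_of_nonneg_right h5 hk'.le).trans hkε
  have h7 : ε ^ 2 / (2 * ε) = ε / 2 := by field_simp
  simp only [integral_const, probReal_univ, smul_eq_mul, one_mul]
  linarith

/-- the truncated random measures converge in law -/
theorem trunc_conv {f : S2 → ℝ} (hf : Measurable f) {B : ℝ} (hB : ∀ u, |f u| ≤ B) {p : ℝ}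
    (hp0 : 0 ≤ p) (hp1 : p ≤ 1) {ρ : ℝ} (hρ0 : 0 ≤ ρ) (hρ1 : ρ < 1) :
    ∃ c : ℂ, Tendsto (fun n : ℕ => ∫ w, cexp (((XM n p ⌊ρ * n⌋₊ f w : ℝ) : ℂ) * I)
      ∂PP n ⌊ρ * n⌋₊) atTop (𝓝 c) := by
  obtain ⟨C, hC0, hC⟩ := c2_bd hp0 hp1 hρ0 hρ1
  have hev := floor_ev hρ0 hρ1
  set φ : ℕ → ℂ := fun n => ∫ w, cexp (((XM n p ⌊ρ * n⌋₊ f w : ℝ) : ℂ) * I) ∂PP n ⌊ρ * n⌋₊ with hφ
  set A : ℕ → ℕ → ℂ := fun k n => ∫ U, JI n p ⌊ρ * n⌋₊ k f U ∂(Measure.pi fun _ : Fin k => nu)
    with hA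
  have hAc : ∀ k, ∃ c, Tendsto (A k) atTop (𝓝 c) := fun k => lim_A hG hν k hf hp0 hp1 hρ0 hρ1
  have herr : ∀ ε : ℝ, 0 < ε → ∀ k : ℕ, 0 < k → B ^ 2 * C / k ≤ ε ^ 2 →
      ∀ᶠ n in atTop, ‖φ n - A k n‖ ≤ ε := by
    intro ε hε k hk hkε
    filter_upwards [hC, hev] with n hn hn2
    exact mc_err hG hν hf hB hp0 _ (by omega) hn hε hk hkε
  have hcau : CauchySeq φ := by
    rw [Metric.cauchySeq_iff']
    intro ε hε
    obtain ⟨k, hk⟩ := exists_nat_gt (B ^ 2 * C / (ε / 4) ^ 2)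
    have hk0 : (0 : ℝ) < k := lt_of_le_of_lt (by positivity) hk
    have hk0' : 0 < k := by exact_mod_cast hk0
    have hk1 : B ^ 2 * C / k ≤ (ε / 4) ^ 2 := by
      rw [div_le_iff₀ hk0]
      rw [div_lt_iff₀ (by positivity)] at hk
      linarith
    have h1 := herr (ε / 4) (by positivity) k hk0' hk1
    obtain ⟨c, hc⟩ := hAc k
    have h2 := Metric.tendsto_nhds.1 hc (ε / 8) (by positivity)
    obtain ⟨N, hN⟩ := eventually_atTop.1 (h1.and h2)
    refine ⟨N, fun n hn => ?_⟩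
    have a1 := (hN n hn).1
    have a2 := (hN n hn).2
    have b1 := (hN N le_rfl).1
    have b2 := (hN N le_rfl).2
    rw [dist_eq_norm] at a2 b2 ⊢
    have e : φ n - φ N = (φ n - A k n) + (A k n - c) - (φ N - A k N) - (A k N - c) := by ring
    rw [e]
    calc ‖(φ n - A k n) + (A k n - c) - (φ N - A k N) - (A k N - c)‖
        ≤ ‖φ n - A k n‖ + ‖A k n - c‖ + ‖φ N - A k N‖ + ‖A k N - c‖ := by
          refine (norm_sub_le _ _).trans ?_
          gcongr
          refine (norm_sub_le _ _).trans ?_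
          gcongr
          exact norm_add_le _ _
      _ < ε := by linarith
  exact cauchySeq_tendsto_of_complete hcau

end sphere

end

end Pool.Agent.K7.H95.GMC
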