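import Pool.Agent.K7.H95.GMC.Lim4

/-!
MP_55470d_pr (helper95): second moments of the truncated random measures (Fatou), and restriction
to the first rows.
-/

set_option autoImplicit false

open MeasureTheory Complex Filter Topology ProbabilityTheory
open scoped ENNReal NNReal ComplexConjugate BoundedContinuousFunction

namespace Pool.Agent.K7.H95.GMC

open Pool.Agent.R923.SE Pool.Agent.R923.SE.NX

noncomputable section

lemma mp_restr {n m : ℕ} (hm : m ≤ n) : MeasurePreserving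
    (fun (w : Fin n → E n) (i : Fin m) => w (Fin.castLE hm i)) (PP n n) (PP n m) := by
  have hmeas : Measurable (fun (w : Fin n → E n) (i : Fin m) => w (Fin.castLE hm i)) :=
    measurable_pi_lambda _ fun i => measurable_pi_apply _
  refine ⟨hmeas, ?_⟩
  have h1 : iIndepFun (fun (i : Fin n) (w : Fin n → E n) => w i) (PP n n) :=
    iIndepFun_pi (μ := fun _ : Fin n => gE n) (X := fun _ => id) fun _ => aemeasurable_id
  have h2 := h1.precomp (Fin.castLE_injective hm)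
  have h3 := h2.map_fun_eq_pi_map fun i => (measurable_pi_apply _).aemeasurable
  rw [h3]
  unfold PP
  congr 1
  funext i
  exact (measurePreserving_eval (fun _ : Fin n => gE n) _).map_eq

section sphere

variable (hG : S_GEO) (hν : IsProbabilityMeasure nu)

/-- covariance of the truncated densities -/
def Gm (n : ℕ) (p : ℝ) (m : ℕ) (u v : S2) : ℝ := ∫ w, NM n p m u w * NM n p m v w ∂PP n m

lemma NM_nonneg {n : ℕ} {p : ℝ} (hp : 0 ≤ p) {m : ℕ} (hm : m ≤ n) (u : S2) (w : Fin m → E n) :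
    0 ≤ NM n p m u w := NA_nonneg hp m hm _ _ _

include hG

lemma NM_mul_int {n : ℕ} {p : ℝ} (hp : 0 ≤ p) {m : ℕ} (hm : m ≤ n) (u v : S2) :
    Integrable (fun w => NM n p m u w * NM n p m v w) (PP n m) :=
  NA_mul_int (hG.2.2.1 u) (hG.2.2.1 v) hp m hm

lemma Gm_low (u v : S2) {p : ℝ} (hp0 : 0 ≤ p) (hp1 : p ≤ 1) {ρ : ℝ} (hρ0 : 0 ≤ ρ) (hρ1 : ρ < 1)
    {c : ℝ} (hc : c < (1 - ρ * (1 - ‖(u : R3) - (v : R3)‖ ^ 2 / 4)) ^ (-(p ^ 2))) :
    ∀ᶠ n : ℕ in atTop, c < Gm n p ⌊ρ * n⌋₊ u v := by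
  have hs : ‖sg (sa u) (sb u) (sa v) (sb v)‖ ^ 2 = 1 - ‖(u : R3) - (v : R3)‖ ^ 2 / 4 :=
    hG.2.2.2.1 u v
  rw [← hs] at hc
  exact pair_low (hG.2.2.1 u) (hG.2.2.1 v) hp0 hp1 hρ0 hρ1 hc

attribute [local irreducible] NM NA ZM DM Gm

lemma meas_Gm (n : ℕ) (p : ℝ) (m : ℕ) : Measurable fun z : S2 × S2 => Gm n p m z.1 z.2 := by
  unfold Gm
  have h1 := meas_NM hG n p m
  have h2 : Measurable fun z : (S2 × S2) × (Fin m → E n) => NM n p m z.1.1 z.2 :=
    h1.comp ((measurable_fst.comp measurable_fst).prodMk measurable_snd)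
  have h3 : Measurable fun z : (S2 × S2) × (Fin m → E n) => NM n p m z.1.2 z.2 :=
    h1.comp ((measurable_snd.comp measurable_fst).prodMk measurable_snd)
  have h4 := ((h2.mul h3).stronglyMeasurable.integral_prod_right' (ν := PP n m)).measurable
  exact h4

include hν

/-- a.s. integrability in the point -/
lemma ae_int_NM {f : S2 → ℝ} (hf : Measurable f) {B : ℝ} (hB : ∀ u, |f u| ≤ B) {n : ℕ} {p : ℝ}
    (hp : 0 ≤ p) (m : ℕ) (hm : m ≤ n) :
    ∀ᵐ w ∂PP n m, Integrable (fun u => f u * NM n p m u w) nu := by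
  obtain ⟨i1, b1⟩ := g_int hG hν hf hB hp m hm
  have i1' := i1.swap
  have ev1 : ∀ᵐ w ∂PP n m, Integrable (fun u => (f u * NM n p m u w) ^ 2) nu :=
    i1'.prod_right_ae
  have mN : ∀ w, Measurable (fun u => f u * NM n p m u w) := fun w =>
    hf.mul ((meas_NM hG n p m).comp (measurable_id.prodMk measurable_const))
  filter_upwards [ev1] with w hw
  exact int_of_sq (mN w).aestronglyMeasurable hw

/-- the second moment as a double integral -/
lemma XM_sq {f : S2 → ℝ} (hf : Measurable f) (hf0 : ∀ u, 0 ≤ f u) {B : ℝ} (hB : ∀ u, |f u| ≤ B)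
    {n : ℕ} {p : ℝ} (hp : 0 ≤ p) (m : ℕ) (hm : m ≤ n) :
    ∫⁻ w, ENNReal.ofReal (XM n p m f w ^ 2) ∂PP n m =
      ∫⁻ z : S2 × S2, ENNReal.ofReal (f z.1 * f z.2 * Gm n p m z.1 z.2) ∂(nu.prod nu) := by
  have mN := meas_NM hG n p m
  have m1 : Measurable fun z : S2 × (Fin m → E n) => ENNReal.ofReal (f z.1 * NM n p m z.1 z.2) :=
    ((hf.comp measurable_fst).mul mN).ennreal_ofReal
  have e1 : ∀ᵐ w ∂PP n m, ENNReal.ofReal (XM n p m f w ^ 2) =
      ∫⁻ z : S2 × S2, ENNReal.ofReal (f z.1 * NM n p m z.1 w) *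
        ENNReal.ofReal (f z.2 * NM n p m z.2 w) ∂(nu.prod nu) := by
    filter_upwards [ae_int_NM hG hν hf hB hp m hm] with w hw
    have h0 : ∀ u, 0 ≤ f u * NM n p m u w := fun u => mul_nonneg (hf0 u) (NM_nonneg hp hm u w)
    have h1 : ENNReal.ofReal (XM n p m f w) = ∫⁻ u, ENNReal.ofReal (f u * NM n p m u w) ∂nu :=
      ofReal_integral_eq_lintegral_ofReal hw (Eventually.of_forall h0)
    have h2 : 0 ≤ XM n p m f w := integral_nonneg h0
    have m2 : Measurable fun u => ENNReal.ofReal (f u * NM n p m u w) :=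
      m1.comp (measurable_id.prodMk measurable_const)
    rw [lintegral_prod_mul m2.aemeasurable m2.aemeasurable, ← h1, sq, ENNReal.ofReal_mul h2]
  rw [lintegral_congr_ae e1]
  have m3 : Measurable fun x : (Fin m → E n) × (S2 × S2) =>
      ENNReal.ofReal (f x.2.1 * NM n p m x.2.1 x.1) * ENNReal.ofReal (f x.2.2 * NM n p m x.2.2 x.1) := by
    have m4 : Measurable fun x : (Fin m → E n) × (S2 × S2) =>
        ENNReal.ofReal (f x.2.1 * NM n p m x.2.1 x.1) :=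
      m1.comp ((measurable_fst.comp measurable_snd).prodMk measurable_fst)
    have m5 : Measurable fun x : (Fin m → E n) × (S2 × S2) =>
        ENNReal.ofReal (f x.2.2 * NM n p m x.2.2 x.1) :=
      m1.comp ((measurable_snd.comp measurable_snd).prodMk measurable_fst)
    exact m4.mul m5
  rw [lintegral_lintegral_swap m3.aemeasurable]
  refine lintegral_congr fun z => ?_
  have h3 : ∀ w, ENNReal.ofReal (f z.1 * NM n p m z.1 w) * ENNReal.ofReal (f z.2 * NM n p m z.2 w) =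
      ENNReal.ofReal (f z.1 * f z.2 * (NM n p m z.1 w * NM n p m z.2 w)) := by
    intro w
    rw [← ENNReal.ofReal_mul (mul_nonneg (hf0 _) (NM_nonneg hp hm _ w))]
    congr 1
    ring
  simp_rw [h3]
  have i1 := NM_mul_int hG hp hm z.1 z.2
  rw [← ofReal_integral_eq_lintegral_ofReal (i1.const_mul _) (Eventually.of_forall fun w =>
    mul_nonneg (mul_nonneg (hf0 _) (hf0 _)) (mul_nonneg (NM_nonneg hp hm _ w)
      (NM_nonneg hp hm _ w))), integral_const_mul]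
  unfold Gm
  rfl

/-- **Fatou's lemma** for the second moments of the truncated measures -/
lemma fatou {f : S2 → ℝ} (hf : Measurable f) (hf0 : ∀ u, 0 ≤ f u) {B : ℝ} (hB : ∀ u, |f u| ≤ B)
    {p : ℝ} (hp0 : 0 ≤ p) (hp1 : p ≤ 1) {ρ : ℝ} (hρ0 : 0 ≤ ρ) (hρ1 : ρ < 1) :
    ∫⁻ z : S2 × S2, ENNReal.ofReal (f z.1 * f z.2 *
      (1 - ρ * (1 - ‖(z.1 : R3) - (z.2 : R3)‖ ^ 2 / 4)) ^ (-(p ^ 2))) ∂(nu.prod nu) ≤
    liminf (fun n : ℕ => ∫⁻ w, ENNReal.ofReal (XM n p ⌊ρ * n⌋₊ f w ^ 2) ∂PP n ⌊ρ * n⌋₊) atTop := by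
  have hev := floor_ev hρ0 hρ1
  have e1 : liminf (fun n : ℕ => ∫⁻ w, ENNReal.ofReal (XM n p ⌊ρ * n⌋₊ f w ^ 2) ∂PP n ⌊ρ * n⌋₊)
      atTop = liminf (fun n : ℕ => ∫⁻ z : S2 × S2,
        ENNReal.ofReal (f z.1 * f z.2 * Gm n p ⌊ρ * n⌋₊ z.1 z.2) ∂(nu.prod nu)) atTop := by
    refine liminf_congr ?_
    filter_upwards [hev] with n hn
    exact XM_sq hG hν hf hf0 hB hp0 _ (by omega)
  rw [e1]
  have mg : ∀ n : ℕ, Measurable fun z : S2 × S2 =>
      ENNReal.ofReal (f z.1 * f z.2 * Gm n p ⌊ρ * n⌋₊ z.1 z.2) := fun n =>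
    (((hf.comp measurable_fst).mul (hf.comp measurable_snd)).mul
      (meas_Gm hG n p ⌊ρ * n⌋₊)).ennreal_ofReal
  refine le_trans (lintegral_mono fun z => ?_) (lintegral_liminf_le mg)
  set K := (1 - ρ * (1 - ‖(z.1 : R3) - (z.2 : R3)‖ ^ 2 / 4)) ^ (-(p ^ 2)) with hK
  have hF : 0 ≤ f z.1 * f z.2 := mul_nonneg (hf0 _) (hf0 _)
  have h1 : ∀ j : ℕ, ENNReal.ofReal (f z.1 * f z.2 * (K - 1 / ((j : ℝ) + 1))) ≤
      liminf (fun n : ℕ => ENNReal.ofReal (f z.1 * f z.2 * Gm n p ⌊ρ * n⌋₊ z.1 z.2)) atTop := by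
    intro j
    refine le_liminf_of_le (by isBoundedDefault) ?_
    have hc : K - 1 / ((j : ℝ) + 1) <
        (1 - ρ * (1 - ‖(z.1 : R3) - (z.2 : R3)‖ ^ 2 / 4)) ^ (-(p ^ 2)) := by
      rw [← hK]
      have : (0 : ℝ) < 1 / ((j : ℝ) + 1) := by positivity
      linarith
    filter_upwards [Gm_low hG z.1 z.2 hp0 hp1 hρ0 hρ1 hc] with n hn
    exact ENNReal.ofReal_le_ofReal (mul_le_mul_of_nonneg_left hn.le hF)
  have h2 : Tendsto (fun j : ℕ => ENNReal.ofReal (f z.1 * f z.2 * (K - 1 / ((j : ℝ) + 1)))) atTop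
      (𝓝 (ENNReal.ofReal (f z.1 * f z.2 * K))) := by
    refine ENNReal.tendsto_ofReal ?_
    have h3 := (tendsto_const_nhds (x := K)).sub (tendsto_one_div_add_atTop_nhds_zero_nat (𝕜 := ℝ))
    rw [sub_zero] at h3
    exact h3.const_mul _
  exact le_of_tendsto' h2 h1

end sphere

end

end Pool.Agent.K7.H95.GMC
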