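import Pool.Agent.K7.H95.GMC.Lim5
import Pool.Agent.R923.SE.Sph

/-!
MP_55470d_pr (helper95): assembly of S_CONV.
-/

set_option autoImplicit false

open MeasureTheory Complex Filter Topology ProbabilityTheory
open scoped ENNReal NNReal ComplexConjugate BoundedContinuousFunction

namespace Pool.Agent.K7.H95.GMC

open Pool.Agent.R923.SE Pool.Agent.R923.SE.NX

noncomputable section

/-- the limiting kernel, truncated -/
def Kr (p ρ : ℝ) (z : S2 × S2) : ℝ :=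
  (1 - ρ * (1 - ‖(z.1 : R3) - (z.2 : R3)‖ ^ 2 / 4)) ^ (-(p ^ 2))

/-- the limiting kernel -/
def K1 (p : ℝ) (z : S2 × S2) : ℝ := (‖(z.1 : R3) - (z.2 : R3)‖ ^ 2 / 4) ^ (-(p ^ 2))

lemma meas_Kr (p ρ : ℝ) : Measurable (Kr p ρ) := by
  unfold Kr
  have h1 : Measurable fun z : S2 × S2 => ‖(z.1 : R3) - (z.2 : R3)‖ :=
    (by fun_prop : Continuous fun z : S2 × S2 => ‖(z.1 : R3) - (z.2 : R3)‖).measurable
  fun_prop

lemma Kr_lim {p : ℝ} (hp : 0 < p) (z : S2 × S2) {F : ℝ} (_hF : 0 ≤ F) :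
    ENNReal.ofReal (F * K1 p z) ≤ liminf (fun ρ => ENNReal.ofReal (F * Kr p ρ z)) (𝓝[<] (1 : ℝ)) := by
  set d := ‖(z.1 : R3) - (z.2 : R3)‖ ^ 2 / 4 with hd
  have hd0 : 0 ≤ d := by positivity
  rcases hd0.eq_or_lt with h | h
  · have : K1 p z = 0 := by
      unfold K1
      rw [← hd, ← h]
      exact Real.zero_rpow (by have := pow_pos hp 2; linarith)
    rw [this]
    simp
  · have h1 : Tendsto (fun ρ => ENNReal.ofReal (F * Kr p ρ z)) (𝓝[<] (1 : ℝ))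
        (𝓝 (ENNReal.ofReal (F * K1 p z))) := by
      refine ENNReal.tendsto_ofReal (Tendsto.const_mul _ ?_)
      unfold Kr K1
      rw [← hd]
      have h2 : Tendsto (fun ρ : ℝ => 1 - ρ * (1 - d)) (𝓝[<] (1 : ℝ)) (𝓝 d) := by
        have h3 : Continuous fun ρ : ℝ => 1 - ρ * (1 - d) := by fun_prop
        have h4 := h3.tendsto 1
        have e : 1 - 1 * (1 - d) = d := by ring
        simp only [e] at h4
        exact h4.mono_left nhdsWithin_le_nhds
      exact h2.rpow_const (Or.inl h.ne')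
    rw [h1.liminf_eq]

section sphere

variable (hG : S_GEO) (hν : IsProbabilityMeasure nu) (hT : S_TOP) (hL : S_L2) (hM : S_MART)

/-- the full pair of matrices -/
def ee (n : ℕ) (w : Fin n → E n) : Mt n n × Mt n n := (fun i => (w i).1, fun i => (w i).2)

attribute [local irreducible] NM NA ZM DM

include hL hT in
lemma sq_top {p : ℝ} (hp0 : 0 < p) (hp1 : p < 1) (f : C(S2, ℝ)) (n : ℕ) :
    ∫ w, XM n p n f w ^ 2 ∂PP n n = ∫ x, XN n p f x ^ 2 ∂gg n := by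
  obtain ⟨h1, h2⟩ := hT n
  have h3 : ∀ w : Fin n → E n, XM n p n f w = XN n p f (ee n w) := h2 p hp0 f
  simp_rw [h3]
  have h4 := (hL p hp0 hp1 f).1 n
  rw [← h1.map_eq, integral_map h1.measurable.aemeasurable
    (by rw [h1.map_eq]; exact h4.aestronglyMeasurable)]
  rfl

include hG hν hT hL hM in
lemma close_pos {p : ℝ} (hp0 : 0 < p) (hp1 : p < 1) (f : C(S2, ℝ)) (hf0 : ∀ u, 0 ≤ f u)
    {ε : ℝ} (hε : 0 < ε) : ∀ᶠ ρ : ℝ in 𝓝[<] (1 : ℝ), ∀ (h0 : 0 ≤ ρ) (h1 : ρ < 1),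
      ∀ᶠ n : ℕ in atTop, ∫ w : Fin n → E n, (XM n p n f w -
        XM n p ⌊ρ * n⌋₊ f (fun i => w (Fin.castLE (floor_bd h0 h1 n).1 i))) ^ 2 ∂PP n n ≤ ε := by
  obtain ⟨hL1, hL2, hL3⟩ := hL p hp0 hp1 f
  have hB : ∀ u, |f u| ≤ ‖f‖ := fun u => f.norm_coe_le_norm u
  have hfm : Measurable f := f.continuous.measurable
  set J := ∫ z : S2 × S2, f z.1 * f z.2 * (‖(z.1 : R3) - (z.2 : R3)‖ ^ 2 / 4) ^ (-(p ^ 2))
      ∂nu.prod nu with hJ
  have hK0 : ∀ z : S2 × S2, 0 ≤ f z.1 * f z.2 * (‖(z.1 : R3) - (z.2 : R3)‖ ^ 2 / 4) ^ (-(p ^ 2)) :=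
    fun z => mul_nonneg (mul_nonneg (hf0 _) (hf0 _)) (by positivity)
  have hJ0 : 0 ≤ J := integral_nonneg hK0
  -- lower bound
  have h1 : ENNReal.ofReal J ≤ liminf (fun ρ => ∫⁻ z : S2 × S2,
      ENNReal.ofReal (f z.1 * f z.2 * Kr p ρ z) ∂(nu.prod nu)) (𝓝[<] (1 : ℝ)) := by
    rw [hJ, ofReal_integral_eq_lintegral_ofReal hL2 (Eventually.of_forall hK0)]
    refine le_trans (lintegral_mono fun z => ?_) (lintegral_liminf_le fun ρ => ?_)
    · exact Kr_lim hp0 z (mul_nonneg (hf0 _) (hf0 _))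
    · exact (((hfm.comp measurable_fst).mul (hfm.comp measurable_snd)).mul
        (meas_Kr p ρ)).ennreal_ofReal
  have h2 : ∀ᶠ ρ in 𝓝[<] (1 : ℝ), ENNReal.ofReal (J - ε / 2) < ∫⁻ z : S2 × S2,
      ENNReal.ofReal (f z.1 * f z.2 * Kr p ρ z) ∂(nu.prod nu) ∨ J - ε / 2 < 0 := by
    rcases lt_or_ge (J - ε / 2) 0 with h | h
    · exact Eventually.of_forall fun ρ => Or.inr h
    · have h3 : ENNReal.ofReal (J - ε / 2) < liminf (fun ρ => ∫⁻ z : S2 × S2,
          ENNReal.ofReal (f z.1 * f z.2 * Kr p ρ z) ∂(nu.prod nu)) (𝓝[<] (1 : ℝ)) := by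
        refine lt_of_lt_of_le ?_ h1
        rw [ENNReal.ofReal_lt_ofReal_iff (by linarith)]
        linarith
      filter_upwards [eventually_lt_of_lt_liminf h3] with ρ hρ
      exact Or.inl hρ
  filter_upwards [h2] with ρ hρ h0 h1'
  have h4 : ∀ᶠ n : ℕ in atTop, J - ε / 2 < ∫ w, XM n p ⌊ρ * n⌋₊ f w ^ 2 ∂PP n ⌊ρ * n⌋₊ := by
    rcases hρ with hρ | hρ
    · have h5 := hρ.trans_le (fatou hG hν hfm hf0 hB hp0.le hp1.le h0 h1')
      filter_upwards [eventually_lt_of_lt_liminf h5] with n hn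
      have i1 := (hM n p hp0 hp1 f ⌊ρ * n⌋₊ (floor_bd h0 h1' n).1).1
      rw [← ofReal_integral_eq_lintegral_ofReal i1 (Eventually.of_forall fun _ => sq_nonneg _)] at hn
      exact (ENNReal.ofReal_lt_ofReal_iff'.1 hn).1
    · refine Eventually.of_forall fun n => hρ.trans_le (integral_nonneg fun _ => sq_nonneg _)
  have h5 : ∀ᶠ n : ℕ in atTop, ∫ x, XN n p f x ^ 2 ∂gg n < J + ε / 2 :=
    hL3.eventually (gt_mem_nhds (by linarith))
  filter_upwards [h4, h5] with n h6 h7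
  rw [(hM n p hp0 hp1 f ⌊ρ * n⌋₊ (floor_bd h0 h1' n).1).2, sq_top hT hL hp0 hp1 f n]
  linarith

include hG in
lemma meas_XN (n : ℕ) (p : ℝ) [SFinite nu] {f : S2 → ℝ} (hf : Measurable f) :
    Measurable (XN n p f) := by
  have hd : Measurable (fun z : (Mt n n × Mt n n) × S2 =>
      dt (sa z.2 • z.1.1 + sb z.2 • z.1.2)) := by
    refine (Sph.measurable_dt (n := n)).comp ?_
    refine measurable_pi_lambda _ fun i => measurable_pi_lambda _ fun j => ?_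
    have m1 : Measurable fun z : (Mt n n × Mt n n) × S2 => sa z.2 := hG.1.comp measurable_snd
    have m2 : Measurable fun z : (Mt n n × Mt n n) × S2 => sb z.2 := hG.2.1.comp measurable_snd
    have m3 : Measurable fun z : (Mt n n × Mt n n) × S2 => z.1.1 i j :=
      (measurable_pi_apply j).comp ((measurable_pi_apply i).comp
        (measurable_fst.comp measurable_fst))
    have m4 : Measurable fun z : (Mt n n × Mt n n) × S2 => z.1.2 i j :=
      (measurable_pi_apply j).comp ((measurable_pi_apply i).comp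
        (measurable_snd.comp measurable_fst))
    exact (m1.mul m3).add (m2.mul m4)
  have h1 : Measurable (fun z : (Mt n n × Mt n n) × S2 => f z.2 * Nh n p z.2 z.1) := by
    refine (hf.comp measurable_snd).mul ?_
    unfold Nh
    exact (hd.norm.pow_const _).div_const _
  have h2 := (h1.stronglyMeasurable.integral_prod_right' (ν := nu)).measurable
  exact h2

/-- positive part -/
def pp (f : C(S2, ℝ)) : C(S2, ℝ) := ⟨fun u => max (f u) 0, by fun_prop⟩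

lemma pp_sub (f : C(S2, ℝ)) (u : S2) : f u = pp f u - pp (-f) u := by
  show f u = max (f u) 0 - max (-(f u)) 0
  rcases le_total (f u) 0 with h | h
  · rw [max_eq_right h, max_eq_left (by linarith)]; ring
  · rw [max_eq_left h, max_eq_right (by linarith)]; ring

lemma pp_nonneg (f : C(S2, ℝ)) (u : S2) : 0 ≤ pp f u := le_max_right _ _

include hG hν in
lemma XM_pp {p : ℝ} (hp0 : 0 ≤ p) (f : C(S2, ℝ)) {n m : ℕ} (hm : m ≤ n) :
    ∀ᵐ w ∂PP n m, XM n p m f w = XM n p m (pp f) w - XM n p m (pp (-f)) w := by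
  filter_upwards [ae_int_NM hG hν (pp f).continuous.measurable (fun u => (pp f).norm_coe_le_norm u)
    hp0 m hm, ae_int_NM hG hν (pp (-f)).continuous.measurable
    (fun u => (pp (-f)).norm_coe_le_norm u) hp0 m hm] with w h1 h2
  unfold XM
  rw [← integral_sub h1 h2]
  refine integral_congr_ae (Eventually.of_forall fun u => ?_)
  show f u * NM n p m u w = pp f u * NM n p m u w - pp (-f) u * NM n p m u w
  rw [pp_sub f u]
  ring

lemma l1_of_l2 {Ω : Type*} [MeasurableSpace Ω] {P : Measure Ω} [IsProbabilityMeasure P]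
    {X Y : Ω → ℝ} (hX : AEStronglyMeasurable X P) (hY : AEStronglyMeasurable Y P)
    (hX2 : Integrable (fun ω => X ω ^ 2) P) (hY2 : Integrable (fun ω => Y ω ^ 2) P)
    {ε : ℝ} (hε : 0 < ε) (h : ∫ ω, (X ω - Y ω) ^ 2 ∂P ≤ ε ^ 2) :
    Integrable (fun ω => |X ω - Y ω|) P ∧ ∫ ω, |X ω - Y ω| ∂P ≤ ε := by
  have i1 : Integrable (fun ω => (X ω - Y ω) ^ 2) P := by
    refine ((hX2.add hY2).const_mul 2).mono' ((hX.sub hY).pow 2)
      (Eventually.of_forall fun ω => ?_)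
    rw [Real.norm_of_nonneg (sq_nonneg _)]
    show (X ω - Y ω) ^ 2 ≤ 2 * (X ω ^ 2 + Y ω ^ 2)
    nlinarith [sq_nonneg (X ω + Y ω)]
  have i2 : Integrable (fun ω => |X ω - Y ω|) P := (int_of_sq (hX.sub hY) i1).abs
  refine ⟨i2, ?_⟩
  have i3 : Integrable (fun ω => (X ω - Y ω) ^ 2 / (2 * ε) + ε / 2) P :=
    (i1.div_const _).add (integrable_const _)
  have h2 : ∫ ω, |X ω - Y ω| ∂P ≤ ∫ ω, ((X ω - Y ω) ^ 2 / (2 * ε) + ε / 2) ∂P := by
    refine integral_mono i2 i3 fun ω => ?_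
    show |X ω - Y ω| ≤ (X ω - Y ω) ^ 2 / (2 * ε) + ε / 2
    have h4 : (X ω - Y ω) ^ 2 / (2 * ε) + ε / 2 - |X ω - Y ω| =
        (|X ω - Y ω| - ε) ^ 2 / (2 * ε) := by
      rw [← sq_abs (X ω - Y ω)]
      field_simp
      ring
    have h5 : 0 ≤ (|X ω - Y ω| - ε) ^ 2 / (2 * ε) := by positivity
    linarith
  refine h2.trans ?_
  rw [integral_add (i1.div_const _) (integrable_const _), integral_div]
  have h6 : (∫ ω, (X ω - Y ω) ^ 2 ∂P) / (2 * ε) ≤ ε ^ 2 / (2 * ε) :=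
    div_le_div_of_nonneg_right h (by positivity)
  have h7 : ε ^ 2 / (2 * ε) = ε / 2 := by field_simp
  simp only [integral_const, probReal_univ, smul_eq_mul, one_mul]
  linarith

include hG hν hT hL hM in
/-- closeness of the characteristic functions -/
lemma cf_near {p : ℝ} (hp0 : 0 < p) (hp1 : p < 1) (f : C(S2, ℝ)) {ε : ℝ} (hε : 0 < ε) :
    ∃ ρ : ℝ, 0 ≤ ρ ∧ ρ < 1 ∧ ∀ᶠ n : ℕ in atTop,
      ‖∫ x, cexp (((XN n p f x : ℝ) : ℂ) * I) ∂gg n -
        ∫ w, cexp (((XM n p ⌊ρ * n⌋₊ f w : ℝ) : ℂ) * I) ∂PP n ⌊ρ * n⌋₊‖ ≤ 2 * ε := by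
  have hc1 := close_pos hG hν hT hL hM hp0 hp1 (pp f) (pp_nonneg f) (by positivity : 0 < ε ^ 2)
  have hc2 := close_pos hG hν hT hL hM hp0 hp1 (pp (-f)) (pp_nonneg (-f))
    (by positivity : 0 < ε ^ 2)
  have hc3 : ∀ᶠ ρ in 𝓝[<] (1 : ℝ), ρ ∈ Set.Ioo (0 : ℝ) 1 := Ioo_mem_nhdsLT (by norm_num)
  obtain ⟨ρ, ⟨h1, h2⟩, h3⟩ := ((hc1.and hc2).and hc3).exists
  have hρ0 : 0 ≤ ρ := h3.1.le
  have hρ1 : ρ < 1 := h3.2
  refine ⟨ρ, hρ0, hρ1, ?_⟩
  filter_upwards [h1 hρ0 hρ1, h2 hρ0 hρ1] with n hn1 hn2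
  have hm := (floor_bd hρ0 hρ1 n).1
  have hr := mp_restr hm
  obtain ⟨t1, t2⟩ := hT n
  have mXN : Measurable (XN n p f) := meas_XN hG n p f.continuous.measurable
  have mXn : ∀ g : C(S2, ℝ), Measurable (XM n p n g) := fun g =>
    meas_XM hG n p n g.continuous.measurable
  have mXm : ∀ g : C(S2, ℝ), Measurable (XM n p ⌊ρ * n⌋₊ g) := fun g =>
    meas_XM hG n p _ g.continuous.measurable
  have mc : Measurable fun x : ℝ => cexp ((x : ℂ) * I) := by fun_prop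
  set r : (Fin n → E n) → (Fin ⌊ρ * n⌋₊ → E n) := fun w i => w (Fin.castLE hm i) with hrdef
  -- both integrals on the same space
  have e1 : ∫ x, cexp (((XN n p f x : ℝ) : ℂ) * I) ∂gg n =
      ∫ w, cexp (((XM n p n f w : ℝ) : ℂ) * I) ∂PP n n := by
    have h4 : ∀ w : Fin n → E n, XM n p n f w = XN n p f (ee n w) := t2 p hp0 f
    simp_rw [h4]
    have mc1 : Measurable (fun x : Mt n n × Mt n n => cexp (((XN n p f x : ℝ) : ℂ) * I)) :=
      mc.comp mXN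
    rw [← t1.map_eq, integral_map t1.measurable.aemeasurable mc1.aestronglyMeasurable]
    rfl
  have e2 : ∫ w, cexp (((XM n p ⌊ρ * n⌋₊ f w : ℝ) : ℂ) * I) ∂PP n ⌊ρ * n⌋₊ =
      ∫ w, cexp (((XM n p ⌊ρ * n⌋₊ f (r w) : ℝ) : ℂ) * I) ∂PP n n := by
    have mc2 : Measurable (fun w : Fin ⌊ρ * n⌋₊ → E n =>
        cexp (((XM n p ⌊ρ * n⌋₊ f w : ℝ) : ℂ) * I)) := mc.comp (mXm f)
    rw [← hr.map_eq, integral_map hr.measurable.aemeasurable mc2.aestronglyMeasurable]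
  rw [e1, e2]
  have i1 : Integrable (fun w => cexp (((XM n p n f w : ℝ) : ℂ) * I)) (PP n n) :=
    Integrable.of_bound (mc.comp (mXn f)).aestronglyMeasurable 1
      (Eventually.of_forall fun w => by
        show ‖cexp (((XM n p n f w : ℝ) : ℂ) * I)‖ ≤ 1
        rw [Complex.norm_exp_ofReal_mul_I])
  have i2 : Integrable (fun w => cexp (((XM n p ⌊ρ * n⌋₊ f (r w) : ℝ) : ℂ) * I)) (PP n n) :=
    Integrable.of_bound (mc.comp ((mXm f).comp hr.measurable)).aestronglyMeasurable 1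
      (Eventually.of_forall fun w => by
        show ‖cexp (((XM n p ⌊ρ * n⌋₊ f (r w) : ℝ) : ℂ) * I)‖ ≤ 1
        rw [Complex.norm_exp_ofReal_mul_I])
  rw [← integral_sub i1 i2]
  refine (norm_integral_le_integral_norm _).trans ?_
  -- `L¹` bounds of the two parts
  have key : ∀ g : C(S2, ℝ), (∫ w : Fin n → E n, (XM n p n g w -
        XM n p ⌊ρ * n⌋₊ g (fun i => w (Fin.castLE hm i))) ^ 2 ∂PP n n ≤ ε ^ 2) →
      Integrable (fun w => |XM n p n g w - XM n p ⌊ρ * n⌋₊ g (r w)|) (PP n n) ∧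
      ∫ w, |XM n p n g w - XM n p ⌊ρ * n⌋₊ g (r w)| ∂PP n n ≤ ε := by
    intro g hg
    have j1 := (hM n p hp0 hp1 g n le_rfl).1
    have j2 := (hM n p hp0 hp1 g ⌊ρ * n⌋₊ hm).1
    have j3 : Integrable (fun w => XM n p ⌊ρ * n⌋₊ g (r w) ^ 2) (PP n n) :=
      hr.integrable_comp_of_integrable j2
    exact l1_of_l2 (mXn g).aestronglyMeasurable ((mXm g).comp hr.measurable).aestronglyMeasurable
      j1 j3 hε hg
  obtain ⟨k1, k2⟩ := key (pp f) hn1
  obtain ⟨k3, k4⟩ := key (pp (-f)) hn2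
  have hae : ∀ᵐ w ∂PP n n, ‖cexp (((XM n p n f w : ℝ) : ℂ) * I) -
      cexp (((XM n p ⌊ρ * n⌋₊ f (r w) : ℝ) : ℂ) * I)‖ ≤
      |XM n p n (pp f) w - XM n p ⌊ρ * n⌋₊ (pp f) (r w)| +
      |XM n p n (pp (-f)) w - XM n p ⌊ρ * n⌋₊ (pp (-f)) (r w)| := by
    have a1 := XM_pp hG hν hp0.le f (le_refl n)
    have a2 := hr.quasiMeasurePreserving.ae (XM_pp hG hν hp0.le f hm)
    filter_upwards [a1, a2] with w h4 h5
    refine (cexp_diff _ _).trans ?_
    rw [h4, h5]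
    have e3 : XM n p n (pp f) w - XM n p n (pp (-f)) w -
        (XM n p ⌊ρ * n⌋₊ (pp f) (r w) - XM n p ⌊ρ * n⌋₊ (pp (-f)) (r w)) =
        (XM n p n (pp f) w - XM n p ⌊ρ * n⌋₊ (pp f) (r w)) -
        (XM n p n (pp (-f)) w - XM n p ⌊ρ * n⌋₊ (pp (-f)) (r w)) := by ring
    rw [e3]
    exact abs_sub _ _
  have h6 := integral_mono_ae (i1.sub i2).norm (k1.add k3) hae
  have e7 : ∫ w, ((fun w => |XM n p n (pp f) w - XM n p ⌊ρ * n⌋₊ (pp f) (r w)|) +
      (fun w => |XM n p n (pp (-f)) w - XM n p ⌊ρ * n⌋₊ (pp (-f)) (r w)|)) w ∂PP n n =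
      ∫ w, |XM n p n (pp f) w - XM n p ⌊ρ * n⌋₊ (pp f) (r w)| ∂PP n n +
      ∫ w, |XM n p n (pp (-f)) w - XM n p ⌊ρ * n⌋₊ (pp (-f)) (r w)| ∂PP n n := integral_add k1 k3
  refine h6.trans ?_
  rw [e7]
  linarith

end sphere

/-- **CONV** from the pieces -/
theorem conv_of (hG : S_GEO) (hA : S_ARCH) (hT : S_TOP) (hL : S_L2) (hM : S_MART) : S_CONV := by
  have hν := hA.1
  intro p hp0 hp1
  refine ⟨fun f => ?_, ?_⟩
  · set φ : ℕ → ℂ := fun n => ∫ x, cexp (((XN n p f x : ℝ) : ℂ) * I) ∂gg n with hφ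
    have hcau : CauchySeq φ := by
      rw [Metric.cauchySeq_iff']
      intro ε hε
      obtain ⟨ρ, hρ0, hρ1, h1⟩ := cf_near hG hν hT hL hM hp0 hp1 f (by positivity : 0 < ε / 8)
      obtain ⟨c, hc⟩ := trunc_conv hG hν f.continuous.measurable
        (fun u => f.norm_coe_le_norm u) hp0.le hp1.le hρ0 hρ1
      have h2 := Metric.tendsto_nhds.1 hc (ε / 8) (by positivity)
      obtain ⟨N, hN⟩ := eventually_atTop.1 (h1.and h2)
      refine ⟨N, fun n hn => ?_⟩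
      have a1 := (hN n hn).1
      have a2 := (hN n hn).2
      have b1 := (hN N le_rfl).1
      have b2 := (hN N le_rfl).2
      rw [dist_eq_norm] at a2 b2 ⊢
      set A : ℕ → ℂ := fun n => ∫ w, cexp (((XM n p ⌊ρ * n⌋₊ f w : ℝ) : ℂ) * I) ∂PP n ⌊ρ * n⌋₊
      have e : φ n - φ N = (φ n - A n) + (A n - c) - (φ N - A N) - (A N - c) := by ring
      rw [e]
      calc ‖(φ n - A n) + (A n - c) - (φ N - A N) - (A N - c)‖
          ≤ ‖φ n - A n‖ + ‖A n - c‖ + ‖φ N - A N‖ + ‖A N - c‖ := by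
            refine (norm_sub_le _ _).trans ?_
            gcongr
            refine (norm_sub_le _ _).trans ?_
            gcongr
            exact norm_add_le _ _
        _ < ε := by linarith
    exact cauchySeq_tendsto_of_complete hcau
  · obtain ⟨h1, -, h3⟩ := hL p hp0 hp1 (ContinuousMap.const S2 1)
    obtain ⟨C, hC⟩ := h3.bddAbove_range
    refine ⟨C, fun n => ?_⟩
    have e : ∀ x : Mt n n × Mt n n, ∫ u, Nh n p u x ∂nu = XN n p (ContinuousMap.const S2 1) x := by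
      intro x
      unfold XN
      simp
    simp_rw [e]
    rw [← ofReal_integral_eq_lintegral_ofReal (h1 n) (Eventually.of_forall fun _ => sq_nonneg _)]
    exact ENNReal.ofReal_le_ofReal (hC ⟨n, rfl⟩)

end

end Pool.Agent.K7.H95.GMC
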