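import Pool.Agent.K7.H95.GMC.Proc

/-!
MP_55470d_pr (helper95): the law of large numbers for the overlaps of the projections, one step.
-/

set_option autoImplicit false

open MeasureTheory Complex Filter Topology
open scoped ENNReal NNReal ComplexConjugate

namespace Pool.Agent.K7.H95.GMC

open Pool.Agent.R923.SE Pool.Agent.R923.SE.NX

noncomputable section

/-- the overlap -/
def tq {n : ℕ} (Q Q' : Matrix (Fin n) (Fin n) ℂ) : ℝ := (Q * Q').trace.re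

lemma trace_mul_self {n : ℕ} (M : Matrix (Fin n) (Fin n) ℂ) :
    (M * M.conjTranspose).trace = ((∑ i, ∑ j, ‖M i j‖ ^ 2 : ℝ) : ℂ) := by
  unfold Matrix.trace
  push_cast
  refine Finset.sum_congr rfl fun i _ => ?_
  rw [Matrix.diag_apply, Matrix.mul_apply]
  refine Finset.sum_congr rfl fun j _ => ?_
  rw [Matrix.conjTranspose_apply, RCLike.star_def, Complex.mul_conj']

lemma tr_QQ {n r r' : ℕ} {Q Q' : Matrix (Fin n) (Fin n) ℂ} (hQ : PQ n r Q) (hQ' : PQ n r' Q') :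
    (Q * Q').trace = ((∑ i, ∑ j, ‖(Q * Q') i j‖ ^ 2 : ℝ) : ℂ) := by
  have h : (Q * Q' * Q).trace = (Q * Q').trace := by
    rw [Matrix.trace_mul_comm (Q * Q') Q, ← Matrix.mul_assoc, hQ.idem]
  rw [← trace_mul_self, Matrix.conjTranspose_mul, hQ.herm.eq, hQ'.herm.eq, ← Matrix.mul_assoc,
    Matrix.mul_assoc Q, hQ'.idem, h]

lemma tq_eq {n r r' : ℕ} {Q Q' : Matrix (Fin n) (Fin n) ℂ} (hQ : PQ n r Q) (hQ' : PQ n r' Q') :
    (Q * Q').trace = ((tq Q Q' : ℝ) : ℂ) := by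
  unfold tq
  rw [tr_QQ hQ hQ', Complex.ofReal_re]

lemma tq_nonneg {n r r' : ℕ} {Q Q' : Matrix (Fin n) (Fin n) ℂ} (hQ : PQ n r Q)
    (hQ' : PQ n r' Q') : 0 ≤ tq Q Q' := by
  unfold tq
  rw [tr_QQ hQ hQ', Complex.ofReal_re]
  exact Finset.sum_nonneg fun i _ => Finset.sum_nonneg fun j _ => by positivity

lemma tq_le {n r : ℕ} (hr : 0 < r) {Q Q' : Matrix (Fin n) (Fin n) ℂ} (hQ : PQ n r Q)
    (hQ' : PQ n r Q') : tq Q Q' ≤ r := by
  have hr' : (0 : ℝ) < r := by exact_mod_cast hr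
  have h1 : ‖(1 : ℂ)‖ ^ 2 + ‖(0 : ℂ)‖ ^ 2 = 1 := by simp
  obtain ⟨i1, v1⟩ := uu hr hQ hQ' h1 h1
  obtain ⟨i2, v2⟩ := int_cx hQ h1 (g := fun t => (t / r - 1) ^ 2) (by fun_prop) (gamu2 hr).1
  obtain ⟨i3, v3⟩ := int_cx hQ' h1 (g := fun t => (t / r - 1) ^ 2) (by fun_prop) (gamu2 hr).1
  rw [(gamu2 hr).2] at v2 v3
  have h2 : ∫ e : E n, (RR Q (cx 1 0 e) / r - 1) * (RR Q' (cx 1 0 e) / r - 1) ∂gE n ≤
      ∫ e : E n, ((RR Q (cx 1 0 e) / r - 1) ^ 2 + (RR Q' (cx 1 0 e) / r - 1) ^ 2) / 2 ∂gE n := by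
    refine integral_mono i1 ((i2.add i3).div_const 2) fun e => ?_
    simp only
    nlinarith [sq_nonneg ((RR Q (cx 1 0 e) / r - 1) - (RR Q' (cx 1 0 e) / r - 1))]
  rw [integral_div, integral_add i2 i3, v2, v3, v1] at h2
  have h3 : ‖sg 1 0 1 0‖ ^ 2 = 1 := by simp [sg]
  rw [h3, one_mul] at h2
  have h4 : (1 / (r : ℝ) + 1 / r) / 2 = 1 / r := by ring
  rw [h4, div_le_div_iff₀ (by positivity) hr'] at h2
  unfold tq
  nlinarith

lemma RR_le {n r : ℕ} {Q : Matrix (Fin n) (Fin n) ℂ} (hQ : PQ n r Q) (v : V n) :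
    RR Q v ≤ ∑ i, ‖v i‖ ^ 2 := by
  have h1 : ((RR Q v : ℝ) : ℂ) = star v ⬝ᵥ Q.mulVec v := by rw [RR_eq hQ, bf_eq]
  have h2 : star ((1 - Q).mulVec v) ⬝ᵥ ((1 - Q).mulVec v) = star v ⬝ᵥ ((1 - Q).mulVec v) := by
    have e1 : (1 - Q).conjTranspose = 1 - Q := by
      rw [Matrix.conjTranspose_sub, Matrix.conjTranspose_one, hQ.herm.eq]
    have e2 : (1 - Q) * (1 - Q) = 1 - Q := by
      rw [mul_sub, sub_mul, sub_mul, hQ.idem]
      simp
    rw [Matrix.star_mulVec, Matrix.dotProduct_mulVec, Matrix.vecMul_vecMul, e1, e2,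
      ← Matrix.dotProduct_mulVec]
  rw [star_dot_self, Matrix.sub_mulVec, Matrix.one_mulVec, dotProduct_sub, star_dot_self, ← h1]
    at h2
  have h3 : (∑ i, ‖(v - Q.mulVec v) i‖ ^ 2 : ℝ) = ∑ i, ‖v i‖ ^ 2 - RR Q v := by exact_mod_cast h2
  have h4 : 0 ≤ (∑ i, ‖(v - Q.mulVec v) i‖ ^ 2 : ℝ) := Finset.sum_nonneg fun _ _ => by positivity
  linarith

lemma cs {n : ℕ} (v w : V n) : ‖star v ⬝ᵥ w‖ ^ 2 ≤ (∑ i, ‖v i‖ ^ 2) * ∑ i, ‖w i‖ ^ 2 := by
  have h1 : ‖star v ⬝ᵥ w‖ ≤ ∑ i, ‖v i‖ * ‖w i‖ := by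
    unfold dotProduct
    refine (norm_sum_le _ _).trans (le_of_eq ?_)
    refine Finset.sum_congr rfl fun i _ => ?_
    rw [norm_mul, Pi.star_apply, norm_star]
  calc ‖star v ⬝ᵥ w‖ ^ 2 ≤ (∑ i, ‖v i‖ * ‖w i‖) ^ 2 := pow_le_pow_left₀ (norm_nonneg _) h1 2
    _ ≤ _ := Finset.sum_mul_sq_le_sq_mul_sq _ _ _

/-- overlap after one step -/
lemma tq_upd {n r r' : ℕ} {Q Q' : Matrix (Fin n) (Fin n) ℂ} (hQ : PQ n r Q) (hQ' : PQ n r' Q')
    (c d : V n) :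
    tq (upd Q c) (upd Q' d) = tq Q Q' - RR Q' (Q.mulVec c) / RR Q c - RR Q (Q'.mulVec d) / RR Q' d +
      ‖bf (Q * Q') c d‖ ^ 2 / (RR Q c * RR Q' d) := by
  set v := Q.mulVec c with hv
  set w := Q'.mulVec d with hw
  have e1 : star v ⬝ᵥ Q'.mulVec v = ((RR Q' v : ℝ) : ℂ) := by rw [RR_eq hQ', bf_eq]
  have e2 : star w ⬝ᵥ Q.mulVec w = ((RR Q w : ℝ) : ℂ) := by rw [RR_eq hQ, bf_eq]
  have e3 : star v ⬝ᵥ w = bf (Q * Q') c d := by
    rw [bf_eq, hv, hw, Matrix.star_mulVec, hQ.herm.eq, ← Matrix.dotProduct_mulVec,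
      Matrix.mulVec_mulVec]
  have t1 : (Q * Matrix.vecMulVec w (star w)).trace = ((RR Q w : ℝ) : ℂ) := by
    rw [Matrix.mul_vecMulVec, vv_trace, e2]
  have t2 : (Matrix.vecMulVec v (star v) * Q').trace = ((RR Q' v : ℝ) : ℂ) := by
    rw [Matrix.trace_mul_comm, Matrix.mul_vecMulVec, vv_trace, e1]
  have t3 : (Matrix.vecMulVec v (star v) * Matrix.vecMulVec w (star w)).trace =
      ((‖bf (Q * Q') c d‖ ^ 2 : ℝ) : ℂ) := by
    rw [Matrix.vecMulVec_mul_vecMulVec, Matrix.vecMulVec_smul, Matrix.trace_smul, vv_trace, e3]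
    have e4 : star w ⬝ᵥ v = conj (bf (Q * Q') c d) := by
      rw [← e3, ← RCLike.star_def, Matrix.star_dotProduct, dotProduct_comm]
    rw [e4, smul_eq_mul, Complex.mul_conj']
    push_cast
    rfl
  have h : (upd Q c * upd Q' d).trace = ((tq Q Q' - RR Q' v / RR Q c - RR Q w / RR Q' d +
      ‖bf (Q * Q') c d‖ ^ 2 / (RR Q c * RR Q' d) : ℝ) : ℂ) := by
    unfold upd
    rw [← hv, ← hw, sub_mul, mul_sub, mul_sub, Matrix.mul_smul, Matrix.smul_mul, Matrix.smul_mul,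
      Matrix.mul_smul, Matrix.trace_sub, Matrix.trace_sub, Matrix.trace_sub, Matrix.trace_smul,
      Matrix.trace_smul, Matrix.trace_smul, Matrix.trace_smul, t1, t2, t3, tq_eq hQ hQ']
    push_cast
    simp only [smul_eq_mul]
    ring
  show (upd Q c * upd Q' d).trace.re = _
  rw [h, Complex.ofReal_re]

lemma intA {n r r' : ℕ} {Q Q' : Matrix (Fin n) (Fin n) ℂ} (hQ : PQ n r Q) (hQ' : PQ n r' Q')
    {a b : ℂ} (hab : ‖a‖ ^ 2 + ‖b‖ ^ 2 = 1) :
    Integrable (fun e : E n => RR Q' (Q.mulVec (cx a b e))) (gE n) ∧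
    ∫ e : E n, RR Q' (Q.mulVec (cx a b e)) ∂gE n = tq Q Q' := by
  have h : ∀ c : V n, bf (Q * Q' * Q) c c = ((RR Q' (Q.mulVec c) : ℝ) : ℂ) := by
    intro c
    rw [RR_eq hQ', bf_eq, bf_eq, Matrix.star_mulVec, hQ.herm.eq, ← Matrix.dotProduct_mulVec,
      Matrix.mulVec_mulVec, Matrix.mulVec_mulVec, Matrix.mul_assoc]
  obtain ⟨h1, h2⟩ := cx_self (n := n) hab (Q * Q' * Q)
  simp_rw [h] at h1 h2
  have h3 : (Q * Q' * Q).trace = (Q * Q').trace := by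
    rw [Matrix.trace_mul_comm (Q * Q') Q, ← Matrix.mul_assoc, hQ.idem]
  rw [h3, tq_eq hQ hQ', integral_complex_ofReal] at h2
  refine ⟨by simpa using h1.re, by exact_mod_cast h2⟩

lemma intC {n r r' : ℕ} {Q Q' : Matrix (Fin n) (Fin n) ℂ} (hQ : PQ n r Q) (hQ' : PQ n r' Q')
    {a b a' b' : ℂ} (hab : ‖a‖ ^ 2 + ‖b‖ ^ 2 = 1) (hab' : ‖a'‖ ^ 2 + ‖b'‖ ^ 2 = 1) :
    Integrable (fun e : E n => ‖bf (Q * Q') (cx a b e) (cx a' b' e)‖ ^ 2) (gE n) ∧
    ∫ e : E n, ‖bf (Q * Q') (cx a b e) (cx a' b' e)‖ ^ 2 ∂gE n =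
      ‖sg a b a' b'‖ ^ 2 * tq Q Q' ^ 2 + tq Q Q' := by
  have h1 := cross_int (n := n) a b a' b' (Q * Q')
  have h2 := cross_val (n := n) hab hab' (Q * Q')
  have h4 : (Q * Q' * (Q * Q').conjTranspose).trace = ((tq Q Q' : ℝ) : ℂ) := by
    have h : (Q * Q' * Q).trace = (Q * Q').trace := by
      rw [Matrix.trace_mul_comm (Q * Q') Q, ← Matrix.mul_assoc, hQ.idem]
    rw [Matrix.conjTranspose_mul, hQ.herm.eq, hQ'.herm.eq, ← Matrix.mul_assoc,
      Matrix.mul_assoc Q, hQ'.idem, h, tq_eq hQ hQ']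
  simp_rw [Complex.mul_conj'] at h1 h2
  rw [tq_eq hQ hQ', h4, Complex.norm_real, Real.norm_eq_abs] at h2
  have e : ∀ e : E n, ((‖bf (Q * Q') (cx a b e) (cx a' b' e)‖ : ℂ) ^ 2) =
      ((‖bf (Q * Q') (cx a b e) (cx a' b' e)‖ ^ 2 : ℝ) : ℂ) := by intro e; push_cast; rfl
  simp_rw [e] at h1 h2
  rw [integral_complex_ofReal] at h2
  have h6 := h1.re
  simp only [RCLike.re_to_complex, Complex.ofReal_re] at h6
  refine ⟨h6, ?_⟩
  have h5 : ((∫ e : E n, ‖bf (Q * Q') (cx a b e) (cx a' b' e)‖ ^ 2 ∂gE n : ℝ) : ℂ) =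
      ((‖sg a b a' b'‖ ^ 2 * |tq Q Q'| ^ 2 + tq Q Q' : ℝ) : ℂ) := by
    rw [h2]; push_cast; rfl
  rw [sq_abs] at h5
  exact_mod_cast h5

lemma sqrt_le_nat {r : ℕ} (hr : 0 < r) : √(r : ℝ) ≤ r := by
  have hr1 : (1 : ℝ) ≤ r := by exact_mod_cast hr
  rw [Real.sqrt_le_left (by linarith)]
  nlinarith

lemma abs_u {r : ℕ} (hr : 0 < r) : Integrable (fun t : ℝ => |t / r - 1|) (gam r) ∧
    ∫ t, |t / r - 1| ∂gam r ≤ 1 / √(r : ℝ) := by
  have hr' : (0 : ℝ) < r := by exact_mod_cast hr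
  have hs : (0 : ℝ) < √r := Real.sqrt_pos.mpr hr'
  have hs2 : √(r : ℝ) ^ 2 = r := Real.sq_sqrt hr'.le
  have h1 := (ul_int hr).1.abs
  refine ⟨h1, ?_⟩
  have h2 : Integrable (fun t : ℝ => (1 / √(r : ℝ) + √r * (t / r - 1) ^ 2) / 2) (gam r) :=
    ((integrable_const _).add ((gamu2 hr).1.const_mul _)).div_const 2
  refine (integral_mono h1 h2 fun t => ?_).trans (le_of_eq ?_)
  · simp only
    set x := |t / (r : ℝ) - 1| with hx
    have h3 : (t / (r : ℝ) - 1) ^ 2 = x ^ 2 := (sq_abs _).symm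
    rw [h3]
    have h4 : 0 ≤ (√(r : ℝ) * x - 1) ^ 2 := sq_nonneg _
    have h5 : √(r : ℝ) * ((1 / √(r : ℝ) + √r * x ^ 2) / 2) = (1 + (√(r : ℝ) * x) ^ 2) / 2 := by
      field_simp
    have h6 : √(r : ℝ) * x ≤ √(r : ℝ) * ((1 / √(r : ℝ) + √r * x ^ 2) / 2) := by
      rw [h5]
      nlinarith
    exact le_of_mul_le_mul_left h6 hs
  · rw [integral_div, integral_add (integrable_const _) ((gamu2 hr).1.const_mul _),
      integral_const_mul, (gamu2 hr).2]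
    simp
    field_simp
    rw [hs2]
    ring

lemma meas_tq_upd {n : ℕ} (Q Q' : Matrix (Fin n) (Fin n) ℂ) (a b a' b' : ℂ) :
    Measurable (fun e : E n => tq (upd Q (cx a b e)) (upd Q' (cx a' b' e))) := by
  have h1 := fun i j => meas_upd (Q := fun _ : E n => Q) (c := fun e => cx a b e)
    (fun i j => measurable_const) (fun i => by unfold cx; fun_prop) i j
  have h2 := fun i j => meas_upd (Q := fun _ : E n => Q') (c := fun e => cx a' b' e)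
    (fun i j => measurable_const) (fun i => by unfold cx; fun_prop) i j
  unfold tq Matrix.trace
  simp only [Matrix.diag_apply, Matrix.mul_apply]
  refine Complex.measurable_re.comp ?_
  exact Finset.measurable_fun_sum _ fun i _ => Finset.measurable_fun_sum _ fun j _ =>
    (h1 i j).mul (h2 j i)

lemma ae_pos {n r : ℕ} (hr : 0 < r) {Q : Matrix (Fin n) (Fin n) ℂ} (hQ : PQ n r Q) {a b : ℂ}
    (hab : ‖a‖ ^ 2 + ‖b‖ ^ 2 = 1) : ∀ᵐ e ∂gE n, 0 < RR Q (cx a b e) := by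
  have h2 := gam_pos hr
  rw [← law_cx hQ hab] at h2
  exact ae_of_ae_map (measurable_RRcx _ a b).aemeasurable h2

/-- pointwise bounds in one step -/
lemma one_bounds {n r : ℕ} {Q Q' : Matrix (Fin n) (Fin n) ℂ} (hQ : PQ n r Q)
    (hQ' : PQ n r Q') {c d : V n} (hc : 0 < RR Q c) (hd : 0 < RR Q' d) :
    0 ≤ RR Q' (Q.mulVec c) / RR Q c ∧ RR Q' (Q.mulVec c) / RR Q c ≤ 1 ∧
    0 ≤ RR Q (Q'.mulVec d) / RR Q' d ∧ RR Q (Q'.mulVec d) / RR Q' d ≤ 1 ∧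
    0 ≤ ‖bf (Q * Q') c d‖ ^ 2 / (RR Q c * RR Q' d) ∧
    ‖bf (Q * Q') c d‖ ^ 2 / (RR Q c * RR Q' d) ≤ 1 := by
  refine ⟨div_nonneg (RR_nonneg _ _) hc.le, ?_, div_nonneg (RR_nonneg _ _) hd.le, ?_,
    by positivity, ?_⟩
  · rw [div_le_one hc]
    exact RR_le hQ' _
  · rw [div_le_one hd]
    exact RR_le hQ _
  · rw [div_le_one (mul_pos hc hd)]
    have e3 : star (Q.mulVec c) ⬝ᵥ (Q'.mulVec d) = bf (Q * Q') c d := by
      rw [bf_eq, Matrix.star_mulVec, hQ.herm.eq, ← Matrix.dotProduct_mulVec,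
        Matrix.mulVec_mulVec]
    rw [← e3]
    exact cs _ _

set_option maxHeartbeats 2000000 in
/-- mean of the overlap after one step -/
lemma one_mean {n r : ℕ} (hr : 0 < r) {Q Q' : Matrix (Fin n) (Fin n) ℂ} (hQ : PQ n r Q)
    (hQ' : PQ n r Q') {a b a' b' : ℂ} (hab : ‖a‖ ^ 2 + ‖b‖ ^ 2 = 1)
    (hab' : ‖a'‖ ^ 2 + ‖b'‖ ^ 2 = 1) :
    (∀ᵐ e ∂gE n, |tq (upd Q (cx a b e)) (upd Q' (cx a' b' e)) - tq Q Q'| ≤ 2) ∧
    Integrable (fun e : E n => tq (upd Q (cx a b e)) (upd Q' (cx a' b' e))) (gE n) ∧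
    |∫ e : E n, tq (upd Q (cx a b e)) (upd Q' (cx a' b' e)) ∂gE n -
      (tq Q Q' - 2 * tq Q Q' / r + ‖sg a b a' b'‖ ^ 2 * tq Q Q' ^ 2 / (r : ℝ) ^ 2)| ≤ 6 / √r := by
  have hr' : (0 : ℝ) < r := by exact_mod_cast hr
  have hr1 : (1 : ℝ) ≤ r := by exact_mod_cast hr
  have hs : (0 : ℝ) < √r := Real.sqrt_pos.mpr hr'
  have hs2 : √(r : ℝ) ^ 2 = r := Real.sq_sqrt hr'.le
  set q := tq Q Q' with hq
  have hae : ∀ᵐ e ∂gE n, |tq (upd Q (cx a b e)) (upd Q' (cx a' b' e)) - q| ≤ 2 := by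
    filter_upwards [ae_pos hr hQ hab, ae_pos hr hQ' hab'] with e h1 h2
    obtain ⟨b1, b2, b3, b4, b5, b6⟩ := one_bounds hQ hQ' h1 h2
    rw [tq_upd hQ hQ', abs_le]
    constructor <;> linarith
  have hint : Integrable (fun e : E n => tq (upd Q (cx a b e)) (upd Q' (cx a' b' e))) (gE n) := by
    refine Integrable.of_bound (meas_tq_upd Q Q' a b a' b').aestronglyMeasurable (|q| + 2) ?_
    filter_upwards [hae] with e he
    rw [Real.norm_eq_abs]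
    have := abs_sub_abs_le_abs_sub (tq (upd Q (cx a b e)) (upd Q' (cx a' b' e))) q
    linarith
  refine ⟨hae, hint, ?_⟩
  obtain ⟨ia, va⟩ := intA hQ hQ' hab
  obtain ⟨ib, vb⟩ := intA hQ' hQ hab'
  obtain ⟨ic, vc⟩ := intC hQ hQ' hab hab'
  have hqs : tq Q' Q = q := by
    rw [hq]; unfold tq; rw [Matrix.trace_mul_comm]
  rw [hqs] at vb
  rw [← hq] at va vc
  set g : E n → ℝ := fun e => q - RR Q' (Q.mulVec (cx a b e)) / r -
    RR Q (Q'.mulVec (cx a' b' e)) / r +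
    ‖bf (Q * Q') (cx a b e) (cx a' b' e)‖ ^ 2 / (r : ℝ) ^ 2 with hg
  have g1 : Integrable (fun e : E n => q - RR Q' (Q.mulVec (cx a b e)) / r) (gE n) :=
    (integrable_const _).sub (ia.div_const _)
  have g2 : Integrable (fun e : E n => q - RR Q' (Q.mulVec (cx a b e)) / r -
    RR Q (Q'.mulVec (cx a' b' e)) / r) (gE n) := g1.sub (ib.div_const _)
  have g3 : Integrable (fun e : E n => ‖bf (Q * Q') (cx a b e) (cx a' b' e)‖ ^ 2 / (r : ℝ) ^ 2)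
    (gE n) := ic.div_const _
  have hgi : Integrable g (gE n) := g2.add g3
  set s : ℝ := ‖sg a b a' b'‖ ^ 2 with hsd
  have hgv : ∫ e, g e ∂gE n = (q - 2 * q / r + s * q ^ 2 / (r : ℝ) ^ 2) + q / (r : ℝ) ^ 2 := by
    rw [hg]
    simp only
    rw [integral_add g2 g3, integral_sub g1 (ib.div_const _),
      integral_sub (integrable_const _) (ia.div_const _), integral_div, integral_div, integral_div,
      va, vb, vc]
    simp
    ring
  obtain ⟨ju, vu⟩ := int_cx hQ hab (g := fun t => |t / r - 1|) (by fun_prop) (abs_u hr).1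
  obtain ⟨jw, vw⟩ := int_cx hQ' hab' (g := fun t => |t / r - 1|) (by fun_prop) (abs_u hr).1
  obtain ⟨ju2, vu2⟩ := int_cx hQ hab (g := fun t => (t / r - 1) ^ 2) (by fun_prop) (gamu2 hr).1
  obtain ⟨jw2, vw2⟩ := int_cx hQ' hab' (g := fun t => (t / r - 1) ^ 2) (by fun_prop) (gamu2 hr).1
  have vu' := vu.trans_le (abs_u hr).2
  have vw' := vw.trans_le (abs_u hr).2
  rw [(gamu2 hr).2] at vu2 vw2
  set U : E n → ℝ := fun e => RR Q (cx a b e) / r - 1 with hU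
  set W : E n → ℝ := fun e => RR Q' (cx a' b' e) / r - 1 with hW
  have t1 : Integrable (fun e => 2 * |U e|) (gE n) := ju.const_mul 2
  have t2 : Integrable (fun e => 2 * |W e|) (gE n) := jw.const_mul 2
  have t3 : Integrable (fun e => 2 * |U e| + 2 * |W e|) (gE n) := t1.add t2
  have t4 : Integrable (fun e => U e ^ 2) (gE n) := ju2
  have t5 : Integrable (fun e => W e ^ 2) (gE n) := jw2
  have t6 : Integrable (fun e => U e ^ 2 + W e ^ 2) (gE n) := t4.add t5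
  have t7 : Integrable (fun e => (U e ^ 2 + W e ^ 2) / 2) (gE n) := t6.div_const 2
  have hB : Integrable (fun e => (2 * |U e| + 2 * |W e|) + (U e ^ 2 + W e ^ 2) / 2) (gE n) :=
    t3.add t7
  have hdiff : ‖∫ e, (tq (upd Q (cx a b e)) (upd Q' (cx a' b' e)) - g e) ∂gE n‖ ≤
      ∫ e, ((2 * |U e| + 2 * |W e|) + (U e ^ 2 + W e ^ 2) / 2) ∂gE n := by
    refine norm_integral_le_of_norm_le hB ?_
    filter_upwards [ae_pos hr hQ hab, ae_pos hr hQ' hab'] with e h1 h2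
    obtain ⟨b1, b2, b3, b4, b5, b6⟩ := one_bounds hQ hQ' h1 h2
    set A := RR Q' (Q.mulVec (cx a b e)) / RR Q (cx a b e) with hA
    set B := RR Q (Q'.mulVec (cx a' b' e)) / RR Q' (cx a' b' e) with hBd
    set C := ‖bf (Q * Q') (cx a b e) (cx a' b' e)‖ ^ 2 /
      (RR Q (cx a b e) * RR Q' (cx a' b' e)) with hC
    have e1 : RR Q' (Q.mulVec (cx a b e)) / r = A * (1 + U e) := by
      rw [hA, hU]; field_simp; ring
    have e2 : RR Q (Q'.mulVec (cx a' b' e)) / r = B * (1 + W e) := by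
      rw [hBd, hW]; field_simp; ring
    have e3 : ‖bf (Q * Q') (cx a b e) (cx a' b' e)‖ ^ 2 / (r : ℝ) ^ 2 =
        C * ((1 + U e) * (1 + W e)) := by
      rw [hC, hU, hW]; field_simp; ring
    rw [tq_upd hQ hQ', Real.norm_eq_abs]
    have e4 : tq Q Q' - A - B + C - g e = A * U e + B * W e - C * (U e + W e + U e * W e) := by
      rw [hg]
      simp only
      rw [e1, e2, e3, hq]
      ring
    rw [e4]
    have k1 : |A * U e| ≤ |U e| := by
      rw [abs_mul, abs_of_nonneg b1]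
      exact mul_le_of_le_one_left (abs_nonneg _) b2
    have k2 : |B * W e| ≤ |W e| := by
      rw [abs_mul, abs_of_nonneg b3]
      exact mul_le_of_le_one_left (abs_nonneg _) b4
    have k3 : |C * (U e + W e + U e * W e)| ≤ |U e + W e + U e * W e| := by
      rw [abs_mul, abs_of_nonneg b5]
      exact mul_le_of_le_one_left (abs_nonneg _) b6
    have k4 : |U e + W e + U e * W e| ≤ |U e| + |W e| + |U e| * |W e| := by
      refine (abs_add_le _ _).trans ?_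
      rw [abs_mul]
      gcongr
      exact abs_add_le _ _
    have k5 : |U e| * |W e| ≤ (U e ^ 2 + W e ^ 2) / 2 := by
      rw [← sq_abs (U e), ← sq_abs (W e)]
      nlinarith [sq_nonneg (|U e| - |W e|)]
    have k6 : |A * U e + B * W e - C * (U e + W e + U e * W e)| ≤
        |A * U e| + |B * W e| + |C * (U e + W e + U e * W e)| := by
      refine (abs_sub _ _).trans ?_
      gcongr
      exact abs_add_le _ _
    linarith
  rw [integral_sub hint hgi, hgv, Real.norm_eq_abs] at hdiff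
  have hBv : ∫ e, ((2 * |U e| + 2 * |W e|) + (U e ^ 2 + W e ^ 2) / 2) ∂gE n ≤
      4 / √r + 1 / r := by
    have vu2' : ∫ e, U e ^ 2 ∂gE n = 1 / (r : ℝ) := vu2
    have vw2' : ∫ e, W e ^ 2 ∂gE n = 1 / (r : ℝ) := vw2
    have vu3 : ∫ e, |U e| ∂gE n ≤ 1 / √(r : ℝ) := vu'
    have vw3 : ∫ e, |W e| ∂gE n ≤ 1 / √(r : ℝ) := vw'
    rw [integral_add t3 t7, integral_add t1 t2, integral_const_mul, integral_const_mul,
      integral_div, integral_add t4 t5, vu2', vw2']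
    have e5 : (1 / (r : ℝ) + 1 / r) / 2 = 1 / r := by ring
    have e6 : 4 / √(r : ℝ) = 2 * (1 / √r) + 2 * (1 / √r) := by ring
    rw [e5, e6]
    linarith
  have hqr : q / (r : ℝ) ^ 2 ≤ 1 / r := by
    rw [div_le_div_iff₀ (by positivity) hr', hq]
    have := mul_le_mul_of_nonneg_right (tq_le hr hQ hQ') hr'.le
    rw [one_mul, sq]
    exact this
  have hq0 : 0 ≤ q / (r : ℝ) ^ 2 := div_nonneg (tq_nonneg hQ hQ') (by positivity)
  have hsr : 1 / (r : ℝ) ≤ 1 / √r := by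
    exact one_div_le_one_div_of_le hs (sqrt_le_nat hr)
  have e7 : 6 / √(r : ℝ) = 4 / √r + 1 / √r + 1 / √r := by ring
  rw [e7]
  have h9 := hdiff.trans hBv
  rw [abs_le] at h9 ⊢
  constructor <;> linarith [h9.1, h9.2]

end

end Pool.Agent.K7.H95.GMC
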