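import Pool.Agent.K7.H95.GMC.Lln

/-!
MP_55470d_pr (helper95): the law of large numbers for the overlaps of the projections.
-/

set_option autoImplicit false

open MeasureTheory Complex Filter Topology
open scoped ENNReal NNReal ComplexConjugate

namespace Pool.Agent.K7.H95.GMC

open Pool.Agent.R923.SE Pool.Agent.R923.SE.NX

noncomputable section

/-- the deterministic profile of the overlap -/
def fs (n : ℕ) (s r : ℝ) : ℝ := r ^ 2 / (n * (1 - s) + s * r)

lemma fs_den {n : ℕ} {s r : ℝ} (_h0 : 0 ≤ s) (h1 : s ≤ 1) (hr : r ≤ n) :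
    r ≤ n * (1 - s) + s * r := by nlinarith

lemma fs_nonneg {n : ℕ} {s r : ℝ} (h0 : 0 ≤ s) (h1 : s ≤ 1) (hr0 : 0 ≤ r) (hr : r ≤ n) :
    0 ≤ fs n s r := div_nonneg (sq_nonneg r) (hr0.trans (fs_den h0 h1 hr))

lemma fs_le {n : ℕ} {s r : ℝ} (h0 : 0 ≤ s) (h1 : s ≤ 1) (hr0 : 0 < r) (hr : r ≤ n) :
    fs n s r ≤ r := by
  unfold fs
  have h := fs_den h0 h1 hr
  rw [div_le_iff₀ (by linarith)]
  nlinarith

/-- the profile satisfies the recursion up to `7 / r` -/
lemma fs_step {n : ℕ} {s r : ℝ} (h0 : 0 ≤ s) (h1 : s ≤ 1) (hr2 : 2 ≤ r) (hr : r ≤ n) :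
    |fs n s r - 2 * fs n s r / r + s * fs n s r ^ 2 / r ^ 2 - fs n s (r - 1)| ≤ 7 / r := by
  unfold fs
  set D : ℝ := n * (1 - s) + s * r with hD
  have hDr : r ≤ D := fs_den h0 h1 hr
  have hD0 : 0 < D := by linarith
  have hDs : (n : ℝ) * (1 - s) + s * (r - 1) = D - s := by rw [hD]; ring
  rw [hDs]
  have hDs0 : r / 2 ≤ D - s := by linarith
  have hDs1 : 0 < D - s := by linarith
  have hr0 : 0 < r := by linarith
  have e : r ^ 2 / D - 2 * (r ^ 2 / D) / r + s * (r ^ 2 / D) ^ 2 / r ^ 2 - (r - 1) ^ 2 / (D - s) =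
      s * (D * (2 * r - 1) - s * r ^ 2) / (D ^ 2 * (D - s)) - 1 / D := by
    field_simp
    ring
  rw [e]
  have n1 : 0 ≤ D * (2 * r - 1) - s * r ^ 2 := by nlinarith
  have n2 : D * (2 * r - 1) - s * r ^ 2 ≤ 2 * r * D := by nlinarith [mul_nonneg h0 (sq_nonneg r)]
  have b1 : 0 ≤ s * (D * (2 * r - 1) - s * r ^ 2) / (D ^ 2 * (D - s)) := by positivity
  have b2 : s * (D * (2 * r - 1) - s * r ^ 2) / (D ^ 2 * (D - s)) ≤ 4 / r := by
    rw [div_le_div_iff₀ (by positivity) hr0]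
    have h3 : s * (D * (2 * r - 1) - s * r ^ 2) ≤ 2 * r * D := by nlinarith
    have h4 : 2 * r * D * r ≤ 4 * (D ^ 2 * (D - s)) := by
      have h5 : 2 * r * r ≤ 4 * (D * (D - s)) := by nlinarith
      nlinarith
    nlinarith
  have b3 : 0 ≤ 1 / D := by positivity
  have b4 : 1 / D ≤ 1 / r := one_div_le_one_div_of_le hr0 hDr
  have e7 : 7 / r = 4 / r + 3 * (1 / r) := by ring
  have e8 : 0 ≤ 1 / r := by positivity
  rw [e7, abs_le]
  constructor <;> linarith

lemma int_sn {n m : ℕ} {G : Type*} [NormedAddCommGroup G] [NormedSpace ℝ G] [CompleteSpace G]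
    {F : (Fin (m + 1) → E n) → G}
    (hF : Integrable F (PP n (m + 1))) :
    Integrable (fun p => F (sn p)) ((PP n m).prod (gE n)) ∧
    ∫ w, F w ∂PP n (m + 1) = ∫ w, ∫ e, F (sn (w, e)) ∂gE n ∂PP n m := by
  have hmp := mp_sn n m
  have h1 : Integrable (fun p => F (sn p)) ((PP n m).prod (gE n)) :=
    (hmp.integrable_comp hF.aestronglyMeasurable).2 hF
  refine ⟨h1, ?_⟩
  have h2 : ∫ w, F w ∂PP n (m + 1) = ∫ p, F (sn p) ∂(PP n m).prod (gE n) := by
    have h3 := integral_map (μ := (PP n m).prod (gE n)) hmp.measurable.aemeasurable (f := F)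
      (by rw [hmp.map_eq]; exact hF.aestronglyMeasurable)
    rwa [hmp.map_eq] at h3
  rw [h2, integral_prod _ h1]

/-- one step of the second moment -/
lemma one_sq {n r : ℕ} (hr : 0 < r) {Q Q' : Matrix (Fin n) (Fin n) ℂ} (hQ : PQ n r Q)
    (hQ' : PQ n r Q') {a b a' b' : ℂ} (hab : ‖a‖ ^ 2 + ‖b‖ ^ 2 = 1)
    (hab' : ‖a'‖ ^ 2 + ‖b'‖ ^ 2 = 1) (f' : ℝ) :
    ∫ e : E n, (tq (upd Q (cx a b e)) (upd Q' (cx a' b' e)) - f') ^ 2 ∂gE n ≤
      4 + (∫ e : E n, tq (upd Q (cx a b e)) (upd Q' (cx a' b' e)) ∂gE n - f') ^ 2 := by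
  obtain ⟨hae, hint, -⟩ := one_mean hr hQ hQ' hab hab'
  set Z : E n → ℝ := fun e => tq (upd Q (cx a b e)) (upd Q' (cx a' b' e)) with hZ
  set q := tq Q Q' with hq
  set mu := ∫ e, Z e ∂gE n with hmu
  have hbd : ∀ᵐ e ∂gE n, (Z e - q) ^ 2 ≤ 4 := by
    filter_upwards [hae] with e he
    have : |Z e - q| ≤ 2 := he
    rw [← sq_abs]
    nlinarith [abs_nonneg (Z e - q)]
  have i1 : Integrable (fun e => (Z e - q) ^ 2) (gE n) := by
    refine Integrable.of_bound ((hint.aestronglyMeasurable.sub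
      aestronglyMeasurable_const).pow 2) 4 ?_
    filter_upwards [hbd] with e he
    rw [Real.norm_of_nonneg (sq_nonneg _)]
    exact he
  have i2 : Integrable (fun e => (Z e - q)) (gE n) := hint.sub (integrable_const _)
  have key : ∀ x : ℝ, Integrable (fun e => (Z e - x) ^ 2) (gE n) ∧
      ∫ e, (Z e - x) ^ 2 ∂gE n = ∫ e, (Z e - q) ^ 2 ∂gE n + 2 * (q - x) * (mu - q) + (q - x) ^ 2 := by
    intro x
    have e1 : (fun e => (Z e - x) ^ 2) = fun e => ((Z e - q) ^ 2 + (2 * (q - x)) * (Z e - q)) +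
        (q - x) ^ 2 := by
      funext e; ring
    have i3 : Integrable (fun e => (2 * (q - x)) * (Z e - q)) (gE n) := i2.const_mul _
    have i4 : Integrable (fun e => (Z e - q) ^ 2 + (2 * (q - x)) * (Z e - q)) (gE n) := i1.add i3
    rw [e1]
    refine ⟨i4.add (integrable_const _), ?_⟩
    rw [integral_add i4 (integrable_const _), integral_add i1 i3, integral_const_mul,
      integral_sub hint (integrable_const _), ← hmu]
    have c1 : ∫ _ : E n, q ∂gE n = q := by simp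
    have c2 : ∫ _ : E n, (q - x) ^ 2 ∂gE n = (q - x) ^ 2 := by simp
    rw [c1, c2]
  have h1 : ∫ e, (Z e - q) ^ 2 ∂gE n ≤ 4 := by
    have := integral_mono_ae i1 (integrable_const (4 : ℝ)) hbd
    simpa using this
  rw [(key f').2]
  nlinarith [sq_nonneg (mu - q)]

lemma tq_bd {n r : ℕ} (hr : 0 < r) (hrn : r ≤ n) {s : ℝ} (h0 : 0 ≤ s) (h1 : s ≤ 1)
    {Q Q' : Matrix (Fin n) (Fin n) ℂ} (hQ : PQ n r Q) (hQ' : PQ n r Q') :
    |tq Q Q' - fs n s r| ≤ n := by
  have hr' : (0 : ℝ) < r := by exact_mod_cast hr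
  have hrn' : (r : ℝ) ≤ n := by exact_mod_cast hrn
  have k1 := tq_nonneg hQ hQ'
  have k2 := tq_le hr hQ hQ'
  have k3 := fs_nonneg h0 h1 hr'.le hrn'
  have k4 := fs_le h0 h1 hr' hrn'
  rw [abs_le]
  constructor <;> linarith

lemma meas_tq {n : ℕ} (a b a' b' : ℂ) (m : ℕ) :
    Measurable fun w : Fin m → E n => tq (QQ a b m w) (QQ a' b' m w) := by
  unfold tq Matrix.trace
  simp only [Matrix.diag_apply, Matrix.mul_apply]
  refine Complex.measurable_re.comp ?_
  exact Finset.measurable_fun_sum _ fun i _ => Finset.measurable_fun_sum _ fun j _ =>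
    (meas_QQ a b m i j).mul (meas_QQ a' b' m j i)

lemma tq_int {n : ℕ} {a b a' b' : ℂ} (hab : ‖a‖ ^ 2 + ‖b‖ ^ 2 = 1)
    (hab' : ‖a'‖ ^ 2 + ‖b'‖ ^ 2 = 1) {m : ℕ} (hm : m < n) :
    (∀ᵐ w ∂PP n m, |tq (QQ a b m w) (QQ a' b' m w) - fs n (‖sg a b a' b'‖ ^ 2) ((n : ℝ) - m)| ≤ n) ∧
    Integrable (fun w => (tq (QQ a b m w) (QQ a' b' m w) -
      fs n (‖sg a b a' b'‖ ^ 2) ((n : ℝ) - m)) ^ 2) (PP n m) := by
  have hs0 : 0 ≤ ‖sg a b a' b'‖ ^ 2 := by positivity
  have hs1 : ‖sg a b a' b'‖ ^ 2 ≤ 1 := by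
    have := sg_tu hab hab'
    nlinarith [sq_nonneg ‖tu a b a' b'‖]
  have h1 : ∀ᵐ w ∂PP n m, |tq (QQ a b m w) (QQ a' b' m w) -
      fs n (‖sg a b a' b'‖ ^ 2) ((n : ℝ) - m)| ≤ n := by
    filter_upwards [ae_PQ hab m hm.le, ae_PQ hab' m hm.le] with w h1 h2
    have := tq_bd (n := n) (r := n - m) (by omega) (by omega) hs0 hs1 h1 h2
    rwa [Nat.cast_sub hm.le] at this
  refine ⟨h1, ?_⟩
  refine Integrable.of_bound (((meas_tq a b a' b' m).sub measurable_const).pow_const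
    2).aestronglyMeasurable ((n : ℝ) ^ 2) ?_
  filter_upwards [h1] with w hw
  rw [Real.norm_of_nonneg (sq_nonneg _), ← sq_abs]
  exact pow_le_pow_left₀ (abs_nonneg _) hw 2

set_option maxHeartbeats 4000000 in
/-- **Law of large numbers for the overlaps.** -/
theorem lln {n : ℕ} {a b a' b' : ℂ} (hab : ‖a‖ ^ 2 + ‖b‖ ^ 2 = 1)
    (hab' : ‖a'‖ ^ 2 + ‖b'‖ ^ 2 = 1) {δ : ℝ} (hδ : 0 < δ) (hδ1 : δ ≤ 1) (m : ℕ) (hm : m + 2 ≤ n)
    (hmδ : δ * n ≤ (n : ℝ) - m) :
    ∫ w, (tq (QQ a b m w) (QQ a' b' m w) - fs n (‖sg a b a' b'‖ ^ 2) ((n : ℝ) - m)) ^ 2 ∂PP n m ≤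
      1100 * m / δ := by
  have hs0 : 0 ≤ ‖sg a b a' b'‖ ^ 2 := by positivity
  have hs1 : ‖sg a b a' b'‖ ^ 2 ≤ 1 := by
    have := sg_tu hab hab'
    nlinarith [sq_nonneg ‖tu a b a' b'‖]
  induction m with
  | zero =>
    have h1 : ∀ w : Fin 0 → E n, tq (QQ a b 0 w) (QQ a' b' 0 w) -
        fs n (‖sg a b a' b'‖ ^ 2) ((n : ℝ) - (0 : ℕ)) = 0 := by
      intro w
      have hn : (0 : ℝ) < n := by exact_mod_cast (by omega : 0 < n)
      unfold QQ tq fs
      simp
      field_simp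
      ring
    simp_rw [h1]
    simp
  | succ m ih =>
    have hmn : (m : ℝ) + 3 ≤ n := by exact_mod_cast (by omega : m + 3 ≤ n)
    have hmδ' : δ * n ≤ (n : ℝ) - m := by push_cast at hmδ; linarith
    have ih' := ih (by omega) hmδ'
    set s := ‖sg a b a' b'‖ ^ 2 with hs
    set r : ℕ := n - m with hr
    have hrr : (r : ℝ) = (n : ℝ) - m := by rw [hr, Nat.cast_sub (by omega)]
    have hr0 : 0 < r := by omega
    have hr' : (0 : ℝ) < r := by exact_mod_cast hr0
    have hr2 : (2 : ℝ) ≤ r := by rw [hrr]; linarith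
    have hr1 : (1 : ℝ) ≤ r := by linarith
    have hrn : (r : ℝ) ≤ n := by
      rw [hrr]
      have : (0 : ℝ) ≤ m := Nat.cast_nonneg m
      linarith
    have hn0 : (0 : ℝ) < n := by linarith
    have hs' : (0 : ℝ) < √r := Real.sqrt_pos.mpr hr'
    set c : ℝ := 13 / √(r : ℝ) with hc
    have hc0 : 0 < c := by positivity
    -- the function
    obtain ⟨b1, i1⟩ := tq_int (n := n) hab hab' (m := m) (by omega)
    obtain ⟨b2, i2⟩ := tq_int (n := n) hab hab' (m := m + 1) (by omega)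
    obtain ⟨j1, v1⟩ := int_sn i2
    rw [v1]
    have hcast : (n : ℝ) - ((m + 1 : ℕ) : ℝ) = (r : ℝ) - 1 := by rw [hrr]; push_cast; ring
    rw [hcast]
    rw [hcast] at j1
    set d : (Fin m → E n) → ℝ := fun w => tq (QQ a b m w) (QQ a' b' m w) - fs n s ((n : ℝ) - m)
      with hd
    -- inner bound
    have hinner : ∀ᵐ w ∂PP n m, ∫ e, (tq (QQ a b (m + 1) (sn (w, e))) (QQ a' b' (m + 1) (sn (w, e))) -
        fs n s ((r : ℝ) - 1)) ^ 2 ∂gE n ≤ 4 + (|d w| + c) ^ 2 := by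
      filter_upwards [ae_PQ hab m (by omega), ae_PQ hab' m (by omega)] with w h1 h2
      simp only [QQ_sn]
      obtain ⟨-, -, hmean⟩ := one_mean hr0 h1 h2 hab hab'
      have hsq := one_sq hr0 h1 h2 hab hab' (fs n s ((r : ℝ) - 1))
      refine hsq.trans ?_
      set mu := ∫ e : E n, tq (upd (QQ a b m w) (cx a b e)) (upd (QQ a' b' m w) (cx a' b' e)) ∂gE n
        with hmu
      set q := tq (QQ a b m w) (QQ a' b' m w) with hq
      have hf := fs_step (n := n) (s := s) (r := r) hs0 hs1 hr2 hrn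
      set f := fs n s r with hf'
      have hfr : fs n s ((n : ℝ) - m) = f := by rw [hf', hrr]
      have hdw : d w = q - f := by rw [hd]; simp only; rw [hfr]
      have hq0 : 0 ≤ q := tq_nonneg h1 h2
      have hqr : q ≤ r := tq_le hr0 h1 h2
      have hf0 : 0 ≤ f := fs_nonneg hs0 hs1 hr'.le hrn
      have hfr' : f ≤ r := fs_le hs0 hs1 hr' hrn
      have hlam : |(q - f) * (1 - 2 / r + s * (q + f) / (r : ℝ) ^ 2)| ≤ |q - f| := by
        rw [abs_mul]
        have h3 : |1 - 2 / (r : ℝ) + s * (q + f) / (r : ℝ) ^ 2| ≤ 1 := by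
          have h4 : s * (q + f) / (r : ℝ) ^ 2 ≤ 2 / r := by
            rw [div_le_div_iff₀ (by positivity) hr']
            have h5 : s * (q + f) ≤ 2 * r := by nlinarith
            nlinarith
          have h6 : 0 ≤ s * (q + f) / (r : ℝ) ^ 2 := by positivity
          have h7 : 2 / (r : ℝ) ≤ 1 := by rw [div_le_one hr']; exact hr2
          have h8 : 0 ≤ 2 / (r : ℝ) := by positivity
          rw [abs_le]
          constructor <;> linarith
        exact mul_le_of_le_one_right (abs_nonneg _) h3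
      have hsum : mu - fs n s ((r : ℝ) - 1) = (mu - (q - 2 * q / r + s * q ^ 2 / (r : ℝ) ^ 2)) +
          (q - f) * (1 - 2 / r + s * (q + f) / (r : ℝ) ^ 2) +
          (f - 2 * f / r + s * f ^ 2 / (r : ℝ) ^ 2 - fs n s ((r : ℝ) - 1)) := by ring
      have habs : |mu - fs n s ((r : ℝ) - 1)| ≤ |d w| + c := by
        rw [hsum, hdw]
        have h9 : 7 / (r : ℝ) ≤ 7 / √r :=
          div_le_div_of_nonneg_left (by norm_num) hs' (sqrt_le_nat hr0)
        have h10 : c = 6 / √(r : ℝ) + 7 / √r := by rw [hc]; ring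
        rw [h10]
        have t1 := abs_add_le ((mu - (q - 2 * q / r + s * q ^ 2 / (r : ℝ) ^ 2)) +
          (q - f) * (1 - 2 / r + s * (q + f) / (r : ℝ) ^ 2))
          (f - 2 * f / r + s * f ^ 2 / (r : ℝ) ^ 2 - fs n s ((r : ℝ) - 1))
        have t2 := abs_add_le (mu - (q - 2 * q / r + s * q ^ 2 / (r : ℝ) ^ 2))
          ((q - f) * (1 - 2 / r + s * (q + f) / (r : ℝ) ^ 2))
        linarith
      have : (mu - fs n s ((r : ℝ) - 1)) ^ 2 ≤ (|d w| + c) ^ 2 := by
        rw [← sq_abs]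
        exact pow_le_pow_left₀ (abs_nonneg _) habs 2
      linarith
    -- integrate
    set t : ℝ := √(1100 * n / δ) with ht
    have ht0 : 0 < t := Real.sqrt_pos.mpr (by positivity)
    have ht2 : t ^ 2 = 1100 * n / δ := Real.sq_sqrt (by positivity)
    have hdm : Measurable d := (meas_tq a b a' b' m).sub measurable_const
    have i0 : Integrable (fun w => d w ^ 2) (PP n m) := i1
    have ia : Integrable (fun w => |d w|) (PP n m) := (int_of_sq hdm.aestronglyMeasurable i0).abs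
    have hbound : Integrable (fun w => 4 + (|d w| + c) ^ 2) (PP n m) := by
      have e : (fun w => 4 + (|d w| + c) ^ 2) = fun w => (d w ^ 2 + (2 * c) * |d w|) + (c ^ 2 + 4) := by
        funext w
        rw [← sq_abs (d w)]
        ring
      rw [e]
      exact (i0.add (ia.const_mul _)).add (integrable_const _)
    have hval : ∫ w, (4 + (|d w| + c) ^ 2) ∂PP n m =
        ∫ w, d w ^ 2 ∂PP n m + 2 * c * ∫ w, |d w| ∂PP n m + (c ^ 2 + 4) := by
      have e : (fun w => 4 + (|d w| + c) ^ 2) = fun w => (d w ^ 2 + (2 * c) * |d w|) + (c ^ 2 + 4) := by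
        funext w
        rw [← sq_abs (d w)]
        ring
      have i5 : Integrable (fun w => (2 * c) * |d w|) (PP n m) := ia.const_mul _
      have i6 : Integrable (fun w => d w ^ 2 + (2 * c) * |d w|) (PP n m) := i0.add i5
      rw [e, integral_add i6 (integrable_const _), integral_add i0 i5, integral_const_mul]
      simp
    have habs : ∫ w, |d w| ∂PP n m ≤ t := by
      have h1 : ∫ w, |d w| ∂PP n m ≤ ∫ w, (t + d w ^ 2 / t) / 2 ∂PP n m := by
        refine integral_mono ia (((integrable_const _).add (i0.div_const _)).div_const 2) fun w => ?_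
        simp only
        rw [← sq_abs (d w)]
        have h2 : 0 ≤ (t - |d w|) ^ 2 := sq_nonneg _
        have h3 : t * ((t + |d w| ^ 2 / t) / 2) = (t ^ 2 + |d w| ^ 2) / 2 := by field_simp
        have h4 : t * |d w| ≤ t * ((t + |d w| ^ 2 / t) / 2) := by rw [h3]; nlinarith
        exact le_of_mul_le_mul_left h4 ht0
      rw [integral_div, integral_add (integrable_const _) (i0.div_const _), integral_div] at h1
      have h5 : (∫ w, d w ^ 2 ∂PP n m) / t ≤ t := by
        rw [div_le_iff₀ ht0, ← sq, ht2]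
        refine ih'.trans ?_
        gcongr
        linarith
      simp at h1
      linarith
    have hct : c * t ≤ 442 / δ := by
      have h1 : (t / √(r : ℝ)) ^ 2 ≤ (34 / δ) ^ 2 := by
        rw [div_pow, ht2, Real.sq_sqrt hr'.le, div_pow, div_le_div_iff₀ hr' (by positivity)]
        have h2 : δ * n ≤ r := by rw [hrr]; exact hmδ'
        have h3 : 1100 * n / δ * δ ^ 2 = 1100 * (δ * n) := by field_simp
        rw [h3]
        nlinarith
      have h2 : t / √(r : ℝ) ≤ 34 / δ := by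
        exact le_of_sq_le_sq h1 (by positivity)
      have h3 : c * t = 13 * (t / √(r : ℝ)) := by rw [hc]; ring
      rw [h3]
      calc 13 * (t / √(r : ℝ)) ≤ 13 * (34 / δ) := by gcongr
        _ = 442 / δ := by ring
    have hc2 : c ^ 2 ≤ 169 := by
      rw [hc, div_pow, Real.sq_sqrt hr'.le, div_le_iff₀ hr']
      nlinarith
    calc ∫ w, ∫ e, (tq (QQ a b (m + 1) (sn (w, e))) (QQ a' b' (m + 1) (sn (w, e))) -
        fs n s ((r : ℝ) - 1)) ^ 2 ∂gE n ∂PP n m ≤ ∫ w, (4 + (|d w| + c) ^ 2) ∂PP n m :=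
          integral_mono_ae j1.integral_prod_left hbound hinner
      _ = ∫ w, d w ^ 2 ∂PP n m + 2 * c * ∫ w, |d w| ∂PP n m + (c ^ 2 + 4) := hval
      _ ≤ 1100 * m / δ + 2 * c * t + (169 + 4) := by gcongr
      _ ≤ 1100 * m / δ + 884 / δ + 173 := by
          have : 2 * c * t ≤ 884 / δ := by
            have h6 : 884 / δ = 2 * (442 / δ) := by ring
            rw [h6]; linarith
          linarith
      _ ≤ 1100 * ((m + 1 : ℕ) : ℝ) / δ := by
          push_cast
          have h7 : 173 ≤ 216 / δ := by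
            rw [le_div_iff₀ hδ]; nlinarith
          have h8 : 1100 * ((m : ℝ) + 1) / δ = 1100 * m / δ + 884 / δ + 216 / δ := by ring
          rw [h8]
          linarith

end

end Pool.Agent.K7.H95.GMC
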