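import Pool.Agent.K7.H95.GMC.Defs
import Pool.Agent.R923.SE.Base
import Pool.Agent.R923.SE.N
import Pool.Agent.R923.SE.MC

/-!
MP_55470d_pr (helper95): moments of a complex Gaussian row, invariances.
-/

set_option autoImplicit false

open MeasureTheory Complex Filter Topology
open scoped ENNReal NNReal ComplexConjugate

namespace Pool.Agent.K7.H95.GMC

open Pool.Agent.R923.SE Pool.Agent.R923.SE.NX

noncomputable section

/-- rows -/
abbrev V (n : ℕ) := Fin n → ℂ

/-- pairs of rows -/
abbrev E (n : ℕ) := V n × V n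

/-- the law of a pair of rows -/
def gE (n : ℕ) : Measure (E n) := (rw n).prod (rw n)

instance (n : ℕ) : IsProbabilityMeasure (gE n) := by unfold gE; infer_instance

/-- the mixed row `a A + b B` -/
def cx {n : ℕ} (a b : ℂ) (e : E n) : V n := fun i => a * e.1 i + b * e.2 i

@[fun_prop]
lemma measurable_cx {n : ℕ} (a b : ℂ) : Measurable (cx a b : E n → V n) := by
  unfold cx; fun_prop

/-! ### moments of `cg` -/

lemma mp_smul_cg (ζ : ℂ) (hζ : ‖ζ‖ = 1) : MeasurePreserving (fun w : ℂ => ζ * w) cg cg := by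
  have hU : (Matrix.of ![![ζ]] : Matrix (Fin 1) (Fin 1) ℂ) ∈ Matrix.unitaryGroup (Fin 1) ℂ := by
    rw [Matrix.mem_unitaryGroup_iff]
    ext i j
    fin_cases i; fin_cases j
    simp [Matrix.mul_apply, Complex.mul_conj, Complex.normSq_eq_norm_sq, hζ]
  have h := s_UL 1 1 _ hU
  have hπ : MeasurePreserving (fun B : Mt 1 1 => B 0 0) (gau 1 1) cg :=
    (measurePreserving_eval (fun _ : Fin 1 => cg) 0).comp
      (measurePreserving_eval (fun _ : Fin 1 => (Measure.pi fun _ : Fin 1 => cg)) 0)
  have hm : Measurable (fun w : ℂ => ζ * w) := by fun_prop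
  refine ⟨hm, ?_⟩
  have e1 : Measure.map (fun w : ℂ => ζ * w) cg =
      Measure.map ((fun w : ℂ => ζ * w) ∘ fun B : Mt 1 1 => B 0 0) (gau 1 1) := by
    rw [← Measure.map_map hm hπ.measurable, hπ.map_eq]
  have e2 : ((fun w : ℂ => ζ * w) ∘ fun B : Mt 1 1 => B 0 0) = (fun B : Mt 1 1 => B 0 0) ∘
      (fun (B : Mt 1 1) (i : Fin 1) (j : Fin 1) => ∑ l, (Matrix.of ![![ζ]]) i l * B l j) := by
    funext B
    simp
  rw [e1, e2, ← Measure.map_map hπ.measurable h.measurable, h.map_eq, hπ.map_eq]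

lemma mono_int (a b : ℕ) : Integrable (fun w : ℂ => (conj w) ^ a * w ^ b) cg := by
  have h1 := (MC.mom_cg_int (a + b)).add (integrable_const (1 : ℝ))
  refine h1.mono' (by fun_prop) (Eventually.of_forall fun w => ?_)
  rw [norm_mul, norm_pow, norm_pow, RCLike.norm_conj, ← pow_add]
  have h2 : (0 : ℝ) ≤ (‖w‖ ^ (a + b) - 1) ^ 2 := sq_nonneg _
  have h3 : ‖w‖ ^ (2 * (a + b)) = (‖w‖ ^ (a + b)) ^ 2 := by rw [← pow_mul]; ring_nf
  have h4 : (0 : ℝ) ≤ ‖w‖ ^ (a + b) := by positivity
  simp only [Pi.add_apply]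
  rw [h3]
  nlinarith

lemma mono_cg (a b : ℕ) :
    ∫ w, (conj w) ^ a * w ^ b ∂cg = if a = b then (a.factorial : ℂ) else 0 := by
  split_ifs with h
  · subst h
    have h1 : ∀ w : ℂ, (conj w) ^ a * w ^ a = ((‖w‖ ^ (2 * a) : ℝ) : ℂ) := by
      intro w
      rw [← mul_pow, Complex.conj_mul', pow_mul]
      push_cast
      rfl
    simp_rw [h1]
    rw [integral_complex_ofReal, MC.mom_cg]
    rfl
  · obtain ⟨k, hk⟩ : ∃ k : ℤ, (b : ℤ) - a = k := ⟨_, rfl⟩
    have hk0 : (k : ℝ) ≠ 0 := by
      have : k ≠ 0 := by omega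
      exact_mod_cast this
    set ζ : ℂ := Complex.exp (((Real.pi / k : ℝ) : ℂ) * I) with hζ
    have hn : ‖ζ‖ = 1 := by rw [hζ, Complex.norm_exp_ofReal_mul_I]
    have hmp := mp_smul_cg ζ hn
    have h1 : ∫ w, (conj w) ^ a * w ^ b ∂cg = ∫ w, (conj (ζ * w)) ^ a * (ζ * w) ^ b ∂cg := by
      have h2 := integral_map (μ := cg) hmp.measurable.aemeasurable
        (f := fun w : ℂ => (conj w) ^ a * w ^ b) (by fun_prop)
      rw [hmp.map_eq] at h2
      exact h2
    have h3 : ∀ w : ℂ, (conj (ζ * w)) ^ a * (ζ * w) ^ b =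
        ((conj ζ) ^ a * ζ ^ b) * ((conj w) ^ a * w ^ b) := by
      intro w
      rw [map_mul]
      ring
    simp_rw [h3] at h1
    rw [integral_const_mul] at h1
    have h4 : (conj ζ) ^ a * ζ ^ b = -1 := by
      have e1 : conj ζ = Complex.exp (-(((Real.pi / k : ℝ) : ℂ) * I)) := by
        rw [hζ, ← Complex.exp_conj]
        simp
      rw [e1, hζ, ← Complex.exp_nat_mul, ← Complex.exp_nat_mul, ← Complex.exp_add]
      have e2 : (a : ℂ) * -(((Real.pi / k : ℝ) : ℂ) * I) + b * (((Real.pi / k : ℝ) : ℂ) * I) =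
          Real.pi * I := by
        have e3 : (b : ℂ) - a = k := by exact_mod_cast hk
        have e4 : (k : ℂ) ≠ 0 := by exact_mod_cast hk0
        have e5 : (a : ℂ) * -(((Real.pi / k : ℝ) : ℂ) * I) + b * (((Real.pi / k : ℝ) : ℂ) * I) =
          ((b : ℂ) - a) * (((Real.pi / k : ℝ) : ℂ) * I) := by ring
        rw [e5, e3]
        push_cast
        field_simp
      rw [e2, Complex.exp_pi_mul_I]
    rw [h4] at h1
    have h5 : (2 : ℂ) * ∫ w, (conj w) ^ a * w ^ b ∂cg = 0 := by linear_combination h1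
    simpa using h5

lemma mono_pi_int {n : ℕ} (α β : Fin n → ℕ) :
    Integrable (fun c : V n => ∏ m, ((conj (c m)) ^ (α m) * (c m) ^ (β m))) (rw n) :=
  Integrable.fintype_prod (f := fun m (w : ℂ) => (conj w) ^ (α m) * w ^ (β m))
    (fun m => mono_int (α m) (β m))

lemma mono_pi {n : ℕ} (α β : Fin n → ℕ) :
    ∫ c : V n, ∏ m, ((conj (c m)) ^ (α m) * (c m) ^ (β m)) ∂rw n =
      if α = β then ∏ m, ((α m).factorial : ℂ) else 0 := by
  rw [integral_fintype_prod_eq_prod (f := fun m (w : ℂ) => (conj w) ^ (α m) * w ^ (β m))]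
  simp_rw [mono_cg]
  split_ifs with h
  · subst h
    simp
  · obtain ⟨m, hm⟩ : ∃ m, α m ≠ β m := by
      by_contra hc
      push Not at hc
      exact h (funext hc)
    refine Finset.prod_eq_zero (Finset.mem_univ m) ?_
    rw [if_neg hm]

lemma prod_single {n : ℕ} (x : V n) (i : Fin n) : ∏ m, x m ^ (Pi.single (M := fun _ => ℕ) i 1 m) = x i := by
  rw [Finset.prod_eq_single i]
  · simp
  · intro b _ hb
    simp [Pi.single_eq_of_ne hb]
  · simp

lemma m2_fun {n : ℕ} (c : V n) (i j : Fin n) : conj (c i) * c j =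
    ∏ m, ((conj (c m)) ^ (Pi.single (M := fun _ => ℕ) i 1 m) *
      (c m) ^ (Pi.single (M := fun _ => ℕ) j 1 m)) := by
  rw [Finset.prod_mul_distrib, prod_single (fun m => conj (c m)), prod_single c]

lemma m4_fun {n : ℕ} (c : V n) (i j k l : Fin n) : conj (c i) * c j * (conj (c k) * c l) =
    ∏ m, ((conj (c m)) ^ ((Pi.single i 1 + Pi.single k 1 : Fin n → ℕ) m) *
      (c m) ^ ((Pi.single j 1 + Pi.single l 1 : Fin n → ℕ) m)) := by
  rw [Finset.prod_mul_distrib]
  simp only [Pi.add_apply, pow_add, Finset.prod_mul_distrib]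
  rw [prod_single (fun m => conj (c m)), prod_single (fun m => conj (c m)), prod_single c,
    prod_single c]
  ring

lemma m2_int {n : ℕ} (i j : Fin n) : Integrable (fun c : V n => conj (c i) * c j) (rw n) := by
  simp_rw [m2_fun]
  exact mono_pi_int _ _

lemma m4_int {n : ℕ} (i j k l : Fin n) :
    Integrable (fun c : V n => conj (c i) * c j * (conj (c k) * c l)) (rw n) := by
  simp_rw [m4_fun]
  exact mono_pi_int _ _

lemma m2 {n : ℕ} (i j : Fin n) : ∫ c : V n, conj (c i) * c j ∂rw n = if i = j then 1 else 0 := by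
  simp_rw [m2_fun]
  rw [mono_pi]
  by_cases h : i = j
  · subst h
    rw [if_pos rfl, if_pos rfl]
    refine Finset.prod_eq_one fun m _ => ?_
    by_cases hm : m = i
    · subst hm; simp
    · simp [Pi.single_eq_of_ne hm]
  · rw [if_neg h, if_neg]
    intro h1
    have := congrFun h1 i
    simp [Pi.single_eq_of_ne h] at this

lemma m4 {n : ℕ} (i j k l : Fin n) :
    ∫ c : V n, conj (c i) * c j * (conj (c k) * c l) ∂rw n =
      (if i = j then 1 else 0) * (if k = l then 1 else 0) +
      (if i = l then 1 else 0) * (if k = j then 1 else 0) := by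
  simp_rw [m4_fun]
  rw [mono_pi]
  by_cases h1 : i = j
  · subst h1
    by_cases h2 : k = l
    · subst h2
      rw [if_pos rfl]
      by_cases h3 : i = k
      · subst h3
        simp only [if_true]
        rw [Finset.prod_eq_single i]
        · simp
          norm_num
        · intro m _ hm
          simp [Pi.single_eq_of_ne hm]
        · simp
      · have h3' : k ≠ i := fun h => h3 h.symm
        simp only [if_true, if_neg h3, if_neg h3']
        rw [Finset.prod_eq_one]
        · simp
        · intro m _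
          by_cases hm : m = i
          · subst hm
            simp [Pi.single_eq_of_ne h3]
          · by_cases hm2 : m = k
            · subst hm2
              simp [Pi.single_eq_of_ne h3']
            · simp [Pi.single_eq_of_ne hm, Pi.single_eq_of_ne hm2]
    · rw [if_neg]
      · by_cases h4 : i = l
        · subst h4
          have : k ≠ i := h2
          simp [this]
        · simp [h2, h4]
      · intro h
        have h5 := add_left_cancel h
        have := congrFun h5 k
        simp [Pi.single_eq_of_ne h2] at this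
  · by_cases h4 : i = l
    · subst h4
      by_cases h5 : k = j
      · subst h5
        rw [add_comm, if_pos rfl]
        have h1' : k ≠ i := fun h => h1 h.symm
        simp only [if_neg h1, if_true, if_neg h1']
        rw [Finset.prod_eq_one]
        · simp
        · intro m _
          by_cases hm : m = i
          · subst hm
            simp [Pi.single_eq_of_ne h1]
          · by_cases hm2 : m = k
            · subst hm2
              simp [Pi.single_eq_of_ne h1']
            · simp [Pi.single_eq_of_ne hm, Pi.single_eq_of_ne hm2]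
      · rw [if_neg]
        · simp [h1, h5]
        · intro h
          rw [add_comm] at h
          have h6 := add_right_cancel h
          have := congrFun h6 k
          simp [Pi.single_eq_of_ne h5] at this
    · rw [if_neg]
      · simp [h1, h4]
      · intro h
        have := congrFun h i
        simp only [Pi.add_apply, Pi.single_eq_same, Pi.single_eq_of_ne h1,
          Pi.single_eq_of_ne h4] at this
        omega

/-! ### rotations -/

lemma mp_row (n : ℕ) : MeasurePreserving (fun B : Mt 1 n => B 0) (gau 1 n) (rw n) :=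
  measurePreserving_eval (fun _ : Fin 1 => rw n) 0

lemma rot_row {n : ℕ} (a b c d : ℂ) (hab : ‖a‖ ^ 2 + ‖b‖ ^ 2 = 1) (hcd : ‖c‖ ^ 2 + ‖d‖ ^ 2 = 1)
    (hac : a * conj c + b * conj d = 0) :
    MeasurePreserving (fun e : E n => (cx a b e, cx c d e)) (gE n) (gE n) := by
  have h := s_ROT 1 n a b c d hab hcd hac
  have hπ : MeasurePreserving (Prod.map (fun B : Mt 1 n => B 0) (fun B : Mt 1 n => B 0))
      ((gau 1 n).prod (gau 1 n)) (gE n) := (mp_row n).prod (mp_row n)
  have hm : Measurable (fun e : E n => (cx a b e, cx c d e)) := by fun_prop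
  refine ⟨hm, ?_⟩
  have e2 : ((fun e : E n => (cx a b e, cx c d e)) ∘
      (Prod.map (fun B : Mt 1 n => B 0) (fun B : Mt 1 n => B 0))) =
      (Prod.map (fun B : Mt 1 n => B 0) (fun B : Mt 1 n => B 0)) ∘
      (fun x : Mt 1 n × Mt 1 n => (a • x.1 + b • x.2, c • x.1 + d • x.2)) := by
    funext B
    rfl
  rw [← hπ.map_eq, Measure.map_map hm hπ.measurable, e2, ← Measure.map_map hπ.measurable
    h.measurable, h.map_eq]

/-- correlation of two unit vectors of `ℂ²` -/
def sg (a b a' b' : ℂ) : ℂ := a' * conj a + b' * conj b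

/-- the orthogonal component -/
def tu (a b a' b' : ℂ) : ℂ := b' * a - a' * b

lemma sg_tu {a b a' b' : ℂ} (hab : ‖a‖ ^ 2 + ‖b‖ ^ 2 = 1) (hab' : ‖a'‖ ^ 2 + ‖b'‖ ^ 2 = 1) :
    ‖sg a b a' b'‖ ^ 2 + ‖tu a b a' b'‖ ^ 2 = 1 := by
  have h : ((‖sg a b a' b'‖ ^ 2 + ‖tu a b a' b'‖ ^ 2 : ℝ) : ℂ) =
      (((‖a‖ ^ 2 + ‖b‖ ^ 2) * (‖a'‖ ^ 2 + ‖b'‖ ^ 2) : ℝ) : ℂ) := by
    push_cast
    simp only [← Complex.conj_mul', sg, tu, map_add, map_sub, map_mul, Complex.conj_conj]
    ring
  have h2 : ‖sg a b a' b'‖ ^ 2 + ‖tu a b a' b'‖ ^ 2 =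
      (‖a‖ ^ 2 + ‖b‖ ^ 2) * (‖a'‖ ^ 2 + ‖b'‖ ^ 2) := by exact_mod_cast h
  rw [h2, hab, hab', one_mul]

lemma cx_decomp {n : ℕ} {a b a' b' : ℂ} (hab : ‖a‖ ^ 2 + ‖b‖ ^ 2 = 1) (e : E n) :
    cx a' b' e = fun i => sg a b a' b' * cx a b e i + tu a b a' b' * cx (-conj b) (conj a) e i := by
  have h : conj a * a + conj b * b = 1 := by
    rw [Complex.conj_mul', Complex.conj_mul']; exact_mod_cast hab
  funext i
  unfold cx sg tu
  linear_combination (-(a' * e.1 i + b' * e.2 i)) * h

lemma rot_perp {n : ℕ} {a b : ℂ} (hab : ‖a‖ ^ 2 + ‖b‖ ^ 2 = 1) :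
    MeasurePreserving (fun e : E n => (cx a b e, cx (-conj b) (conj a) e)) (gE n) (gE n) := by
  refine rot_row _ _ _ _ hab ?_ ?_
  · rw [norm_neg, RCLike.norm_conj, RCLike.norm_conj, add_comm]; exact hab
  · simp only [map_neg, Complex.conj_conj]; ring

lemma mp_cx {n : ℕ} {a b : ℂ} (hab : ‖a‖ ^ 2 + ‖b‖ ^ 2 = 1) :
    MeasurePreserving (cx a b : E n → V n) (gE n) (rw n) :=
  measurePreserving_fst.comp (rot_perp hab)

lemma mp_neg (n : ℕ) : MeasurePreserving (fun e : E n => ((e.1, fun i => -e.2 i) : E n)) (gE n)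
    (gE n) := by
  have h := rot_row (n := n) 1 0 0 (-1) (by simp) (by simp) (by simp)
  have e1 : (fun e : E n => (cx 1 0 e, cx 0 (-1) e)) =
      (fun e : E n => ((e.1, fun i => -e.2 i) : E n)) := by
    funext e
    unfold cx
    simp
  rwa [e1] at h

/-- mean over a rotated pair, symmetrised in the orthogonal component -/
lemma rot_int {n : ℕ} {a b a' b' : ℂ} (hab : ‖a‖ ^ 2 + ‖b‖ ^ 2 = 1) (F : V n → V n → ℂ)
    (hF : Continuous (fun x : V n × V n => F x.1 x.2))
    (hI : Integrable (fun e : E n => F e.1 (fun i => sg a b a' b' * e.1 i +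
      tu a b a' b' * e.2 i)) (gE n)) :
    ∫ e, F (cx a b e) (cx a' b' e) ∂gE n = (1 / 2 : ℂ) * ∫ e : E n,
      (F e.1 (fun i => sg a b a' b' * e.1 i + tu a b a' b' * e.2 i) +
       F e.1 (fun i => sg a b a' b' * e.1 i - tu a b a' b' * e.2 i)) ∂gE n := by
  set G : E n → ℂ := fun e => F e.1 (fun i => sg a b a' b' * e.1 i + tu a b a' b' * e.2 i) with hG
  have hGc : Continuous G := by
    rw [hG]
    exact hF.comp (by fun_prop : Continuous (fun e : E n =>
      (e.1, fun i => sg a b a' b' * e.1 i + tu a b a' b' * e.2 i)))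
  have h1 : ∫ e, F (cx a b e) (cx a' b' e) ∂gE n = ∫ e, G e ∂gE n := by
    have hmp := rot_perp (n := n) hab
    have h2 := integral_map (μ := gE n) hmp.measurable.aemeasurable (f := G)
      hGc.aestronglyMeasurable
    rw [hmp.map_eq] at h2
    rw [h2]
    refine integral_congr_ae (Eventually.of_forall fun e => ?_)
    show F (cx a b e) (cx a' b' e) = _
    rw [cx_decomp (a' := a') (b' := b') hab e]
  have h3 : ∫ e, G e ∂gE n = ∫ e : E n, G (e.1, fun i => -e.2 i) ∂gE n := by
    have hmp := mp_neg n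
    have h2 := integral_map (μ := gE n) hmp.measurable.aemeasurable (f := G)
      hGc.aestronglyMeasurable
    rwa [hmp.map_eq] at h2
  have hI2 : Integrable (fun e : E n => G (e.1, fun i => -e.2 i)) (gE n) :=
    ((mp_neg n).integrable_comp hGc.aestronglyMeasurable).2 hI
  have h4 : (fun e : E n => F e.1 (fun i => sg a b a' b' * e.1 i - tu a b a' b' * e.2 i)) =
      fun e : E n => G (e.1, fun i => -e.2 i) := by
    funext e
    rw [hG]
    simp only [mul_neg]
    rfl
  rw [h1]
  have h5 : ∫ e : E n, (F e.1 (fun i => sg a b a' b' * e.1 i + tu a b a' b' * e.2 i) +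
       F e.1 (fun i => sg a b a' b' * e.1 i - tu a b a' b' * e.2 i)) ∂gE n =
      ∫ e, G e ∂gE n + ∫ e : E n, G (e.1, fun i => -e.2 i) ∂gE n := by
    rw [← integral_add hI hI2]
    refine integral_congr_ae (Eventually.of_forall fun e => ?_)
    show _ + (fun e : E n => F e.1 (fun i => sg a b a' b' * e.1 i - tu a b a' b' * e.2 i)) e = _
    rw [h4]
  rw [h5, ← h3]
  ring

/-- the sesquilinear form `c* M d` -/
def bf {n : ℕ} (M : Matrix (Fin n) (Fin n) ℂ) (c d : V n) : ℂ := ∑ i, ∑ j, conj (c i) * M i j * d j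

@[fun_prop]
lemma continuous_bf {n : ℕ} (M : Matrix (Fin n) (Fin n) ℂ) :
    Continuous (fun x : V n × V n => bf M x.1 x.2) := by
  unfold bf
  fun_prop

lemma conj_bf {n : ℕ} (M : Matrix (Fin n) (Fin n) ℂ) (c d : V n) :
    conj (bf M c d) = bf M.conjTranspose d c := by
  unfold bf
  rw [map_sum, Finset.sum_comm]
  refine Finset.sum_congr rfl fun i _ => ?_
  rw [map_sum]
  refine Finset.sum_congr rfl fun j _ => ?_
  simp only [map_mul, Complex.conj_conj, Matrix.conjTranspose_apply, RCLike.star_def]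
  ring

/-! ### integrals of quadratic forms -/

lemma bf_self_int {n : ℕ} (M : Matrix (Fin n) (Fin n) ℂ) :
    Integrable (fun c : V n => bf M c c) (rw n) := by
  unfold bf
  refine integrable_finsetSum _ fun i _ => integrable_finsetSum _ fun j _ => ?_
  refine ((m2_int i j).const_mul (M i j)).congr (Eventually.of_forall fun c => ?_)
  simp only
  ring

lemma bf_self {n : ℕ} (M : Matrix (Fin n) (Fin n) ℂ) : ∫ c : V n, bf M c c ∂rw n = M.trace := by
  have h : ∀ i j : Fin n, Integrable (fun c : V n => conj (c i) * M i j * c j) (rw n) := by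
    intro i j
    refine ((m2_int i j).const_mul (M i j)).congr (Eventually.of_forall fun c => ?_)
    simp only
    ring
  unfold bf
  rw [integral_finsetSum _ fun i _ => integrable_finsetSum _ fun j _ => h i j]
  simp_rw [integral_finsetSum _ fun j _ => h _ j]
  have h2 : ∀ i j : Fin n, ∫ c : V n, conj (c i) * M i j * c j ∂rw n =
      M i j * (if i = j then 1 else 0) := by
    intro i j
    rw [← m2 i j, ← integral_const_mul]
    refine integral_congr_ae (Eventually.of_forall fun c => ?_)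
    simp only
    ring
  simp_rw [h2]
  simp [Matrix.trace]

lemma bf_mul_eq {n : ℕ} (M N : Matrix (Fin n) (Fin n) ℂ) (c : V n) : bf M c c * bf N c c =
    ∑ i, ∑ j, ∑ k, ∑ l, M i j * N k l * (conj (c i) * c j * (conj (c k) * c l)) := by
  rw [mul_comm]
  unfold bf
  simp only [Finset.sum_mul, Finset.mul_sum]
  refine Finset.sum_congr rfl fun i _ => Finset.sum_congr rfl fun j _ =>
    Finset.sum_congr rfl fun k _ => Finset.sum_congr rfl fun l _ => ?_
  ring

lemma bf4_int {n : ℕ} (M N : Matrix (Fin n) (Fin n) ℂ) :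
    Integrable (fun c : V n => bf M c c * bf N c c) (rw n) := by
  simp_rw [bf_mul_eq]
  exact integrable_finsetSum _ fun i _ => integrable_finsetSum _ fun j _ =>
    integrable_finsetSum _ fun k _ => integrable_finsetSum _ fun l _ =>
      (m4_int i j k l).const_mul _

lemma bf4 {n : ℕ} (M N : Matrix (Fin n) (Fin n) ℂ) :
    ∫ c : V n, bf M c c * bf N c c ∂rw n = M.trace * N.trace + (M * N).trace := by
  simp_rw [bf_mul_eq]
  rw [integral_finsetSum _ fun i _ => integrable_finsetSum _ fun j _ =>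
    integrable_finsetSum _ fun k _ => integrable_finsetSum _ fun l _ =>
      (m4_int i j k l).const_mul _]
  simp_rw [integral_finsetSum _ fun j _ => integrable_finsetSum _ fun k _ =>
    integrable_finsetSum _ fun l _ => (m4_int _ j k l).const_mul (M _ j * N k l),
    integral_finsetSum _ fun k _ => integrable_finsetSum _ fun l _ =>
      (m4_int _ _ k l).const_mul (M _ _ * N k l),
    integral_finsetSum _ fun l _ => (m4_int _ _ _ l).const_mul (M _ _ * N _ l),
    integral_const_mul, m4]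
  simp only [mul_add, Finset.sum_add_distrib]
  congr 1
  · rw [mul_comm M.trace]
    simp only [Matrix.trace, Matrix.diag, Finset.sum_mul, Finset.mul_sum]
    refine Finset.sum_congr rfl fun i _ => ?_
    rw [Finset.sum_eq_single i]
    · refine Finset.sum_congr rfl fun k _ => ?_
      rw [Finset.sum_eq_single k]
      · simp [mul_comm]
      · intro b _ hb
        simp [Ne.symm hb]
      · simp
    · intro b _ hb
      simp [Ne.symm hb]
    · simp
  · simp only [Matrix.trace, Matrix.diag, Matrix.mul_apply]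
    refine Finset.sum_congr rfl fun i _ => ?_
    refine Finset.sum_congr rfl fun j _ => ?_
    rw [Finset.sum_eq_single j]
    · rw [Finset.sum_eq_single i]
      · simp
      · intro b _ hb
        simp [Ne.symm hb]
      · simp
    · intro b _ hb
      simp [hb]
    · simp

lemma bf_two_eq {n : ℕ} (M : Matrix (Fin n) (Fin n) ℂ) (c d : V n) :
    bf M c d * conj (bf M c d) =
    ∑ i, ∑ j, ∑ k, ∑ l, M i j * conj (M k l) * ((conj (c i) * c k) * (conj (d l) * d j)) := by
  rw [mul_comm]
  unfold bf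
  simp only [map_sum, Finset.sum_mul, Finset.mul_sum]
  refine Finset.sum_congr rfl fun i _ => Finset.sum_congr rfl fun j _ =>
    Finset.sum_congr rfl fun k _ => Finset.sum_congr rfl fun l _ => ?_
  simp only [map_mul, Complex.conj_conj]
  ring

lemma m22_int {n : ℕ} (i k l j : Fin n) :
    Integrable (fun e : E n => (conj (e.1 i) * e.1 k) * (conj (e.2 l) * e.2 j)) (gE n) :=
  (m2_int i k).mul_prod (m2_int l j)

lemma m22 {n : ℕ} (i k l j : Fin n) :
    ∫ e : E n, (conj (e.1 i) * e.1 k) * (conj (e.2 l) * e.2 j) ∂gE n =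
      (if i = k then 1 else 0) * (if l = j then 1 else 0) := by
  unfold gE
  rw [integral_prod_mul (fun c : V n => conj (c i) * c k) (fun c : V n => conj (c l) * c j), m2, m2]

lemma bf_two_int {n : ℕ} (M : Matrix (Fin n) (Fin n) ℂ) :
    Integrable (fun e : E n => bf M e.1 e.2 * conj (bf M e.1 e.2)) (gE n) := by
  simp_rw [bf_two_eq]
  exact integrable_finsetSum _ fun i _ => integrable_finsetSum _ fun j _ =>
    integrable_finsetSum _ fun k _ => integrable_finsetSum _ fun l _ =>
      (m22_int i k l j).const_mul _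

lemma bf_two {n : ℕ} (M : Matrix (Fin n) (Fin n) ℂ) :
    ∫ e : E n, bf M e.1 e.2 * conj (bf M e.1 e.2) ∂gE n = (M * M.conjTranspose).trace := by
  simp_rw [bf_two_eq]
  rw [integral_finsetSum _ fun i _ => integrable_finsetSum _ fun j _ =>
    integrable_finsetSum _ fun k _ => integrable_finsetSum _ fun l _ =>
      (m22_int i k l j).const_mul _]
  simp_rw [integral_finsetSum _ fun j _ => integrable_finsetSum _ fun k _ =>
    integrable_finsetSum _ fun l _ => (m22_int _ k l j).const_mul (M _ j * conj (M k l)),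
    integral_finsetSum _ fun k _ => integrable_finsetSum _ fun l _ =>
      (m22_int _ k l _).const_mul (M _ _ * conj (M k l)),
    integral_finsetSum _ fun l _ => (m22_int _ _ l _).const_mul (M _ _ * conj (M _ l)),
    integral_const_mul, m22]
  simp only [Matrix.trace, Matrix.diag, Matrix.mul_apply, Matrix.conjTranspose_apply]
  refine Finset.sum_congr rfl fun i _ => Finset.sum_congr rfl fun j _ => ?_
  rw [Finset.sum_eq_single i]
  · rw [Finset.sum_eq_single j]
    · simp
    · intro b _ hb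
      simp [hb]
    · simp
  · intro b _ hb
    simp [Ne.symm hb]
  · simp

lemma bf_mix {n : ℕ} (N : Matrix (Fin n) (Fin n) ℂ) (σ τ : ℂ) (c d : V n) :
    bf N (fun i => σ * c i + τ * d i) (fun i => σ * c i + τ * d i) +
    bf N (fun i => σ * c i - τ * d i) (fun i => σ * c i - τ * d i) =
      2 * (conj σ * σ * bf N c c + conj τ * τ * bf N d d) := by
  unfold bf
  rw [← Finset.sum_add_distrib]
  simp only [Finset.mul_sum, ← Finset.sum_add_distrib]
  refine Finset.sum_congr rfl fun i _ => Finset.sum_congr rfl fun j _ => ?_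
  simp only [map_add, map_sub, map_mul]
  ring

lemma bf_lin {n : ℕ} (M : Matrix (Fin n) (Fin n) ℂ) (σ τ : ℂ) (c d e : V n) :
    bf M c (fun i => σ * d i + τ * e i) = σ * bf M c d + τ * bf M c e := by
  unfold bf
  simp only [Finset.mul_sum, ← Finset.sum_add_distrib]
  refine Finset.sum_congr rfl fun i _ => Finset.sum_congr rfl fun j _ => ?_
  ring

lemma bf_lin' {n : ℕ} (M : Matrix (Fin n) (Fin n) ℂ) (σ τ : ℂ) (c d e : V n) :
    bf M c (fun i => σ * d i - τ * e i) = σ * bf M c d - τ * bf M c e := by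
  unfold bf
  simp only [Finset.mul_sum, ← Finset.sum_sub_distrib]
  refine Finset.sum_congr rfl fun i _ => Finset.sum_congr rfl fun j _ => ?_
  ring

lemma fst_int {n : ℕ} {f : V n → ℂ} (hf : Integrable f (rw n)) :
    Integrable (fun e : E n => f e.1) (gE n) := hf.comp_fst (rw n)

lemma fst_val {n : ℕ} (f : V n → ℂ) : ∫ e : E n, f e.1 ∂gE n = ∫ c, f c ∂rw n := by
  have h := integral_prod_mul (μ := rw n) (ν := rw n) f (fun _ => (1 : ℂ))
  simpa [gE] using h

lemma prod_val {n : ℕ} (f g : V n → ℂ) :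
    ∫ e : E n, f e.1 * g e.2 ∂gE n = (∫ c, f c ∂rw n) * ∫ c, g c ∂rw n :=
  integral_prod_mul (μ := rw n) (ν := rw n) f g

lemma cx_self {n : ℕ} {a b : ℂ} (hab : ‖a‖ ^ 2 + ‖b‖ ^ 2 = 1) (M : Matrix (Fin n) (Fin n) ℂ) :
    Integrable (fun e : E n => bf M (cx a b e) (cx a b e)) (gE n) ∧
    ∫ e : E n, bf M (cx a b e) (cx a b e) ∂gE n = M.trace := by
  have hmp := mp_cx (n := n) hab
  have hc : Continuous (fun c : V n => bf M c c) := by unfold bf; fun_prop
  constructor
  · exact (hmp.integrable_comp hc.aestronglyMeasurable).2 (bf_self_int M)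
  · have h2 := integral_map (μ := gE n) hmp.measurable.aemeasurable (f := fun c : V n => bf M c c)
      hc.aestronglyMeasurable
    rw [hmp.map_eq] at h2
    rw [← h2, bf_self]

/-- products of bounded-by-fourth-moment functions: all the quartic integrals are integrable -/
lemma quart_int {n : ℕ} (c1 c2 c3 c4 : E n → V n)
    (h : ∀ k ∈ ({c1, c2, c3, c4} : Set (E n → V n)), ∃ a b : ℂ, k = cx a b)
    (i j k l : Fin n) :
    Integrable (fun e : E n => conj (c1 e i) * c2 e j * (conj (c3 e k) * c4 e l)) (gE n) := by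
  obtain ⟨a1, b1, h1⟩ := h c1 (by simp)
  obtain ⟨a2, b2, h2⟩ := h c2 (by simp)
  obtain ⟨a3, b3, h3⟩ := h c3 (by simp)
  obtain ⟨a4, b4, h4⟩ := h c4 (by simp)
  subst h1 h2 h3 h4
  have hb : ∀ (a b : ℂ) (i : Fin n), Integrable (fun e : E n => ‖cx a b e i‖ ^ 4) (gE n) := by
    intro a b i
    have hi : Integrable (fun c : V n => ‖c i‖ ^ 4) (rw n) := by
      have h := (m4_int i i i i).norm
      refine h.congr (Eventually.of_forall fun c => ?_)
      simp only [norm_mul, RCLike.norm_conj]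
      ring
    have hs : Integrable (fun e : E n => 8 * (‖a‖ ^ 4 * ‖e.1 i‖ ^ 4 + ‖b‖ ^ 4 * ‖e.2 i‖ ^ 4))
        (gE n) :=
      (((hi.comp_fst (rw n)).const_mul _).add ((hi.comp_snd (rw n)).const_mul _)).const_mul 8
    refine hs.mono' (by
      refine Continuous.aestronglyMeasurable ?_
      unfold cx; fun_prop) (Eventually.of_forall fun e => ?_)
    rw [Real.norm_of_nonneg (by positivity)]
    unfold cx
    have h1 := norm_add_le (a * e.1 i) (b * e.2 i)
    rw [norm_mul, norm_mul] at h1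
    have h2 : ‖a * e.1 i + b * e.2 i‖ ^ 4 ≤ (‖a‖ * ‖e.1 i‖ + ‖b‖ * ‖e.2 i‖) ^ 4 :=
      pow_le_pow_left₀ (norm_nonneg _) h1 4
    have h3 := add_pow_le (mul_nonneg (norm_nonneg a) (norm_nonneg (e.1 i)))
      (mul_nonneg (norm_nonneg b) (norm_nonneg (e.2 i))) 4
    calc _ ≤ _ := h2
      _ ≤ _ := h3
      _ = _ := by ring
  have hs := ((hb a1 b1 i).add (hb a2 b2 j)).add ((hb a3 b3 k).add (hb a4 b4 l))
  refine hs.mono' (by
      refine Continuous.aestronglyMeasurable ?_
      unfold cx; fun_prop) (Eventually.of_forall fun e => ?_)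
  simp only [norm_mul, RCLike.norm_conj, Pi.add_apply]
  have key : ∀ x y z w : ℝ, x * y * (z * w) ≤ x ^ 4 + y ^ 4 + (z ^ 4 + w ^ 4) := by
    intro x y z w
    have h1 : (x * y - z * w) ^ 2 = x ^ 2 * y ^ 2 - 2 * (x * y * (z * w)) + z ^ 2 * w ^ 2 := by ring
    have h2 : (x ^ 2 - y ^ 2) ^ 2 = x ^ 4 - 2 * (x ^ 2 * y ^ 2) + y ^ 4 := by ring
    have h3 : (z ^ 2 - w ^ 2) ^ 2 = z ^ 4 - 2 * (z ^ 2 * w ^ 2) + w ^ 4 := by ring
    have h4 : 0 ≤ x ^ 4 + y ^ 4 + (z ^ 4 + w ^ 4) := by positivity
    linarith [sq_nonneg (x * y - z * w), sq_nonneg (x ^ 2 - y ^ 2), sq_nonneg (z ^ 2 - w ^ 2)]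
  exact key _ _ _ _

lemma cov_int {n : ℕ} (a b a' b' : ℂ) (M N : Matrix (Fin n) (Fin n) ℂ) :
    Integrable (fun e : E n => bf M (cx a b e) (cx a b e) * bf N (cx a' b' e) (cx a' b' e))
      (gE n) := by
  unfold bf
  simp only [Finset.sum_mul, Finset.mul_sum]
  refine integrable_finsetSum _ fun i _ => integrable_finsetSum _ fun j _ =>
    integrable_finsetSum _ fun k _ => integrable_finsetSum _ fun l _ => ?_
  refine ((quart_int (cx a b) (cx a b) (cx a' b') (cx a' b') (by
    intro q hq
    simp only [Set.mem_insert_iff, Set.mem_singleton_iff] at hq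
    rcases hq with h | h | h | h <;> exact ⟨_, _, h⟩) k l i j).const_mul
      (M k l * N i j)).congr (Eventually.of_forall fun e => ?_)
  simp only
  ring

lemma cross_int {n : ℕ} (a b a' b' : ℂ) (M : Matrix (Fin n) (Fin n) ℂ) :
    Integrable (fun e : E n => bf M (cx a b e) (cx a' b' e) * conj (bf M (cx a b e) (cx a' b' e)))
      (gE n) := by
  unfold bf
  simp only [map_sum, map_mul, Complex.conj_conj, Finset.sum_mul, Finset.mul_sum]
  refine integrable_finsetSum _ fun i _ => integrable_finsetSum _ fun j _ =>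
    integrable_finsetSum _ fun k _ => integrable_finsetSum _ fun l _ => ?_
  refine ((quart_int (cx a b) (cx a' b') (cx a' b') (cx a b) (by
    intro q hq
    simp only [Set.mem_insert_iff, Set.mem_singleton_iff] at hq
    rcases hq with h | h | h | h <;> exact ⟨_, _, h⟩) k l j i).const_mul
      (M k l * conj (M i j))).congr (Eventually.of_forall fun e => ?_)
  simp only
  ring

/-- covariance of quadratic forms of correlated rows -/
lemma cov_val {n : ℕ} {a b a' b' : ℂ} (hab : ‖a‖ ^ 2 + ‖b‖ ^ 2 = 1)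
    (hab' : ‖a'‖ ^ 2 + ‖b'‖ ^ 2 = 1) (M N : Matrix (Fin n) (Fin n) ℂ) :
    ∫ e : E n, bf M (cx a b e) (cx a b e) * bf N (cx a' b' e) (cx a' b' e) ∂gE n =
      M.trace * N.trace + (‖sg a b a' b'‖ ^ 2 : ℝ) * (M * N).trace := by
  have e1 : ∀ e : E n, cx (sg a b a' b') (tu a b a' b') e =
    fun i => sg a b a' b' * e.1 i + tu a b a' b' * e.2 i := fun e => rfl
  rw [rot_int hab (fun c d => bf M c c * bf N d d) (by unfold bf; fun_prop) (by
    have h := cov_int (n := n) 1 0 (sg a b a' b') (tu a b a' b') M N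
    have e2 : ∀ e : E n, cx 1 0 e = e.1 := by intro e; funext i; simp [cx]
    simpa only [e1, e2] using h)]
  have h2 : ∀ e : E n, bf M e.1 e.1 * bf N (fun i => sg a b a' b' * e.1 i + tu a b a' b' * e.2 i)
      (fun i => sg a b a' b' * e.1 i + tu a b a' b' * e.2 i) +
      bf M e.1 e.1 * bf N (fun i => sg a b a' b' * e.1 i - tu a b a' b' * e.2 i)
      (fun i => sg a b a' b' * e.1 i - tu a b a' b' * e.2 i) =
      (2 * (conj (sg a b a' b') * sg a b a' b')) * (bf M e.1 e.1 * bf N e.1 e.1) +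
      (2 * (conj (tu a b a' b') * tu a b a' b')) * (bf M e.1 e.1 * bf N e.2 e.2) := by
    intro e
    rw [← mul_add, bf_mix]
    ring
  simp_rw [h2]
  rw [integral_add ((fst_int (bf4_int M N)).const_mul _)
    (((bf_self_int M).mul_prod (bf_self_int N)).const_mul _), integral_const_mul,
    integral_const_mul, fst_val (fun c => bf M c c * bf N c c), bf4,
    prod_val (fun c => bf M c c) (fun c => bf N c c), bf_self, bf_self]
  have h3 : conj (tu a b a' b') * tu a b a' b' = 1 - ((‖sg a b a' b'‖ ^ 2 : ℝ) : ℂ) := by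
    rw [Complex.conj_mul', eq_sub_iff_add_eq, add_comm]
    have := sg_tu hab hab'
    exact_mod_cast this
  rw [h3, Complex.conj_mul']
  push_cast
  ring

/-- second moment of a sesquilinear form of correlated rows -/
lemma cross_val {n : ℕ} {a b a' b' : ℂ} (hab : ‖a‖ ^ 2 + ‖b‖ ^ 2 = 1)
    (hab' : ‖a'‖ ^ 2 + ‖b'‖ ^ 2 = 1) (M : Matrix (Fin n) (Fin n) ℂ) :
    ∫ e : E n, bf M (cx a b e) (cx a' b' e) * conj (bf M (cx a b e) (cx a' b' e)) ∂gE n =
      (‖sg a b a' b'‖ ^ 2 : ℝ) * (M.trace * conj M.trace) + (M * M.conjTranspose).trace := by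
  have e1 : ∀ e : E n, cx (sg a b a' b') (tu a b a' b') e =
    fun i => sg a b a' b' * e.1 i + tu a b a' b' * e.2 i := fun e => rfl
  rw [rot_int hab (fun c d => bf M c d * conj (bf M c d)) (by unfold bf; fun_prop) (by
    have h := cross_int (n := n) 1 0 (sg a b a' b') (tu a b a' b') M
    have e2 : ∀ e : E n, cx 1 0 e = e.1 := by intro e; funext i; simp [cx]
    simpa only [e1, e2] using h)]
  have h2 : ∀ e : E n, bf M e.1 (fun i => sg a b a' b' * e.1 i + tu a b a' b' * e.2 i) *
      conj (bf M e.1 (fun i => sg a b a' b' * e.1 i + tu a b a' b' * e.2 i)) +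
      bf M e.1 (fun i => sg a b a' b' * e.1 i - tu a b a' b' * e.2 i) *
      conj (bf M e.1 (fun i => sg a b a' b' * e.1 i - tu a b a' b' * e.2 i)) =
      (2 * (conj (sg a b a' b') * sg a b a' b')) * (bf M e.1 e.1 * bf M.conjTranspose e.1 e.1) +
      (2 * (conj (tu a b a' b') * tu a b a' b')) * (bf M e.1 e.2 * conj (bf M e.1 e.2)) := by
    intro e
    rw [bf_lin, bf_lin', ← conj_bf]
    simp only [map_add, map_sub, map_mul]
    ring
  simp_rw [h2]
  rw [integral_add ((fst_int (bf4_int M M.conjTranspose)).const_mul _)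
    ((bf_two_int M).const_mul _), integral_const_mul,
    integral_const_mul, fst_val (fun c => bf M c c * bf M.conjTranspose c c), bf4, bf_two]
  have h3 : conj (tu a b a' b') * tu a b a' b' = 1 - ((‖sg a b a' b'‖ ^ 2 : ℝ) : ℂ) := by
    rw [Complex.conj_mul', eq_sub_iff_add_eq, add_comm]
    have := sg_tu hab hab'
    exact_mod_cast this
  rw [h3, Complex.conj_mul', Matrix.trace_conjTranspose, RCLike.star_def]
  push_cast
  ring

end

end Pool.Agent.K7.H95.GMC
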