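import Pool.Agent.K7.H95.GMC.Gam

/-!
MP_55470d_pr (helper95): the characteristic function of one step.
-/

set_option autoImplicit false

open MeasureTheory Complex Filter Topology
open scoped ENNReal NNReal ComplexConjugate

namespace Pool.Agent.K7.H95.GMC

open Pool.Agent.R923.SE Pool.Agent.R923.SE.NX

noncomputable section

lemma exp1 (x : ℝ) : ‖cexp (x * I) - 1‖ ≤ |x| := by
  have h := Real.norm_exp_I_mul_ofReal_sub_one_le (x := x)
  rwa [mul_comm] at h

lemma exp2 (x : ℝ) : ‖cexp (x * I) - 1 - x * I‖ ≤ 3 * x ^ 2 := by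
  have hn : ‖(x : ℂ) * I‖ = |x| := by simp
  by_cases h : |x| ≤ 1
  · have h1 := Complex.norm_exp_sub_one_sub_id_le (x := (x : ℂ) * I) (by rw [hn]; exact h)
    rw [hn, sq_abs] at h1
    nlinarith [sq_nonneg x]
  · push Not at h
    have h1 : ‖cexp (x * I) - 1 - x * I‖ ≤ ‖cexp (x * I) - 1‖ + ‖(x : ℂ) * I‖ := norm_sub_le _ _
    have h2 := exp1 x
    rw [hn] at h1
    have h3 : |x| ≤ |x| ^ 2 := by nlinarith
    rw [sq_abs] at h3
    linarith [sq_nonneg x]

lemma exp3 (x : ℝ) : ‖cexp (x * I) - (1 + x * I - x ^ 2 / 2)‖ ≤ 4 * |x| ^ 3 := by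
  have hn : ‖(x : ℂ) * I‖ = |x| := by simp
  by_cases h : |x| ≤ 1
  · have h1 := Complex.exp_bound (x := (x : ℂ) * I) (by rw [hn]; exact h) (n := 3) (by norm_num)
    rw [hn] at h1
    have h2 : ∑ m ∈ Finset.range 3, ((x : ℂ) * I) ^ m / (m.factorial : ℂ) =
        1 + x * I - x ^ 2 / 2 := by
      simp [Finset.sum_range_succ, mul_pow]
      ring
    rw [h2] at h1
    refine h1.trans ?_
    have h3 : (0 : ℝ) ≤ |x| ^ 3 := by positivity
    norm_num [Nat.factorial]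
    nlinarith
  · push Not at h
    have h1 : cexp (x * I) - (1 + x * I - x ^ 2 / 2) = (cexp (x * I) - 1) - x * I + x ^ 2 / 2 := by
      ring
    have h2 : ‖cexp (x * I) - (1 + x * I - x ^ 2 / 2)‖ ≤ ‖cexp (x * I) - 1‖ + ‖(x : ℂ) * I‖ +
        ‖((x : ℂ) ^ 2 / 2)‖ := by
      rw [h1]
      refine (norm_add_le _ _).trans ?_
      gcongr
      exact norm_sub_le _ _
    have h3 := exp1 x
    have h4 : ‖((x : ℂ) ^ 2 / 2)‖ = |x| ^ 2 / 2 := by
      rw [norm_div, norm_pow, Complex.norm_real, Real.norm_eq_abs]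
      norm_num
    rw [hn, h4] at h2
    have h5 : |x| ≤ |x| ^ 3 := by nlinarith [sq_nonneg |x|]
    have h6 : |x| ^ 2 ≤ |x| ^ 3 := by nlinarith [sq_nonneg |x|]
    nlinarith

/-- characteristic function of a small centred variable plus a smaller centred error -/
lemma cf_step {Ω : Type*} [MeasurableSpace Ω] (μ : Measure Ω) [IsProbabilityMeasure μ]
    (X D : Ω → ℝ) (hX : Integrable X μ) (hD : Integrable D μ)
    (hX2 : Integrable (fun ω => X ω ^ 2) μ) (hX4 : Integrable (fun ω => X ω ^ 4) μ)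
    (hD2 : Integrable (fun ω => D ω ^ 2) μ) (hX0 : ∫ ω, X ω ∂μ = 0) (hD0 : ∫ ω, D ω ∂μ = 0)
    {A2 A4 B2 lam : ℝ} (hl : 0 < lam) (h2 : ∫ ω, X ω ^ 2 ∂μ ≤ A2) (h4 : ∫ ω, X ω ^ 4 ∂μ ≤ A4)
    (hB : ∫ ω, D ω ^ 2 ∂μ ≤ B2) :
    ‖∫ ω, cexp (((X ω + D ω : ℝ) : ℂ) * I) ∂μ - (1 - ((∫ ω, X ω ^ 2 ∂μ : ℝ) : ℂ) / 2)‖ ≤
      4 * (lam * A2 + A4 / lam) + (lam * A2 + B2 / lam) + 3 * B2 := by
  set P : Ω → ℂ := fun ω => (1 + (X ω : ℂ) * I - (X ω : ℂ) ^ 2 / 2) + (D ω : ℂ) * I with hP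
  have hPi : Integrable P μ := by
    have e : P = fun ω => ((1 - X ω ^ 2 / 2 : ℝ) : ℂ) + ((X ω + D ω : ℝ) : ℂ) * I := by
      funext ω
      rw [hP]
      push_cast
      ring
    rw [e]
    exact (((integrable_const (1 : ℝ)).sub (hX2.div_const 2)).ofReal).add
      ((hX.add hD).ofReal.mul_const I)
  have hPv : ∫ ω, P ω ∂μ = 1 - ((∫ ω, X ω ^ 2 ∂μ : ℝ) : ℂ) / 2 := by
    have e : P = fun ω => ((1 - X ω ^ 2 / 2 : ℝ) : ℂ) + ((X ω + D ω : ℝ) : ℂ) * I := by
      funext ω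
      rw [hP]
      push_cast
      ring
    have g1 : Integrable (fun ω => 1 - X ω ^ 2 / 2) μ :=
      (integrable_const (1 : ℝ)).sub (hX2.div_const 2)
    have g2 : Integrable (fun ω => X ω + D ω) μ := hX.add hD
    have g3 : Integrable (fun ω => ((1 - X ω ^ 2 / 2 : ℝ) : ℂ)) μ := g1.ofReal
    have g4 : Integrable (fun ω => ((X ω + D ω : ℝ) : ℂ) * I) μ := g2.ofReal.mul_const I
    rw [e]
    simp only
    rw [integral_add g3 g4, integral_complex_ofReal, integral_mul_const,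
      integral_complex_ofReal, integral_sub (integrable_const _) (hX2.div_const 2),
      integral_add hX hD, hX0, hD0, integral_div]
    simp
  have hE : Integrable (fun ω => cexp (((X ω + D ω : ℝ) : ℂ) * I)) μ := by
    refine Integrable.of_bound (C := 1) ?_ (Eventually.of_forall fun ω => ?_)
    · have := (hX.add hD).aestronglyMeasurable
      have h5 : AEStronglyMeasurable (fun ω => ((X ω + D ω : ℝ) : ℂ) * I) μ :=
        (Complex.continuous_ofReal.comp_aestronglyMeasurable this).mul_const I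
      exact Complex.continuous_exp.comp_aestronglyMeasurable h5
    · rw [Complex.norm_exp_ofReal_mul_I]
  rw [← hPv, ← integral_sub hE hPi]
  have f1 : Integrable (fun ω => lam * X ω ^ 2) μ := hX2.const_mul lam
  have f2 : Integrable (fun ω => X ω ^ 4 / lam) μ := hX4.div_const lam
  have f3 : Integrable (fun ω => D ω ^ 2 / lam) μ := hD2.div_const lam
  have f4 : Integrable (fun ω => 3 * D ω ^ 2) μ := hD2.const_mul 3
  have f5 : Integrable (fun ω => lam * X ω ^ 2 + X ω ^ 4 / lam) μ := f1.add f2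
  have f6 : Integrable (fun ω => 4 * (lam * X ω ^ 2 + X ω ^ 4 / lam)) μ := f5.const_mul 4
  have f7 : Integrable (fun ω => lam * X ω ^ 2 + D ω ^ 2 / lam) μ := f1.add f3
  have f8 : Integrable (fun ω => 4 * (lam * X ω ^ 2 + X ω ^ 4 / lam) +
      (lam * X ω ^ 2 + D ω ^ 2 / lam)) μ := f6.add f7
  have hg : Integrable (fun ω => 4 * (lam * X ω ^ 2 + X ω ^ 4 / lam) +
      (lam * X ω ^ 2 + D ω ^ 2 / lam) + 3 * D ω ^ 2) μ := f8.add f4
  refine (norm_integral_le_of_norm_le hg (Eventually.of_forall fun ω => ?_)).trans ?_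
  · set x := X ω with hx
    set d := D ω with hd
    have e : cexp (((x + d : ℝ) : ℂ) * I) - ((1 + (x : ℂ) * I - (x : ℂ) ^ 2 / 2) + (d : ℂ) * I) =
        (cexp (x * I) - (1 + (x : ℂ) * I - (x : ℂ) ^ 2 / 2)) + (cexp (x * I) - 1) * (d * I) +
        cexp (x * I) * (cexp (d * I) - 1 - d * I) := by
      push_cast
      rw [add_mul, Complex.exp_add]
      ring
    show ‖cexp (((x + d : ℝ) : ℂ) * I) - ((1 + (x : ℂ) * I - (x : ℂ) ^ 2 / 2) + (d : ℂ) * I)‖ ≤ _
    rw [e]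
    have h5 : ‖(cexp (x * I) - 1) * (d * I)‖ ≤ |x| * |d| := by
      rw [norm_mul]
      have : ‖(d : ℂ) * I‖ = |d| := by simp
      rw [this]
      exact mul_le_mul_of_nonneg_right (exp1 x) (abs_nonneg d)
    have h6 : ‖cexp (x * I) * (cexp (d * I) - 1 - d * I)‖ ≤ 3 * d ^ 2 := by
      rw [norm_mul, Complex.norm_exp_ofReal_mul_I, one_mul]
      exact exp2 d
    have h7 := exp3 x
    have h8 : |x| ^ 3 ≤ lam * x ^ 2 + x ^ 4 / lam := by
      have h9 : 0 ≤ (lam * |x| - |x| ^ 2) ^ 2 := sq_nonneg _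
      have h10 : |x| ^ 4 = x ^ 4 := by
        rw [show (4 : ℕ) = 2 * 2 by norm_num, pow_mul, sq_abs, pow_mul]
      have h11 : |x| ^ 2 = x ^ 2 := sq_abs x
      have h12 : lam * (lam * x ^ 2 + x ^ 4 / lam) = lam ^ 2 * |x| ^ 2 + |x| ^ 4 := by
        rw [h10, h11]; field_simp
      have h13 : lam * |x| ^ 3 ≤ lam * (lam * x ^ 2 + x ^ 4 / lam) := by
        rw [h12]
        nlinarith [pow_nonneg (abs_nonneg x) 3, pow_nonneg (abs_nonneg x) 2,
          pow_nonneg (abs_nonneg x) 4, mul_nonneg hl.le (pow_nonneg (abs_nonneg x) 3)]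
      exact le_of_mul_le_mul_left h13 hl
    have h14 : |x| * |d| ≤ lam * x ^ 2 + d ^ 2 / lam := by
      have h9 : 0 ≤ (lam * |x| - |d|) ^ 2 := sq_nonneg _
      have h12 : lam * (lam * x ^ 2 + d ^ 2 / lam) = lam ^ 2 * |x| ^ 2 + |d| ^ 2 := by
        rw [sq_abs, sq_abs]; field_simp
      have h13 : lam * (|x| * |d|) ≤ lam * (lam * x ^ 2 + d ^ 2 / lam) := by
        rw [h12]
        nlinarith [mul_nonneg hl.le (mul_nonneg (abs_nonneg x) (abs_nonneg d))]
      exact le_of_mul_le_mul_left h13 hl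
    calc _ ≤ ‖(cexp (x * I) - (1 + (x : ℂ) * I - (x : ℂ) ^ 2 / 2)) + (cexp (x * I) - 1) * (d * I)‖ +
        ‖cexp (x * I) * (cexp (d * I) - 1 - d * I)‖ := norm_add_le _ _
      _ ≤ (‖cexp (x * I) - (1 + (x : ℂ) * I - (x : ℂ) ^ 2 / 2)‖ + ‖(cexp (x * I) - 1) * (d * I)‖) +
        ‖cexp (x * I) * (cexp (d * I) - 1 - d * I)‖ := by gcongr; exact norm_add_le _ _
      _ ≤ _ := by linarith
  · rw [integral_add f8 f4, integral_add f6 f7, integral_const_mul,
      integral_add f1 f2, integral_add f1 f3, integral_const_mul, integral_const_mul,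
      integral_div, integral_div]
    have q1 : lam * ∫ ω, X ω ^ 2 ∂μ ≤ lam * A2 := mul_le_mul_of_nonneg_left h2 hl.le
    have q2 : (∫ ω, X ω ^ 4 ∂μ) / lam ≤ A4 / lam := div_le_div_of_nonneg_right h4 hl.le
    have q3 : (∫ ω, D ω ^ 2 ∂μ) / lam ≤ B2 / lam := div_le_div_of_nonneg_right hB hl.le
    linarith

/-! ### the linearised and centred logarithm -/

/-- mean of the logarithm of a Gamma variable -/
def lm (r : ℕ) : ℝ := ∫ t, Real.log t ∂gam r

lemma ul_int {r : ℕ} (hr : 0 < r) : Integrable (fun t : ℝ => t / r - 1) (gam r) ∧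
    ∫ t, (t / r - 1) ∂gam r = 0 := by
  have hr' : (0 : ℝ) < r := by exact_mod_cast hr
  have i1 := (gam_pow hr 1).1
  simp only [pow_one] at i1
  refine ⟨(i1.div_const _).sub (integrable_const _), ?_⟩
  rw [integral_sub (i1.div_const _) (integrable_const _), integral_div, gam1 hr]
  simp
  field_simp
  ring

lemma int_of_sq {Ω : Type*} [MeasurableSpace Ω] {μ : Measure Ω} [IsProbabilityMeasure μ]
    {f : Ω → ℝ} (hf : AEStronglyMeasurable f μ) (h : Integrable (fun ω => f ω ^ 2) μ) :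
    Integrable f μ := by
  have h1 : Integrable (fun ω => f ω ^ 2 + 1) μ := h.add (integrable_const 1)
  refine h1.mono' hf (Eventually.of_forall fun ω => ?_)
  rw [Real.norm_eq_abs]
  have h2 : 0 ≤ (|f ω| - 1) ^ 2 := sq_nonneg _
  have h3 : |f ω| ^ 2 = f ω ^ 2 := sq_abs _
  have h4 : 0 ≤ |f ω| := abs_nonneg _
  nlinarith

lemma gap_int {r : ℕ} (hr : 3 ≤ r) :
    Integrable (fun t : ℝ => Real.log t - Real.log r - (t / r - 1)) (gam r) :=
  int_of_sq (by fun_prop) (gamul hr).1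

lemma log_int {r : ℕ} (hr : 3 ≤ r) : Integrable (fun t : ℝ => Real.log t) (gam r) := by
  have h := (gap_int hr).add ((integrable_const (Real.log r)).add (ul_int (by omega : 0 < r)).1)
  refine h.congr (Eventually.of_forall fun t => ?_)
  simp only [Pi.add_apply]
  ring

lemma gap_mean {r : ℕ} (hr : 3 ≤ r) :
    ∫ t, (Real.log t - Real.log r - (t / r - 1)) ∂gam r = lm r - Real.log r := by
  have h1 : Integrable (fun t : ℝ => Real.log t - Real.log r) (gam r) :=
    (log_int hr).sub (integrable_const _)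
  rw [integral_sub h1 (ul_int (by omega : 0 < r)).1, (ul_int (by omega : 0 < r)).2,
    integral_sub (log_int hr) (integrable_const _)]
  simp [lm]

/-- the error between the centred logarithm and its linearisation -/
def el (r : ℕ) (t : ℝ) : ℝ := (Real.log t - lm r) - (t / r - 1)

@[fun_prop]
lemma measurable_el (r : ℕ) : Measurable (el r) := by unfold el; fun_prop

lemma el_int {r : ℕ} (hr : 3 ≤ r) : Integrable (el r) (gam r) ∧ ∫ t, el r t ∂gam r = 0 := by
  have h1 : Integrable (fun t : ℝ => Real.log t - lm r) (gam r) :=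
    (log_int hr).sub (integrable_const _)
  refine ⟨h1.sub (ul_int (by omega : 0 < r)).1, ?_⟩
  unfold el
  rw [integral_sub h1 (ul_int (by omega : 0 < r)).1, (ul_int (by omega : 0 < r)).2,
    integral_sub (log_int hr) (integrable_const _)]
  simp [lm]

lemma el_sq {r : ℕ} (hr : 3 ≤ r) : Integrable (fun t => el r t ^ 2) (gam r) ∧
    ∫ t, el r t ^ 2 ∂gam r ≤ 17 / (r : ℝ) ^ 2 := by
  obtain ⟨h1, h2⟩ := gamul hr
  have h3 := gap_int hr
  set c : ℝ := lm r - Real.log r with hc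
  have e : (fun t => el r t ^ 2) = fun t => (Real.log t - Real.log r - (t / r - 1)) ^ 2 +
      ((-(2 * c)) * (Real.log t - Real.log r - (t / r - 1)) + c ^ 2) := by
    funext t
    unfold el
    rw [hc]
    ring
  have g1 : Integrable (fun t : ℝ => (-(2 * c)) * (Real.log t - Real.log r - (t / r - 1)))
    (gam r) := h3.const_mul _
  have g2 : Integrable (fun t : ℝ => (-(2 * c)) * (Real.log t - Real.log r - (t / r - 1)) + c ^ 2)
    (gam r) := g1.add (integrable_const _)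
  rw [e]
  refine ⟨h1.add g2, ?_⟩
  rw [integral_add h1 g2, integral_add g1 (integrable_const _), integral_const_mul, gap_mean hr,
    ← hc]
  simp
  nlinarith [sq_nonneg c]

lemma law_cx {n r : ℕ} {Q : Matrix (Fin n) (Fin n) ℂ} (hQ : PQ n r Q) {a b : ℂ}
    (hab : ‖a‖ ^ 2 + ‖b‖ ^ 2 = 1) :
    Measure.map (fun e : E n => RR Q (cx a b e)) (gE n) = gam r := by
  have hm : Measurable (RR Q) := by unfold RR Matrix.mulVec dotProduct; fun_prop
  have h := mp_cx (n := n) hab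
  have e : (fun e : E n => RR Q (cx a b e)) = RR Q ∘ cx a b := rfl
  rw [e, ← Measure.map_map hm h.measurable, h.map_eq, law_RR hQ]

lemma measurable_RRcx {n : ℕ} (Q : Matrix (Fin n) (Fin n) ℂ) (a b : ℂ) :
    Measurable (fun e : E n => RR Q (cx a b e)) := by
  unfold RR Matrix.mulVec dotProduct cx; fun_prop

lemma int_cx {n r : ℕ} {Q : Matrix (Fin n) (Fin n) ℂ} (hQ : PQ n r Q) {a b : ℂ}
    (hab : ‖a‖ ^ 2 + ‖b‖ ^ 2 = 1) {g : ℝ → ℝ} (hg : Measurable g) (hi : Integrable g (gam r)) :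
    Integrable (fun e : E n => g (RR Q (cx a b e))) (gE n) ∧
    ∫ e : E n, g (RR Q (cx a b e)) ∂gE n = ∫ t, g t ∂gam r := by
  constructor
  · rw [← law_cx hQ hab] at hi
    exact hi.comp_measurable (measurable_RRcx Q a b)
  · rw [← law_cx hQ hab, integral_map (measurable_RRcx Q a b).aemeasurable
      hg.aestronglyMeasurable]

lemma RRprod {n r : ℕ} {Q Q' : Matrix (Fin n) (Fin n) ℂ} (hQ : PQ n r Q) (hQ' : PQ n r Q')
    {a b a' b' : ℂ} (hab : ‖a‖ ^ 2 + ‖b‖ ^ 2 = 1) (hab' : ‖a'‖ ^ 2 + ‖b'‖ ^ 2 = 1) :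
    Integrable (fun e : E n => RR Q (cx a b e) * RR Q' (cx a' b' e)) (gE n) ∧
    ∫ e : E n, RR Q (cx a b e) * RR Q' (cx a' b' e) ∂gE n =
      (r : ℝ) ^ 2 + ‖sg a b a' b'‖ ^ 2 * (Q * Q').trace.re := by
  have h1 := cov_int (n := n) a b a' b' Q Q'
  have h2 := cov_val (n := n) hab hab' Q Q'
  have e : (fun e : E n => bf Q (cx a b e) (cx a b e) * bf Q' (cx a' b' e) (cx a' b' e)) =
      fun e : E n => ((RR Q (cx a b e) * RR Q' (cx a' b' e) : ℝ) : ℂ) := by
    funext e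
    rw [← RR_eq hQ, ← RR_eq hQ']
    push_cast
    rfl
  rw [e] at h1
  simp_rw [← RR_eq hQ, ← RR_eq hQ', hQ.tr, hQ'.tr, ← Complex.ofReal_mul] at h2
  rw [integral_complex_ofReal] at h2
  constructor
  · have := h1.re
    simpa using this
  · have h3 := congrArg Complex.re h2
    rw [Complex.ofReal_re] at h3
    rw [h3]
    simp only [Complex.add_re, Complex.mul_re, Complex.natCast_re, Complex.natCast_im,
      Complex.ofReal_re, Complex.ofReal_im]
    ring

lemma uu {n r : ℕ} (hr : 0 < r) {Q Q' : Matrix (Fin n) (Fin n) ℂ} (hQ : PQ n r Q)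
    (hQ' : PQ n r Q') {a b a' b' : ℂ} (hab : ‖a‖ ^ 2 + ‖b‖ ^ 2 = 1)
    (hab' : ‖a'‖ ^ 2 + ‖b'‖ ^ 2 = 1) :
    Integrable (fun e : E n => (RR Q (cx a b e) / r - 1) * (RR Q' (cx a' b' e) / r - 1)) (gE n) ∧
    ∫ e : E n, (RR Q (cx a b e) / r - 1) * (RR Q' (cx a' b' e) / r - 1) ∂gE n =
      ‖sg a b a' b'‖ ^ 2 * (Q * Q').trace.re / (r : ℝ) ^ 2 := by
  have hr' : (0 : ℝ) < r := by exact_mod_cast hr
  obtain ⟨h1, h2⟩ := RRprod hQ hQ' hab hab'
  have i1 := (gam_pow hr 1).1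
  simp only [pow_one] at i1
  obtain ⟨j1, v1⟩ := int_cx hQ hab measurable_id i1
  obtain ⟨j2, v2⟩ := int_cx hQ' hab' measurable_id i1
  simp only [id] at j1 j2 v1 v2
  rw [gam1 hr] at v1 v2
  have e : (fun e : E n => (RR Q (cx a b e) / r - 1) * (RR Q' (cx a' b' e) / r - 1)) =
      fun e : E n => (RR Q (cx a b e) * RR Q' (cx a' b' e)) / (r : ℝ) ^ 2 -
        (RR Q (cx a b e) / r + RR Q' (cx a' b' e) / r) + 1 := by
    funext e
    field_simp
    ring
  have g1 : Integrable (fun e : E n => RR Q (cx a b e) / r + RR Q' (cx a' b' e) / r) (gE n) :=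
    (j1.div_const _).add (j2.div_const _)
  have g2 : Integrable (fun e : E n => (RR Q (cx a b e) * RR Q' (cx a' b' e)) / (r : ℝ) ^ 2) (gE n) :=
    h1.div_const _
  have g3 : Integrable (fun e : E n => (RR Q (cx a b e) * RR Q' (cx a' b' e)) / (r : ℝ) ^ 2 -
        (RR Q (cx a b e) / r + RR Q' (cx a' b' e) / r)) (gE n) := g2.sub g1
  rw [e]
  refine ⟨g3.add (integrable_const _), ?_⟩
  rw [integral_add g3 (integrable_const _), integral_sub g2 g1,
    integral_add (j1.div_const _) (j2.div_const _), integral_div, integral_div, integral_div, h2,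
    v1, v2]
  simp
  field_simp
  ring

/-- conditional variance of one step -/
def Vq {n k : ℕ} (r : ℕ) (a b : Fin k → ℂ) (θ : Fin k → ℝ)
    (Q : Fin k → Matrix (Fin n) (Fin n) ℂ) : ℝ :=
  ∑ i, ∑ j, θ i * θ j * (‖sg (a i) (b i) (a j) (b j)‖ ^ 2 * (Q i * Q j).trace.re / (r : ℝ) ^ 2)

/-- the constant of one step -/
def Cθ {k : ℕ} (θ : Fin k → ℝ) : ℝ := 73 * (k * ∑ i, θ i ^ 2) + 36 * (k ^ 3 * ∑ i, θ i ^ 4)

lemma Cθ_nonneg {k : ℕ} (θ : Fin k → ℝ) : 0 ≤ Cθ θ := by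
  unfold Cθ
  have h1 : 0 ≤ ∑ i, θ i ^ 2 := Finset.sum_nonneg fun i _ => sq_nonneg _
  have h2 : 0 ≤ ∑ i, θ i ^ 4 := Finset.sum_nonneg fun i _ => by positivity
  positivity

lemma sum4 {k : ℕ} (x : Fin k → ℝ) : (∑ i, x i) ^ 4 ≤ (k : ℝ) ^ 3 * ∑ i, x i ^ 4 := by
  have h1 := sq_sum_le_card_mul_sum_sq (s := (Finset.univ : Finset (Fin k))) (f := x)
  have h2 := sq_sum_le_card_mul_sum_sq (s := (Finset.univ : Finset (Fin k))) (f := fun i => x i ^ 2)
  simp only [Finset.card_univ, Fintype.card_fin, ← pow_mul] at h1 h2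
  have h3 : (0 : ℝ) ≤ (∑ i, x i) ^ 2 := sq_nonneg _
  calc (∑ i, x i) ^ 4 = ((∑ i, x i) ^ 2) ^ 2 := by ring
    _ ≤ ((k : ℝ) * ∑ i, x i ^ 2) ^ 2 := pow_le_pow_left₀ h3 h1 2
    _ = (k : ℝ) ^ 2 * (∑ i, x i ^ 2) ^ 2 := by ring
    _ ≤ (k : ℝ) ^ 2 * ((k : ℝ) * ∑ i, x i ^ (2 * 2)) := by gcongr
    _ = _ := by ring

/-- **One step**: the characteristic function of the centred logarithms, given the projections. -/
theorem one_cf {n k r : ℕ} (hr : 3 ≤ r) {Q : Fin k → Matrix (Fin n) (Fin n) ℂ}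
    (hQ : ∀ i, PQ n r (Q i)) {a b : Fin k → ℂ} (hab : ∀ i, ‖a i‖ ^ 2 + ‖b i‖ ^ 2 = 1)
    (θ : Fin k → ℝ) :
    ‖∫ e : E n, cexp (((∑ i, θ i * (Real.log (RR (Q i) (cx (a i) (b i) e)) - lm r) : ℝ) : ℂ) * I)
      ∂gE n - (1 - ((Vq r a b θ Q : ℝ) : ℂ) / 2)‖ ≤ Cθ θ / (r * √r) := by
  have hr0 : 0 < r := by omega
  have hr' : (0 : ℝ) < r := by exact_mod_cast hr0
  have hr1 : (1 : ℝ) ≤ r := by exact_mod_cast (by omega : 1 ≤ r)
  set R : Fin k → E n → ℝ := fun i e => RR (Q i) (cx (a i) (b i) e) with hR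
  set X : E n → ℝ := fun e => ∑ i, θ i * (R i e / r - 1) with hX
  set D : E n → ℝ := fun e => ∑ i, θ i * el r (R i e) with hD
  have iu : ∀ i, Integrable (fun e => R i e / r - 1) (gE n) ∧ ∫ e, (R i e / r - 1) ∂gE n = 0 := by
    intro i
    have := int_cx (hQ i) (hab i) (g := fun t => t / r - 1) (by fun_prop) (ul_int hr0).1
    rw [(ul_int hr0).2] at this
    exact this
  have iu4 : ∀ i, Integrable (fun e => (R i e / r - 1) ^ 4) (gE n) ∧
      ∫ e, (R i e / r - 1) ^ 4 ∂gE n ≤ 9 / (r : ℝ) ^ 2 := by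
    intro i
    have := int_cx (hQ i) (hab i) (g := fun t => (t / r - 1) ^ 4) (by fun_prop) (gamu4 hr0).1
    exact ⟨this.1, this.2.trans_le (gamu4 hr0).2⟩
  have iu2 : ∀ i, Integrable (fun e => (R i e / r - 1) ^ 2) (gE n) ∧
      ∫ e, (R i e / r - 1) ^ 2 ∂gE n = 1 / (r : ℝ) := by
    intro i
    have := int_cx (hQ i) (hab i) (g := fun t => (t / r - 1) ^ 2) (by fun_prop) (gamu2 hr0).1
    rw [(gamu2 hr0).2] at this
    exact this
  have ie : ∀ i, Integrable (fun e => el r (R i e)) (gE n) ∧ ∫ e, el r (R i e) ∂gE n = 0 := by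
    intro i
    have := int_cx (hQ i) (hab i) (measurable_el r) (el_int hr).1
    rw [(el_int hr).2] at this
    exact this
  have ie2 : ∀ i, Integrable (fun e => el r (R i e) ^ 2) (gE n) ∧
      ∫ e, el r (R i e) ^ 2 ∂gE n ≤ 17 / (r : ℝ) ^ 2 := by
    intro i
    have := int_cx (hQ i) (hab i) (g := fun t => el r t ^ 2) (by fun_prop) (el_sq hr).1
    exact ⟨this.1, this.2.trans_le (el_sq hr).2⟩
  have hXi : Integrable X (gE n) := integrable_finsetSum _ fun i _ => (iu i).1.const_mul _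
  have hDi : Integrable D (gE n) := integrable_finsetSum _ fun i _ => (ie i).1.const_mul _
  have hX0 : ∫ e, X e ∂gE n = 0 := by
    rw [hX, integral_finsetSum _ fun i _ => (iu i).1.const_mul _]
    refine Finset.sum_eq_zero fun i _ => ?_
    rw [integral_const_mul, (iu i).2, mul_zero]
  have hD0 : ∫ e, D e ∂gE n = 0 := by
    rw [hD, integral_finsetSum _ fun i _ => (ie i).1.const_mul _]
    refine Finset.sum_eq_zero fun i _ => ?_
    rw [integral_const_mul, (ie i).2, mul_zero]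
  have hX2e : (fun e => X e ^ 2) = fun e => ∑ i, ∑ j, θ i * θ j *
      ((R i e / r - 1) * (R j e / r - 1)) := by
    funext e
    rw [hX, sq]
    simp only
    rw [Finset.sum_mul_sum]
    refine Finset.sum_congr rfl fun i _ => Finset.sum_congr rfl fun j _ => ?_
    ring
  have hX2i : Integrable (fun e => X e ^ 2) (gE n) := by
    rw [hX2e]
    exact integrable_finsetSum _ fun i _ => integrable_finsetSum _ fun j _ =>
      (uu hr0 (hQ i) (hQ j) (hab i) (hab j)).1.const_mul _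
  have hX2v : ∫ e, X e ^ 2 ∂gE n = Vq r a b θ Q := by
    rw [hX2e, integral_finsetSum _ fun i _ => integrable_finsetSum _ fun j _ =>
      (uu hr0 (hQ i) (hQ j) (hab i) (hab j)).1.const_mul _]
    unfold Vq
    refine Finset.sum_congr rfl fun i _ => ?_
    rw [integral_finsetSum _ fun j _ => (uu hr0 (hQ i) (hQ j) (hab i) (hab j)).1.const_mul _]
    refine Finset.sum_congr rfl fun j _ => ?_
    rw [integral_const_mul, (uu hr0 (hQ i) (hQ j) (hab i) (hab j)).2]
  have hX2b : ∫ e, X e ^ 2 ∂gE n ≤ (k * ∑ i, θ i ^ 2) / r := by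
    have h1 : ∀ e, X e ^ 2 ≤ k * ∑ i, θ i ^ 2 * (R i e / r - 1) ^ 2 := by
      intro e
      have := sq_sum_le_card_mul_sum_sq (s := (Finset.univ : Finset (Fin k)))
        (f := fun i => θ i * (R i e / r - 1))
      simpa [mul_pow] using this
    have h2 : Integrable (fun e => (k : ℝ) * ∑ i, θ i ^ 2 * (R i e / r - 1) ^ 2) (gE n) :=
      (integrable_finsetSum _ fun i _ => (iu2 i).1.const_mul _).const_mul _
    refine (integral_mono hX2i h2 h1).trans (le_of_eq ?_)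
    rw [integral_const_mul, integral_finsetSum _ fun i _ => (iu2 i).1.const_mul _]
    simp_rw [integral_const_mul, (iu2 _).2]
    rw [← Finset.sum_mul]
    ring
  have hX4b' : ∀ e, X e ^ 4 ≤ (k : ℝ) ^ 3 * ∑ i, θ i ^ 4 * (R i e / r - 1) ^ 4 := by
    intro e
    have := sum4 (fun i => θ i * (R i e / r - 1))
    simpa [mul_pow] using this
  have h4i : Integrable (fun e => (k : ℝ) ^ 3 * ∑ i, θ i ^ 4 * (R i e / r - 1) ^ 4) (gE n) :=
      (integrable_finsetSum _ fun i _ => (iu4 i).1.const_mul _).const_mul _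
  have hX4i : Integrable (fun e => X e ^ 4) (gE n) := by
    refine h4i.mono' (hXi.aestronglyMeasurable.pow 4) (Eventually.of_forall fun e => ?_)
    rw [Real.norm_of_nonneg (by positivity)]
    exact hX4b' e
  have hX4b : ∫ e, X e ^ 4 ∂gE n ≤ 9 * (k ^ 3 * ∑ i, θ i ^ 4) / (r : ℝ) ^ 2 := by
    refine (integral_mono hX4i h4i hX4b').trans ?_
    rw [integral_const_mul, integral_finsetSum _ fun i _ => (iu4 i).1.const_mul _]
    simp_rw [integral_const_mul]
    calc (k : ℝ) ^ 3 * ∑ i, θ i ^ 4 * ∫ e, (R i e / r - 1) ^ 4 ∂gE n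
        ≤ (k : ℝ) ^ 3 * ∑ i, θ i ^ 4 * (9 / (r : ℝ) ^ 2) := by
          gcongr with i _
          exact (iu4 i).2
      _ = _ := by rw [← Finset.sum_mul]; ring
  have hD2b' : ∀ e, D e ^ 2 ≤ k * ∑ i, θ i ^ 2 * el r (R i e) ^ 2 := by
    intro e
    have := sq_sum_le_card_mul_sum_sq (s := (Finset.univ : Finset (Fin k)))
      (f := fun i => θ i * el r (R i e))
    simpa [mul_pow] using this
  have hD2i' : Integrable (fun e => (k : ℝ) * ∑ i, θ i ^ 2 * el r (R i e) ^ 2) (gE n) :=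
      (integrable_finsetSum _ fun i _ => (ie2 i).1.const_mul _).const_mul _
  have hD2i : Integrable (fun e => D e ^ 2) (gE n) := by
    refine hD2i'.mono' (hDi.aestronglyMeasurable.pow 2) (Eventually.of_forall fun e => ?_)
    rw [Real.norm_of_nonneg (by positivity)]
    exact hD2b' e
  have hD2b : ∫ e, D e ^ 2 ∂gE n ≤ 17 * (k * ∑ i, θ i ^ 2) / (r : ℝ) ^ 2 := by
    refine (integral_mono hD2i hD2i' hD2b').trans ?_
    rw [integral_const_mul, integral_finsetSum _ fun i _ => (ie2 i).1.const_mul _]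
    simp_rw [integral_const_mul]
    calc (k : ℝ) * ∑ i, θ i ^ 2 * ∫ e, el r (R i e) ^ 2 ∂gE n
        ≤ (k : ℝ) * ∑ i, θ i ^ 2 * (17 / (r : ℝ) ^ 2) := by
          gcongr with i _
          exact (ie2 i).2
      _ = _ := by rw [← Finset.sum_mul]; ring
  have hs : (0 : ℝ) < √r := Real.sqrt_pos.mpr hr'
  have hss : √(r : ℝ) * √r = r := Real.mul_self_sqrt hr'.le
  have hkey := cf_step (gE n) X D hXi hDi hX2i hX4i hD2i hX0 hD0 (lam := 1 / √r)
    (by positivity) hX2b hX4b hD2b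
  rw [hX2v] at hkey
  have hsum : ∀ e, X e + D e = ∑ i, θ i * (Real.log (RR (Q i) (cx (a i) (b i) e)) - lm r) := by
    intro e
    rw [hX, hD]
    simp only
    rw [← Finset.sum_add_distrib]
    refine Finset.sum_congr rfl fun i _ => ?_
    unfold el
    rw [hR]
    ring
  simp_rw [hsum] at hkey
  refine hkey.trans ?_
  set T2 : ℝ := k * ∑ i, θ i ^ 2 with hT2
  set T4 : ℝ := k ^ 3 * ∑ i, θ i ^ 4 with hT4
  have hT2n : 0 ≤ T2 := by
    have h1 : 0 ≤ ∑ i, θ i ^ 2 := Finset.sum_nonneg fun i _ => sq_nonneg _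
    positivity
  have hT4n : 0 ≤ T4 := by
    have h1 : 0 ≤ ∑ i, θ i ^ 4 := Finset.sum_nonneg fun i _ => by positivity
    positivity
  have e1 : 1 / √r * (T2 / r) = T2 / (r * √r) := by field_simp
  have hs2 : √(r : ℝ) ^ 2 = r := Real.sq_sqrt hr'.le
  have e2 : 9 * T4 / (r : ℝ) ^ 2 / (1 / √r) = 9 * T4 / (r * √r) := by
    rw [div_div_eq_mul_div, div_one, div_mul_eq_mul_div, div_eq_div_iff (by positivity)
      (by positivity)]
    calc 9 * T4 * √r * (r * √r) = 9 * T4 * r * (√r * √r) := by ring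
      _ = 9 * T4 * (r : ℝ) ^ 2 := by rw [hss]; ring
  have e3 : 17 * T2 / (r : ℝ) ^ 2 / (1 / √r) = 17 * T2 / (r * √r) := by
    rw [div_div_eq_mul_div, div_one, div_mul_eq_mul_div, div_eq_div_iff (by positivity)
      (by positivity)]
    calc 17 * T2 * √r * (r * √r) = 17 * T2 * r * (√r * √r) := by ring
      _ = 17 * T2 * (r : ℝ) ^ 2 := by rw [hss]; ring
  have e4 : 17 * T2 / (r : ℝ) ^ 2 ≤ 17 * T2 / (r * √r) := by
    apply div_le_div_of_nonneg_left (by positivity) (by positivity)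
    have : √(r : ℝ) ≤ r := by
      rw [Real.sqrt_le_left hr'.le]
      nlinarith
    nlinarith
  rw [e1, e2, e3]
  have e5 : Cθ θ / (r * √r) = 4 * (T2 / (r * √r) + 9 * T4 / (r * √r)) +
      (T2 / (r * √r) + 17 * T2 / (r * √r)) + 3 * (17 * T2 / (r * √r)) := by
    unfold Cθ
    rw [← hT2, ← hT4]
    ring
  rw [e5]
  linarith

end

end Pool.Agent.K7.H95.GMC
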